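import Pool.Agent.H867.FT.Gen11

/-!
# Statements, part 13.
-/

namespace Pool.Agent.H867.FT

/-- **KFF.** If `S` is finite over `k[[X]]` and the residue field of `S` is F-finite, so is `k`.
Proof. `κ = S / 𝔪_S` is a finite field extension of `k` (`κ` is finite over `P`, and `𝔪_P κ = 0`: `P → κ` has
kernel a maximal ideal, as `κ` is a field integral over the image of `P`). `κ` is finite over `κ^p` and `κ^p`
is finite over `k^p`, so `κ` is finite over `k^p` (`κ` is Noetherian as a `k`-module through
`k → k → κ`, Frobenius followed by the inclusion), and so is its submodule `k`. -/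
def S_KFF : Prop :=
  ∀ (p : ℕ) [Fact p.Prime] (k : Type) [Field k] [CharP k p] (d : ℕ) (S : Type) [CommRing S]
    [IsLocalRing S] [Algebra (MvPowerSeries (Fin d) k) S]
    [Module.Finite (MvPowerSeries (Fin d) k) S] [CharP (IsLocalRing.ResidueField S) p],
    (frobenius (IsLocalRing.ResidueField S) p).Finite → (frobenius k p).Finite

end Pool.Agent.H867.FT
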