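import Pool.Agent.H867.FT.Stm

/-!
# Statements for the general (Cohen–Macaulay) upper bounds, MP_7dd379_ag

Setting.  `P` is a regular local ring of dimension `d` and characteristic `p` (structure `RegBase`;
the case of interest is `P = k[[x_1, ..., x_d]]`), `R ⊇ P` is a local domain which is a finite free
`P`-module of rank `n` (so `R` is Cohen–Macaulay), `L ⊆ K` are the fraction fields, `K / L`
separable. `𝔪_P R` is a reduction of `𝔪_R`, the residue fields agree (so `n` is the multiplicity).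
Let `φ : R → R` be `p^{-e}`-linear, `q = p^e`, with `φ f = 1`, `f ∈ 𝔪 ^ N`.

Theorem.  `n N ≤ (q-1) (n d - 2 (n-1))`, hence `fpt(𝔪) ≤ d - 2 + 2/n`.
If `n = 3` and the non-Gorenstein locus has codimension `≥ 3` then `N ≤ (q-1) (d - 3/2)`.

Notation: `V` the discrete valuation ring of the order valuation of `P`, `π` an element of order
one of `P`, `W` the integral closure of `V` in `K`, `δ` a generator of the different of `W/V`,
`C = {y ∈ K : Tr(y R) ⊆ P}` the codifferent (canonical module) of `R`.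
-/

namespace Pool.Agent.H867.FT

/-- `φ` is `q^{-1}`-linear. -/
def IsCartier {A : Type} [CommRing A] (q : ℕ) (φ : A →+ A) : Prop :=
  ∀ r s : A, φ (r ^ q * s) = r * φ s

/-- The properties of a regular local ring `P` of dimension `d ≥ 1` and characteristic `p`
(F-finite) that are used. -/
structure RegBase (p d : ℕ) (P : Type) [CommRing P] [IsDomain P] [IsLocalRing P] : Prop where
  noeth : IsNoetherianRing P
  normal : IsIntegrallyClosed P
  /-- the maximal ideal is generated by `d` elements -/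
  gens : ∃ x : Fin d → P, IsLocalRing.maximalIdeal P = Ideal.span (Set.range x)
  ne_bot : IsLocalRing.maximalIdeal P ≠ ⊥
  /-- the associated graded ring is a domain -/
  gr : ∀ (a b : P) (k l : ℕ), a ∉ IsLocalRing.maximalIdeal P ^ (k + 1) →
    b ∉ IsLocalRing.maximalIdeal P ^ (l + 1) → a * b ∉ IsLocalRing.maximalIdeal P ^ (k + l + 1)
  /-- the module of `p^{-e}`-linear maps is free of rank one -/
  cart : ∀ e : ℕ, ∃ T : P →+ P, IsCartier (p ^ e) T ∧
    (∀ ψ : P →+ P, IsCartier (p ^ e) ψ → ∃ u : P, ∀ g, ψ g = T (u * g)) ∧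
    ∀ u : P, (∀ g, T (u * g) = 0) → u = 0

/-- **PSG.** The power series ring: generators of the maximal ideal and `gr`.
(`maximalIdeal ^ k` = power series of order `≥ k`, `order (a b) = order a + order b` over a domain,
see `Mathlib/RingTheory/MvPowerSeries/Order.lean` and `NoZeroDivisors.lean`.) -/
def S_PSG : Prop :=
  ∀ (k : Type) [Field k] (d : ℕ),
    (IsLocalRing.maximalIdeal (MvPowerSeries (Fin d) k) =
      Ideal.span (Set.range fun i : Fin d => (MvPowerSeries.X i : MvPowerSeries (Fin d) k))) ∧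
    (∀ (a b : MvPowerSeries (Fin d) k) (m l : ℕ),
      a ∉ IsLocalRing.maximalIdeal (MvPowerSeries (Fin d) k) ^ (m + 1) →
      b ∉ IsLocalRing.maximalIdeal (MvPowerSeries (Fin d) k) ^ (l + 1) →
      a * b ∉ IsLocalRing.maximalIdeal (MvPowerSeries (Fin d) k) ^ (m + l + 1))

/-- **PSN.** `k[[x_1..x_d]]` is integrally closed.
Proof (Krull). Let `y / x` be integral over `A = k[[x_1..x_d]]`; there is `c ≠ 0` with
`c y^n ∈ x^n A` for all `n`. Show `y ∈ x A + 𝔪^j` for all `j` by induction; then `y ∈ x A` as `x A`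
is closed (Krull intersection theorem in `A / x A`, or completeness). Let `y = x a + y'`,
`ord y' ≥ j` (also `c' y'^n ∈ x^n A`, with the same kind of `c'`, as `y'/x = y/x - a` is integral).
If `in(·)` is the lowest degree form (a polynomial; `in (a b) = in a · in b`), then
`in(x)^n ∣ in(c) in(y')^n` for all `n`, so `in(x) ∣ in(y')` in the polynomial ring (a UFD),
`in(y') = in(x) b`, and `y' - x b` has larger order. -/
def S_PSN : Prop :=
  ∀ (k : Type) [Field k] (d : ℕ), IsIntegrallyClosed (MvPowerSeries (Fin d) k)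

/-- **PSC.** Cartier maps on `k[[x_1..x_d]]`, `k` perfect.
Proof. `q = p^e`. Every `g` is uniquely `∑_{a ∈ [0,q)^d} g_a^q x^a` (`k` perfect; `g_a` has
coefficients the `q`-th roots of those of `g` at `a + q b`). Put `T g = g_{(q-1,...,q-1)}`, i.e.
`coeff b (T g) = (coeff (q b + (q-1,...,q-1)) g)^{1/q}`. For a Cartier map `ψ` put
`u = ∑_a ψ(x^a)^q x^{(q-1) - a}`; then `T(u g) = ∑_a g_a ψ(x^a) = ψ g` as
`T(x^{(q-1)-a+a'}) = δ_{a a'}` for `a, a' ∈ [0,q)^d`. If `T(u g) = 0` for all `g` then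
`T (u x^{(q-1) - a}) = u_a = 0` for all `a`. -/
def S_PSC : Prop :=
  ∀ (p : ℕ) [Fact p.Prime] (k : Type) [Field k] [CharP k p] [PerfectRing k p] (d e : ℕ),
    ∃ T : MvPowerSeries (Fin d) k →+ MvPowerSeries (Fin d) k, IsCartier (p ^ e) T ∧
    (∀ ψ : MvPowerSeries (Fin d) k →+ MvPowerSeries (Fin d) k, IsCartier (p ^ e) ψ →
      ∃ u, ∀ g, ψ g = T (u * g)) ∧
    ∀ u, (∀ g, T (u * g) = 0) → u = 0

/-- **VAL.** The order valuation ring.
Proof. `ord g = max {k : g ∈ 𝔪^k}` (Krull intersection) is a valuation on `P` by `gr`; extend to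
`L`; its valuation ring is discrete; `π ∈ 𝔪 \ 𝔪²` (exists by Nakayama as `𝔪 ≠ 0`). -/
def S_VAL : Prop :=
  ∀ (p d : ℕ) (P L : Type) [CommRing P] [IsDomain P] [IsLocalRing P] [Field L] [Algebra P L]
    [IsFractionRing P L], RegBase p d P →
    ∃ (V : Type) (_ : CommRing V) (_ : IsDomain V) (_ : IsDiscreteValuationRing V)
      (_ : Algebra V L) (_ : IsFractionRing V L) (_ : Algebra P V) (_ : IsScalarTower P V L)
      (π : P), Irreducible (algebraMap P V π) ∧
      (∀ (g : P) (k : ℕ), g ∈ IsLocalRing.maximalIdeal P ^ k ↔ algebraMap P V π ^ k ∣ algebraMap P V g) ∧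
      π ∈ IsLocalRing.maximalIdeal P

/-- **EXT.** Cartier maps extend to localizations (same proof as `S_LOC`). -/
def S_EXT : Prop :=
  ∀ (A B : Type) [CommRing A] [CommRing B] [Algebra A B] (M : Submonoid A) [IsLocalization M B]
    (q : ℕ) (φ : A →+ A), 1 ≤ q → IsCartier q φ →
    ∃ φ' : B →+ B, IsCartier q φ' ∧ ∀ a, φ' (algebraMap A B a) = algebraMap A B (φ a)

/-- **TV.** `T (π^{(d-1)(q-1)} V) ⊆ V` for every Cartier map `T` of `P` (extended to `L`).
Proof. Claim: `T (𝔪^{(d-1)(q-1) + q j}) ⊆ 𝔪^j`. A product of `(d-1)(q-1) + q j` of the `d` generators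
is `x^a` with `∑ ⌊a_i / q⌋ ≥ (∑ a_i - d (q-1)) / q ≥ j - (q-1)/q`, so it is `(x^b)^q x^c` with
`|b| ≥ j`, and `T((x^b)^q x^c r) = x^b T(x^c r) ∈ 𝔪^j`. Now let `v ∈ V`, `v = a / s` with `a, s ∈ P`,
`l = ord s`, `ord a ≥ l`. `T_L(π^{(d-1)(q-1)} a / s) = T(π^{(d-1)(q-1)} a s^{q-1}) / s`, the argument
is in `𝔪^{(d-1)(q-1) + q l}`, so the value of `T` is in `𝔪^l`, and dividing by `s` we stay in `V`
(`π^l / s ∈ V`: `V` is a valuation ring and `π^{l+1} ∤ s`). -/
def S_TV : Prop :=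
  ∀ (p d q : ℕ) (P L V : Type) [CommRing P] [IsDomain P] [IsLocalRing P] [Field L] [Algebra P L]
    [IsFractionRing P L] [CommRing V] [IsDomain V] [IsDiscreteValuationRing V] [Algebra V L]
    [IsFractionRing V L] [Algebra P V] [IsScalarTower P V L] (π : P), RegBase p d P → 1 ≤ q →
    1 ≤ d →
    Irreducible (algebraMap P V π) →
    (∀ (g : P) (k : ℕ), g ∈ IsLocalRing.maximalIdeal P ^ k ↔
      algebraMap P V π ^ k ∣ algebraMap P V g) →
    ∀ (T : P →+ P) (TL : L →+ L), IsCartier q T → IsCartier q TL →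
      (∀ g, TL (algebraMap P L g) = algebraMap P L (T g)) →
      ∀ v : V, ∃ v' : V,
        TL (algebraMap V L (algebraMap P V π ^ ((d - 1) * (q - 1)) * v)) = algebraMap V L v'

/-- **DIF.** The different of a finite separable extension of a discrete valuation ring is
principal and its generator has norm the discriminant.
Proof. `W` is Dedekind with finitely many primes, a PID, free over `V`. The trace dual of `W` is a
fractional ideal `δ⁻¹ W` (`W ⊆` it, so `δ ∈ W`). If `b` is a `V`-basis of `W`, `b*` the trace dual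
basis (a basis of `δ⁻¹ W`), then `δ⁻¹ b` is also a basis of `δ⁻¹ W`, the matrix from `b*` to `b` is
`(Tr(b_i b_j))`, the one from `δ⁻¹ b` to `b` is multiplication by `δ`, of determinant `N(δ)`. -/
def S_DIF : Prop :=
  ∀ (V L W K : Type) [CommRing V] [IsDomain V] [IsDiscreteValuationRing V] [Field L]
    [Algebra V L] [IsFractionRing V L] [CommRing W] [IsDomain W] [Algebra V W] [Field K]
    [Algebra W K] [IsFractionRing W K] [Algebra L K] [Algebra V K] [IsScalarTower V L K]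
    [IsScalarTower V W K] [IsIntegralClosure W V K] [FiniteDimensional L K]
    [Algebra.IsSeparable L K] (ι : Type) [Fintype ι] [DecidableEq ι] (b : Module.Basis ι V W),
    ∃ δ : W, δ ≠ 0 ∧
      (∀ y : K, (∀ w : W, ∃ v : V, algebraMap V L v = Algebra.trace L K (y * algebraMap W K w)) ↔
        ∃ w : W, y * algebraMap W K δ = algebraMap W K w) ∧
      ∃ ε : V, IsUnit ε ∧ Algebra.norm V δ = ε * Algebra.discr V b

/-- **KEY.** Let `T : L → L` be `q^{-1}`-linear with `T (π^M V) ⊆ V`, and `γ ∈ K` with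
`Tr y = T (Tr (γ y^q))` for all `y ∈ K`. Then `(δ π)^{q-1} π^M / γ ∈ W`.

Proof. `W` is a PID with finitely many primes, each dividing `π`. If the quotient is not in `W`
there is a prime `ϖ` of `W` with `v(γ) > (q-1)(v(δ) + v(π)) + M v(π)`, `v = v_ϖ`, so
`v(γ) ≥ (q-1) v(δ) + M v(π) + q`. `ϖ⁻¹ δ⁻¹` is not in the trace dual `δ⁻¹ W`, so there is `w₀ ∈ W`
with `Tr (ϖ⁻¹ δ⁻¹ w₀) ∉ V`. Write `γ = ϖ^m g / h` with `g, h ∈ W` prime to `ϖ` (`g ≠ 0`; `γ ≠ 0`
since otherwise all traces vanish), `δ = ϖ^{v(δ)} δ'`, `π^M = ϖ^{M v(π)} ρ'`. Choose `a ∈ W`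
divisible by `h δ' ρ'` with `a ≡ 1 mod ϖ`, `a = 1 - ϖ c`, and `y = ϖ⁻¹ δ⁻¹ w₀ a`. Then
`Tr y = Tr(ϖ⁻¹ δ⁻¹ w₀) - Tr(δ⁻¹ w₀ c) ∉ V`. But
`γ y^q = δ⁻¹ π^M w''` with `w'' = ϖ^{m - q - (q-1) v(δ) - M v(π)} g w₀^q a^q / (h δ'^{q-1} ρ') ∈ W`,
so `Tr(γ y^q) = π^M Tr(δ⁻¹ w'') ∈ π^M V` and `T` of it is in `V`. Contradiction. -/
def S_KEY : Prop :=
  ∀ (V L W K : Type) [CommRing V] [IsDomain V] [IsDiscreteValuationRing V] [Field L]
    [Algebra V L] [IsFractionRing V L] [CommRing W] [IsDomain W] [Algebra V W] [Field K]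
    [Algebra W K] [IsFractionRing W K] [Algebra L K] [Algebra V K] [IsScalarTower V L K]
    [IsScalarTower V W K] [IsIntegralClosure W V K] [FiniteDimensional L K]
    [Algebra.IsSeparable L K] (q M : ℕ) (π : V) (δ : W) (T : L →+ L) (γ : K),
    1 ≤ q → Irreducible π → δ ≠ 0 →
    (∀ y : K, (∀ w : W, ∃ v : V, algebraMap V L v = Algebra.trace L K (y * algebraMap W K w)) ↔
        ∃ w : W, y * algebraMap W K δ = algebraMap W K w) →
    IsCartier q T → (∀ v : V, ∃ v' : V, T (algebraMap V L (π ^ M * v)) = algebraMap V L v') →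
    (∀ y : K, Algebra.trace L K y = T (Algebra.trace L K (γ * y ^ q))) →
    ∃ w : W, algebraMap W K w * γ =
      algebraMap W K ((δ * algebraMap V W π) ^ (q - 1) * algebraMap V W π ^ M)

/-- **LAT.** Comparison of the lattices `R V` and `W`. Here `z : Fin m → R` are such that
`1, z_0, …, z_{m-1}` is a `P`-basis `b` of `R` and all `z_j ∈ 𝔪_R`, which is integral over `𝔪_P R`.
(1) elements of `𝔪_R ^ N` are divisible by `π^N` in `W`;
(2),(3) there is `μ ∈ V` with `disc(R/P) = (π^m μ)^2 disc(W/V)` and `π μ δ C ⊆ W`.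

Proof. (1): if `𝔪^{r+1} = 𝔪_P 𝔪^r` then the finitely generated `V`-submodule `𝔪^r V` of `K` (nonzero)
is mapped into `π` times itself by `z ∈ 𝔪`, so `z / π` is integral over `V` (determinant trick),
`z/π ∈ W`; then products. (2) `z_j = π w_j`, let `A` be the matrix of `1, w_0, …, w_{m-1}` in the
basis of `W/V`, `μ = det A`: `disc(1, w_j) = μ² disc(W/V)`, `disc(1, z_j) = π^{2m} disc(1, w_j)`.
(3) by the adjugate `μ W ⊆ V + ∑ V w_j`, so `π μ W ⊆ V + ∑ V z_j` (using `π V ⊆ V`), and for `y ∈ C`,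
`Tr(y π μ w) ∈ Tr(y (V + ∑ V z_j)) ⊆ V`. By the characterization of `δ`, `y π μ δ ∈ W`. -/
def S_LAT : Prop :=
  ∀ (P R V L W K : Type) [CommRing P] [IsDomain P] [IsLocalRing P] [IsNoetherianRing P]
    [CommRing R] [IsDomain R]
    [IsLocalRing R] [Algebra P R] [Module.Finite P R]
    [CommRing V] [IsDomain V] [IsDiscreteValuationRing V] [Algebra P V] [Field L]
    [Algebra P L] [IsFractionRing P L] [Algebra V L] [IsFractionRing V L] [IsScalarTower P V L]
    [Field K] [Algebra R K] [IsFractionRing R K] [Algebra P K] [IsScalarTower P R K]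
    [CommRing W] [IsDomain W] [Algebra V W]
    [Algebra W K] [IsFractionRing W K] [Algebra L K] [Algebra V K] [IsScalarTower V L K]
    [IsScalarTower P L K] [IsScalarTower P V K]
    [IsScalarTower V W K] [IsIntegralClosure W V K] [FiniteDimensional L K]
    [Algebra.IsSeparable L K] (m : ℕ) (b : Module.Basis (Fin (m + 1)) P R)
    (bW : Module.Basis (Fin (m + 1)) V W) (π : P) (δ : W),
    b 0 = 1 → (∀ j : Fin m, b j.succ ∈ IsLocalRing.maximalIdeal R) →
    Irreducible (algebraMap P V π) → π ∈ IsLocalRing.maximalIdeal P →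
    (∀ g ∈ IsLocalRing.maximalIdeal P, algebraMap P V π ∣ algebraMap P V g) →
    (∃ r : ℕ, IsLocalRing.maximalIdeal R ^ (r + 1) =
      (IsLocalRing.maximalIdeal P).map (algebraMap P R) * IsLocalRing.maximalIdeal R ^ r) →
    (∀ y : K, (∀ w : W, ∃ v : V, algebraMap V L v = Algebra.trace L K (y * algebraMap W K w)) ↔
        ∃ w : W, y * algebraMap W K δ = algebraMap W K w) →
    (∀ (N : ℕ) (f : R), f ∈ IsLocalRing.maximalIdeal R ^ N →
      ∃ w : W, algebraMap R K f = algebraMap P K π ^ N * algebraMap W K w) ∧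
    ∃ μ : V, algebraMap P V (Algebra.discr P b) =
        (algebraMap P V π ^ m * μ) ^ 2 * Algebra.discr V bW ∧
      ∀ y : K, (∀ r : R, ∃ g : P, algebraMap P L g = Algebra.trace L K (y * algebraMap R K r)) →
        ∃ w : W, y * algebraMap P K π * algebraMap V K μ * algebraMap W K δ = algebraMap W K w

/-- **BET.** A Cartier map `φ` of `R` is represented by `β ∈ K`:
`Tr (φ r) = T (Tr (β r))` on `K`, and `β C^{[q]} ⊆ C`.

Proof. Extend `T`, `φ` to `L`, `K` (`S_EXT`). For a `P`-basis `b_j` of `R` the map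
`g ↦ Tr (φ (g b_j))` is a Cartier map of `P` (the trace of an element of `R` is in `P`), hence
`T (u_j g)`; let `β = ∑ u_j b_j^*` (trace dual basis of `K/L`), so `Tr (β b_j) = u_j`; this gives
the formula on `R`, and on `K` as every element of `K` is `r / s`, `0 ≠ s ∈ P`
(`φ_K (r/s) = φ (r s^{q-1}) / s`).
Second part: let `Tr (y R) ⊆ P`, `r ∈ R`, `z = Tr (β y^q r) ∈ L`. For `g ∈ P`,
`T_L (z g) = T_L(Tr (β y^q r g)) = Tr (φ_K (y^q r g)) = Tr (y φ (r g)) ∈ P`, so `g ↦ T_L (z g)` is a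
Cartier map of `P`, equal to `T (u g)`; `T_L ((z - u) g) = 0` for all `g ∈ P` gives `z = u ∈ P`
(clear the denominator `s` of `z - u`: multiply by `s^q`). -/
def S_BET : Prop :=
  ∀ (q : ℕ) (P R L K : Type) [CommRing P] [IsDomain P] [CommRing R] [IsDomain R]
    [Algebra P R] [Module.Finite P R] [Module.Free P R] [Field L]
    [Algebra P L] [IsFractionRing P L]
    [Field K] [Algebra R K] [IsFractionRing R K] [Algebra P K] [IsScalarTower P R K]
    [Algebra L K] [IsScalarTower P L K] [FiniteDimensional L K]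
    [Algebra.IsSeparable L K] (T : P →+ P) (φ : R →+ R), 1 ≤ q →
    IsCartier q T → (∀ ψ : P →+ P, IsCartier q ψ → ∃ u : P, ∀ g, ψ g = T (u * g)) →
    (∀ u : P, (∀ g, T (u * g) = 0) → u = 0) → IsCartier q φ →
    ∃ (TL : L →+ L) (φK : K →+ K) (β : K), IsCartier q TL ∧ IsCartier q φK ∧
      (∀ g, TL (algebraMap P L g) = algebraMap P L (T g)) ∧
      (∀ r, φK (algebraMap R K r) = algebraMap R K (φ r)) ∧
      (∀ y : K, Algebra.trace L K (φK y) = TL (Algebra.trace L K (β * y))) ∧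
      ∀ y : K, (∀ r : R, ∃ g : P, algebraMap P L g = Algebra.trace L K (y * algebraMap R K r)) →
        ∀ r : R, ∃ g : P, algebraMap P L g = Algebra.trace L K (β * y ^ q * algebraMap R K r)

/-- **KRU.** A Noetherian normal domain is the intersection of its localizations at height one
primes.
Proof. Let `z = a / s ∉ P`, `I = (s : a) = {r : r z ∈ P} ≠ P`. Choose `a'` a multiple of `a` with
`𝔭 = (s : a')` maximal among the proper ideals of this form (Noetherian); `𝔭` is prime and contains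
`I`. In `A = P_𝔭` (Noetherian, normal, local) `𝔭A · (a'/s) ⊆ A`. If `𝔭A (a'/s) ⊆ 𝔭A` then `a'/s` is
integral over `A`, so in `A`, a contradiction with `(s : a') = 𝔭`. So `𝔭A (a'/s) = A` and `𝔭A` is
principal, generated by `s/a'`, so `𝔭` has height one (Krull; it is not zero as `s ∈ 𝔭`). By
hypothesis some `r ∉ 𝔭` has `r z ∈ P`, i.e. `r ∈ I ⊆ 𝔭`. Contradiction. -/
def S_KRU : Prop :=
  ∀ (P L : Type) [CommRing P] [IsDomain P] [IsNoetherianRing P] [IsIntegrallyClosed P]
    [Field L] [Algebra P L] [IsFractionRing P L] (z : L),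
    (∀ 𝔭 : Ideal P, 𝔭.IsPrime → 𝔭.height = 1 →
      ∃ s : P, s ∉ 𝔭 ∧ ∃ g : P, algebraMap P L s * z = algebraMap P L g) →
    ∃ g : P, z = algebraMap P L g

/-- **LOB.** (codimension one)  Let `R` be normal, `C` the codifferent, `β ∈ K` with
`β y^q ∈ C` for `y ∈ C`. Then `N(β) = g disc(R/P)^{q-1}` with `g ∈ P`, and if `β ≠ 0` then
`t = g / β` lies in `C^{q-1}` at every height one prime of `P`.

Proof. Let `𝔭` be a prime of height one of the Noetherian normal domain `P`, `V = P_𝔭` (a DVR),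
`W = R_𝔭` = integral closure of `V` in `K` (`R` is normal). By `S_DIF`, `C_𝔭 = δ⁻¹ W`,
`N(δ) = ε disc(W/V) = ε disc(R/P)` (a basis of `R/P` is one of `W/V`), so `β δ^{-q} ∈ δ⁻¹ W`,
`β = δ^{q-1} s`, `s ∈ W`, and `N(β) ∈ disc^{q-1} P_𝔭`. This holds for all `𝔭` of height one, so
`N(β) / disc^{q-1} ∈ ⋂ P_𝔭 = P` (for a Noetherian normal domain). Moreover
`t = g/β = (unit) N(s) / (s δ^{q-1})` and `N(s)/s ∈ W` (norm is divisible by the element), so
`t ∈ δ^{-(q-1)} W = (C^{q-1})_𝔭`. -/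
def S_LOB : Prop :=
  ∀ (q : ℕ) (P R L K : Type) [CommRing P] [IsDomain P] [IsNoetherianRing P]
    [IsIntegrallyClosed P] [CommRing R] [IsDomain R] [IsIntegrallyClosed R]
    [Algebra P R] [Module.Finite P R] [Field L]
    [Algebra P L] [IsFractionRing P L]
    [Field K] [Algebra R K] [IsFractionRing R K] [Algebra P K] [IsScalarTower P R K]
    [Algebra L K] [IsScalarTower P L K] [FiniteDimensional L K]
    [Algebra.IsSeparable L K] (ι : Type) [Fintype ι] [DecidableEq ι] (b : Module.Basis ι P R)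
    (C : Submodule R K) (β : K), 1 ≤ q →
    (∀ y : K, y ∈ C ↔
      ∀ r : R, ∃ g : P, algebraMap P L g = Algebra.trace L K (y * algebraMap R K r)) →
    (∀ y ∈ C, β * y ^ q ∈ C) → β ≠ 0 →
    ∃ g : P, Algebra.norm L β = algebraMap P L (g * Algebra.discr P b ^ (q - 1)) ∧
      ∀ 𝔭 : Ideal P, 𝔭.IsPrime → 𝔭.height = 1 →
        ∃ c : P, c ∉ 𝔭 ∧ algebraMap P K c * (algebraMap P K g / β) ∈ C ^ (q - 1)

/-- **CUB.** (cubic structure) `R` free of rank 3 over `P` with basis `1, z₁, z₂`, `R` a domain: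
there are `a, b, c, d ∈ P`, `a ≠ 0`, and `x ∈ K` with `a x³ + b x² + c x + d = 0`,
`R = P + P ω + P θ`, `ω = a x`, `θ = a x² + b x + c`, and for the codifferent
`C = y₀ (P + P x + P θ)`, some `y₀ ≠ 0` (`y₀ = 1 / (3 a x² + 2 b x + c)`).
Proof. Delone–Faddeev: `z₁ z₂ = u + v z₁ + w z₂`, replace `z₁, z₂` by `ω = z₁ - w`, `θ = z₂ - v`, so
`ω θ ∈ P`; write `ω² = α + β ω + γ θ`, `θ² = α' + β' ω + γ' θ`, and associativity of `ω² θ`, `ω θ²`
gives the relations; put `a = γ`, `b = -β`, `c = γ'`, `d = - β'` (check signs: `ω θ = - a d`,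
`ω² = -a c - b ω + a θ`, `θ² = -b d - d ω + c θ`); `a ≠ 0` (else `ω (ω + b) = 0`), `x = ω / a`.
`x ∉ L` has degree 3 (`1, x, x²` are independent over `L`). Codifferent: by Euler's formula
`Tr (x^i / f'(x)) = 0, 0, 1/a` for `i = 0, 1, 2`, with `f' = 3 a x² + 2 b x + c`, so the
dual basis of `1, ω, θ` is `y₀ θ'`, ... : `1·y₀, x y₀, θ y₀` pair with `1, ω, θ` by a unimodular
matrix. -/
def S_CUB : Prop :=
  ∀ (P R L K : Type) [CommRing P] [IsDomain P] [CommRing R] [IsDomain R]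
    [Algebra P R] [Field L] [Algebra P L] [IsFractionRing P L]
    [Field K] [Algebra R K] [IsFractionRing R K] [Algebra P K] [IsScalarTower P R K]
    [Algebra L K] [IsScalarTower P L K] [FiniteDimensional L K]
    [Algebra.IsSeparable L K] (bs : Module.Basis (Fin 3) P R) (C : Submodule R K), bs 0 = 1 →
    (∀ y : K, y ∈ C ↔
      ∀ r : R, ∃ g : P, algebraMap P L g = Algebra.trace L K (y * algebraMap R K r)) →
    ∃ (a b c d : P) (x y₀ : K) (ω θ : R), a ≠ 0 ∧ y₀ ≠ 0 ∧
      algebraMap P K a * x ^ 3 + algebraMap P K b * x ^ 2 + algebraMap P K c * x +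
        algebraMap P K d = 0 ∧
      algebraMap R K ω = algebraMap P K a * x ∧
      algebraMap R K θ = algebraMap P K a * x ^ 2 + algebraMap P K b * x + algebraMap P K c ∧
      (∀ r : R, ∃ r₀ r₁ r₂ : P, r = algebraMap P R r₀ + r₁ • ω + r₂ • θ) ∧
      (∀ l₀ l₁ l₂ : L, algebraMap L K l₀ + algebraMap L K l₁ * x + algebraMap L K l₂ * x ^ 2 = 0 →
        l₀ = 0 ∧ l₁ = 0 ∧ l₂ = 0) ∧
      ∀ y : K, y ∈ C ↔ ∃ g₀ g₁ g₂ : P, y = y₀ * (algebraMap P K g₀ + algebraMap P K g₁ * x +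
        algebraMap P K g₂ * algebraMap R K θ)

/-- **REF.** (reflexivity of `Sym^n`)  `P` Noetherian normal domain, `F = a X³ + b X²Y + c XY² + d Y³`
irreducible with root `x`, `M_n = P + P x + ... + P x^n`, `n ≥ 2`. Assume `c₀, c₁, c₂ ∈ P` is a
regular sequence with all `c_i ∈ (a, b, c, d)`, and `P` contains three elements with unit
differences. If `t ∈ K` lies in `M_n` at every height one prime of `P` then `t ∈ M_n`.

Proof. (1) There is `j` with `a^j t ∈ M_n`: over `P[1/a]`, `x` is integral and `M_n[1/a]` is free on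
`1, x, x²`; the coordinates `t_i ∈ L` of `t` are in `P_𝔭` for all height one `𝔭 ∌ a`, hence in
`P[1/a]` (`a^j t_i ∈ ⋂_𝔭 P_𝔭 = P` for `j` large: only finitely many height one primes contain a
denominator of `t_i` ... or: the ideal `{r : r t_i ∈ P}` has all its minimal primes containing... of
height one). (2) Same for `v = F(l, 1) = a l³ + b l² + c l + d`, `l ∈ P`, in place of `a`: with
`x' = x - l`, `F = a x'³ + b' x'² + c' x' + v`, `M_n = ∑ P x'^i = x'^n ∑ P x'^{-i}`, `1/x'` is integral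
over `P[1/v]`. (3) `a` and the three values `F(l_i, 1)` generate `(a,b,c,d)` (Vandermonde), so
`u^j t ∈ M_n` for all `u ∈ (a,b,c,d)`, `j` large. (4) Replace `c_i` by powers: `c₀ t, c₁ t ∈ M_n`,
`(c₀, c₁, c₂)` still regular, `c₂ ∈ (a,b,c,d)`. Let `c₀ t = G₀(x)`, `c₁ t = G₁(x)` with
`G_i ∈ P[X]` of degree `≤ n`; `c₁ G₀ - c₀ G₁` vanishes at `x`, so it is `F(X,1) H`, `H ∈ P[X]`
(Gauss: `F(X,1)` is primitive at all height one primes since `c₀, c₁ ∈ (a,b,c,d)`), `deg H ≤ n - 3`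
(`H = 0` if `n = 2`). Mod `(c₀, c₁)`: `F H = 0`, and `F` is not a zero divisor mod `(c₀,c₁)` by
McCoy (`Polynomial.notMem_nonZeroDivisors_iff`) since `c₂ ∈ (a,b,c,d)` is not a zero divisor mod
`(c₀, c₁)`. So `H = c₀ H₀ + c₁ H₁` (degrees `≤ n-3`), `c₁ (G₀ - F H₁) = c₀ (G₁ + F H₀)`, so `c₀`
divides `G₀ - F H₁` (regular sequence), and `t = G₀(x)/c₀ ∈ M_n`. -/
def S_REF : Prop :=
  ∀ (P L K : Type) [CommRing P] [IsDomain P] [IsNoetherianRing P] [IsIntegrallyClosed P]
    [Field L] [Algebra P L] [IsFractionRing P L] [Field K] [Algebra P K]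
    [Algebra L K] [IsScalarTower P L K] (a b c d : P) (x : K) (n : ℕ) (cc : Fin 3 → P)
    (l : Fin 3 → P), 2 ≤ n → a ≠ 0 →
    algebraMap P K a * x ^ 3 + algebraMap P K b * x ^ 2 + algebraMap P K c * x +
        algebraMap P K d = 0 →
    (∀ l₀ l₁ l₂ : L, algebraMap L K l₀ + algebraMap L K l₁ * x + algebraMap L K l₂ * x ^ 2 = 0 →
        l₀ = 0 ∧ l₁ = 0 ∧ l₂ = 0) →
    (∀ z : K, ∃ l₀ l₁ l₂ : L, z = algebraMap L K l₀ + algebraMap L K l₁ * x +
      algebraMap L K l₂ * x ^ 2) →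
    (∀ i, cc i ∈ Ideal.span {a, b, c, d}) →
    cc 0 ≠ 0 → (∀ u, cc 0 ∣ cc 1 * u → cc 0 ∣ u) →
    (∀ u, cc 2 * u ∈ Ideal.span {cc 0, cc 1} → u ∈ Ideal.span {cc 0, cc 1}) →
    (∀ i j, i ≠ j → IsUnit (l i - l j)) →
    ∀ t : K, (∀ 𝔭 : Ideal P, 𝔭.IsPrime → 𝔭.height = 1 →
        ∃ s : P, s ∉ 𝔭 ∧ algebraMap P K s * t ∈ Submodule.span P (Set.range fun i : Fin (n + 1) =>
          x ^ (i : ℕ))) →
      t ∈ Submodule.span P (Set.range fun i : Fin (n + 1) => x ^ (i : ℕ))

/-- **POW.** In the situation of `S_CUB`, `C^n = y₀^n (P + P x + ... + P x^n)` for `n ≥ 2`.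
Proof. `C = y₀ (R + R x)` (as `θ ∈ R`), so `C^n = y₀^n ∑_{j ≤ n} R x^j`, and `M = ∑_{j ≤ n} P x^j` is
stable under `ω` and `θ`: `ω x^j = a x^{j+1}` for `j < n`, `ω x^n = -(b x^n + c x^{n-1} + d x^{n-2})`;
`θ x^j = a x^{j+2} + b x^{j+1} + c x^j` for `j ≤ n - 2`, and `θ x^j = - d x^{j-1}` for `j ≥ 1`. -/
def S_POW : Prop :=
  ∀ (P R K : Type) [CommRing P] [IsDomain P] [CommRing R] [IsDomain R]
    [Algebra P R] [Field K] [Algebra R K] [IsFractionRing R K] [Algebra P K] [IsScalarTower P R K]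
    (C : Submodule R K) (a b c d : P) (x y₀ : K) (ω θ : R), y₀ ≠ 0 →
      algebraMap P K a * x ^ 3 + algebraMap P K b * x ^ 2 + algebraMap P K c * x +
        algebraMap P K d = 0 →
      algebraMap R K ω = algebraMap P K a * x →
      algebraMap R K θ = algebraMap P K a * x ^ 2 + algebraMap P K b * x + algebraMap P K c →
      (∀ r : R, ∃ r₀ r₁ r₂ : P, r = algebraMap P R r₀ + r₁ • ω + r₂ • θ) →
      (∀ y : K, y ∈ C ↔ ∃ g₀ g₁ g₂ : P, y = y₀ * (algebraMap P K g₀ + algebraMap P K g₁ * x +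
        algebraMap P K g₂ * algebraMap R K θ)) →
      ∀ n : ℕ, 2 ≤ n → ∀ y : K, y ∈ C ^ n ↔
        ∃ m ∈ Submodule.span P (Set.range fun i : Fin (n + 1) => x ^ (i : ℕ)), y = y₀ ^ n * m

/-- **TRC.** In the situation of `S_CUB`, the trace ideal `C (R : C)` meets `P` in `(a, b, c, d)`
(we need `⊆`).
Proof. Let `z ∈ (R : C) = 1 / C`, `r = z y₀`: `r ∈ R` and `r x ∈ R`. Write `r = r₀ + r₁ ω + r₂ θ`.
`ω x = θ - b x - c`, `θ x = - d`, so `(r₀ - r₁ b) x ∈ R`, which forces `a ∣ r₀ - r₁ b` (compare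
coefficients of `1, x, x²`). So `r` and `x r` lie in `J = (a,b,c,d)·1 + P ω + P θ`, which is an ideal
of `R` (`ω² = -ac - bω + aθ`, `ωθ = -ad`, `θ² = -bd - dω + cθ`). Hence `C (1/C) ⊆ J`. An element of
`P` in `J` is in `(a,b,c,d)` since `1, ω, θ` are independent over `P`. -/
def S_TRC : Prop :=
  ∀ (P R L K : Type) [CommRing P] [IsDomain P] [CommRing R] [IsDomain R]
    [Algebra P R] [Field L] [Algebra P L] [IsFractionRing P L]
    [Field K] [Algebra R K] [IsFractionRing R K] [Algebra P K] [IsScalarTower P R K]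
    [Algebra L K] [IsScalarTower P L K]
    (C : Submodule R K) (a b c d : P) (x y₀ : K) (ω θ : R), a ≠ 0 → y₀ ≠ 0 →
      algebraMap P K a * x ^ 3 + algebraMap P K b * x ^ 2 + algebraMap P K c * x +
        algebraMap P K d = 0 →
      algebraMap R K ω = algebraMap P K a * x →
      algebraMap R K θ = algebraMap P K a * x ^ 2 + algebraMap P K b * x + algebraMap P K c →
      (∀ r : R, ∃ r₀ r₁ r₂ : P, r = algebraMap P R r₀ + r₁ • ω + r₂ • θ) →
      (∀ l₀ l₁ l₂ : L, algebraMap L K l₀ + algebraMap L K l₁ * x + algebraMap L K l₂ * x ^ 2 = 0 →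
        l₀ = 0 ∧ l₁ = 0 ∧ l₂ = 0) →
      (∀ y : K, y ∈ C ↔ ∃ g₀ g₁ g₂ : P, y = y₀ * (algebraMap P K g₀ + algebraMap P K g₁ * x +
        algebraMap P K g₂ * algebraMap R K θ)) →
      ∀ g : P, algebraMap P K g ∈ C * (1 / C) → g ∈ Ideal.span {a, b, c, d}

/-- **RK2.** Rank at most two is Gorenstein: the codifferent is principal.
Proof. Rank one: `R = P`, `C = R`. Rank two: basis `1, z`, `z² = t z - n`, `C = (2 z - t)⁻¹ R`. -/
def S_RK2 : Prop :=
  ∀ (m : ℕ) (P R L K : Type) [CommRing P] [IsDomain P] [CommRing R] [IsDomain R]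
    [Algebra P R] [Field L] [Algebra P L] [IsFractionRing P L]
    [Field K] [Algebra R K] [IsFractionRing R K] [Algebra P K] [IsScalarTower P R K]
    [Algebra L K] [IsScalarTower P L K] [FiniteDimensional L K]
    [Algebra.IsSeparable L K] (bs : Module.Basis (Fin (m + 1)) P R) (C : Submodule R K), bs 0 = 1 →
    m ≤ 1 →
    (∀ y : K, y ∈ C ↔
      ∀ r : R, ∃ g : P, algebraMap P L g = Algebra.trace L K (y * algebraMap R K r)) →
    ∃ y₀ : K, y₀ ≠ 0 ∧ C = Submodule.span R {y₀}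

/-- **BAS.** If `P → R / 𝔪_R` is surjective there is a basis with `b 0 = 1`, the other elements in
`𝔪_R`. (Nakayama: `1 ∉ 𝔪_P R`, complete `1` to a basis, subtract elements of `P`.) -/
def S_BAS : Prop :=
  ∀ (P R : Type) [CommRing P] [IsDomain P] [IsLocalRing P] [CommRing R] [IsDomain R]
    [IsLocalRing R] [Algebra P R] [Module.Finite P R] [Module.Free P R]
    [FaithfulSMul P R],
    (∀ r : R, ∃ g : P, r - algebraMap P R g ∈ IsLocalRing.maximalIdeal R) →
    ∃ (m : ℕ) (b : Module.Basis (Fin (m + 1)) P R), b 0 = 1 ∧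
      ∀ j : Fin m, b j.succ ∈ IsLocalRing.maximalIdeal R

end Pool.Agent.H867.FT
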