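import Pool.Agent.H867.FT.Cub7
import Pool.Agent.H707.FT867PSG
import Pool.Agent.H671.FT867PSN
import Pool.Agent.H261.FT867PSC
import Pool.Agent.H670.FT867VAL
import Pool.Agent.H100.FT867EXT
import Pool.Agent.H922.FT867TV
import Pool.Agent.H155.FT867DIF
import Pool.Agent.H278.FT867KEY
import Pool.Agent.H407.FT867LAT
import Pool.Agent.H772.FT867BET
import Pool.Agent.H738.FT867KRU
import Pool.Agent.H307.FT867LOB
import Pool.Agent.H597.FT867CUB
import Pool.Agent.H127.FT867REF
import Pool.Agent.H975.FT867POW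
import Pool.Agent.H399.FT867RK2
import Pool.Agent.H30.FT867BAS
import Pool.Agent.H726.FT867SHF
import Pool.Agent.H767.FT867GOR
import Pool.Agent.H638.FT867NYO
import Pool.Agent.H653.FT867EON
import Pool.Agent.H447.FT867BND
import Pool.Agent.H746.FT867BNT
import Pool.Agent.H387.FT867CON
import Pool.Agent.H59.FT867CHI
import Pool.Agent.H824.FT867PLA
import Pool.Agent.H729.FT867PLB
import Pool.Agent.H32.FT867TAU
import Pool.Agent.H772.FT867BCN
import Pool.Agent.H100.FT867HTN
import Pool.Agent.H278.FT867KEE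
import Pool.Agent.H157.FT867DBL
import Pool.Agent.H154.FT867DSC
import Pool.Agent.H828.FT867INQ
import Pool.Agent.H106.FT867TOR
import Pool.Agent.H264.FT867TRZ
import Pool.Agent.H404.FT867TRO
import Pool.Agent.H947.FT867RHO
import Pool.Agent.H261.FT867RGS
import Pool.Agent.H738.FT867AUT
import Pool.Agent.H190.FT867VAT
import Pool.Agent.H719.FT867RES
import Pool.Agent.H588.FT867CAN
import Pool.Agent.H746.FT867CMP
import Pool.Agent.H52.FT867SRJ
import Pool.Agent.H356.FT867INT
import Pool.Agent.H225.FT867NCM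
import Pool.Agent.H415.FT867FRE
import Pool.Agent.H935.FT867UNM
import Pool.Agent.H671.FT867LFR
import Pool.Agent.H641.FT867XRG
import Pool.Agent.H187.FT867AVD
import Pool.Agent.H807.FT867WEI
import Pool.Agent.H53.FT867GRD
import Pool.Agent.H21.FT867RDC

/-!
# Assembly, part 9: the power series ring.
-/

namespace Pool.Agent.H867.FT

open Module

theorem kru : S_KRU := Pool.Agent.H738.FT867KRU.kru
theorem dif : S_DIF := Pool.Agent.H155.FT867.dif

theorem lems2 : Lems2 where
  key := Pool.Agent.H278.FT867.key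
  kee := Pool.Agent.H278.FT867.kee
  lat := Pool.Agent.H407.FTLAT.lat
  dif := dif
  inq := Pool.Agent.H828.FT867INQ.inq
  dsc := Pool.Agent.H154.FTDSC.dsc
  shf := Pool.Agent.H726.FT867SHF.shf
  gor := Pool.Agent.H767.FT867GOR.gor
  nyo := Pool.Agent.H638.FT867NYO.nyo
  eon := Pool.Agent.H653.FT867EON.eon
  bnd := Pool.Agent.H447.FT867.bnd
  bnt := Pool.Agent.H746.FT867BNT.bnt
  con := Pool.Agent.H387.FT867CON.con kru
  chi := Pool.Agent.H59.FT867CHI.chi
  pla := Pool.Agent.H824.FT867PLA.pla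
  plb := Pool.Agent.H729.FT867.plb
  tau := Pool.Agent.H32.FT867.tau
  htn := Pool.Agent.H100.FT867HTN.htn
  dbl := Pool.Agent.H157.FTDBL.dbl
  tor := Pool.Agent.H106.FT.tor
  trz := Pool.Agent.H264.FTTrz.trz
  tro := Pool.Agent.H404.FTTro.tro
  ref := Pool.Agent.H127.FT867REF.ref kru
  pow := Pool.Agent.H975.FTPow.pow
  bet := Pool.Agent.H772.FT.bet Pool.Agent.H100.FT867EXT.ext
  lob := Pool.Agent.H307.FTLOB.lob dif kru
  bcn := Pool.Agent.H772.FTBCN.bcn dif kru
  cubS := Pool.Agent.H597.FT867CUB.cub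
  int := Pool.Agent.H356.FT867.int
  rk2 := Pool.Agent.H399.FT.rk2

theorem ncm : S_NCM :=
  Pool.Agent.H225.FT867NCM.ncm Pool.Agent.H415.FRE.fre Pool.Agent.H935.FT867UNM.unm
    Pool.Agent.H671.FTLFR.lfr Pool.Agent.H641.FT867XRG.xrg
    (Pool.Agent.H187.FT867AVD.avd kru)
    (Pool.Agent.H21.FT867.rdc Pool.Agent.H738.FT867AUT.s_aut Pool.Agent.H807.wei
      Pool.Agent.H53.FT867.grd)
    Pool.Agent.H671.FT867PSN.psn Pool.Agent.H719.FT867RES.res

section

variable (p : ℕ) [Fact p.Prime] (k : Type) [Field k] [IsAlgClosed k] [CharP k p]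

theorem cartGen (d e : ℕ) : CartGen (MvPowerSeries (Fin d) k) (p ^ e) := by
  have : PerfectField k := inferInstance
  have : PerfectRing k p := PerfectField.toPerfectRing p
  exact Pool.Agent.H261.FT867.psc p k d e

theorem regBase (d : ℕ) (hd : 1 ≤ d) : RegBase p d (MvPowerSeries (Fin d) k) where
  noeth := (Pool.Agent.H719.FT867RES.res k d).1
  normal := Pool.Agent.H671.FT867PSN.psn k d
  gens := ⟨_, (Pool.Agent.H707.FT867.psg k d).1⟩
  ne_bot := by
    obtain ⟨j, rfl⟩ := Nat.exists_eq_add_of_le hd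
    intro h
    have h1 : (MvPowerSeries.X (⟨0, by omega⟩ : Fin (1 + j)) : MvPowerSeries (Fin (1 + j)) k) ∈
        IsLocalRing.maximalIdeal (MvPowerSeries (Fin (1 + j)) k) := by
      rw [(Pool.Agent.H707.FT867.psg k (1 + j)).1]
      exact Ideal.subset_span ⟨_, rfl⟩
    rw [h, Ideal.mem_bot] at h1
    have h2 := congrArg (MvPowerSeries.coeff
      (Finsupp.single (⟨0, by omega⟩ : Fin (1 + j)) 1)) h1
    rw [MvPowerSeries.coeff_index_single_self_X, map_zero] at h2
    exact one_ne_zero h2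
  gr := (Pool.Agent.H707.FT867.psg k d).2
  cart := cartGen p k d

theorem cubP (d : ℕ) : CubP (MvPowerSeries (Fin d) k) where
  rgs := fun y z hy hz h => Pool.Agent.H261.FT867RGS.rgs k d y z hy hz h
  rho := Pool.Agent.H947.FT867.rho k d
  units := by
    have : Infinite k := IsAlgClosed.instInfinite
    refine ⟨fun i => MvPowerSeries.C (Infinite.natEmbedding k (i : ℕ)), fun i j hij => ?_⟩
    rw [← map_sub]
    refine IsUnit.map _ (isUnit_iff_ne_zero.2 (sub_ne_zero.2 ?_))
    intro h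
    exact hij (Fin.ext ((Infinite.natEmbedding k).injective h))

include p in
theorem pdata (d : ℕ) (hd : 2 ≤ d) (L : Type) [Field L] [Algebra (MvPowerSeries (Fin d) k) L]
    [IsFractionRing (MvPowerSeries (Fin d) k) L] : PData d (MvPowerSeries (Fin d) k) L where
  cub := cubP k d
  ord := by
    obtain ⟨V, i1, i2, i3, i4, i5, i6, i7, π, hirr, ho, hπ⟩ :=
      Pool.Agent.H670.FTVAL.val p d (MvPowerSeries (Fin d) k) L (regBase p k d (by omega))
    refine ⟨V, i1, i2, i3, i4, i5, i6, i7, π, ⟨hirr, hπ, ?_, ?_⟩, ho⟩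
    · intro g hg
      have := (ho g 1).1 (by rwa [pow_one])
      rwa [pow_one] at this
    · intro q hq T TL h1 h2 h3
      exact Pool.Agent.H922.FTTV.tv p d q (MvPowerSeries (Fin d) k) L V π
        (regBase p k d (by omega)) hq (by omega) hirr ho T TL h1 h2 h3
  wt := by
    intro y hy hy2
    obtain ⟨V, i1, i2, i3, i4, i5, i6, i7, π, hirr, hπ, h1, h2, h3⟩ :=
      Pool.Agent.H190.FT867VAT.vat Pool.Agent.H738.FT867AUT.s_aut k d y L hd hy hy2
    exact ⟨V, i1, i2, i3, i4, i5, i6, i7, π, ⟨hirr, hπ, h1, fun q hq T TL e1 e2 e3 =>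
      h3 q hq T TL e1 e2 e3⟩, h2⟩

end

end Pool.Agent.H867.FT
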