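import Pool.Agent.H867.FT.Stm

namespace Pool.Agent.H867.FT

variable {d n : ℕ} (C : Cone d n)

/-- A functional constant on the rays makes a divisorial power of `ω` principal. -/
theorem qgor_of_functional (K : Type*) [Field K] (r : ℕ) (hr : 1 ≤ r) (m : Fin d → ℤ)
    (hm : ∀ i, C.v i ⬝ᵥ m = r) : C.QGorenstein K := by
  have hmS : m ∈ C.S := by
    intro i
    rw [hm i]
    positivity
  refine ⟨r, hr, ?_⟩
  have hom : C.omega K r = Ideal.span {(AddMonoidAlgebra.single (⟨m, hmS⟩ : C.S) (1 : K) :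
      C.Ring K)} := by
    apply le_antisymm
    · rw [Cone.omega, Ideal.span_le]
      rintro f ⟨u, hu, rfl⟩
      have huS : (u : Fin d → ℤ) - m ∈ C.S := by
        intro i
        rw [dotProduct_sub, hm i]
        have := hu i
        linarith
      have huu : u = ⟨m, hmS⟩ + ⟨(u : Fin d → ℤ) - m, huS⟩ := by
        apply Subtype.ext
        simp
      have hprod : (AddMonoidAlgebra.single u (1 : K) : C.Ring K) =
          AddMonoidAlgebra.single (⟨m, hmS⟩ : C.S) (1 : K) *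
          AddMonoidAlgebra.single (⟨(u : Fin d → ℤ) - m, huS⟩ : C.S) (1 : K) := by
        rw [AddMonoidAlgebra.single_mul_single, ← huu, one_mul]
      rw [SetLike.mem_coe, hprod]
      exact Ideal.mul_mem_right _ _ (Ideal.subset_span rfl)
    · rw [Ideal.span_le, Set.singleton_subset_iff]
      refine Ideal.subset_span ⟨⟨m, hmS⟩, ?_, rfl⟩
      intro i
      exact (hm i).ge
  rw [Cone.localOmega, hom, Ideal.map_span, Set.image_singleton]
  exact ⟨⟨_, rfl⟩⟩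

/-- The upper bound. -/
theorem upper (hsup : S_SUP) (hcmb : S_CMB) (p : ℕ) [Fact p.Prime] (K : Type) [Field K]
    (hC : ¬ C.QGorenstein K) (t : ℝ)
    (ht : FPurePair (C.LocalRing K) p (IsLocalRing.maximalIdeal (C.LocalRing K)) t) :
    t ≤ (d : ℝ) - 3 / 2 := by
  obtain ⟨e₀, he₀⟩ := ht
  have hp1 : 1 < p := (Fact.out : p.Prime).one_lt
  obtain ⟨f, hf, hfs⟩ := he₀ (e₀ + 1) (Nat.le_succ _)
  set N := ⌈t * ((p : ℝ) ^ (e₀ + 1) - 1)⌉₊ with hN
  set q : ℕ := p ^ (e₀ + 1) with hq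
  have hq1 : 1 < q := Nat.one_lt_pow (Nat.succ_ne_zero _) hp1
  obtain ⟨w, hw0, hw⟩ := hsup K d n C q _ f hq1.le hf hfs
  have hno : ∀ (r : ℕ) (m : Fin d → ℤ), 1 ≤ r → ∃ i, C.v i ⬝ᵥ m ≠ r := by
    intro r m hr
    by_contra hcon
    push Not at hcon
    exact hC (qgor_of_functional C K r hr m hcon)
  obtain ⟨z, y, hy0, hysum, hzy, hint⟩ := hcmb d n C hno
  -- `N ≤ ⟨z, ∑ w⟩`
  have h1 : (N : ℤ) ≤ z ⬝ᵥ ((∑ j, w j : C.S) : Fin d → ℤ) := by
    have h2 : z ⬝ᵥ ((∑ j, w j : C.S) : Fin d → ℤ) = ∑ j, z ⬝ᵥ (w j : Fin d → ℤ) := by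
      rw [AddSubmonoid.coe_finsetSum, dotProduct_sum]
    rw [h2]
    have h3 : ∑ j : Fin N, (1 : ℤ) ≤ ∑ j, z ⬝ᵥ (w j : Fin d → ℤ) := by
      apply Finset.sum_le_sum
      intro j _
      apply hint _ (w j).2
      intro h0
      apply hw0 j
      exact Subtype.ext h0
    simpa using h3
  -- `⟨z, ∑ w⟩ = ∑ y ⟨v, ∑ w⟩ ≤ (q-1) ∑ y`
  set U : Fin d → ℤ := ((∑ j, w j : C.S) : Fin d → ℤ) with hU
  have h4 : ((z ⬝ᵥ U : ℤ) : ℚ) = ∑ i, y i * ((C.v i ⬝ᵥ U : ℤ) : ℚ) := by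
    simp only [dotProduct, Int.cast_sum, Int.cast_mul]
    simp_rw [hzy, Finset.sum_mul, Finset.mul_sum]
    rw [Finset.sum_comm]
    refine Finset.sum_congr rfl fun i _ => Finset.sum_congr rfl fun j _ => ?_
    ring
  have h5 : ((z ⬝ᵥ U : ℤ) : ℚ) ≤ ((q : ℚ) - 1) * ((d : ℚ) - 3 / 2) := by
    rw [h4]
    calc ∑ i, y i * ((C.v i ⬝ᵥ U : ℤ) : ℚ) ≤ ∑ i, y i * ((q : ℚ) - 1) := by
          apply Finset.sum_le_sum
          intro i _
          apply mul_le_mul_of_nonneg_left _ (hy0 i)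
          have := hw i
          have h6 : ((C.v i ⬝ᵥ U : ℤ) : ℚ) ≤ (((q : ℤ) - 1 : ℤ) : ℚ) := Int.cast_le.mpr this
          simpa using h6
      _ = ((q : ℚ) - 1) * ∑ i, y i := by rw [Finset.mul_sum]; exact Finset.sum_congr rfl fun i _ => mul_comm _ _
      _ ≤ ((q : ℚ) - 1) * ((d : ℚ) - 3 / 2) := by
          apply mul_le_mul_of_nonneg_left hysum
          have : (1 : ℚ) < q := by exact_mod_cast hq1
          linarith
  have h7 : (N : ℝ) ≤ ((q : ℝ) - 1) * ((d : ℝ) - 3 / 2) := by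
    have h8 : (N : ℚ) ≤ ((q : ℚ) - 1) * ((d : ℚ) - 3 / 2) := by
      have h9 : ((N : ℤ) : ℚ) ≤ ((z ⬝ᵥ U : ℤ) : ℚ) := by exact_mod_cast h1
      have h10 : ((N : ℤ) : ℚ) = (N : ℚ) := by simp
      linarith
    have h8' := (Rat.cast_le (K := ℝ)).mpr h8
    push_cast at h8'
    exact h8'
  have h11 : t * ((p : ℝ) ^ (e₀ + 1) - 1) ≤ N := Nat.le_ceil _
  have hqr : ((q : ℕ) : ℝ) = (p : ℝ) ^ (e₀ + 1) := by rw [hq]; push_cast; ring
  rw [← hqr] at h11
  have hpos : (0 : ℝ) < (q : ℝ) - 1 := by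
    have : (1 : ℝ) < q := by exact_mod_cast hq1
    linarith
  have h12 : ((q : ℝ) - 1) * t ≤ ((q : ℝ) - 1) * ((d : ℝ) - 3 / 2) := by linarith [mul_comm t ((q:ℝ) - 1)]
  exact le_of_mul_le_mul_left h12 hpos

/-- The images of monomials with small pairings split in the local ring. -/
theorem mono_local (hloc : S_LOC) (hmon : S_MON) (p : ℕ) [Fact p.Prime] (K : Type) [Field K]
    [CharP K p] (e : ℕ) (u : C.S) (hu : ∀ i, C.v i ⬝ᵥ (u : Fin d → ℤ) ≤ (p : ℤ) ^ e - 1) :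
    FSplits (C.LocalRing K) (p ^ e)
      (algebraMap (C.Ring K) (C.LocalRing K) (AddMonoidAlgebra.single u (1 : K))) :=
  hloc (C.Ring K) (C.LocalRing K) (C.maxIdeal K).primeCompl (p ^ e) _
    (Nat.one_le_iff_ne_zero.mpr (pow_ne_zero _ (Fact.out : p.Prime).ne_zero))
    (hmon p K d n C e u hu)

theorem fpure (hloc : S_LOC) (hmon : S_MON) (p : ℕ) [Fact p.Prime] (K : Type) [Field K]
    [CharP K p] (e : ℕ) : FSplits (C.LocalRing K) (p ^ e) 1 := by
  have h := mono_local C hloc hmon p K e 0 (by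
    intro i
    have h1 : (1 : ℤ) ≤ (p : ℤ) ^ e := by
      exact_mod_cast Nat.one_le_iff_ne_zero.mpr (pow_ne_zero e (Fact.out : p.Prime).ne_zero)
    simp only [ZeroMemClass.coe_zero, dotProduct_zero]
    linarith)
  rw [← AddMonoidAlgebra.one_def, map_one] at h
  exact h

/-- The lower bound for the extremal cone. -/
theorem lower (hloc : S_LOC) (hmon : S_MON) (hlow : S_LOW) (d : ℕ) (hd : 3 ≤ d)
    (C : Cone d (d + 1)) (h1 : ∀ i : Fin d, C.v i.castSucc = Pi.single i 1)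
    (h2 : ∀ j : Fin d, C.v (Fin.last d) j =
      if (j : ℕ) = 0 then 2 else if (j : ℕ) = 1 then 1 else if (j : ℕ) = 2 then -1 else 0)
    (p : ℕ) [Fact p.Prime] (K : Type) [Field K] [CharP K p] (t : ℝ)
    (ht : t < (d : ℝ) - 3 / 2) :
    FPurePair (C.LocalRing K) p (IsLocalRing.maximalIdeal (C.LocalRing K)) t := by
  have hp1 : (1 : ℝ) < p := by exact_mod_cast (Fact.out : p.Prime).one_lt
  obtain ⟨e₀, he₀⟩ := pow_unbounded_of_one_lt (1 / (((d : ℝ) - 3 / 2) - t) + 1) hp1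
  refine ⟨e₀, fun e he => ?_⟩
  set q : ℕ := p ^ e with hq
  have hq1 : 1 ≤ q := Nat.one_le_iff_ne_zero.mpr (pow_ne_zero _ (Fact.out : p.Prime).ne_zero)
  obtain ⟨u, hu, hmem⟩ := hlow d hd C h1 h2 K q hq1
  have hqr : ((q : ℕ) : ℝ) = (p : ℝ) ^ e := by rw [hq]; push_cast; ring
  have hbig : 1 / (((d : ℝ) - 3 / 2) - t) + 1 < q := by
    rw [hqr]
    exact lt_of_lt_of_le he₀ (pow_le_pow_right₀ hp1.le he)
  have hpos : 0 < ((d : ℝ) - 3 / 2) - t := by linarith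
  have hkey : 1 < (((d : ℝ) - 3 / 2) - t) * ((q : ℝ) - 1) := by
    have h3 : 1 / (((d : ℝ) - 3 / 2) - t) < (q : ℝ) - 1 := by linarith
    rw [div_lt_iff₀ hpos] at h3
    linarith [mul_comm ((q : ℝ) - 1) (((d : ℝ) - 3 / 2) - t)]
  refine ⟨algebraMap (C.Ring K) (C.LocalRing K) (AddMonoidAlgebra.single u (1 : K)), ?_, ?_⟩
  · have hle : ⌈t * ((p : ℝ) ^ e - 1)⌉₊ ≤ (d - 2) * (q - 1) + (q - 1) / 2 := by
      rw [Nat.ceil_le, ← hqr]
      have h4 : q - 1 ≤ 2 * ((q - 1) / 2) + 1 := by omega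
      have h5 : ((q - 1 : ℕ) : ℝ) ≤ 2 * (((q - 1) / 2 : ℕ) : ℝ) + 1 := by exact_mod_cast h4
      have h6 : ((q - 1 : ℕ) : ℝ) = (q : ℝ) - 1 := by
        rw [Nat.cast_sub hq1, Nat.cast_one]
      have h7 : ((d - 2 : ℕ) : ℝ) = (d : ℝ) - 2 := by
        rw [Nat.cast_sub (by omega)]
        norm_num
      rw [Nat.cast_add, Nat.cast_mul, h6, h7]
      rw [h6] at h5
      nlinarith
    have hmem' : algebraMap (C.Ring K) (C.LocalRing K) (AddMonoidAlgebra.single u (1 : K)) ∈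
        (IsLocalRing.maximalIdeal (C.LocalRing K)) ^ ((d - 2) * (q - 1) + (q - 1) / 2) := by
      have h8 := Ideal.mem_map_of_mem (algebraMap (C.Ring K) (C.LocalRing K)) hmem
      rw [Ideal.map_pow, Localization.AtPrime.map_eq_maximalIdeal] at h8
      exact h8
    exact Ideal.pow_le_pow_right hle hmem'
  · apply mono_local C hloc hmon p K e u
    intro i
    have := hu i
    rw [hq] at this
    push_cast at this
    exact this

/-- The F-pure threshold of the maximal ideal for the extremal cone. -/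
theorem isLUB_extremal (hloc : S_LOC) (hmon : S_MON) (hlow : S_LOW) (hsup : S_SUP) (hcmb : S_CMB)
    (d : ℕ) (hd : 3 ≤ d)
    (C : Cone d (d + 1)) (h1 : ∀ i : Fin d, C.v i.castSucc = Pi.single i 1)
    (h2 : ∀ j : Fin d, C.v (Fin.last d) j =
      if (j : ℕ) = 0 then 2 else if (j : ℕ) = 1 then 1 else if (j : ℕ) = 2 then -1 else 0)
    (p : ℕ) [Fact p.Prime] (K : Type) [Field K] [CharP K p] (hC : ¬ C.QGorenstein K) :
    IsLUB {t : ℝ | 0 ≤ t ∧ FPurePair (C.LocalRing K) p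
      (IsLocalRing.maximalIdeal (C.LocalRing K)) t} ((d : ℝ) - 3 / 2) := by
  constructor
  · rintro t ⟨_, ht⟩
    exact upper C hsup hcmb p K hC t ht
  · intro b hb
    by_contra hcon
    push Not at hcon
    have hd' : (3 : ℝ) ≤ d := by exact_mod_cast hd
    have h3 : max b 0 < (d : ℝ) - 3 / 2 := max_lt hcon (by linarith)
    obtain ⟨t, ht1, ht2⟩ := exists_between h3
    have h4 : t ≤ b := hb ⟨(le_max_right b 0).trans ht1.le,
      lower hloc hmon hlow d hd C h1 h2 p K t ht2⟩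
    exact absurd h4 (not_le.mpr (lt_of_le_of_lt (le_max_left b 0) ht1))

end Pool.Agent.H867.FT
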