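import Pool.Agent.H867.FT.Gen3

/-!
# Statements, part 8: Nagata's ring `R(Z)`.
-/

namespace Pool.Agent.H867.FT

open Polynomial

/-- **NAG.** Passage from `R` to `R(Z) = R[Z]_{𝔪 R[Z]}`.
Proof. `𝔪_A = 𝔪 A`, the residue field of `A` is `κ(Z)`, `κ` the residue field of `R`: it is infinite, and
F-finite if `κ` is (`κ(Z)` is generated over `κ(Z)^p` by `c_j Z^i`, `i < p`, `c_j` generators of `κ` over `κ^p`).
A `q^{-1}`-linear `φ` on `R`, `q = p^e`, extends to `R[Z]`: `φ'(r Z^i) = φ(r) Z^{i/q}` if `q ∣ i`, and `0`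
otherwise (`(∑ s_j Z^j)^q = ∑ s_j^q Z^{q j}` in characteristic `p`), `φ'(C f) = C (φ f) = 1`; splittings
localize (`S_LOC`, proved: `Pool.Agent.H997.FT867LOC.loc`). -/
def S_NAG : Prop :=
  ∀ (p : ℕ) [Fact p.Prime] (R A : Type) [CommRing R] [IsLocalRing R] [IsNoetherianRing R]
    [CharP R p] [CommRing A] [IsLocalRing A] [Algebra R[X] A]
    (h : ((IsLocalRing.maximalIdeal R).map (Polynomial.C : R →+* R[X])).IsPrime),
    @IsLocalization.AtPrime R[X] _ A _ _ ((IsLocalRing.maximalIdeal R).map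
      (Polynomial.C : R →+* R[X])) h →
    IsNoetherianRing A ∧ CharP A p ∧ Infinite (IsLocalRing.ResidueField A) ∧
    (∀ [CharP (IsLocalRing.ResidueField R) p] [CharP (IsLocalRing.ResidueField A) p],
      (frobenius (IsLocalRing.ResidueField R) p).Finite →
      (frobenius (IsLocalRing.ResidueField A) p).Finite) ∧
    ∀ t : ℝ, FPurePair R p (IsLocalRing.maximalIdeal R) t →
      FPurePair A p (IsLocalRing.maximalIdeal A) t

end Pool.Agent.H867.FT
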