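import Pool.Agent.H867.FT.Gen5

/-!
# Statements, part 10: a local ring and its completion.
-/

namespace Pool.Agent.H867.FT

/-- **CDM.** A Noetherian local ring and its completion have the same dimension.
Proof. `𝔪_S = 𝔪_R S` (hypotheses for `n = 1, 2` and Nakayama), so `𝔪_S^n = 𝔪_R^n S`. `≤`: there is
`I = (x_1, …, x_h) ≤ 𝔪_R`, `h = height 𝔪_R = dim R`, with `𝔪_R` minimal over `I`
(`Ideal.exists_finset_card_eq_height_of_isNoetherianRing` or
`Ideal.height_le_iff`-type statements in `Mathlib/RingTheory/Ideal/KrullsHeightTheorem.lean`), so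
`𝔪_R^N ≤ I` and `𝔪_S^N ≤ I S`; by Krull's height theorem `dim S = height 𝔪_S ≤ h`. `≥`: similarly
`J = (y_1, …, y_h) ≤ 𝔪_S`, `h = dim S`, `𝔪_S^N ≤ J`; choose `x_i ∈ R` with `y_i - ι x_i ∈ 𝔪_S^(N+1)`; then
`J ≤ J' + 𝔪_S J`, `J' = (ι x_i)`, so `J ≤ J'` by Nakayama. With `I = (x_i)`: if `r ∈ 𝔪_R^N`,
`ι r = ∑ s_i ι x_i`; for every `M` choose `r_i` with `s_i - ι r_i ∈ 𝔪_S^M`: `ι (r - ∑ r_i x_i) ∈ 𝔪_S^M`, so
`r ∈ I + 𝔪_R^M` for all `M` and `r ∈ I` by the Krull intersection theorem for `R / I`. -/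
def S_CDM : Prop :=
  ∀ (R S : Type) [CommRing R] [IsLocalRing R] [IsNoetherianRing R] [CommRing S] [IsLocalRing S]
    [IsNoetherianRing S] (ι : R →+* S),
    (∀ (n : ℕ) (s : S), ∃ r : R, s - ι r ∈ IsLocalRing.maximalIdeal S ^ n) →
    (∀ (n : ℕ) (r : R),
      r ∈ IsLocalRing.maximalIdeal R ^ n ↔ ι r ∈ IsLocalRing.maximalIdeal S ^ n) →
    ringKrullDim S = ringKrullDim R

/-- **FLT.** The completion is flat.
Proof. `𝔪_S = 𝔪_R S` (hypotheses for `n = 1, 2` and Nakayama). `S` is isomorphic to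
`AdicCompletion 𝔪_R R` as an `R`-module (`R / 𝔪_R^n ≅ S / 𝔪_S^n` by the hypotheses and `S` is complete), and
this is flat: `Mathlib/RingTheory/AdicCompletion/AsTensorProduct.lean`
(`AdicCompletion.flat_of_isNoetherian`). -/
def S_FLT : Prop :=
  ∀ (R S : Type) [CommRing R] [IsLocalRing R] [IsNoetherianRing R] [CommRing S] [IsLocalRing S]
    [IsNoetherianRing S] [IsAdicComplete (IsLocalRing.maximalIdeal S) S] [Algebra R S],
    (∀ (n : ℕ) (s : S), ∃ r : R, s - algebraMap R S r ∈ IsLocalRing.maximalIdeal S ^ n) →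
    (∀ (n : ℕ) (r : R), r ∈ IsLocalRing.maximalIdeal R ^ n ↔
      algebraMap R S r ∈ IsLocalRing.maximalIdeal S ^ n) →
    Module.Flat R S

/-- **FDV.** Flat base change for `1 / X`, `X ⊆ K` finitely generated.
Proof. `⊆` clear. `X = ∑ R x_i`, `i = 1..n`, `x_i = a_i / b`, `x_1 ≠ 0`. Let `y ∈ 1 / (X S)`, `s_i = y x_i ∈ S`:
`a_1 s_i - a_i s_1 = 0`. By the equational criterion of flatness for this system of relations
(`Mathlib/RingTheory/Flat/EquationalCriterion.lean`) there are `t_k ∈ S`, `r_{ik} ∈ R` with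
`s_i = ∑_k r_{ik} t_k` and `a_1 r_{ik} = a_i r_{1k}`. `z_k = r_{1k} / x_1`: `z_k x_i = r_{ik}`, so `z_k ∈ 1 / X`,
and `y = ∑_k t_k z_k`. -/
def S_FDV : Prop :=
  ∀ (R S K K' : Type) [CommRing R] [IsDomain R] [CommRing S] [IsDomain S]
    [Algebra R S] [Module.Flat R S] [Field K] [Algebra R K] [IsFractionRing R K] [Field K']
    [Algebra S K'] [IsFractionRing S K'] (j : K →+* K'),
    (∀ r : R, j (algebraMap R K r) = algebraMap S K' (algebraMap R S r)) →
    ∀ X : Submodule R K, X.FG → X ≠ ⊥ →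
      Submodule.span S (j '' ((1 / X : Submodule R K) : Set K)) =
        1 / Submodule.span S (j '' (X : Set K))

/-- **DES.** (from `S_FDV`) Descent of torsion.
Proof. `D = 1 / (1 / C^n)`; if `C = ⊥` then `D = ⊥` or `D = ⊤ = R` and the claim is clear. Otherwise `C^n` and
`1 / C^n` are finitely generated (`1 / X ⊆ x⁻¹ R` for `0 ≠ x ∈ X`, `R` Noetherian) and `≠ ⊥`, and the `S`-span of
`C^n` is the `n`-th power of that of `C`, so by `S_FDV` the `S`-span of `D` is `S t`. If `t = 0`, `D = ⊥`.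
Otherwise some `d ∈ D` has `j d ∉ 𝔪_S t`, so `j d` is a unit times `t` and `S t = S (j d)`. If `z ∈ D` then
`j (z / d) = algebraMap S K' s` for some `s ∈ S`; write `z / d = a / b`; `a ∈ b S ∩ R = b R` (`R → S` is
faithfully flat), so `z ∈ R d`. So `D = R d`. -/
def S_DES : Prop :=
  ∀ (R S K K' : Type) [CommRing R] [IsDomain R] [IsLocalRing R] [IsNoetherianRing R] [CommRing S]
    [IsDomain S] [IsLocalRing S] [Algebra R S] [Module.Flat R S] [IsLocalHom (algebraMap R S)]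
    [Field K] [Algebra R K] [IsFractionRing R K] [Field K']
    [Algebra S K'] [IsFractionRing S K'] (j : K →+* K'),
    (∀ r : R, j (algebraMap R K r) = algebraMap S K' (algebraMap R S r)) →
    ∀ C : Submodule R K, C.FG → Tors (Submodule.span S (j '' (C : Set K))) → Tors C

end Pool.Agent.H867.FT
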