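import Pool.Agent.H867.FT.Gen5
import Pool.Agent.H738.FT867KRU
import Pool.Agent.H30.FT867UNI
import Pool.Agent.H404.FT867CRT
import Pool.Agent.H25.FT867IND
import Pool.Agent.H665.FT867CRF
import Pool.Agent.H349.FT867DQE
import Pool.Agent.H295.FT867DDC
import Pool.Agent.H97.FT867TEQ

/-!
# The canonical class is independent of the presentation
-/

namespace Pool.Agent.H867.FT

open Module

theorem tors_scale {S K : Type} [CommRing S] [Field K] [Algebra S K] {z : K} (hz : z ≠ 0)
    {D : Submodule S K} (h : Tors (Submodule.span S {z} * D)) : Tors D := by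
  obtain ⟨n, hn, t, ht⟩ := h
  have hμn : z ^ n ≠ 0 := pow_ne_zero _ hz
  have h1 : 1 / (1 / (Submodule.span S {z} * D) ^ n) =
      Submodule.span S {z ^ n} * (1 / (1 / D ^ n)) := by
    rw [Pool.Agent.H30.FT867UNI.pow_scale, Pool.Agent.H30.FT867UNI.one_div_scale _ hμn,
      Pool.Agent.H30.FT867UNI.one_div_scale _ (inv_ne_zero hμn), inv_inv]
  refine ⟨n, hn, (z ^ n)⁻¹ * t, ?_⟩
  have h2 : Submodule.span S {(z ^ n)⁻¹ * t} =
      Submodule.span S {(z ^ n)⁻¹} * Submodule.span S {t} := by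
    rw [Submodule.span_mul_span, Set.singleton_mul_singleton]
  rw [h2, ← ht, h1, ← mul_assoc, Submodule.span_mul_span, Set.singleton_mul_singleton,
    inv_mul_cancel₀ hμn, ← Submodule.one_eq_span, one_mul]

theorem tors_map {S K K' : Type} [CommRing S] [Field K] [Algebra S K] [Field K'] [Algebra S K']
    (e : K ≃ₐ[S] K') {C : Submodule S K} (h : Tors C) : Tors (C.map e.toLinearMap) := by
  obtain ⟨n, hn, t, ht⟩ := h
  refine ⟨n, hn, e t, ?_⟩
  have h1 : ∀ M : Submodule S K, 1 / (M.map e.toLinearMap) = (1 / M).map e.toLinearMap := by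
    intro M
    have h2 := Submodule.map_div (1 : Submodule S K) M e
    have h3 : (1 : Submodule S K).map e.toLinearMap = 1 := by
      have := Submodule.map_one (A := K) (A' := K') (R := S) e.toAlgHom
      exact this
    rw [h2, h3]
  have h4 : (C.map e.toLinearMap) ^ n = (C ^ n).map e.toLinearMap :=
    (Submodule.map_pow C e.toAlgHom n).symm
  rw [h4, h1, h1, ht, Submodule.map_span, Set.image_singleton]
  rfl

theorem canonical_map {P S K K' : Type} [CommRing P] [CommRing S] [Algebra P S] [Field K]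
    [Algebra S K] [Field K'] [Algebra S K'] (e : K ≃ₐ[S] K') {C : Submodule S K}
    (h : IsCanonical P C) : IsCanonical P (C.map e.toLinearMap) := by
  obtain ⟨e', he'⟩ := h
  let g : C ≃ₗ[S] C.map e.toLinearMap := e.toLinearEquiv.submoduleMap C
  refine ⟨g.symm.toAddEquiv.trans e', ?_⟩
  intro r y s
  have h1 : (g.symm.toAddEquiv.trans e') (r • y) = e' (g.symm (r • y)) := rfl
  have h2 : (g.symm.toAddEquiv.trans e') y = e' (g.symm y) := rfl
  rw [h1, h2, map_smul]
  exact he' r _ s

theorem tors_indep (p : ℕ) [Fact p.Prime] {P P' S K K' : Type} [CommRing P] [IsDomain P]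
    [IsNoetherianRing P] [IsIntegrallyClosed P] [CommRing P'] [IsDomain P'] [IsNoetherianRing P']
    [IsIntegrallyClosed P'] [CommRing S] [IsDomain S] [IsIntegrallyClosed S] [CharP S p]
    [Algebra P S] [Module.Finite P S] [FaithfulSMul P S]
    [Algebra P' S] [Module.Finite P' S] [FaithfulSMul P' S]
    [Field K] [Algebra S K] [IsFractionRing S K] [Field K'] [Algebra S K'] [IsFractionRing S K']
    (hg : CartGen P (p ^ 1)) (hg' : CartGen P' (p ^ 1)) {C : Submodule S K}
    {C' : Submodule S K'} (hC : IsCanonical P C) (hC' : IsCanonical P' C') (h : Tors C') :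
    Tors C := by
  have hnoe : IsNoetherianRing S := IsNoetherianRing.of_finite P S
  let e : K' ≃ₐ[S] K := IsLocalization.algEquiv (nonZeroDivisors S) K' K
  have h1 : Tors (C'.map e.toLinearMap) := tors_map e h
  have h2 : IsCanonical P' (C'.map e.toLinearMap) := canonical_map e hC'
  obtain ⟨z, hz, hD⟩ := Pool.Agent.H25.FT867IND.ind Pool.Agent.H404.FT867CRT.crt p 1 P P' S K C
    (C'.map e.toLinearMap) hg hg' hC h2
  have hteq := Pool.Agent.H97.FT867TEQ.teq
    (Pool.Agent.H349.FTDQE.dqe Pool.Agent.H738.FT867KRU.kru)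
    (Pool.Agent.H295.FTDDC.ddc Pool.Agent.H738.FT867KRU.kru)
  obtain ⟨c1, c2, -⟩ := Pool.Agent.H665.FT867CRF.crf P S K C hC
  obtain ⟨c3, c4, -⟩ := Pool.Agent.H665.FT867CRF.crf P' S K (C'.map e.toLinearMap) h2
  have hp : 2 ≤ p ^ 1 := by rw [pow_one]; exact (Fact.out : p.Prime).two_le
  have h3 := (hteq (p ^ 1) S K (C'.map e.toLinearMap) hp c3 c4).1 h1
  have h4 : Dq (p ^ 1) (C'.map e.toLinearMap) = Submodule.span S {z} * Dq (p ^ 1) C := by
    ext β
    rw [hD, Submodule.mem_span_singleton_mul]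
    constructor
    · rintro ⟨β₀, hβ₀, rfl⟩
      exact ⟨β₀, hβ₀, rfl⟩
    · rintro ⟨β₀, hβ₀, rfl⟩
      exact ⟨β₀, hβ₀, rfl⟩
  rw [h4] at h3
  exact (hteq (p ^ 1) S K C hp c1 c2).2 (tors_scale hz h3)

end Pool.Agent.H867.FT
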