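import Pool.Agent.H867.FT.Lim2
import Pool.Agent.H867.FT.Indep
import Pool.Agent.H867.FT.Gen7
import Pool.Agent.H867.FT.Gen9
import Pool.Agent.H249.FT867CH2
import Pool.Agent.H331.FT867PBE
import Pool.Agent.H726.FT867COF
import Pool.Agent.H323.FT867EVL
import Pool.Agent.H215.FT867RED
import Pool.Agent.H870.FT867INJ
import Pool.Agent.H199.FT867FIN
import Pool.Agent.H695.FT867PBF
import Pool.Agent.H722.FT867SEP
import Pool.Agent.H962.FT867DMS
import Pool.Agent.H803.FT867FF2
import Pool.Agent.H397.FT867NAG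

/-!
# The class of rings of the problem; the upper bound.
-/

namespace Pool.Agent.H867.FT

open Module

/-- `C ⊆ Frac S` is a canonical ideal of the complete local domain `S`: for some Noether
normalization `P = k[[X_1, …, X_n]] ⊆ S` (`k` an F-finite field of characteristic `p`, `S` finite over
`P`), `C` is isomorphic to the canonical module `Hom_P(S, P)`. -/
def CanonicalIdeal (p : ℕ) [Fact p.Prime] (S : Type) [CommRing S] [IsDomain S]
    (C : Submodule S (FractionRing S)) : Prop :=
  ∃ (k : Type) (_ : Field k) (_ : CharP k p) (n : ℕ) (_ : Algebra (MvPowerSeries (Fin n) k) S),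
    (frobenius k p).Finite ∧ Module.Finite (MvPowerSeries (Fin n) k) S ∧
    FaithfulSMul (MvPowerSeries (Fin n) k) S ∧ IsCanonical (MvPowerSeries (Fin n) k) C

/-- `(A, 𝔪)` is a Noetherian F-finite normal local domain of characteristic `p` and of dimension `d`,
not `ℚ`-Gorenstein: its completion `S` is a normal domain, and it has a canonical ideal
`C ⊆ Frac A` (a finitely generated submodule such that `C S` is a canonical ideal of `S`) no divisorial
power `1 / (1 / C^n)`, `n ≥ 1`, of which is principal. -/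
structure NonQG (p : ℕ) [Fact p.Prime] (d : ℕ) (A : Type) [CommRing A] [IsDomain A]
    [IsLocalRing A] [CharP A p] : Prop where
  noeth : IsNoetherianRing A
  normal : IsIntegrallyClosed A
  ffin : (frobenius A p).Finite
  dim : ringKrullDim A = d
  canon : ∃ (S : Type) (_ : CommRing S) (_ : IsDomain S) (_ : IsLocalRing S)
    (_ : IsNoetherianRing S) (_ : IsIntegrallyClosed S) (ι : A →+* S)
    (j : FractionRing A →+* FractionRing S) (C : Submodule A (FractionRing A)),
    IsCompletion ι ∧
    (∀ a : A, j (algebraMap A (FractionRing A) a) = algebraMap S (FractionRing S) (ι a)) ∧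
    C.FG ∧ CanonicalIdeal p S (Submodule.span S (j '' (C : Set (FractionRing A)))) ∧ ¬ Tors C

/-- The class of the problem: F-pure local rings which are not `ℚ`-Gorenstein. If the residue field is
finite the condition is also imposed on Nagata's ring `R(Z) = R[Z]_{𝔪 R[Z]}` (`A`). -/
structure InClass (p : ℕ) [Fact p.Prime] (d : ℕ) (R : Type) [CommRing R] [IsDomain R]
    [IsLocalRing R] [CharP R p] : Prop where
  pure : FSplits R p 1
  nonQG : NonQG p d R
  nagata : Infinite (IsLocalRing.ResidueField R) ∨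
    ∃ (h : ((IsLocalRing.maximalIdeal R).map (Polynomial.C : R →+* Polynomial R)).IsPrime)
      (A : Type) (_ : CommRing A) (_ : IsDomain A) (_ : IsLocalRing A) (_ : CharP A p)
      (_ : Algebra (Polynomial R) A),
      @IsLocalization.AtPrime (Polynomial R) _ A _ _ ((IsLocalRing.maximalIdeal R).map
        (Polynomial.C : R →+* Polynomial R)) h ∧ NonQG p d A

theorem ch2 : S_CH2 :=
  Pool.Agent.H249.FT867CH2.ch2 Pool.Agent.H331.FT867PBE.pbe Pool.Agent.H726.FT867COF.cof
    Pool.Agent.H323.FT867EVL.evl Pool.Agent.H215.FTRED.red Pool.Agent.H870.FT867INJ.inj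
    Pool.Agent.H199.FT867.fin Pool.Agent.H695.FT867.pbf Pool.Agent.H722.FT867SEP.sep
    Pool.Agent.H962.FT867DMS.dms

theorem charP_res {p : ℕ} [Fact p.Prime] {A : Type} [CommRing A] [IsLocalRing A] [CharP A p] :
    CharP (IsLocalRing.ResidueField A) p := by
  have h : ((p : ℕ) : IsLocalRing.ResidueField A) = 0 := by
    have := congrArg (IsLocalRing.residue A) (CharP.cast_eq_zero A p)
    rwa [map_natCast, map_zero] at this
  exact (CharP.charP_iff_prime_eq_zero Fact.out).2 h

theorem cartGen3 (hPSF : S_PSF) (p : ℕ) [Fact p.Prime] (k : Type) [Field k] [CharP k p]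
    (hF : (frobenius k p).Finite) (d e : ℕ) : CartGen (MvPowerSeries (Fin d) k) (p ^ e) := by
  obtain ⟨T, h1, h2, h3, -⟩ := hPSF p k hF d e
  exact ⟨T, h1, h2, h3⟩

/-- no canonical ideal of `S` is torsion. -/
theorem not_tors (hPSF : S_PSF) (hFLT : S_FLT) (hDES : S_DES)
    {p : ℕ} [Fact p.Prime] {A S : Type} [CommRing A] [IsDomain A] [IsNoetherianRing A]
    [IsLocalRing A] [CommRing S] [IsDomain S] [IsLocalRing S] [IsNoetherianRing S]
    [IsIntegrallyClosed S] [CharP S p] (ι : A →+* S) (hloc : IsLocalHom ι) (hι : IsCompletion ι)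
    (j : FractionRing A →+* FractionRing S)
    (hj : ∀ a : A, j (algebraMap A (FractionRing A) a) = algebraMap S (FractionRing S) (ι a))
    (C : Submodule A (FractionRing A)) (hfg : C.FG)
    (hcan : CanonicalIdeal p S (Submodule.span S (j '' (C : Set (FractionRing A)))))
    (hnt : ¬ Tors C) (C' : Submodule S (FractionRing S)) (hC' : CanonicalIdeal p S C') :
    ¬ Tors C' := by
  intro hT
  obtain ⟨k₀, l1, l2, n₀, l3, hk₀F, l4, l5, hcan₀⟩ := hcan
  obtain ⟨k, l1', l2', n, l3', hkF, l4', l5', hcan'⟩ := hC'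
  apply hnt
  have hcomp := hι.complete
  let _ : Algebra A S := ι.toAlgebra
  have hflat : Module.Flat A S := hFLT A S hι.dense hι.mem_iff
  have hloc' : IsLocalHom (algebraMap A S) := hloc
  refine hDES A S (FractionRing A) (FractionRing S) j hj C hfg ?_
  have n1 : IsNoetherianRing (MvPowerSeries (Fin n) k) := (Pool.Agent.H719.FT867RES.res k n).1
  have n2 : IsIntegrallyClosed (MvPowerSeries (Fin n) k) := Pool.Agent.H671.FT867PSN.psn k n
  have n3 : IsNoetherianRing (MvPowerSeries (Fin n₀) k₀) :=
    (Pool.Agent.H719.FT867RES.res k₀ n₀).1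
  have n4 : IsIntegrallyClosed (MvPowerSeries (Fin n₀) k₀) := Pool.Agent.H671.FT867PSN.psn k₀ n₀
  exact tors_indep p (P := MvPowerSeries (Fin n₀) k₀) (P' := MvPowerSeries (Fin n) k)
    (cartGen3 hPSF p k₀ hk₀F n₀ 1) (cartGen3 hPSF p k hkF n 1) hcan₀ hcan' hT

/-- the bound for a complete ring. -/
theorem upper_pres (hPSF : S_PSF) (hQBC : S_QBC) {p : ℕ} [Fact p.Prime] {m : ℕ} {S : Type}
    [CommRing S] [IsDomain S] [IsLocalRing S] [IsNoetherianRing S] [IsIntegrallyClosed S]
    [CharP S p] [IsAdicComplete (IsLocalRing.maximalIdeal S) S]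
    (hinf : Infinite (IsLocalRing.ResidueField S)) [CharP (IsLocalRing.ResidueField S) p]
    (hff : (frobenius (IsLocalRing.ResidueField S) p).Finite)
    (hdim : ringKrullDim S = ((m + 2 : ℕ) : WithBot ℕ∞))
    (hnt : ∀ C : Submodule S (FractionRing S), CanonicalIdeal p S C → ¬ Tors C) :
    ∃ c : ℕ, ∀ (e N : ℕ) (f : S), 3 ≤ p ^ e → f ∈ IsLocalRing.maximalIdeal S ^ N →
      FSplits S (p ^ e) f → 2 * N + (p ^ e - 1) ≤ 2 * ((m + 1) * (p ^ e - 1)) + 2 * c := by
  have hbot : IsLocalRing.maximalIdeal S ≠ ⊥ := by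
    intro h
    have hf : IsField S := IsLocalRing.isField_iff_maximalIdeal_eq.2 h
    have := ringKrullDim_eq_zero_of_isField hf
    rw [hdim] at this
    have h3 : m + 2 = 0 := by exact_mod_cast this
    omega
  obtain ⟨k, k1, k2, k3, n, k4, hkF, k5, k6, hsrj, hred, hn, hsep⟩ := ch2 p S hff hbot
  have hnd : n = m + 2 := by
    rw [hdim] at hn
    exact_mod_cast hn.symm
  subst hnd
  have hPK : Function.Injective
      (algebraMap (MvPowerSeries (Fin (m + 2)) k) (FractionRing S)) := by
    rw [IsScalarTower.algebraMap_eq (MvPowerSeries (Fin (m + 2)) k) S (FractionRing S)]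
    exact (IsFractionRing.injective S (FractionRing S)).comp
      (FaithfulSMul.algebraMap_injective (MvPowerSeries (Fin (m + 2)) k) S)
  have hPKf : FaithfulSMul (MvPowerSeries (Fin (m + 2)) k) (FractionRing S) :=
    (faithfulSMul_iff_algebraMap_injective _ _).2 hPK
  let _ : Algebra (FractionRing (MvPowerSeries (Fin (m + 2)) k)) (FractionRing S) :=
    FractionRing.liftAlgebra (MvPowerSeries (Fin (m + 2)) k) (FractionRing S)
  have hst : IsScalarTower (MvPowerSeries (Fin (m + 2)) k)
      (FractionRing (MvPowerSeries (Fin (m + 2)) k)) (FractionRing S) :=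
    FractionRing.isScalarTower_liftAlgebra (MvPowerSeries (Fin (m + 2)) k) (FractionRing S)
  have hsepI : Algebra.IsSeparable (FractionRing (MvPowerSeries (Fin (m + 2)) k))
      (FractionRing S) :=
    hsep (FractionRing (MvPowerSeries (Fin (m + 2)) k)) (FractionRing S)
  exact bound_pres2 hPSF hQBC p k hkF m S (FractionRing (MvPowerSeries (Fin (m + 2)) k))
    (FractionRing S) (fun s => by
      obtain ⟨c, hc⟩ := hsrj s
      exact ⟨_, hc⟩) hred
    (fun C hC => hnt C ⟨k, k1, k3, m + 2, k4, hkF, k5, k6, hC⟩)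

/-- The upper bound for infinite residue fields. -/
theorem upper (hPSF : S_PSF) (hQBC : S_QBC) (hCDM : S_CDM) (hFLT : S_FLT) (hDES : S_DES)
    {p : ℕ} [Fact p.Prime] {d : ℕ} (hd : 2 ≤ d) {A : Type} [CommRing A] [IsDomain A]
    [IsLocalRing A] [CharP A p] (hA : NonQG p d A) (hinf : Infinite (IsLocalRing.ResidueField A))
    {t : ℝ} (ht : FPurePair A p (IsLocalRing.maximalIdeal A) t) : t ≤ (d : ℝ) - 3 / 2 := by
  obtain ⟨hnoe, hnor, hff, hdim, S, i1, i2, i3, i4, i5, ι, j, C, hι, hj, hfg, hcan, hnt⟩ := hA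
  have hcomp := hι.complete
  have hcA : CharP (IsLocalRing.ResidueField A) p := charP_res
  have hff2 := Pool.Agent.H803.FT867FF2.ff2.2 p A hff
  -- `ι` is a local homomorphism
  have hloc : IsLocalHom ι := ⟨fun a ha => by
    by_contra h
    have h1 : a ∈ IsLocalRing.maximalIdeal A := (IsLocalRing.mem_maximalIdeal _).2 h
    have h2 := (hι.mem_iff 1 a).1 (by rwa [pow_one])
    rw [pow_one] at h2
    exact (IsLocalRing.mem_maximalIdeal _).1 h2 ha⟩
  have hcS : CharP S p := by
    have h : ((p : ℕ) : S) = 0 := by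
      have := congrArg ι (CharP.cast_eq_zero A p)
      rwa [map_natCast, map_zero] at this
    exact (CharP.charP_iff_prime_eq_zero Fact.out).2 h
  have hcSr : CharP (IsLocalRing.ResidueField S) p := charP_res
  -- the residue field of `S`
  set r : IsLocalRing.ResidueField A →+* IsLocalRing.ResidueField S :=
    IsLocalRing.ResidueField.map ι with hr
  have hrs : Function.Surjective r := by
    intro y
    obtain ⟨s, rfl⟩ := IsLocalRing.residue_surjective y
    obtain ⟨a, ha⟩ := hι.dense 1 s
    rw [pow_one] at ha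
    refine ⟨IsLocalRing.residue A a, ?_⟩
    rw [hr, IsLocalRing.ResidueField.map_residue]
    have : IsLocalRing.residue S (s - ι a) = 0 := (IsLocalRing.residue_eq_zero_iff _).2 ha
    rw [map_sub, sub_eq_zero] at this
    exact this.symm
  have hinfS : Infinite (IsLocalRing.ResidueField S) := Infinite.of_injective r r.injective
  have hffS : (frobenius (IsLocalRing.ResidueField S) p).Finite := by
    have e1 : (frobenius (IsLocalRing.ResidueField S) p).comp r =
        r.comp (frobenius (IsLocalRing.ResidueField A) p) := by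
      ext a
      simp [frobenius_def]
    have e2 : ((frobenius (IsLocalRing.ResidueField S) p).comp r).Finite := by
      rw [e1]
      exact (RingHom.Finite.of_surjective r hrs).comp hff2
    exact RingHom.Finite.of_comp_finite e2
  obtain ⟨m, rfl⟩ := Nat.exists_eq_add_of_le' hd
  have hdimS : ringKrullDim S = ((m + 2 : ℕ) : WithBot ℕ∞) := by
    rw [hCDM A S ι hι.dense hι.mem_iff, hdim]
  obtain ⟨c, hc⟩ := upper_pres hPSF hQBC hinfS hffS hdimS
    (not_tors hPSF hFLT hDES ι hloc hι j hj C hfg hcan hnt)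
  exact limit_arg hc ι hι ht

end Pool.Agent.H867.FT
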