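import Pool.Agent.H867.FT.Gen2

/-!
# Assembly, part 1: the data attached to a splitting, the inequality in rank `≥ 4`.
-/

namespace Pool.Agent.H867.FT

open Module

/-- The codifferent. -/
def IsCodiff (P R L K : Type) [CommRing P] [CommRing R] [Algebra P R] [Field L]
    [Algebra P L] [Field K] [Algebra R K] [Algebra L K] (C : Submodule R K) : Prop :=
  ∀ y : K, y ∈ C ↔ ∀ r : R, ∃ g : P, algebraMap P L g = Algebra.trace L K (y * algebraMap R K r)

/-- The data attached to a splitting `φ f = 1`, `φ` being `q^{-1}`-linear. -/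
structure SplitData {P R L K : Type} [CommRing P] [CommRing R] [IsLocalRing R] [Algebra P R]
    [Field L] [Algebra P L] [Field K] [Algebra R K] [Algebra P K] [Algebra L K]
    (C : Submodule R K) (q N : ℕ) (f : R) (T : P →+ P) (TL : L →+ L) (β : K) (g D : P) : Prop where
  hq : 1 ≤ q
  cart : IsCartier q T
  cartL : IsCartier q TL
  comp : ∀ g, TL (algebraMap P L g) = algebraMap P L (T g)
  key : ∀ y : K, Algebra.trace L K y = TL (Algebra.trace L K (β * algebraMap R K f * y ^ q))
  hβ : β ≠ 0
  hf : f ≠ 0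
  hN : f ∈ IsLocalRing.maximalIdeal R ^ N
  norm : Algebra.norm L β = algebraMap P L (g * D ^ (q - 1))
  loc : ∀ 𝔭 : Ideal P, 𝔭.IsPrime → 𝔭.height = 1 →
        ∃ c : P, c ∉ 𝔭 ∧ algebraMap P K c * (algebraMap P K g / β) ∈ C ^ (q - 1)
  int : ∀ y ∈ C ^ (q - 1), ∃ r : R, β * y = algebraMap R K r

theorem splitData_of (hBET : S_BET) (hLOB : S_LOB) (hBCN : S_BCN)
    {P R L K : Type} [CommRing P] [IsDomain P] [IsNoetherianRing P]
    [IsIntegrallyClosed P] [CommRing R] [IsDomain R] [IsIntegrallyClosed R] [IsLocalRing R]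
    [Algebra P R] [Module.Finite P R] [Module.Free P R] [Field L]
    [Algebra P L] [IsFractionRing P L]
    [Field K] [Algebra R K] [IsFractionRing R K] [Algebra P K] [IsScalarTower P R K]
    [Algebra L K] [IsScalarTower P L K] [FiniteDimensional L K]
    [Algebra.IsSeparable L K] {ι : Type} [Fintype ι] [DecidableEq ι] (b : Module.Basis ι P R)
    (C : Submodule R K) (hC : IsCodiff P R L K C) (q N : ℕ) (hq : 1 ≤ q)
    (T : P →+ P) (hT : IsCartier q T)
    (hT1 : ∀ ψ : P →+ P, IsCartier q ψ → ∃ u : P, ∀ g, ψ g = T (u * g))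
    (hT2 : ∀ u : P, (∀ g, T (u * g) = 0) → u = 0)
    (f : R) (hN : f ∈ IsLocalRing.maximalIdeal R ^ N) (hf : FSplits R q f) :
    ∃ (TL : L →+ L) (β : K) (g : P), SplitData C q N f T TL β g (Algebra.discr P b) := by
  obtain ⟨φ, hφ, hφf⟩ := hf
  obtain ⟨TL, φK, β, h1, h2, h3, h4, h5, h6⟩ := hBET q P R L K T φ hq hT hT1 hT2 hφ
  have key : ∀ y : K, Algebra.trace L K y =
      TL (Algebra.trace L K (β * algebraMap R K f * y ^ q)) := by
    intro y
    have e1 : φK (y ^ q * algebraMap R K f) = y := by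
      rw [h2, h4, hφf, map_one, mul_one]
    have e2 := h5 (y ^ q * algebraMap R K f)
    rw [e1] at e2
    rw [e2]
    congr 2
    ring
  have hβ : β ≠ 0 := by
    rintro rfl
    have hex : ∃ y : K, Algebra.trace L K y ≠ 0 := by
      by_contra hcon
      push Not at hcon
      exact Algebra.trace_ne_zero L K (LinearMap.ext hcon)
    obtain ⟨y, hy⟩ := hex
    exact hy (by rw [key y, zero_mul, zero_mul, map_zero, map_zero])
  have hf0 : f ≠ 0 := by
    rintro rfl
    rw [map_zero] at hφf
    exact zero_ne_one hφf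
  have hinv : ∀ y ∈ C, β * y ^ q ∈ C := by
    intro y hy
    rw [hC] at hy ⊢
    intro r
    exact h6 y hy r
  obtain ⟨g, hg1, hg2⟩ := hLOB q P R L K ι b C β hq hC hinv hβ
  exact ⟨TL, β, g, hq, hT, h1, h3, key, hβ, hf0, hN, hg1, hg2,
    hBCN q P R L K C β hq hC hinv⟩

/-- A divisorial valuation of log discrepancy `A + 1` centred at the maximal ideal. -/
structure VPack (P L V : Type) [CommRing P] [IsLocalRing P] [Field L] [Algebra P L]
    [CommRing V] [IsDomain V] [Algebra V L] [Algebra P V] (π : P) (A : ℕ) : Prop where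
  irr : Irreducible (algebraMap P V π)
  mem : π ∈ IsLocalRing.maximalIdeal P
  dvd : ∀ g ∈ IsLocalRing.maximalIdeal P, algebraMap P V π ∣ algebraMap P V g
  T : ∀ q, 1 ≤ q → ∀ (T : P →+ P) (TL : L →+ L), IsCartier q T → IsCartier q TL →
      (∀ g, TL (algebraMap P L g) = algebraMap P L (T g)) →
      ∀ v : V, ∃ v' : V,
        TL (algebraMap V L (algebraMap P V π ^ (A * (q - 1)) * v)) = algebraMap V L v'

section W

set_option linter.unusedSectionVars false

variable {P R V L W K : Type} [CommRing P] [IsDomain P] [IsLocalRing P] [IsNoetherianRing P]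
    [CommRing R] [IsDomain R] [IsLocalRing R] [Algebra P R] [Module.Finite P R]
    [CommRing V] [IsDomain V] [IsDiscreteValuationRing V] [Algebra P V] [Field L]
    [Algebra P L] [IsFractionRing P L] [Algebra V L] [IsFractionRing V L] [IsScalarTower P V L]
    [Field K] [Algebra R K] [IsFractionRing R K] [Algebra P K] [IsScalarTower P R K]
    [CommRing W] [IsDomain W] [Algebra V W]
    [Algebra W K] [IsFractionRing W K] [Algebra L K] [Algebra V K] [IsScalarTower V L K]
    [IsScalarTower P L K] [IsScalarTower P V K]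
    [IsScalarTower V W K] [IsIntegralClosure W V K] [FiniteDimensional L K]
    [Algebra.IsSeparable L K]

/-- `δ` generates the different of `W / V`. -/
def IsDiff (V L W K : Type) [CommRing V] [Field L] [Algebra V L] [CommRing W] [Field K]
    [Algebra W K] [Algebra L K] (δ : W) : Prop :=
  ∀ y : K, (∀ w : W, ∃ v : V, algebraMap V L v = Algebra.trace L K (y * algebraMap W K w)) ↔
        ∃ w : W, y * algebraMap W K δ = algebraMap W K w

theorem key_of (hKEY : S_KEY) {C : Submodule R K} {q N A : ℕ} {f : R} {T : P →+ P} {TL : L →+ L}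
    {β : K} {g D : P} (S : SplitData C q N f T TL β g D) {π : P} (hV : VPack P L V π A)
    {δ : W} (hδ0 : δ ≠ 0) (hδ : IsDiff V L W K δ) :
    ∃ w : W, algebraMap W K w * (β * algebraMap R K f) =
      algebraMap W K ((δ * algebraMap V W (algebraMap P V π)) ^ (q - 1) *
        algebraMap V W (algebraMap P V π) ^ (A * (q - 1))) :=
  hKEY V L W K q (A * (q - 1)) (algebraMap P V π) δ TL (β * algebraMap R K f) S.hq hV.irr hδ0 hδ
    S.cartL (hV.T q S.hq T TL S.cart S.cartL S.comp) S.key

theorem kee_of (hKEE : S_KEE) {C : Submodule R K} {q N A : ℕ} {f : R} {T : P →+ P} {TL : L →+ L}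
    {β : K} {g D : P} (S : SplitData C q N f T TL β g D) {π : P} (hV : VPack P L V π A)
    {δ : W} (hδ0 : δ ≠ 0) (hδ : IsDiff V L W K δ) {ρ : W}
    (hρ : ∀ 𝔔 : Ideal W, 𝔔.IsPrime → 𝔔 ≠ ⊥ → ρ ∈ 𝔔) :
    ∃ w : W, algebraMap W K w * (β * algebraMap R K f) =
      algebraMap W K ((δ * ρ) ^ (q - 1) *
        algebraMap V W (algebraMap P V π) ^ (A * (q - 1))) :=
  hKEE V L W K q (A * (q - 1)) (algebraMap P V π) δ ρ TL (β * algebraMap R K f) S.hq hV.irr hδ0 hδ
    hρ S.cartL (hV.T q S.hq T TL S.cart S.cartL S.comp) S.key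

theorem algebraMap_PV (π : P) (n : ℕ) :
    algebraMap P K π ^ n = algebraMap W K (algebraMap V W (algebraMap P V π) ^ n) := by
  rw [map_pow, ← IsScalarTower.algebraMap_apply V W K, ← IsScalarTower.algebraMap_apply P V K]

omit [IsDomain P] [IsLocalRing P] [IsNoetherianRing P] [Algebra P V] [Algebra P L]
  [IsFractionRing P L] [IsScalarTower P V L] [Algebra P K] [IsScalarTower P L K]
  [IsScalarTower P V K] in
theorem norm_W {n : ℕ} {δ : W} {x : V} (bW : Module.Basis (Fin n) V W)
    (h : Algebra.norm V δ = x) :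
    Algebra.norm L (algebraMap W K δ) = algebraMap V L x := by
  have hloc : IsLocalization (Algebra.algebraMapSubmonoid W (nonZeroDivisors V)) K :=
    IsIntegralClosure.isLocalization V L K W
  have : Module.Free V W := Module.Free.of_basis bW
  have : Module.Finite V W := Module.Finite.of_basis bW
  rw [← h]
  exact Algebra.norm_localization V (nonZeroDivisors V) δ

theorem finrank_of {n : ℕ} (bW : Module.Basis (Fin n) V W) : Module.finrank L K = n := by
  have hloc : IsLocalization (Algebra.algebraMapSubmonoid W (nonZeroDivisors V)) K :=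
    IsIntegralClosure.isLocalization V L K W
  rw [Module.finrank_eq_card_basis (bW.localizationLocalization L (nonZeroDivisors V) K),
    Fintype.card_fin]

theorem discr_ne (V L W K : Type) [CommRing V] [IsDomain V] [IsDiscreteValuationRing V] [Field L]
    [Algebra V L] [IsFractionRing V L] [CommRing W] [IsDomain W] [Algebra V W] [Field K]
    [Algebra W K] [IsFractionRing W K] [Algebra L K] [Algebra V K] [IsScalarTower V L K]
    [IsScalarTower V W K] [IsIntegralClosure W V K] [FiniteDimensional L K]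
    [Algebra.IsSeparable L K] {n : ℕ} (bW : Module.Basis (Fin n) V W) :
    Algebra.discr V bW ≠ 0 := by
  have hloc : IsLocalization (Algebra.algebraMapSubmonoid W (nonZeroDivisors V)) K :=
    IsIntegralClosure.isLocalization V L K W
  have h1 := Algebra.discr_not_zero_of_basis L
    (bW.localizationLocalization L (nonZeroDivisors V) K)
  rw [Algebra.discr_localizationLocalization V (nonZeroDivisors V) K bW] at h1
  exact fun h => h1 (by rw [h, map_zero])

theorem norm_V {n : ℕ} (bW : Module.Basis (Fin n) V W) (x : V) :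
    Algebra.norm L (algebraMap W K (algebraMap V W x)) = algebraMap V L (1 * x ^ n) := by
  rw [← IsScalarTower.algebraMap_apply V W K, IsScalarTower.algebraMap_apply V L K,
    Algebra.norm_algebraMap, finrank_of (L := L) (K := K) bW, one_mul, map_pow]

/-- The inequality in rank `m + 1`. -/
theorem ineq_rank (hKEY : S_KEY) (hLAT : S_LAT) (hDIF : S_DIF) (hINQ : S_INQ)
    {C : Submodule R K} {m : ℕ} (b : Module.Basis (Fin (m + 1)) P R)
    (bW : Module.Basis (Fin (m + 1)) V W) {q N A : ℕ} {f : R} {T : P →+ P} {TL : L →+ L}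
    {β : K} {g : P} (S : SplitData C q N f T TL β g (Algebra.discr P b)) {π : P}
    (hV : VPack P L V π A) (hb0 : b 0 = 1)
    (hbj : ∀ j : Fin m, b j.succ ∈ IsLocalRing.maximalIdeal R)
    (hred : ∃ r : ℕ, IsLocalRing.maximalIdeal R ^ (r + 1) =
      (IsLocalRing.maximalIdeal P).map (algebraMap P R) * IsLocalRing.maximalIdeal R ^ r) :
    (m + 1) * N + 2 * m * (q - 1) ≤ (m + 1) * (q - 1) + (m + 1) * (A * (q - 1)) := by
  obtain ⟨δ, hδ0, hδ, ε, hε, hεn⟩ := hDIF V L W K (Fin (m + 1)) bW
  obtain ⟨hl1, μ, hl2, hl3⟩ := hLAT P R V L W K m b bW π δ hb0 hbj hV.irr hV.mem hV.dvd hred hδ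
  obtain ⟨f', hf'⟩ := hl1 N f S.hN
  obtain ⟨w, hw⟩ := key_of hKEY S hV hδ0 hδ
  have hfin : Module.finrank L K = m + 1 := finrank_of bW
  have hD : Algebra.discr V bW ≠ 0 := discr_ne V L W K bW
  refine hINQ V L W K (m + 1) (q - 1) N m (m + 1) (A * (q - 1)) (algebraMap P V π)
    (algebraMap P V g) (Algebra.discr V bW) ε 1 1 μ w δ (algebraMap V W (algebraMap P V π)) f'
    β (algebraMap R K f) hfin hV.irr hε isUnit_one isUnit_one hD S.hβ ?_ hw ?_ ?_ ?_ ?_
  · exact fun h => S.hf ((IsFractionRing.injective R K) (by rw [h, map_zero]))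
  · rw [hf', IsScalarTower.algebraMap_apply P V K]
  · exact norm_W bW hεn
  · exact norm_V bW _
  · rw [S.norm, one_mul, ← hl2, ← map_pow, ← map_mul, ← IsScalarTower.algebraMap_apply P V L]

end W

end Pool.Agent.H867.FT
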