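import Pool.Agent.H867.FT.Core

/-!
# Assembly, part 2: the cubic case (lemmas over the order valuation).
-/

namespace Pool.Agent.H867.FT

open Module

set_option linter.unusedSectionVars false

/-- The linear parts of `y`, `z` are independent. -/
def Ind {P : Type} [CommRing P] [IsLocalRing P] (y z : P) : Prop :=
  ∀ r s : P, r * y + s * z ∈ IsLocalRing.maximalIdeal P ^ 2 →
    r ∈ IsLocalRing.maximalIdeal P ∧ s ∈ IsLocalRing.maximalIdeal P

/-- The properties of `P` used. -/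
structure CubP (P : Type) [CommRing P] [IsLocalRing P] : Prop where
  rgs : ∀ y z : P, y ∈ IsLocalRing.maximalIdeal P → z ∈ IsLocalRing.maximalIdeal P → Ind y z →
    (Ideal.span {y}).IsPrime ∧ (Ideal.span {y, z}).IsPrime
  rho : ∀ a b c d z : P, c ∈ IsLocalRing.maximalIdeal P → z ∈ IsLocalRing.maximalIdeal P →
    a ∈ Ideal.span {c, z} → b ∈ Ideal.span {c, z} →
    d ∈ IsLocalRing.maximalIdeal P * Ideal.span {c, z} →
    (∀ ξ, a * ξ ^ 3 + b * ξ ^ 2 + c * ξ + d ≠ 0) →
    ∃ (ξ ρ : P) (m : ℕ), ξ ∈ IsLocalRing.maximalIdeal P ∧ 1 ≤ m ∧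
      ρ ∉ Ideal.span {c, z} ∧ a * ξ ^ 3 + b * ξ ^ 2 + c * ξ + d = z ^ m * ρ
  units : ∃ l : Fin 4 → P, ∀ i j, i ≠ j → IsUnit (l i - l j)

theorem Ind.symm {P : Type} [CommRing P] [IsLocalRing P] {y z : P} (h : Ind y z) : Ind z y := by
  intro r s hrs
  have := h s r (by rwa [add_comm])
  exact ⟨this.2, this.1⟩

theorem Ind.left {P : Type} [CommRing P] [IsLocalRing P] {y z : P} (h : Ind y z) :
    y ∉ IsLocalRing.maximalIdeal P ^ 2 := by
  intro hy
  have := (h 1 0 (by rwa [one_mul, zero_mul, add_zero])).1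
  exact (Ideal.ne_top_iff_one _).1 (IsLocalRing.maximalIdeal.isMaximal P).ne_top this

theorem Ind.right {P : Type} [CommRing P] [IsLocalRing P] {y z : P} (h : Ind y z) :
    z ∉ IsLocalRing.maximalIdeal P ^ 2 := h.symm.left

theorem Ind.ne_zero {P : Type} [CommRing P] [IsLocalRing P] {y z : P} (h : Ind y z) : y ≠ 0 := by
  rintro rfl
  exact h.left (Ideal.zero_mem _)

/-- all hypotheses (proved separately). -/
structure Lems : Prop where
  key : S_KEY
  kee : S_KEE
  lat : S_LAT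
  dif : S_DIF
  inq : S_INQ
  dsc : S_DSC
  shf : S_SHF
  gor : S_GOR
  nyo : S_NYO
  eon : S_EON
  bnd : S_BND
  bnt : S_BNT
  con : S_CON
  chi : S_CHI
  pla : S_PLA
  plb : S_PLB
  tau : S_TAU
  htn : S_HTN
  dbl : S_DBL
  tor : S_TOR
  trz : S_TRZ
  tro : S_TRO
  ref : S_REF
  pow : S_POW

section W

variable {P R V L W K : Type} [CommRing P] [IsDomain P] [IsLocalRing P] [IsNoetherianRing P]
    [IsIntegrallyClosed P]
    [CommRing R] [IsDomain R] [IsLocalRing R]
    [Algebra P R] [Module.Finite P R] [Module.Free P R]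
    [CommRing V] [IsDomain V] [IsDiscreteValuationRing V] [Algebra P V] [Field L]
    [Algebra P L] [IsFractionRing P L] [Algebra V L] [IsFractionRing V L] [IsScalarTower P V L]
    [Field K] [Algebra R K] [IsFractionRing R K] [Algebra P K] [IsScalarTower P R K]
    [CommRing W] [IsDomain W] [Algebra V W]
    [Algebra W K] [IsFractionRing W K] [Algebra L K] [Algebra V K] [IsScalarTower V L K]
    [IsScalarTower P L K] [IsScalarTower P V K]
    [IsScalarTower V W K] [IsIntegralClosure W V K] [FiniteDimensional L K]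
    [Algebra.IsSeparable L K]

/-- the order valuation -/
def IsOrd (P V : Type) [CommRing P] [IsLocalRing P] [CommRing V] [Algebra P V] (π : P) : Prop :=
  ∀ (g : P) (k : ℕ), g ∈ IsLocalRing.maximalIdeal P ^ k ↔ algebraMap P V π ^ k ∣ algebraMap P V g

theorem ord_one {π a : P} (hirr : Irreducible (algebraMap P V π)) (ho : IsOrd P V π)
    (ha : a ∈ IsLocalRing.maximalIdeal P) (ha2 : a ∉ IsLocalRing.maximalIdeal P ^ 2) :
    ∃ u : V, IsUnit u ∧ algebraMap P V a = algebraMap P V π * u := by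
  have h1 : algebraMap P V π ∣ algebraMap P V a := by
    have := (ho a 1).1 (by rwa [pow_one])
    rwa [pow_one] at this
  obtain ⟨u, hu⟩ := h1
  refine ⟨u, ?_, hu⟩
  by_contra hcon
  apply ha2
  rw [ho, hu, pow_two]
  apply mul_dvd_mul_left
  have hmem : u ∈ IsLocalRing.maximalIdeal V := (IsLocalRing.mem_maximalIdeal u).2 hcon
  rw [(IsDiscreteValuationRing.irreducible_iff_uniformizer _).1 hirr,
    Ideal.mem_span_singleton] at hmem
  exact hmem

/-- `h = β y₀^{q-1}`: the fundamental relations. -/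
theorem core_h (H : Lems)
    {C : Submodule R K} (hC : IsCodiff P R L K C) (b : Module.Basis (Fin 3) P R)
    (bW : Module.Basis (Fin 3) V W) {q N A : ℕ} {f : R} {T : P →+ P} {TL : L →+ L}
    {β : K} {g : P} (S : SplitData C q N f T TL β g (Algebra.discr P b)) {π : P}
    (hV : VPack P L V π A) (ho : IsOrd P V π) (hb0 : b 0 = 1)
    (hbj : ∀ j : Fin 2, b j.succ ∈ IsLocalRing.maximalIdeal R)
    (hred : ∃ r : ℕ, IsLocalRing.maximalIdeal R ^ (r + 1) =
      (IsLocalRing.maximalIdeal P).map (algebraMap P R) * IsLocalRing.maximalIdeal R ^ r)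
    {a b' c d : P} {x y₀ : K} {ω θ : R} (hcub : IsCub L C a b' c d x y₀ ω θ)
    (ha : a ∈ IsLocalRing.maximalIdeal P) (ha2 : a ∉ IsLocalRing.maximalIdeal P ^ 2)
    (hb : b' ∈ IsLocalRing.maximalIdeal P) (hc : c ∈ IsLocalRing.maximalIdeal P)
    (hd : d ∈ IsLocalRing.maximalIdeal P) :
    (∃ xW : W, algebraMap W K xW = x) ∧ β * y₀ ^ (q - 1) ≠ 0 ∧
    (∃ w : W, algebraMap W K w * (β * y₀ ^ (q - 1)) * algebraMap V K (algebraMap P V π) ^ N =
      algebraMap V K (algebraMap P V π) ^ (A * (q - 1))) ∧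
    ∃ ε : V, IsUnit ε ∧ Algebra.norm L (β * y₀ ^ (q - 1)) =
      algebraMap V L (ε * algebraMap P V g * algebraMap P V π ^ (q - 1)) := by
  obtain ⟨δ, hδ0, hδ, ε, hε, hεn⟩ := H.dif V L W K (Fin 3) bW
  obtain ⟨hl1, μ, hl2, hl3⟩ := H.lat P R V L W K 2 b bW π δ hb0 hbj hV.irr hV.mem hV.dvd hred hδ
  obtain ⟨f', hf'⟩ := hl1 N f S.hN
  obtain ⟨w, hw⟩ := key_of H.key S hV hδ0 hδ
  obtain ⟨u, hu, hau⟩ := ord_one hV.irr ho ha ha2
  obtain ⟨hx, w₁, hw₁⟩ := H.eon P R V L W K C a b' c d x y₀ ω θ π δ (finrank_of bW) hC hcub hV.irr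
    ⟨u, hu, hau⟩ (hV.dvd _ hb) (hV.dvd _ hc) (hV.dvd _ hd) hδ0 hδ
  refine ⟨hx, mul_ne_zero S.hβ (pow_ne_zero _ hcub.hy), ⟨w * f' * w₁ ^ (q - 1), ?_⟩, ?_⟩
  · have e1 : algebraMap V K (algebraMap P V π) = algebraMap P K π :=
      (IsScalarTower.algebraMap_apply P V K π).symm
    have e2 : algebraMap W K (algebraMap V W (algebraMap P V π)) = algebraMap P K π := by
      rw [← IsScalarTower.algebraMap_apply V W K, e1]
    rw [e1, map_mul, map_mul, map_pow]
    rw [map_mul, map_pow, map_mul, map_pow, e2, hf'] at hw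
    have e3 : (algebraMap W K w₁ * (algebraMap W K δ * algebraMap P K π * y₀)) ^ (q - 1) = 1 := by
      rw [hw₁, one_pow]
    have e4 := congrArg (fun z => z * (algebraMap W K w₁ * y₀) ^ (q - 1)) hw
    calc algebraMap W K w * algebraMap W K f' * algebraMap W K w₁ ^ (q - 1) *
          (β * y₀ ^ (q - 1)) * algebraMap P K π ^ N
        = algebraMap W K w * (β * (algebraMap P K π ^ N * algebraMap W K f')) *
          (algebraMap W K w₁ * y₀) ^ (q - 1) := by rw [mul_pow]; ring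
      _ = (algebraMap W K δ * algebraMap P K π) ^ (q - 1) * algebraMap P K π ^ (A * (q - 1)) *
          (algebraMap W K w₁ * y₀) ^ (q - 1) := e4
      _ = (algebraMap W K w₁ * (algebraMap W K δ * algebraMap P K π * y₀)) ^ (q - 1) *
          algebraMap P K π ^ (A * (q - 1)) := by rw [mul_pow, mul_pow, mul_pow, mul_pow, mul_pow]; ring
      _ = algebraMap P K π ^ (A * (q - 1)) := by rw [e3, one_mul]
  · obtain ⟨ε', hε', hn⟩ := H.nyo P R L K b C a b' c d x y₀ ω θ hC hcub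
    refine ⟨algebraMap P V ε' ^ (q - 1) * u ^ (q - 1), ?_, ?_⟩
    · exact ((hε'.map (algebraMap P V)).pow _).mul (hu.pow _)
    · rw [map_mul, map_pow, S.norm, map_mul, map_pow]
      have e5 : algebraMap P L g * algebraMap P L (Algebra.discr P b) ^ (q - 1) *
          Algebra.norm L y₀ ^ (q - 1) =
          algebraMap P L g * (Algebra.norm L y₀ * algebraMap P L (Algebra.discr P b)) ^ (q - 1) := by
        rw [mul_pow]; ring
      rw [e5, hn, IsScalarTower.algebraMap_apply P V L g,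
        IsScalarTower.algebraMap_apply P V L (ε' * a), map_mul (algebraMap P V), hau,
        ← map_pow, ← map_mul]
      congr 1
      rw [mul_pow, mul_pow]
      ring

theorem ex_place (V L W K : Type) [CommRing V] [IsDomain V] [IsDiscreteValuationRing V] [Field L]
    [Algebra V L] [IsFractionRing V L] [CommRing W] [IsDomain W] [Algebra V W] [Field K]
    [Algebra W K] [IsFractionRing W K] [Algebra L K] [Algebra V K] [IsScalarTower V L K]
    [IsScalarTower V W K] [IsIntegralClosure W V K] {π : V} (hπ : Irreducible π) :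
    ∃ 𝔔 : Ideal W, 𝔔.IsPrime ∧ algebraMap V W π ∈ 𝔔 := by
  have hint : Algebra.IsIntegral V W := IsIntegralClosure.isIntegral_algebra V K
  have hinj : Function.Injective (algebraMap V W) := by
    have h1 : Function.Injective (algebraMap V K) := by
      rw [IsScalarTower.algebraMap_eq V L K]
      exact (algebraMap L K).injective.comp (IsFractionRing.injective V L)
    rw [IsScalarTower.algebraMap_eq V W K] at h1
    exact Function.Injective.of_comp h1
  obtain ⟨Q, hQ1, hQ2⟩ := Ideal.exists_ideal_over_prime_of_isIntegral_of_isDomain (S := W)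
    (IsLocalRing.maximalIdeal V) (by
      rw [(RingHom.injective_iff_ker_eq_bot _).1 hinj]
      exact bot_le)
  refine ⟨Q, hQ1, ?_⟩
  have : π ∈ Ideal.comap (algebraMap V W) Q := by
    rw [hQ2]
    exact (IsLocalRing.mem_maximalIdeal π).2 hπ.not_isUnit
  exact this

/-- `t` is integral at `𝔔`. -/
def IntAt (W K : Type) [CommRing W] [Field K] [Algebra W K] (𝔔 : Ideal W) (t : K) : Prop :=
  ∃ s r : W, s ∉ 𝔔 ∧ algebraMap W K s * t = algebraMap W K r

theorem intAt_adjoin {𝔔 : Ideal W} (h𝔔 : 𝔔.IsPrime)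
    (hPW : ∀ r : P, ∃ w : W, algebraMap W K w = algebraMap P K r) {χ t : K}
    (hχ : IntAt W K 𝔔 χ) (ht : t ∈ Algebra.adjoin P {χ}) : IntAt W K 𝔔 t := by
  induction ht using Algebra.adjoin_induction with
  | mem x hx =>
    rw [Set.mem_singleton_iff] at hx
    rw [hx]
    exact hχ
  | algebraMap r =>
    obtain ⟨w, hw⟩ := hPW r
    refine ⟨1, w, (Ideal.ne_top_iff_one _).1 h𝔔.ne_top, ?_⟩
    rw [map_one, one_mul, hw]
  | add x y _ _ hx hy =>
    obtain ⟨s, r, hs, hr⟩ := hx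
    obtain ⟨s', r', hs', hr'⟩ := hy
    refine ⟨s * s', s' * r + s * r', fun h => (h𝔔.mem_or_mem h).elim hs hs', ?_⟩
    rw [map_add, map_mul, map_mul, map_mul, ← hr, ← hr']
    ring
  | mul x y _ _ hx hy =>
    obtain ⟨s, r, hs, hr⟩ := hx
    obtain ⟨s', r', hs', hr'⟩ := hy
    refine ⟨s * s', r * r', fun h => (h𝔔.mem_or_mem h).elim hs hs', ?_⟩
    rw [map_mul, map_mul, ← hr, ← hr']
    ring

/-- The set-up: everything that is fixed in the discussion of the cubic case. -/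
structure Setup (C : Submodule R K) (b : Module.Basis (Fin 3) P R)
    (bW : Module.Basis (Fin 3) V W) (q N A : ℕ) (f : R) (T : P →+ P) (TL : L →+ L)
    (β : K) (g : P) (π : P) : Prop where
  hC : IsCodiff P R L K C
  S : SplitData C q N f T TL β g (Algebra.discr P b)
  hV : VPack P L V π A
  ho : IsOrd P V π
  hb0 : b 0 = 1
  hbj : ∀ j : Fin 2, b j.succ ∈ IsLocalRing.maximalIdeal R
  hred : ∃ r : ℕ, IsLocalRing.maximalIdeal R ^ (r + 1) =
      (IsLocalRing.maximalIdeal P).map (algebraMap P R) * IsLocalRing.maximalIdeal R ^ r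
  hq3 : 3 ≤ q

theorem Setup.g_ne {C : Submodule R K} {b : Module.Basis (Fin 3) P R}
    {bW : Module.Basis (Fin 3) V W} {q N A : ℕ} {f : R} {T : P →+ P} {TL : L →+ L}
    {β : K} {g : P} {π : P} (U : Setup C b bW q N A f T TL β g π) : g ≠ 0 := by
  rintro rfl
  have h := U.S.norm
  rw [zero_mul, map_zero, Algebra.norm_eq_zero_iff] at h
  exact U.S.hβ h

/-- one integral place is enough -/
theorem bound_place (H : Lems)
    {C : Submodule R K} {b : Module.Basis (Fin 3) P R}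
    {bW : Module.Basis (Fin 3) V W} {q N A : ℕ} {f : R} {T : P →+ P} {TL : L →+ L}
    {β : K} {g : P} {π : P} (U : Setup C b bW q N A f T TL β g π)
    {a b' c d : P} {x y₀ : K} {ω θ : R} (hcub : IsCub L C a b' c d x y₀ ω θ)
    (ha : a ∈ IsLocalRing.maximalIdeal P) (ha2 : a ∉ IsLocalRing.maximalIdeal P ^ 2)
    (hb : b' ∈ IsLocalRing.maximalIdeal P) (hc : c ∈ IsLocalRing.maximalIdeal P)
    (hd : d ∈ IsLocalRing.maximalIdeal P) {𝔔 : Ideal W} (h𝔔 : 𝔔.IsPrime)
    (hπ : algebraMap V W (algebraMap P V π) ∈ 𝔔)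
    (ht : IntAt W K 𝔔 (algebraMap P K g / (β * y₀ ^ (q - 1)))) :
    2 * N + (q - 1) ≤ 2 * (A * (q - 1)) := by
  obtain ⟨hx, hh0, ⟨w, hw⟩, ε, hε, hn⟩ := core_h H U.hC b bW U.S U.hV U.ho U.hb0 U.hbj U.hred hcub ha
    ha2 hb hc hd
  obtain ⟨s, r, hs, hr⟩ := ht
  have hg : algebraMap P V g ≠ 0 := by
    intro h
    have h2 : algebraMap P L g = 0 := by
      rw [IsScalarTower.algebraMap_apply P V L, h, map_zero]
    exact U.g_ne ((IsFractionRing.injective P L) (by rw [h2, map_zero]))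
  refine H.bnd V L W K (q - 1) N (A * (q - 1)) (algebraMap P V π) (algebraMap P V g) ε w
    (β * y₀ ^ (q - 1)) 𝔔 s r (finrank_of bW) U.hV.irr hε hg hh0 hw hn h𝔔 hπ hs ?_
  rw [← hr, ← IsScalarTower.algebraMap_apply P V K, mul_assoc, div_mul_cancel₀ _ hh0]

theorem hPW (P V W K : Type) [CommRing P] [CommRing V] [Algebra P V] [Field K] [Algebra P K]
    [CommRing W] [Algebra V W] [Algebra W K] [Algebra V K] [IsScalarTower P V K]
    [IsScalarTower V W K] (r : P) : ∃ w : W, algebraMap W K w = algebraMap P K r :=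
  ⟨algebraMap V W (algebraMap P V r), by
    rw [← IsScalarTower.algebraMap_apply V W K, ← IsScalarTower.algebraMap_apply P V K]⟩

/-- `g / h` is locally in `M_n`. -/
theorem loc_Mn (H : Lems)
    {C : Submodule R K} {q N : ℕ} {f : R} {T : P →+ P} {TL : L →+ L}
    {β : K} {g D : P} (S : SplitData C q N f T TL β g D) (hq3 : 3 ≤ q)
    {a b' c d : P} {x y₀ : K} {ω θ : R} (hcub : IsCub L C a b' c d x y₀ ω θ)
    (𝔭 : Ideal P) (h1 : 𝔭.IsPrime) (h2 : 𝔭.height = 1) :
    ∃ s : P, s ∉ 𝔭 ∧ algebraMap P K s * (algebraMap P K g / (β * y₀ ^ (q - 1))) ∈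
      Mn P x (q - 1) := by
  obtain ⟨s, hs, hmem⟩ := S.loc 𝔭 h1 h2
  refine ⟨s, hs, ?_⟩
  rw [H.pow P R K C a b' c d x y₀ ω θ hcub.hy hcub.root hcub.hω hcub.hθ hcub.gen hcub.hC (q - 1)
    (by omega)] at hmem
  obtain ⟨m, hm, hm2⟩ := hmem
  have hy : y₀ ^ (q - 1) ≠ 0 := pow_ne_zero _ hcub.hy
  have : algebraMap P K s * (algebraMap P K g / (β * y₀ ^ (q - 1))) = m := by
    have e1 : algebraMap P K s * (algebraMap P K g / (β * y₀ ^ (q - 1))) =
        (algebraMap P K s * (algebraMap P K g / β)) / y₀ ^ (q - 1) := by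
      rw [← div_div, mul_div_assoc]
    rw [e1, hm2, mul_div_cancel_left₀ _ hy]
  rw [this]
  exact hm

theorem span3 {C : Submodule R K}
    {a b' c d : P} {x y₀ : K} {ω θ : R} (hcub : IsCub L C a b' c d x y₀ ω θ)
    (hfin : Module.finrank L K = 3) (z : K) :
    ∃ l₀ l₁ l₂ : L, z = algebraMap L K l₀ + algebraMap L K l₁ * x + algebraMap L K l₂ * x ^ 2 := by
  have hli : LinearIndependent L (fun i : Fin 3 => x ^ (i : ℕ)) := by
    rw [Fintype.linearIndependent_iff]
    intro g hg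
    have h := hcub.ind (g 0) (g 1) (g 2) (by
      rw [Fin.sum_univ_three] at hg
      simp only [Algebra.smul_def] at hg
      simpa using hg)
    intro i
    fin_cases i
    · exact h.1
    · exact h.2.1
    · exact h.2.2
  have hspan := hli.span_eq_top_of_card_eq_finrank (by rw [hfin]; rfl)
  have hz : z ∈ Submodule.span L (Set.range fun i : Fin 3 => x ^ (i : ℕ)) := by
    rw [hspan]; trivial
  obtain ⟨l, hl⟩ := (Submodule.mem_span_range_iff_exists_fun L).1 hz
  refine ⟨l 0, l 1, l 2, ?_⟩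
  rw [← hl, Fin.sum_univ_three]
  simp only [Algebra.smul_def]
  simp

/-- **Case V.** -/
theorem case_V (H : Lems)
    {C : Submodule R K} {b : Module.Basis (Fin 3) P R}
    {bW : Module.Basis (Fin 3) V W} {q N A : ℕ} {f : R} {T : P →+ P} {TL : L →+ L}
    {β : K} {g : P} {π : P} (U : Setup C b bW q N A f T TL β g π)
    {a b' c d : P} {x y₀ : K} {ω θ : R} (hcub : IsCub L C a b' c d x y₀ ω θ)
    (ha : a ∈ IsLocalRing.maximalIdeal P) (ha2 : a ∉ IsLocalRing.maximalIdeal P ^ 2)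
    (hb : b' ∈ IsLocalRing.maximalIdeal P) (hc : c ∈ IsLocalRing.maximalIdeal P)
    (hd : d ∈ IsLocalRing.maximalIdeal P)
    (l : Fin 3 → P) (hl : ∀ i j, i ≠ j → IsUnit (l i - l j))
    (cc : Fin 3 → P) (hcc : ∀ i, cc i ∈ Ideal.span {a, b', c, d})
    (h0 : cc 0 ≠ 0) (h1 : ∀ u, cc 0 ∣ cc 1 * u → cc 0 ∣ u)
    (h2 : ∀ u, cc 2 * u ∈ Ideal.span {cc 0, cc 1} → u ∈ Ideal.span {cc 0, cc 1}) :
    2 * N + (q - 1) ≤ 2 * (A * (q - 1)) := by
  obtain ⟨⟨xW, hx⟩, -⟩ := core_h H U.hC b bW U.S U.hV U.ho U.hb0 U.hbj U.hred hcub ha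
    ha2 hb hc hd
  have hfin : Module.finrank L K = 3 := finrank_of bW
  have ht := H.ref P L K a b' c d x (q - 1) cc l (by have := U.hq3; omega) hcub.ha hcub.root
    hcub.ind (span3 hcub hfin) hcc h0 h1 h2 hl
    (algebraMap P K g / (β * y₀ ^ (q - 1)))
    (loc_Mn H U.S U.hq3 hcub)
  obtain ⟨𝔔, h𝔔, hπ⟩ := ex_place V L W K U.hV.irr
  refine bound_place H U hcub ha ha2 hb hc hd h𝔔 hπ ?_
  have hx1 : IntAt W K 𝔔 x :=
    ⟨1, xW, (Ideal.ne_top_iff_one _).1 h𝔔.ne_top, by rw [map_one, one_mul, hx]⟩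
  have hp := hPW P V W K
  refine intAt_adjoin (P := P) (W := W) (K := K) h𝔔 hp hx1 ?_
  have hle : Mn P x (q - 1) ≤ Subalgebra.toSubmodule (Algebra.adjoin P {x}) := by
    rw [Submodule.span_le]
    rintro _ ⟨i, rfl⟩
    exact (Algebra.adjoin P {x}).pow_mem (Algebra.subset_adjoin (Set.mem_singleton x)) _
  exact hle ht

end W

end Pool.Agent.H867.FT
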