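import Pool.Agent.H867.FT.Qb

/-!
# Assembly, part 16: the cubic case and all ranks, general residue field.
-/

namespace Pool.Agent.H867.FT

open Module

set_option linter.unusedSectionVars false

section P

variable {P R L K : Type} [CommRing P] [IsDomain P] [IsLocalRing P] [IsNoetherianRing P]
    [IsIntegrallyClosed P]
    [CommRing R] [IsDomain R] [IsLocalRing R] [IsIntegrallyClosed R]
    [Algebra P R] [Module.Finite P R] [Module.Free P R]
    [Field L] [Algebra P L] [IsFractionRing P L]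
    [Field K] [Algebra R K] [IsFractionRing R K] [Algebra P K] [IsScalarTower P R K]
    [Algebra L K] [IsScalarTower P L K] [FiniteDimensional L K]
    [Algebra.IsSeparable L K]

/-- The cubic case when `a ∉ 𝔪²`. -/
theorem cubic_a2 (H : Lems2) (hTR2 : S_TR2) (hTR3 : S_TR3) {d₀ q N : ℕ} (hq : 3 ≤ q) (D : PData d₀ P L)
    (hd1 : 1 ≤ d₀)
    {C : Submodule R K} (hC : IsCodiff P R L K C) (hnt : ¬ Tors C)
    (B : Module.Basis (Fin 3) P R) (hb0 : B 0 = 1)
    (hbj : ∀ j : Fin 2, B j.succ ∈ IsLocalRing.maximalIdeal R)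
    (hred : ∃ r : ℕ, IsLocalRing.maximalIdeal R ^ (r + 1) =
      (IsLocalRing.maximalIdeal P).map (algebraMap P R) * IsLocalRing.maximalIdeal R ^ r)
    {f : R} {T : P →+ P} {TL : L →+ L} {β : K} {g : P}
    (S : SplitData C q N f T TL β g (Algebra.discr P B))
    {a b c d' : P} {x y₀ : K} {ω θ : R} (hcub : IsCub L C a b c d' x y₀ ω θ)
    (ha : a ∈ IsLocalRing.maximalIdeal P) (ha2 : a ∉ IsLocalRing.maximalIdeal P ^ 2)
    (hb : b ∈ IsLocalRing.maximalIdeal P) (hc : c ∈ IsLocalRing.maximalIdeal P)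
    (hd : d' ∈ IsLocalRing.maximalIdeal P)
    (hquad : ∀ (a b c d z : P) (x y₀ : K), Nf L C z a b c d x y₀ →
      a ∈ IsLocalRing.maximalIdeal P → z ∈ IsLocalRing.maximalIdeal P → Ind a z →
      ∀ G : Polynomial P, G.Monic → G.natDegree = 2 →
      (∀ l : P, G.eval l ∉ IsLocalRing.maximalIdeal P) →
      DvdSq G (Polynomial.C a * Polynomial.X ^ 3 + Polynomial.C b * Polynomial.X ^ 2 +
        Polynomial.C c * Polynomial.X + Polynomial.C d) →
      2 * N + (q - 1) ≤ 2 * ((d₀ - 1) * (q - 1))) :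
    2 * N + (q - 1) ≤ 2 * ((d₀ - 1) * (q - 1)) := by
  have hfin : Module.finrank L K = 3 := finrank_of_basis B
  by_cases hall : ∀ z ∈ ({b, c, d'} : Set P),
      z ∈ Ideal.span {a} ⊔ IsLocalRing.maximalIdeal P ^ 2
  · -- weighted order
    obtain ⟨V, i1, i2, i3, i4, i5, i6, i7, π, hV, hwt⟩ := D.wt a ha ha2
    let _ : Algebra V K := ((algebraMap L K).comp (algebraMap V L)).toAlgebra
    have : IsScalarTower V L K := IsScalarTower.of_algebraMap_eq (fun _ => rfl)
    have : IsScalarTower P V K := IsScalarTower.of_algebraMap_eq (fun r => by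
      rw [IsScalarTower.algebraMap_apply P L K, IsScalarTower.algebraMap_apply P V L]
      rfl)
    obtain ⟨W, j1, j2, j3, j4, j5, j6, j7, ⟨bW⟩⟩ := exists_W V L K 3 hfin
    obtain ⟨m, rfl⟩ := Nat.exists_eq_add_of_le hd1
    rw [add_comm 1 m] at hV
    rw [add_tsub_cancel_left]
    refine case_W (W := W) H.toLems H.int bW S hV hb0 hbj hred hcub ?_
    intro y hy
    simp only [Set.mem_insert_iff, Set.mem_singleton_iff] at hy
    rcases hy with rfl | rfl | rfl | rfl
    · exact hwt _ (Ideal.mem_sup_left (Ideal.mem_span_singleton_self _))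
    · exact hwt _ (hall _ (by simp))
    · exact hwt _ (hall _ (by simp))
    · exact hwt _ (hall _ (by simp))
  -- order valuation
  push Not at hall
  obtain ⟨z, hz, hza⟩ := hall
  have hzm : z ∈ IsLocalRing.maximalIdeal P := by
    simp only [Set.mem_insert_iff, Set.mem_singleton_iff] at hz
    rcases hz with rfl | rfl | rfl <;> assumption
  have hind : Ind a z := by
    intro r s hrs
    have hs : s ∈ IsLocalRing.maximalIdeal P := by
      by_contra hs
      obtain ⟨v, hv⟩ := (notMem_iff_isUnit.1 hs).exists_left_inv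
      apply hza
      have e : z = (-(v * r)) * a + v * (r * a + s * z) := by
        linear_combination (-z) * hv
      rw [e]
      exact Ideal.add_mem _ (Ideal.mem_sup_left (Ideal.mul_mem_left _ _
        (Ideal.mem_span_singleton_self _))) (Ideal.mem_sup_right (Ideal.mul_mem_left _ _ hrs))
    refine ⟨?_, hs⟩
    by_contra hr
    obtain ⟨v, hv⟩ := (notMem_iff_isUnit.1 hr).exists_left_inv
    apply ha2
    have e : a = v * ((r * a + s * z) - s * z) := by
      linear_combination (-a) * hv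
    rw [e]
    refine Ideal.mul_mem_left _ _ (Ideal.sub_mem _ hrs ?_)
    rw [pow_two]
    exact Ideal.mul_mem_mul hs hzm
  obtain ⟨V, i1, i2, i3, i4, i5, i6, i7, π, hV, ho⟩ := D.ord
  let _ : Algebra V K := ((algebraMap L K).comp (algebraMap V L)).toAlgebra
  have : IsScalarTower V L K := IsScalarTower.of_algebraMap_eq (fun _ => rfl)
  have : IsScalarTower P V K := IsScalarTower.of_algebraMap_eq (fun r => by
    rw [IsScalarTower.algebraMap_apply P L K, IsScalarTower.algebraMap_apply P V L]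
    rfl)
  obtain ⟨W, j1, j2, j3, j4, j5, j6, j7, ⟨bW⟩⟩ := exists_W V L K 3 hfin
  have U : Setup C B bW q N (d₀ - 1) f T TL β g π := ⟨hC, S, hV, ho, hb0, hbj, hred, hq⟩
  have hzc : z ∈ Ideal.span {a, b, c, d'} := by
    simp only [Set.mem_insert_iff, Set.mem_singleton_iff] at hz
    rcases hz with rfl | rfl | rfl
    · exact Ideal.subset_span (by simp)
    · exact Ideal.subset_span (by simp)
    · exact Ideal.subset_span (by simp)
  by_cases hall2 : ∀ w ∈ ({b, c, d'} : Set P), w ∈ Ideal.span {a, z}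
  · exact main_order2 (W := W) H.toLems hTR2 hTR3 U D.cub ⟨⟨ω, θ, hcub⟩, hall2 _ (by simp), hall2 _ (by simp),
      hall2 _ (by simp), hzc⟩ ha hzm hind hnt
      (hquad _ _ _ _ _ _ _ ⟨⟨ω, θ, hcub⟩, hall2 _ (by simp), hall2 _ (by simp),
        hall2 _ (by simp), hzc⟩ ha hzm hind)
  · push Not at hall2
    obtain ⟨w, hw, hwa⟩ := hall2
    have hwc : w ∈ Ideal.span {a, b, c, d'} := by
      simp only [Set.mem_insert_iff, Set.mem_singleton_iff] at hw
      rcases hw with rfl | rfl | rfl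
      · exact Ideal.subset_span (by simp)
      · exact Ideal.subset_span (by simp)
      · exact Ideal.subset_span (by simp)
    obtain ⟨l, hl⟩ := D.cub.units
    obtain ⟨-, hp2⟩ := D.cub.rgs a z ha hzm hind
    refine case_V (W := W) H.toLems U hcub ha ha2 hb hc hd (fun i => l i.castSucc)
      (fun i j hij => hl _ _ (fun h => hij (Fin.castSucc_injective _ h))) ![a, z, w] ?_ ?_ ?_ ?_
    · intro i
      fin_cases i
      · exact Ideal.subset_span (by simp)
      · exact hzc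
      · exact hwc
    · exact hcub.ha
    · exact reg_of_ind D.cub ha hzm hind
    · intro u hu
      exact (hp2.mem_or_mem hu).resolve_left hwa

theorem cubic2 (H : Lems2) (hTR2 : S_TR2) (hTR3 : S_TR3) {d₀ q N : ℕ} (hq : 3 ≤ q) (D : PData d₀ P L)
    (hd1 : 1 ≤ d₀) (hT : CartGen P q)
    {C : Submodule R K} (hC : IsCodiff P R L K C) (hnt : ¬ Tors C)
    (B : Module.Basis (Fin 3) P R) (hb0 : B 0 = 1)
    (hbj : ∀ j : Fin 2, B j.succ ∈ IsLocalRing.maximalIdeal R)
    (hred : ∃ r : ℕ, IsLocalRing.maximalIdeal R ^ (r + 1) =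
      (IsLocalRing.maximalIdeal P).map (algebraMap P R) * IsLocalRing.maximalIdeal R ^ r)
    {f : R} (hN : f ∈ IsLocalRing.maximalIdeal R ^ N) (hf : FSplits R q f)
    (hquad : ∀ (a b c d z : P) (x y₀ : K), Nf L C z a b c d x y₀ →
      a ∈ IsLocalRing.maximalIdeal P → z ∈ IsLocalRing.maximalIdeal P → Ind a z →
      ∀ G : Polynomial P, G.Monic → G.natDegree = 2 →
      (∀ l : P, G.eval l ∉ IsLocalRing.maximalIdeal P) →
      DvdSq G (Polynomial.C a * Polynomial.X ^ 3 + Polynomial.C b * Polynomial.X ^ 2 +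
        Polynomial.C c * Polynomial.X + Polynomial.C d) →
      2 * N + (q - 1) ≤ 2 * ((d₀ - 1) * (q - 1))) :
    2 * N + (q - 1) ≤ 2 * ((d₀ - 1) * (q - 1)) := by
  obtain ⟨T, hT1, hT2, hT3⟩ := hT
  obtain ⟨TL, β, g, S⟩ := splitData_of H.bet H.lob H.bcn B C hC q N (by omega) T hT1 hT2 hT3 f hN hf
  have hfin : Module.finrank L K = 3 := finrank_of_basis B
  obtain ⟨a, b, c, d', x, y₀, ω, θ, h1, h2, h3, h4, h5, h6, h7, h8⟩ :=
    H.cubS P R L K B C hb0 hC
  have hcub : IsCub L C a b c d' x y₀ ω θ := ⟨h1, h2, h3, h4, h5, h6, h7, h8⟩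
  obtain ⟨l, hl⟩ := D.cub.units
  by_cases hunit : IsUnit a ∨ IsUnit b ∨ IsUnit c ∨ IsUnit d'
  · exfalso
    obtain ⟨y, hy, hCy⟩ := H.gor P R L K C a b c d' x y₀ ω θ l hl hcub hunit
    exact hnt (tors_of_principal H.tor hy hCy P)
  push Not at hunit
  obtain ⟨ua, ub, uc, ud⟩ := hunit
  have hm : ∀ {r : P}, ¬ IsUnit r → r ∈ IsLocalRing.maximalIdeal P := fun h => by
    by_contra hcon
    exact h (notMem_iff_isUnit.1 hcon)
  have ha := hm ua
  have hb := hm ub
  have hc := hm uc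
  have hd := hm ud
  by_cases hall : ∀ i, a * l i ^ 3 + b * l i ^ 2 + c * l i + d' ∈ IsLocalRing.maximalIdeal P ^ 2
  · -- all coefficients in `𝔪²`
    obtain ⟨ha2, hb2, hc2, hd2⟩ := vander l hl hall
    obtain ⟨V₀, i1, i2, i3, i4, i5, i6, i7, π₀, hV₀, ho₀⟩ := D.ord
    have hπ₀ : π₀ ∉ IsLocalRing.maximalIdeal P ^ 2 := by
      intro hcon
      rw [ho₀] at hcon
      obtain ⟨u, hu⟩ := hcon
      have h0 : algebraMap P V₀ π₀ ≠ 0 := hV₀.irr.ne_zero
      have h1 : algebraMap P V₀ π₀ * (algebraMap P V₀ π₀ * u) = algebraMap P V₀ π₀ * 1 := by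
        rw [mul_one]
        nth_rewrite 3 [hu]
        ring
      exact hV₀.irr.not_isUnit (IsUnit.of_mul_eq_one _ (mul_left_cancel₀ h0 h1))
    obtain ⟨V, i1, i2, i3, i4, i5, i6, i7, π, hV, hwt⟩ := D.wt π₀ hV₀.mem hπ₀
    let _ : Algebra V K := ((algebraMap L K).comp (algebraMap V L)).toAlgebra
    have : IsScalarTower V L K := IsScalarTower.of_algebraMap_eq (fun _ => rfl)
    have : IsScalarTower P V K := IsScalarTower.of_algebraMap_eq (fun r => by
      rw [IsScalarTower.algebraMap_apply P L K, IsScalarTower.algebraMap_apply P V L]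
      rfl)
    obtain ⟨W, j1, j2, j3, j4, j5, j6, j7, ⟨bW⟩⟩ := exists_W V L K 3 hfin
    obtain ⟨m, rfl⟩ := Nat.exists_eq_add_of_le hd1
    rw [add_comm 1 m] at hV
    rw [add_tsub_cancel_left]
    refine case_W (W := W) H.toLems H.int bW S hV hb0 hbj hred hcub ?_
    intro y hy
    simp only [Set.mem_insert_iff, Set.mem_singleton_iff] at hy
    rcases hy with rfl | rfl | rfl | rfl
    · exact hwt _ (Ideal.mem_sup_right ha2)
    · exact hwt _ (Ideal.mem_sup_right hb2)
    · exact hwt _ (Ideal.mem_sup_right hc2)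
    · exact hwt _ (Ideal.mem_sup_right hd2)
  · push Not at hall
    obtain ⟨i, hi⟩ := hall
    obtain ⟨ω', θ', hcub'⟩ := (H.shf P R L K C a b c d' x y₀ ω θ hcub).1 (l i)
    obtain ⟨-, -, -, ω'', θ'', hcub''⟩ := H.shf P R L K C _ _ _ _ _ _ ω' θ' hcub'
    refine cubic_a2 H hTR2 hTR3 hq D hd1 hC hnt B hb0 hbj hred S hcub'' ?_ hi ?_ ?_ ha hquad
    · exact Ideal.add_mem _ (Ideal.add_mem _ (Ideal.add_mem _ (Ideal.mul_mem_right _ _ ha)
        (Ideal.mul_mem_right _ _ hb)) (Ideal.mul_mem_right _ _ hc)) hd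
    · exact Ideal.add_mem _ (Ideal.add_mem _ hc (Ideal.mul_mem_right _ _
        (Ideal.mul_mem_left _ _ hb))) (Ideal.mul_mem_right _ _ (Ideal.mul_mem_left _ _ ha))
    · exact Ideal.add_mem _ hb (Ideal.mul_mem_right _ _ (Ideal.mul_mem_left _ _ ha))

/-- The bound for a Cohen–Macaulay ring. -/
theorem bound_cm2 (H : Lems2) (hTR2 : S_TR2) (hTR3 : S_TR3) (hBAS : S_BAS) {d₀ q N : ℕ} (hq : 3 ≤ q)
    (D : PData d₀ P L) [FaithfulSMul P R]
    (hsrj : ∀ r : R, ∃ g : P, r - algebraMap P R g ∈ IsLocalRing.maximalIdeal R)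
    (hd1 : 1 ≤ d₀) (hT : CartGen P q)
    {C : Submodule R K} (hC : IsCodiff P R L K C) (hnt : ¬ Tors C)
    (hred : ∃ r : ℕ, IsLocalRing.maximalIdeal R ^ (r + 1) =
      (IsLocalRing.maximalIdeal P).map (algebraMap P R) * IsLocalRing.maximalIdeal R ^ r)
    {f : R} (hN : f ∈ IsLocalRing.maximalIdeal R ^ N) (hf : FSplits R q f)
    (hquad : ∀ (a b c d z : P) (x y₀ : K), Nf L C z a b c d x y₀ →
      a ∈ IsLocalRing.maximalIdeal P → z ∈ IsLocalRing.maximalIdeal P → Ind a z →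
      ∀ G : Polynomial P, G.Monic → G.natDegree = 2 →
      (∀ l : P, G.eval l ∉ IsLocalRing.maximalIdeal P) →
      DvdSq G (Polynomial.C a * Polynomial.X ^ 3 + Polynomial.C b * Polynomial.X ^ 2 +
        Polynomial.C c * Polynomial.X + Polynomial.C d) →
      2 * N + (q - 1) ≤ 2 * ((d₀ - 1) * (q - 1))) :
    2 * N + (q - 1) ≤ 2 * ((d₀ - 1) * (q - 1)) := by
  obtain ⟨m, B, hb0, hbj⟩ := hBAS P R hsrj
  by_cases hm1 : m ≤ 1
  · exfalso
    obtain ⟨y, hy, hCy⟩ := H.rk2 m P R L K B C hb0 hm1 hC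
    exact hnt (tors_of_principal H.tor hy hCy P)
  by_cases hm2 : m = 2
  · subst hm2
    exact cubic2 H hTR2 hTR3 hq D hd1 hT hC hnt B hb0 hbj hred hN hf hquad
  have hm3 : 3 ≤ m := by omega
  obtain ⟨T, hT1, hT2, hT3⟩ := hT
  obtain ⟨TL, β, g, S⟩ := splitData_of H.bet H.lob H.bcn B C hC q N (by omega) T hT1 hT2 hT3 f hN hf
  have hfin : Module.finrank L K = m + 1 := finrank_of_basis B
  obtain ⟨V, i1, i2, i3, i4, i5, i6, i7, π, hV, ho⟩ := D.ord
  let _ : Algebra V K := ((algebraMap L K).comp (algebraMap V L)).toAlgebra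
  have : IsScalarTower V L K := IsScalarTower.of_algebraMap_eq (fun _ => rfl)
  have : IsScalarTower P V K := IsScalarTower.of_algebraMap_eq (fun r => by
    rw [IsScalarTower.algebraMap_apply P L K, IsScalarTower.algebraMap_apply P V L]
    rfl)
  obtain ⟨W, j1, j2, j3, j4, j5, j6, j7, ⟨bW⟩⟩ := exists_W V L K (m + 1) hfin
  exact rank_arith hm3 (ineq_rank (W := W) H.key H.lat H.dif H.inq B bW S hV hb0 hbj hred)

end P

end Pool.Agent.H867.FT
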