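import Pool.Agent.H867.FT.Cub

/-!
# Assembly, part 3: the cubic case, the individual cases.
-/

namespace Pool.Agent.H867.FT

open Module

set_option linter.unusedSectionVars false

section W

variable {P R V L W K : Type} [CommRing P] [IsDomain P] [IsLocalRing P] [IsNoetherianRing P]
    [IsIntegrallyClosed P]
    [CommRing R] [IsDomain R] [IsLocalRing R]
    [Algebra P R] [Module.Finite P R] [Module.Free P R]
    [CommRing V] [IsDomain V] [IsDiscreteValuationRing V] [Algebra P V] [Field L]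
    [Algebra P L] [IsFractionRing P L] [Algebra V L] [IsFractionRing V L] [IsScalarTower P V L]
    [Field K] [Algebra R K] [IsFractionRing R K] [Algebra P K] [IsScalarTower P R K]
    [CommRing W] [IsDomain W] [Algebra V W]
    [Algebra W K] [IsFractionRing W K] [Algebra L K] [Algebra V K] [IsScalarTower V L K]
    [IsScalarTower P L K] [IsScalarTower P V K]
    [IsScalarTower V W K] [IsIntegralClosure W V K] [FiniteDimensional L K]
    [Algebra.IsSeparable L K]

theorem mem_Mn_of_le {x : K} {n : ℕ} {t : K} {u : P} {j k : ℕ} (hjk : j ≤ k)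
    (h : algebraMap P K (u ^ j) * t ∈ Mn P x n) : algebraMap P K (u ^ k) * t ∈ Mn P x n := by
  obtain ⟨m, rfl⟩ := Nat.exists_eq_add_of_le hjk
  have : algebraMap P K (u ^ (j + m)) * t = u ^ m • (algebraMap P K (u ^ j) * t) := by
    rw [Algebra.smul_def, pow_add, map_mul]
    ring
  rw [this]
  exact Submodule.smul_mem _ _ h

/-- **Case CHI.** -/
theorem case_CHI (H : Lems)
    {C : Submodule R K} {b : Module.Basis (Fin 3) P R}
    {bW : Module.Basis (Fin 3) V W} {q N A : ℕ} {f : R} {T : P →+ P} {TL : L →+ L}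
    {β : K} {g : P} {π : P} (U : Setup C b bW q N A f T TL β g π) (hP : CubP P)
    {a b' c z ρ : P} {k : ℕ} {x y₀ : K} {ω θ : R}
    (hcub : IsCub L C a b' c (z ^ k * ρ) x y₀ ω θ)
    (ha : a ∈ IsLocalRing.maximalIdeal P) (ha2 : a ∉ IsLocalRing.maximalIdeal P ^ 2)
    (hb : b' ∈ IsLocalRing.maximalIdeal P) (hc : c ∈ IsLocalRing.maximalIdeal P)
    (hz : z ∈ IsLocalRing.maximalIdeal P) (hρ : ρ ∈ IsLocalRing.maximalIdeal P)
    (hk : 1 ≤ k) (hind : Ind c z) (hρ2 : ρ ∉ Ideal.span {c, z})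
    (hzc : z ∈ Ideal.span {a, b', c, z ^ k * ρ}) :
    2 * N + (q - 1) ≤ 2 * (A * (q - 1)) := by
  have hd : z ^ k * ρ ∈ IsLocalRing.maximalIdeal P := Ideal.mul_mem_left _ _ hρ
  obtain ⟨⟨xW, hx⟩, -⟩ := core_h H U.hC b bW U.S U.hV U.ho U.hb0 U.hbj U.hred hcub ha
    ha2 hb hc hd
  have hfin : Module.finrank L K = 3 := finrank_of bW
  obtain ⟨l, hl⟩ := hP.units
  have hl3 : ∀ i j : Fin 3, i ≠ j → IsUnit (l i.castSucc - l j.castSucc) := fun i j hij =>
    hl _ _ (fun h => hij (Fin.castSucc_injective _ h))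
  set t : K := algebraMap P K g / (β * y₀ ^ (q - 1)) with ht
  have hcon := H.con P L K a b' c (z ^ k * ρ) x (q - 1) (fun i => l i.castSucc)
    (by have := U.hq3; omega) hcub.ha hcub.root hcub.ind (span3 hcub hfin) hl3 t
    (loc_Mn H U.S U.hq3 hcub)
  obtain ⟨j₁, hj₁⟩ := hcon z hzc
  obtain ⟨j₂, hj₂⟩ := hcon c (Ideal.subset_span (by simp))
  have hz0 : z ≠ 0 := hind.symm.ne_zero
  have hc0 : c ≠ 0 := hind.ne_zero
  obtain ⟨hpc, hpcz⟩ := hP.rgs c z hc hz hind
  obtain ⟨hpz, -⟩ := hP.rgs z c hz hc hind.symm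
  have hPK : Function.Injective (algebraMap P K) := by
    rw [IsScalarTower.algebraMap_eq P L K]
    exact (algebraMap L K).injective.comp (IsFractionRing.injective P L)
  have hcz : c ∉ Ideal.span {z} := by
    intro h
    obtain ⟨r, hr⟩ := Ideal.mem_span_singleton'.1 h
    have h1 := (hind 1 (-r) (by rw [one_mul, ← hr, neg_mul, add_neg_cancel]; exact Ideal.zero_mem _)).1
    exact (Ideal.ne_top_iff_one _).1 (IsLocalRing.maximalIdeal.isMaximal P).ne_top h1
  have h1 : ∀ u, z ∣ c * u → z ∣ u := by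
    intro u hu
    rw [← Ideal.mem_span_singleton] at hu ⊢
    exact (hpz.mem_or_mem hu).resolve_left hcz
  have h2 : ∀ u, c ∣ ρ * u → c ∣ u := by
    intro u hu
    rw [← Ideal.mem_span_singleton] at hu ⊢
    refine (hpc.mem_or_mem hu).resolve_left (fun h => hρ2 ?_)
    exact Ideal.span_mono (by simp) h
  have h3 : ∀ u, ρ * u ∈ Ideal.span {c, z} → u ∈ Ideal.span {c, z} := fun u hu =>
    (hpcz.mem_or_mem hu).resolve_left hρ2
  have hzk : algebraMap P K (z ^ k) ≠ 0 := by
    rw [map_pow]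
    exact pow_ne_zero _ (fun h => hz0 (hPK (by rw [h, map_zero])))
  set χ : K := x / algebraMap P K (z ^ k) with hχ
  have hχ1 : algebraMap P K (z ^ k) * χ = x := by rw [hχ, mul_div_cancel₀ _ hzk]
  have hmem := H.chi P L K a b' c z ρ k (q - 1) (max j₁ j₂) x χ t hk hcub.ha hz0 hc0 hcub.root
    hcub.ind h1 h2 h3 hχ1 (mem_Mn_of_le (le_max_left _ _) hj₁) (mem_Mn_of_le (le_max_right _ _) hj₂)
  -- the place
  obtain ⟨a', ha', haa⟩ := ord_one U.hV.irr U.ho ha ha2
  obtain ⟨c', hc', hcc⟩ := ord_one U.hV.irr U.ho hc hind.left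
  obtain ⟨b'', hbb⟩ := U.hV.dvd _ hb
  obtain ⟨ρ', hρρ⟩ := U.hV.dvd _ hρ
  have hπ0 : algebraMap P V π ≠ 0 := U.hV.irr.ne_zero
  have hinjWK : Function.Injective (algebraMap W K) := IsFractionRing.injective W K
  have hPV : ∀ r : P, algebraMap P K r = algebraMap W K (algebraMap V W (algebraMap P V r)) := by
    intro r
    rw [← IsScalarTower.algebraMap_apply V W K, ← IsScalarTower.algebraMap_apply P V K]
  have hVK : Function.Injective (algebraMap V K) := by
    rw [IsScalarTower.algebraMap_eq V L K]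
    exact (algebraMap L K).injective.comp (IsFractionRing.injective V L)
  have hVW : Function.Injective (algebraMap V W) := by
    rw [IsScalarTower.algebraMap_eq V W K] at hVK
    exact Function.Injective.of_comp hVK
  have hroot : algebraMap V W a' * xW ^ 3 + algebraMap V W b'' * xW ^ 2 +
      algebraMap V W c' * xW + algebraMap V W (algebraMap P V z ^ k * ρ') = 0 := by
    have h := hcub.root
    rw [← hx, hPV a, hPV b', hPV c, hPV (z ^ k * ρ), haa, hbb, hcc, map_mul (algebraMap P V),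
      map_pow (algebraMap P V), hρρ] at h
    have h' : algebraMap V W (algebraMap P V π) * (algebraMap V W a' * xW ^ 3 +
        algebraMap V W b'' * xW ^ 2 + algebraMap V W c' * xW +
        algebraMap V W (algebraMap P V z ^ k * ρ')) = 0 := by
      apply hinjWK
      rw [map_zero, ← h]
      simp only [map_mul, map_add, map_pow]
      ring
    rcases mul_eq_zero.1 h' with h4 | h4
    · exact absurd (hVW (by rw [h4, map_zero])) hπ0
    · exact h4
  have hz1 : algebraMap P V z ≠ 0 := by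
    intro h
    apply hz0
    apply IsFractionRing.injective P L
    rw [IsScalarTower.algebraMap_apply P V L, h, map_zero, map_zero]
  obtain ⟨𝔔, s, r, h𝔔, hπ𝔔, hs, hr⟩ := H.pla V L W K (algebraMap P V π) a' b'' c'
    (algebraMap P V z) ρ' k xW χ hfin U.hV.irr hk ha' hc' hz1 (U.hV.dvd _ hz) hroot
    (by rw [hx]; exact hcub.ind)
    (by rw [hx, ← IsScalarTower.algebraMap_apply P V K, ← map_pow, hχ1])
  refine bound_place H U hcub ha ha2 hb hc hd h𝔔 hπ𝔔 ?_
  have hp := hPW P V W K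
  exact intAt_adjoin (P := P) (W := W) (K := K) h𝔔 hp ⟨s, r, hs, hr⟩ hmem

/-- The norm inequality for a cubic ring. -/
theorem ineq_core (H : Lems)
    {C : Submodule R K} {b : Module.Basis (Fin 3) P R}
    (bW : Module.Basis (Fin 3) V W) {q N A : ℕ} {f : R} {T : P →+ P} {TL : L →+ L}
    {β : K} {g : P} (S : SplitData C q N f T TL β g (Algebra.discr P b)) {π : P}
    (hV : VPack P L V π A) (hb0 : b 0 = 1)
    (hbj : ∀ j : Fin 2, b j.succ ∈ IsLocalRing.maximalIdeal R)
    (hred : ∃ r : ℕ, IsLocalRing.maximalIdeal R ^ (r + 1) =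
      (IsLocalRing.maximalIdeal P).map (algebraMap P R) * IsLocalRing.maximalIdeal R ^ r)
    {ω θ : R} (hgen : ∀ r : R, ∃ r₀ r₁ r₂ : P, r = algebraMap P R r₀ + r₁ • ω + r₂ • θ)
    {i j r : ℕ} {w₁ w₂ w δ ρ : W} {ε ε₂ : V} (hδ : IsDiff V L W K δ) (hε : IsUnit ε)
    (hεn : Algebra.norm V δ = ε * Algebra.discr V bW)
    (hw : algebraMap W K w * (β * algebraMap R K f) =
      algebraMap W K ((δ * ρ) ^ (q - 1) *
        algebraMap V W (algebraMap P V π) ^ (A * (q - 1))))
    (hε₂ : IsUnit ε₂)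
    (hρ : Algebra.norm L (algebraMap W K ρ) = algebraMap V L (ε₂ * algebraMap P V π ^ r))
    (hω : algebraMap R K ω = algebraMap P K π ^ i * algebraMap W K w₁)
    (hθ : algebraMap R K θ = algebraMap P K π ^ j * algebraMap W K w₂) :
    3 * N + 2 * (i + j) * (q - 1) ≤ r * (q - 1) + 3 * (A * (q - 1)) := by
  obtain ⟨hl1, -⟩ := H.lat P R V L W K 2 b bW π δ hb0 hbj hV.irr hV.mem hV.dvd hred hδ
  obtain ⟨f', hf'⟩ := hl1 N f S.hN
  obtain ⟨μ, ε₃, hε₃, hd⟩ := H.dsc P R V L W K b bW ω θ π i j w₁ w₂ hgen hω hθ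
  refine H.inq V L W K 3 (q - 1) N (i + j) r (A * (q - 1)) (algebraMap P V π)
    (algebraMap P V g) (Algebra.discr V bW) ε ε₂ ε₃ μ w δ ρ f'
    β (algebraMap R K f) (finrank_of bW) hV.irr hε hε₂ hε₃ (discr_ne V L W K bW) S.hβ ?_ hw ?_ ?_
    hρ ?_
  · exact fun h => S.hf ((IsFractionRing.injective R K) (by rw [h, map_zero]))
  · rw [hf', IsScalarTower.algebraMap_apply P V K]
  · exact norm_W bW hεn
  · rw [S.norm, ← hd, ← map_pow, ← map_mul, ← IsScalarTower.algebraMap_apply P V L]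

/-- **Case DBL.** -/
theorem case_DBL (H : Lems)
    {C : Submodule R K} {b : Module.Basis (Fin 3) P R}
    {bW : Module.Basis (Fin 3) V W} {q N A : ℕ} {f : R} {T : P →+ P} {TL : L →+ L}
    {β : K} {g : P} {π : P} (U : Setup C b bW q N A f T TL β g π)
    {a b' c d : P} {x y₀ : K} {ω θ : R} (hcub : IsCub L C a b' c d x y₀ ω θ)
    (ha : a ∈ IsLocalRing.maximalIdeal P) (ha2 : a ∉ IsLocalRing.maximalIdeal P ^ 2)
    (hb : b' ∈ IsLocalRing.maximalIdeal P) (hc : c ∈ IsLocalRing.maximalIdeal P ^ 2)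
    (hd : d ∈ IsLocalRing.maximalIdeal P ^ 2) :
    2 * N + (q - 1) ≤ 2 * (A * (q - 1)) := by
  obtain ⟨⟨xW, hx⟩, -⟩ := core_h H U.hC b bW U.S U.hV U.ho U.hb0 U.hbj U.hred hcub ha
    ha2 hb (Ideal.pow_le_self (by norm_num) hc) (Ideal.pow_le_self (by norm_num) hd)
  obtain ⟨δ, hδ0, hδ, ε, hε, hεn⟩ := H.dif V L W K (Fin 3) bW
  obtain ⟨a', ha', haa⟩ := ord_one U.hV.irr U.ho ha ha2
  obtain ⟨b'', hbb⟩ := U.hV.dvd _ hb
  obtain ⟨c', hcc⟩ := (U.ho c 2).1 hc
  obtain ⟨d', hdd⟩ := (U.ho d 2).1 hd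
  have hinjWK : Function.Injective (algebraMap W K) := IsFractionRing.injective W K
  have hPV : ∀ r : P, algebraMap P K r = algebraMap W K (algebraMap V W (algebraMap P V r)) := by
    intro r
    rw [← IsScalarTower.algebraMap_apply V W K, ← IsScalarTower.algebraMap_apply P V K]
  have hroot : algebraMap V W (algebraMap P V π * a') * xW ^ 3 +
      algebraMap V W (algebraMap P V π * b'') * xW ^ 2 +
      algebraMap V W (algebraMap P V π ^ 2 * c') * xW + algebraMap V W (algebraMap P V d) = 0 := by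
    apply hinjWK
    rw [map_zero, ← hcub.root, ← hx, hPV a, hPV b', hPV c, hPV d, haa, hbb, hcc]
    simp only [map_mul, map_add, map_pow]
  have hθW : algebraMap R K θ = algebraMap W K (algebraMap V W (algebraMap P V π * a') * xW ^ 2 +
      algebraMap V W (algebraMap P V π * b'') * xW +
      algebraMap V W (algebraMap P V π ^ 2 * c')) := by
    rw [hcub.hθ, ← hx, hPV a, hPV b', hPV c, haa, hbb, hcc]
    simp only [map_mul, map_add, map_pow]
  have hωW : algebraMap R K ω = algebraMap P K π ^ 1 * algebraMap W K (algebraMap V W a' * xW) := by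
    rw [hcub.hω, ← hx, hPV a, hPV π, haa]
    simp only [map_mul, pow_one]
    ring
  obtain ⟨h1, h2⟩ := H.dbl V L W K (algebraMap P V π) a' b'' c' (algebraMap P V d) xW
    (finrank_of bW) U.hV.irr ha' hroot (by rw [hx]; exact hcub.ind)
  by_cases h3 : algebraMap P V π ^ 3 ∣ algebraMap P V d
  · obtain ⟨u, hu⟩ := h1 h3
    obtain ⟨w, hw⟩ := key_of H.key U.S U.hV hδ0 hδ
    have hθ2 : algebraMap R K θ = algebraMap P K π ^ 2 * algebraMap W K u := by
      rw [hθW, hu, hPV π]
      simp only [map_mul, map_pow]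
    have := ineq_core H bW U.S U.hV U.hb0 U.hbj U.hred hcub.gen hδ hε hεn hw isUnit_one
      (norm_V bW _) hωW hθ2
    generalize A * (q - 1) = M at *
    omega
  · have hd' : IsUnit d' := by
      by_contra hcon
      apply h3
      have hmem : d' ∈ IsLocalRing.maximalIdeal V := (IsLocalRing.mem_maximalIdeal d').2 hcon
      rw [(IsDiscreteValuationRing.irreducible_iff_uniformizer _).1 U.hV.irr,
        Ideal.mem_span_singleton] at hmem
      rw [hdd, pow_succ]
      exact mul_dvd_mul_left _ hmem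
    obtain ⟨u, ε₂, hu1, hu2, hε₂, hu3⟩ := h2 d' hd' hdd
    obtain ⟨w, hw⟩ := kee_of H.kee U.S U.hV hδ0 hδ hu2
    have hθ2 : algebraMap R K θ = algebraMap P K π ^ 1 * algebraMap W K u := by
      rw [hθW, hu1, hPV π]
      simp only [map_mul, pow_one]
    have := ineq_core H bW U.S U.hV U.hb0 U.hbj U.hred hcub.gen hδ hε hεn hw hε₂
      hu3 hωW hθ2
    generalize A * (q - 1) = M at *
    omega

theorem hRW (P R V W K : Type) [CommRing P] [CommRing R] [Algebra P R] [Module.Finite P R]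
    [CommRing V] [Algebra P V] [Field K] [Algebra P K] [Algebra R K] [IsScalarTower P R K]
    [CommRing W] [Algebra V W] [Algebra W K] [Algebra V K] [IsScalarTower P V K]
    [IsScalarTower V W K] [IsIntegralClosure W V K] (r : R) :
    ∃ w : W, algebraMap W K w = algebraMap R K r := by
  have h1 : IsIntegral P (algebraMap R K r) :=
    (Algebra.IsIntegral.isIntegral (R := P) r).map (IsScalarTower.toAlgHom P R K)
  have h2 : IsIntegral V (algebraMap R K r) := h1.tower_top
  exact (IsIntegralClosure.isIntegral_iff (A := W)).1 h2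

/-- **Case TAU.** -/
theorem case_TAU (H : Lems)
    {C : Submodule R K} {b : Module.Basis (Fin 3) P R}
    {bW : Module.Basis (Fin 3) V W} {q N A : ℕ} {f : R} {T : P →+ P} {TL : L →+ L}
    {β : K} {g : P} {π : P} (U : Setup C b bW q N A f T TL β g π) (hP : CubP P)
    {a b' c d lam : P} {x y₀ : K} {ω θ : R} (hcub : IsCub L C a b' c d x y₀ ω θ)
    (ha : a ∈ IsLocalRing.maximalIdeal P) (ha2 : a ∉ IsLocalRing.maximalIdeal P ^ 2)
    (hb : b' ∈ IsLocalRing.maximalIdeal P) (hc : c ∈ IsLocalRing.maximalIdeal P)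
    (hd : d ∈ IsLocalRing.maximalIdeal P) (hind : Ind a (b' + a * lam))
    {e₁ e₂ e₃ d₁ d₂ d₃ : P}
    (he : a * lam ^ 2 + b' * lam + c = e₁ * a ^ 2 + e₂ * a * (b' + a * lam) +
      e₃ * (b' + a * lam) ^ 2)
    (hdd : d = d₁ * a ^ 2 + d₂ * a * (b' + a * lam) + d₃ * (b' + a * lam) ^ 2) :
    2 * N + (q - 1) ≤ 2 * (A * (q - 1)) := by
  obtain ⟨⟨xW, hx⟩, hh0, ⟨w, hw⟩, -⟩ := core_h H U.hC b bW U.S U.hV U.ho U.hb0 U.hbj U.hred hcub ha
    ha2 hb hc hd
  have hPK : Function.Injective (algebraMap P K) := by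
    rw [IsScalarTower.algebraMap_eq P L K]
    exact (algebraMap L K).injective.comp (IsFractionRing.injective P L)
  have : FaithfulSMul P K := (faithfulSMul_iff_algebraMap_injective P K).2 hPK
  set z : P := b' + a * lam with hz
  have hroot : x * (x - algebraMap P K lam) * (algebraMap P K a * x + algebraMap P K z) +
      algebraMap P K (a * lam ^ 2 + b' * lam + c) * x + algebraMap P K d = 0 := by
    rw [← hcub.root, hz]
    simp only [map_mul, map_add, map_pow]
    ring
  obtain ⟨τ, hτ1, hτ2, m₀, m₁, m₂, hm₀, hm₁, hm₂, hτ3⟩ := H.tau P K a z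
    (a * lam ^ 2 + b' * lam + c) d lam e₁ e₂ e₃ d₁ d₂ d₃ x hcub.ha he hdd hroot
  have hzm : z ∈ IsLocalRing.maximalIdeal P :=
    Ideal.add_mem _ hb (Ideal.mul_mem_right _ _ ha)
  have hspan : Ideal.span {a, z} ≤ IsLocalRing.maximalIdeal P := by
    rw [Ideal.span_le]
    intro y hy
    simp only [Set.mem_insert_iff, Set.mem_singleton_iff] at hy
    rcases hy with rfl | rfl
    · exact ha
    · exact hzm
  obtain ⟨a', ha', haa⟩ := ord_one U.hV.irr U.ho ha ha2
  obtain ⟨z', hz', hzz⟩ := ord_one U.hV.irr U.ho hzm hind.right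
  have hzl : z + lam * a ∉ IsLocalRing.maximalIdeal P ^ 2 := by
    intro h
    have := (hind lam 1 (by rw [one_mul, add_comm]; exact h)).2
    exact (Ideal.ne_top_iff_one _).1 (IsLocalRing.maximalIdeal.isMaximal P).ne_top this
  obtain ⟨v', hv', hvv⟩ := ord_one U.hV.irr U.ho
    (Ideal.add_mem _ hzm (Ideal.mul_mem_left _ _ ha)) hzl
  have hsq : ∀ u₁ u₂ u₃ : P, u₁ * a ^ 2 + u₂ * a * z + u₃ * z ^ 2 ∈
      IsLocalRing.maximalIdeal P ^ 2 := by
    intro u₁ u₂ u₃
    have h1 : a ^ 2 ∈ IsLocalRing.maximalIdeal P ^ 2 := Ideal.pow_mem_pow ha 2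
    have h2 : z ^ 2 ∈ IsLocalRing.maximalIdeal P ^ 2 := Ideal.pow_mem_pow hzm 2
    have h3 : a * z ∈ IsLocalRing.maximalIdeal P ^ 2 := by
      rw [pow_two]
      exact Ideal.mul_mem_mul ha hzm
    rw [mul_assoc u₂]
    exact Ideal.add_mem _ (Ideal.add_mem _ (Ideal.mul_mem_left _ _ h1)
      (Ideal.mul_mem_left _ _ h3)) (Ideal.mul_mem_left _ _ h2)
  obtain ⟨e', hee⟩ := (U.ho _ 2).1 (he ▸ hsq e₁ e₂ e₃)
  obtain ⟨d', hdd'⟩ := (U.ho _ 2).1 (hdd ▸ hsq d₁ d₂ d₃)
  have hπ0 : algebraMap P V π ≠ 0 := U.hV.irr.ne_zero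
  have hinjWK : Function.Injective (algebraMap W K) := IsFractionRing.injective W K
  have hPV : ∀ r : P, algebraMap P K r = algebraMap W K (algebraMap V W (algebraMap P V r)) := by
    intro r
    rw [← IsScalarTower.algebraMap_apply V W K, ← IsScalarTower.algebraMap_apply P V K]
  have hVK : Function.Injective (algebraMap V K) := by
    rw [IsScalarTower.algebraMap_eq V L K]
    exact (algebraMap L K).injective.comp (IsFractionRing.injective V L)
  have hVW : Function.Injective (algebraMap V W) := by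
    rw [IsScalarTower.algebraMap_eq V W K] at hVK
    exact Function.Injective.of_comp hVK
  have hunit : IsUnit (z' + algebraMap P V lam * a') := by
    have : algebraMap P V π * (z' + algebraMap P V lam * a') = algebraMap P V π * v' := by
      rw [← hvv, map_add, map_mul, hzz, haa]
      ring
    rw [mul_left_cancel₀ hπ0 this]
    exact hv'
  have hrootW : xW * (xW - algebraMap V W (algebraMap P V lam)) *
      (algebraMap V W a' * xW + algebraMap V W z') +
      algebraMap V W (algebraMap P V π * e') * xW + algebraMap V W (algebraMap P V π * d') = 0 := by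
    have h' : algebraMap V W (algebraMap P V π) * (xW * (xW - algebraMap V W (algebraMap P V lam)) *
        (algebraMap V W a' * xW + algebraMap V W z') +
        algebraMap V W (algebraMap P V π * e') * xW +
        algebraMap V W (algebraMap P V π * d')) = 0 := by
      apply hinjWK
      rw [map_zero, ← hroot, ← hx, hPV lam, hPV a, hPV z, hPV (a * lam ^ 2 + b' * lam + c), hPV d,
        haa, hzz, hee, hdd']
      simp only [map_mul, map_add, map_pow, map_sub]
      ring
    rcases mul_eq_zero.1 h' with h4 | h4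
    · exact absurd (hVW (by rw [h4, map_zero])) hπ0
    · exact h4
  obtain ⟨𝔔, h𝔔, hπ𝔔, hx𝔔⟩ := H.plb V L W K (algebraMap P V π) a' z' (algebraMap P V π * e')
    (algebraMap P V π * d') (algebraMap P V lam) xW (finrank_of bW) U.hV.irr ha' hz' hunit
    (dvd_mul_right _ _) (dvd_mul_right _ _) hrootW (by rw [hx]; exact hcub.ind)
  -- the element `h⁴ τ^n`
  obtain ⟨hpa, -⟩ := hP.rgs a z ha hzm hind
  have hza : z ∉ Ideal.span {a} := by
    intro h
    obtain ⟨r, hr⟩ := Ideal.mem_span_singleton'.1 h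
    have h1 := (hind (-r) 1 (by rw [one_mul, ← hr, neg_mul, neg_add_cancel]; exact Ideal.zero_mem _)).2
    exact (Ideal.ne_top_iff_one _).1 (IsLocalRing.maximalIdeal.isMaximal P).ne_top h1
  have hreg : ∀ u, a ∣ z * u → a ∣ u := by
    intro u hu
    rw [← Ideal.mem_span_singleton] at hu ⊢
    exact (hpa.mem_or_mem hu).resolve_left hza
  have hpow4 := H.pow P R K C a b' c d x y₀ ω θ hcub.hy hcub.root hcub.hω hcub.hθ hcub.gen
    hcub.hC 4 (by norm_num)
  obtain ⟨r, hr⟩ := H.htn P R K C β (y₀ ^ 4 * τ) a z (q - 1) hcub.ha hreg U.S.int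
    ((hpow4 _).2 ⟨_, hτ1, by ring⟩) ((hpow4 _).2 ⟨_, hτ2, by ring⟩)
  obtain ⟨rW, hrW⟩ := hRW P R V W K r
  have hm : ∀ y ∈ Ideal.span {a, z}, algebraMap V W (algebraMap P V y) ∈ 𝔔 := by
    intro y hy
    obtain ⟨v, hv⟩ := U.hV.dvd y (hspan hy)
    rw [hv, map_mul]
    exact Ideal.mul_mem_right _ _ hπ𝔔
  refine H.bnt V L W K (q - 1) N (A * (q - 1)) (algebraMap P V π) w (β * y₀ ^ (q - 1)) τ 𝔔
    (algebraMap V W a' ^ 2) (xW * (xW - algebraMap V W (algebraMap P V lam)) +
      algebraMap V W (algebraMap P V m₀) + algebraMap V W (algebraMap P V m₁) * xW +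
      algebraMap V W (algebraMap P V m₂) * xW ^ 2) rW U.hV.irr hh0 hw h𝔔 hπ𝔔 ?_ ?_ ?_ ?_
  · intro h
    exact h𝔔.ne_top (Ideal.eq_top_of_isUnit_mem _ h ((ha'.map (algebraMap V W)).pow 2))
  · intro h
    apply hx𝔔
    have h1 : algebraMap V W (algebraMap P V m₀) + algebraMap V W (algebraMap P V m₁) * xW +
      algebraMap V W (algebraMap P V m₂) * xW ^ 2 ∈ 𝔔 :=
      Ideal.add_mem _ (Ideal.add_mem _ (hm _ hm₀) (Ideal.mul_mem_right _ _ (hm _ hm₁)))
        (Ideal.mul_mem_right _ _ (hm _ hm₂))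
    have h2 := Ideal.sub_mem _ h h1
    have h3 : xW * (xW - algebraMap V W (algebraMap P V lam)) +
      algebraMap V W (algebraMap P V m₀) + algebraMap V W (algebraMap P V m₁) * xW +
      algebraMap V W (algebraMap P V m₂) * xW ^ 2 -
      (algebraMap V W (algebraMap P V m₀) + algebraMap V W (algebraMap P V m₁) * xW +
      algebraMap V W (algebraMap P V m₂) * xW ^ 2) =
      xW * (xW - algebraMap V W (algebraMap P V lam)) := by ring
    rwa [h3] at h2
  · simp only [map_mul, map_add, map_pow, map_sub]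
    rw [← hPV lam, ← hPV m₀, ← hPV m₁, ← hPV m₂, hx, ← hτ3, map_pow, hPV a, haa]
    rw [← IsScalarTower.algebraMap_apply V W K, ← IsScalarTower.algebraMap_apply V W K, map_mul]
    ring
  · rw [hrW, ← hr]
    rw [mul_pow, mul_pow, ← pow_mul, ← pow_mul, mul_comm (q - 1) 4]
    ring

end W

end Pool.Agent.H867.FT
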