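import Pool.Agent.H867.FT.Cub2

/-!
# Assembly, part 4: the cubic case, the discussion over the order valuation.
-/

namespace Pool.Agent.H867.FT

open Module

set_option linter.unusedSectionVars false

section P

variable {P : Type} [CommRing P] [IsLocalRing P]

theorem one_notMem : (1 : P) ∉ IsLocalRing.maximalIdeal P :=
  (Ideal.ne_top_iff_one _).1 (IsLocalRing.maximalIdeal.isMaximal P).ne_top

theorem notMem_iff_isUnit {r : P} : r ∉ IsLocalRing.maximalIdeal P ↔ IsUnit r := by
  rw [IsLocalRing.mem_maximalIdeal, mem_nonunits_iff, not_not]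

theorem mem_of_unit_mul {r s : P} (hs : IsUnit s) (h : r * s ∈ IsLocalRing.maximalIdeal P) :
    r ∈ IsLocalRing.maximalIdeal P := by
  have hp := (IsLocalRing.maximalIdeal.isMaximal P).isPrime
  exact (hp.mem_or_mem h).resolve_right (notMem_iff_isUnit.2 hs)

theorem unit_one_add {r : P} (hr : r ∈ IsLocalRing.maximalIdeal P) : IsUnit (1 + r) := by
  rw [← notMem_iff_isUnit]
  intro h
  have := Ideal.sub_mem _ h hr
  rw [add_sub_cancel_right] at this
  exact one_notMem this

theorem Ind.comb {y z : P} (h : Ind y z) {α β γ δ : P} (hu : IsUnit (α * δ - β * γ)) :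
    Ind (α * y + β * z) (γ * y + δ * z) := by
  intro r s hrs
  have h1 : (r * α + s * γ) * y + (r * β + s * δ) * z ∈ IsLocalRing.maximalIdeal P ^ 2 := by
    have : (r * α + s * γ) * y + (r * β + s * δ) * z =
        r * (α * y + β * z) + s * (γ * y + δ * z) := by ring
    rw [this]; exact hrs
  obtain ⟨h2, h3⟩ := h _ _ h1
  constructor
  · apply mem_of_unit_mul hu
    have : r * (α * δ - β * γ) = δ * (r * α + s * γ) - γ * (r * β + s * δ) := by ring
    rw [this]
    exact Ideal.sub_mem _ (Ideal.mul_mem_left _ _ h2) (Ideal.mul_mem_left _ _ h3)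
  · apply mem_of_unit_mul hu
    have : s * (α * δ - β * γ) = α * (r * β + s * δ) - β * (r * α + s * γ) := by ring
    rw [this]
    exact Ideal.sub_mem _ (Ideal.mul_mem_left _ _ h3) (Ideal.mul_mem_left _ _ h2)

theorem span_comb {y z : P} {α β γ δ : P} (hu : IsUnit (α * δ - β * γ)) :
    Ideal.span {α * y + β * z, γ * y + δ * z} = Ideal.span {y, z} := by
  apply le_antisymm
  · rw [Ideal.span_le]
    intro w hw
    simp only [Set.mem_insert_iff, Set.mem_singleton_iff] at hw
    rcases hw with rfl | rfl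
    · exact Ideal.mem_span_pair.2 ⟨α, β, rfl⟩
    · exact Ideal.mem_span_pair.2 ⟨γ, δ, rfl⟩
  · obtain ⟨v, hv⟩ := hu.exists_left_inv
    rw [Ideal.span_le]
    intro w hw
    simp only [Set.mem_insert_iff, Set.mem_singleton_iff] at hw
    rcases hw with rfl | rfl
    · refine Ideal.mem_span_pair.2 ⟨v * δ, -(v * β), ?_⟩
      linear_combination w * hv
    · refine Ideal.mem_span_pair.2 ⟨-(v * γ), v * α, ?_⟩
      linear_combination w * hv

theorem Ind.exists_partner {a z c : P} (h : Ind a z) (ha : a ∈ IsLocalRing.maximalIdeal P)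
    (hz : z ∈ IsLocalRing.maximalIdeal P) (hc : c ∈ Ideal.span {a, z})
    (hc2 : c ∉ IsLocalRing.maximalIdeal P ^ 2) :
    ∃ z', (z' = a ∨ z' = z) ∧ Ind c z' ∧ Ideal.span {c, z'} = Ideal.span {a, z} := by
  obtain ⟨α, β, rfl⟩ := Ideal.mem_span_pair.1 hc
  by_cases hβ : IsUnit β
  · refine ⟨a, Or.inl rfl, ?_, ?_⟩
    · have := h.comb (α := α) (β := β) (γ := 1) (δ := 0) (by simpa using hβ.neg)
      simpa using this
    · have := span_comb (y := a) (z := z) (α := α) (β := β) (γ := 1) (δ := 0)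
        (by simpa using hβ.neg)
      simpa using this
  · have hα : IsUnit α := by
      rw [← notMem_iff_isUnit]
      intro hα
      have hβ' : β ∈ IsLocalRing.maximalIdeal P := by
        by_contra hcon
        exact hβ (notMem_iff_isUnit.1 hcon)
      apply hc2
      rw [pow_two]
      exact Ideal.add_mem _ (Ideal.mul_mem_mul hα ha) (Ideal.mul_mem_mul hβ' hz)
    refine ⟨z, Or.inr rfl, ?_, ?_⟩
    · have := h.comb (α := α) (β := β) (γ := 0) (δ := 1) (by simpa using hα)
      simpa using this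
    · have := span_comb (y := a) (z := z) (α := α) (β := β) (γ := 0) (δ := 1)
        (by simpa using hα)
      simpa using this

theorem Ind.of_span {a z w : P} (h : Ind a z) (hs : Ideal.span {a, z} = Ideal.span {a, w}) :
    Ind a w := by
  have hw : w ∈ Ideal.span {a, z} := by
    rw [hs]; exact Ideal.subset_span (by simp)
  have hz : z ∈ Ideal.span {a, w} := by
    rw [← hs]; exact Ideal.subset_span (by simp)
  obtain ⟨α, β, hαβ⟩ := Ideal.mem_span_pair.1 hw
  obtain ⟨s, t, hst⟩ := Ideal.mem_span_pair.1 hz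
  have h1 := (h (-(s + t * α)) (1 - t * β) (by
    have : -(s + t * α) * a + (1 - t * β) * z = 0 := by
      linear_combination (-1 : P) * hst + (-t) * hαβ
    rw [this]; exact Ideal.zero_mem _)).2
  have hβ : IsUnit β := by
    rw [← notMem_iff_isUnit]
    intro hβ
    have := Ideal.add_mem _ h1 (Ideal.mul_mem_left _ t hβ)
    rw [sub_add_cancel] at this
    exact one_notMem this
  have := h.comb (α := 1) (β := 0) (γ := α) (δ := β) (by simpa using hβ)
  rw [one_mul, zero_mul, add_zero, hαβ] at this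
  exact this

theorem reg_of_ind (hP : CubP P) {a z : P} (ha : a ∈ IsLocalRing.maximalIdeal P)
    (hz : z ∈ IsLocalRing.maximalIdeal P) (h : Ind a z) : ∀ u, a ∣ z * u → a ∣ u := by
  obtain ⟨hpa, -⟩ := hP.rgs a z ha hz h
  have hza : z ∉ Ideal.span {a} := by
    intro h'
    obtain ⟨r, hr⟩ := Ideal.mem_span_singleton'.1 h'
    have h1 := (h (-r) 1 (by rw [one_mul, ← hr, neg_mul, neg_add_cancel]; exact Ideal.zero_mem _)).2
    exact one_notMem h1
  intro u hu
  rw [← Ideal.mem_span_singleton] at hu ⊢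
  exact (hpa.mem_or_mem hu).resolve_left hza

end P

section W

variable {P R V L W K : Type} [CommRing P] [IsDomain P] [IsLocalRing P] [IsNoetherianRing P]
    [IsIntegrallyClosed P]
    [CommRing R] [IsDomain R] [IsLocalRing R]
    [Algebra P R] [Module.Finite P R] [Module.Free P R]
    [CommRing V] [IsDomain V] [IsDiscreteValuationRing V] [Algebra P V] [Field L]
    [Algebra P L] [IsFractionRing P L] [Algebra V L] [IsFractionRing V L] [IsScalarTower P V L]
    [Field K] [Algebra R K] [IsFractionRing R K] [Algebra P K] [IsScalarTower P R K]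
    [CommRing W] [IsDomain W] [Algebra V W]
    [Algebra W K] [IsFractionRing W K] [Algebra L K] [Algebra V K] [IsScalarTower V L K]
    [IsScalarTower P L K] [IsScalarTower P V K]
    [IsScalarTower V W K] [IsIntegralClosure W V K] [FiniteDimensional L K]
    [Algebra.IsSeparable L K]

/-- normal form -/
structure Nf {P R : Type} (L : Type) {K : Type} [CommRing P] [CommRing R] [Algebra P R]
    [Field L] [Field K] [Algebra R K] [Algebra P K] [Algebra L K] (C : Submodule R K)
    (z a b c d : P) (x y₀ : K) : Prop where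
  cub : ∃ ω θ : R, IsCub L C a b c d x y₀ ω θ
  hb : b ∈ Ideal.span {a, z}
  hc : c ∈ Ideal.span {a, z}
  hd : d ∈ Ideal.span {a, z}
  hz : z ∈ Ideal.span {a, b, c, d}

theorem Nf.shift (H : Lems) {C : Submodule R K} {z a b c d : P} {x y₀ : K}
    (h : Nf L C z a b c d x y₀) (ξ : P) :
    Nf L C z a (b + 3 * a * ξ) (c + 2 * b * ξ + 3 * a * ξ ^ 2)
      (a * ξ ^ 3 + b * ξ ^ 2 + c * ξ + d) (x - algebraMap P K ξ) y₀ := by
  obtain ⟨ω, θ, hcub⟩ := h.cub
  have ha : a ∈ Ideal.span {a, z} := Ideal.subset_span (by simp)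
  refine ⟨(H.shf P R L K C a b c d x y₀ ω θ hcub).1 ξ, ?_, ?_, ?_, ?_⟩
  · exact Ideal.add_mem _ h.hb (Ideal.mul_mem_right _ _ (Ideal.mul_mem_left _ _ ha))
  · exact Ideal.add_mem _ (Ideal.add_mem _ h.hc
      (Ideal.mul_mem_right _ _ (Ideal.mul_mem_left _ _ h.hb)))
      (Ideal.mul_mem_right _ _ (Ideal.mul_mem_left _ _ ha))
  · exact Ideal.add_mem _ (Ideal.add_mem _ (Ideal.add_mem _ (Ideal.mul_mem_right _ _ ha)
      (Ideal.mul_mem_right _ _ h.hb)) (Ideal.mul_mem_right _ _ h.hc)) h.hd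
  · have hle : Ideal.span {a, b, c, d} ≤ Ideal.span {a, b + 3 * a * ξ,
        c + 2 * b * ξ + 3 * a * ξ ^ 2, a * ξ ^ 3 + b * ξ ^ 2 + c * ξ + d} := by
      set J := Ideal.span {a, b + 3 * a * ξ, c + 2 * b * ξ + 3 * a * ξ ^ 2,
        a * ξ ^ 3 + b * ξ ^ 2 + c * ξ + d}
      have h1 : a ∈ J := Ideal.subset_span (by simp)
      have h2 : b + 3 * a * ξ ∈ J := Ideal.subset_span (by simp)
      have h3 : c + 2 * b * ξ + 3 * a * ξ ^ 2 ∈ J := Ideal.subset_span (by simp)
      have h4 : a * ξ ^ 3 + b * ξ ^ 2 + c * ξ + d ∈ J := Ideal.subset_span (by simp)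
      have h5 : b ∈ J := by
        have := Ideal.sub_mem _ h2 (Ideal.mul_mem_right ξ _ (Ideal.mul_mem_left _ 3 h1))
        rwa [add_sub_cancel_right] at this
      have h6 : c ∈ J := by
        have := Ideal.sub_mem _ h3 (Ideal.add_mem _
          (Ideal.mul_mem_right ξ _ (Ideal.mul_mem_left _ 2 h5))
          (Ideal.mul_mem_right (ξ ^ 2) _ (Ideal.mul_mem_left _ 3 h1)))
        rwa [add_assoc, add_sub_cancel_right] at this
      have h7 : d ∈ J := by
        have := Ideal.sub_mem _ h4 (Ideal.add_mem _ (Ideal.add_mem _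
          (Ideal.mul_mem_right (ξ ^ 3) _ h1) (Ideal.mul_mem_right (ξ ^ 2) _ h5))
          (Ideal.mul_mem_right ξ _ h6))
        rwa [add_sub_cancel_left] at this
      rw [Ideal.span_le]
      intro y hy
      simp only [Set.mem_insert_iff, Set.mem_singleton_iff] at hy
      rcases hy with rfl | rfl | rfl | rfl
      · exact h1
      · exact h5
      · exact h6
      · exact h7
    exact hle h.hz

theorem span_le_max {a z : P} (ha : a ∈ IsLocalRing.maximalIdeal P)
    (hz : z ∈ IsLocalRing.maximalIdeal P) : Ideal.span {a, z} ≤ IsLocalRing.maximalIdeal P := by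
  rw [Ideal.span_le]
  intro y hy
  simp only [Set.mem_insert_iff, Set.mem_singleton_iff] at hy
  rcases hy with rfl | rfl
  · exact ha
  · exact hz

/-- The analysis at a root modulo `𝔪²`. -/
theorem root_case (H : Lems)
    {C : Submodule R K} {B : Module.Basis (Fin 3) P R}
    {bW : Module.Basis (Fin 3) V W} {q N A : ℕ} {f : R} {T : P →+ P} {TL : L →+ L}
    {β : K} {g : P} {π : P} (U : Setup C B bW q N A f T TL β g π) (hP : CubP P)
    {z a b c d : P} {x y₀ : K} (h : Nf L C z a b c d x y₀)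
    (ha : a ∈ IsLocalRing.maximalIdeal P) (hz : z ∈ IsLocalRing.maximalIdeal P)
    (hind : Ind a z) (hd2 : d ∈ IsLocalRing.maximalIdeal P ^ 2) :
    2 * N + (q - 1) ≤ 2 * (A * (q - 1)) ∨
    ∃ (ξ z' ρ : P) (m : ℕ), ξ ∈ IsLocalRing.maximalIdeal P ∧ 2 ≤ m ∧ IsUnit ρ ∧
      z' ∈ Ideal.span {a, z} ∧ z' ∈ IsLocalRing.maximalIdeal P ∧
      a * ξ ^ 3 + b * ξ ^ 2 + c * ξ + d = z' ^ m * ρ ∧
      Ind (c + 2 * b * ξ + 3 * a * ξ ^ 2) z' ∧
      Ideal.span {c + 2 * b * ξ + 3 * a * ξ ^ 2, z'} = Ideal.span {a, z} := by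
  obtain ⟨ω, θ, hcub⟩ := h.cub
  have hle := span_le_max ha hz
  have ha2 := hind.left
  by_cases hc2 : c ∈ IsLocalRing.maximalIdeal P ^ 2
  · exact Or.inl (case_DBL H U hcub ha ha2 (hle h.hb) hc2 hd2)
  obtain ⟨z', hz', hcz', hspan⟩ := hind.exists_partner ha hz h.hc hc2
  have hz'm : z' ∈ IsLocalRing.maximalIdeal P := by
    rcases hz' with rfl | rfl
    · exact ha
    · exact hz
  have hz's : z' ∈ Ideal.span {a, z} := by
    rw [← hspan]
    exact Ideal.subset_span (by simp)
  have hdm : d ∈ IsLocalRing.maximalIdeal P * Ideal.span {c, z'} := by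
    have h1 : d ∈ Ideal.span {c, z'} := by rw [hspan]; exact h.hd
    obtain ⟨r, s, rfl⟩ := Ideal.mem_span_pair.1 h1
    obtain ⟨hr, hs⟩ := hcz' r s hd2
    exact Ideal.add_mem _ (Ideal.mul_mem_mul hr (Ideal.subset_span (by simp)))
      (Ideal.mul_mem_mul hs (Ideal.subset_span (by simp)))
  have hnr : ∀ ξ, a * ξ ^ 3 + b * ξ ^ 2 + c * ξ + d ≠ 0 := by
    intro ξ
    obtain ⟨ω', θ', hcub'⟩ := (H.shf P R L K C a b c d x y₀ ω θ hcub).1 ξ
    exact (H.shf P R L K C _ _ _ _ _ _ ω' θ' hcub').2.1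
  have ha' : a ∈ Ideal.span {c, z'} := by
    rw [hspan]; exact Ideal.subset_span (by simp)
  have hb' : b ∈ Ideal.span {c, z'} := by
    rw [hspan]; exact h.hb
  obtain ⟨ξ, ρ, m, hξ, hm, hρ, hF⟩ := hP.rho a b c d z' (hle h.hc) hz'm ha' hb' hdm hnr
  -- the new linear coefficient
  have hmem : 2 * b + 3 * a * ξ ∈ Ideal.span {c, z'} :=
    Ideal.add_mem _ (Ideal.mul_mem_left _ _ hb')
      (Ideal.mul_mem_right _ _ (Ideal.mul_mem_left _ _ ha'))
  obtain ⟨r, s, hrs⟩ := Ideal.mem_span_pair.1 hmem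
  have hc1 : c + 2 * b * ξ + 3 * a * ξ ^ 2 = (1 + r * ξ) * c + (s * ξ) * z' := by
    linear_combination (-ξ) * hrs
  have hu : IsUnit ((1 + r * ξ) * 1 - (s * ξ) * 0) := by
    rw [mul_one, mul_zero, sub_zero]
    exact unit_one_add (Ideal.mul_mem_left _ _ hξ)
  have hind1 : Ind (c + 2 * b * ξ + 3 * a * ξ ^ 2) z' := by
    have := hcz'.comb hu
    rw [hc1]
    simpa using this
  have hspan1 : Ideal.span {c + 2 * b * ξ + 3 * a * ξ ^ 2, z'} = Ideal.span {a, z} := by
    have := span_comb (y := c) (z := z') hu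
    rw [hc1, ← hspan, ← this]
    simp
  by_cases hρm : ρ ∈ IsLocalRing.maximalIdeal P
  · left
    have h1 := h.shift H ξ
    rw [hF] at h1
    obtain ⟨ω₁, θ₁, hcub₁⟩ := h1.cub
    refine case_CHI H U hP hcub₁ ha ha2 (hle h1.hb) (hle h1.hc) hz'm hρm hm hind1 ?_ ?_
    · rw [hspan1, ← hspan]
      exact hρ
    · rcases hz' with rfl | rfl
      · exact Ideal.subset_span (by simp)
      · exact h1.hz
  · right
    have hρu : IsUnit ρ := notMem_iff_isUnit.1 hρm
    refine ⟨ξ, z', ρ, m, hξ, ?_, hρu, hz's, hz'm, hF, hind1, hspan1⟩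
    by_contra hcon
    have hm1 : m = 1 := by omega
    have h2 : z' ^ m * ρ ∈ IsLocalRing.maximalIdeal P ^ 2 := by
      rw [← hF]
      have e1 : ξ ^ 2 ∈ IsLocalRing.maximalIdeal P ^ 2 := Ideal.pow_mem_pow hξ 2
      have e2 : c * ξ ∈ IsLocalRing.maximalIdeal P ^ 2 := by
        rw [pow_two]; exact Ideal.mul_mem_mul (hle h.hc) hξ
      have e3 : a * ξ ^ 3 ∈ IsLocalRing.maximalIdeal P ^ 2 := by
        rw [pow_succ ξ 2, ← mul_assoc]
        exact Ideal.mul_mem_right _ _ (Ideal.mul_mem_left _ _ e1)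
      exact Ideal.add_mem _ (Ideal.add_mem _ (Ideal.add_mem _ e3 (Ideal.mul_mem_left _ _ e1)) e2) hd2
    rw [hm1, pow_one] at h2
    obtain ⟨v, hv⟩ := hρu.exists_right_inv
    apply hcz'.right
    have := Ideal.mul_mem_right v _ h2
    rwa [mul_assoc, hv, mul_one] at this

end W

end Pool.Agent.H867.FT
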