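import Pool.Agent.H867.FT.Gen3

/-!
# Statements, part 6: existence of good presentations of complete local domains
(Cohen structure theorem, minimal reductions, separability) and independence of the canonical
class of the presentation.
-/

namespace Pool.Agent.H867.FT

/-- Some symbolic power of the fractional ideal `C` is principal. -/
def Tors {R K : Type} [CommRing R] [Field K] [Algebra R K] (C : Submodule R K) : Prop :=
  ∃ n : ℕ, 1 ≤ n ∧ ∃ t : K, 1 / (1 / C ^ n) = Submodule.span R {t}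

/-- The `q^{-1}`-linear maps form a free module of rank one. -/
def CartGen (P : Type) [CommRing P] (q : ℕ) : Prop :=
  ∃ T : P →+ P, IsCartier q T ∧
    (∀ ψ : P →+ P, IsCartier q ψ → ∃ u : P, ∀ g, ψ g = T (u * g)) ∧
    ∀ u : P, (∀ g, T (u * g) = 0) → u = 0

/-- **COE.** Coefficient fields: `S` complete local of characteristic `p` with algebraically closed
residue field `κ`. The residue map has a section which is a ring homomorphism.
Proof. `κ` is perfect. For `a ∈ κ` choose lifts `b_n ∈ S` of `a^{1/p^n}`; if `b ≡ b' mod 𝔪^i` then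
`b^p ≡ b'^p mod 𝔪^{i+1}` (as `p = 0` in `S`), so `b_n^{p^n}` is a Cauchy sequence whose limit `σ(a)` does
not depend on the choices; `σ` is multiplicative and additive (choose `b_n + b'_n` as lifts). (Or use
the Teichmüller map in `Mathlib/RingTheory/Teichmuller.lean`.) -/
def S_COE : Prop :=
  ∀ (p : ℕ) [Fact p.Prime] (S : Type) [CommRing S] [IsLocalRing S] [CharP S p]
    [IsAdicComplete (IsLocalRing.maximalIdeal S) S] [IsAlgClosed (IsLocalRing.ResidueField S)],
    ∃ σ : IsLocalRing.ResidueField S →+* S, ∀ a, IsLocalRing.residue S (σ a) = a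

/-- **EVL.** Evaluation of power series in a complete local ring.
Proof. `φ(∑ c_n X^n) = lim_N ∑_{|n| < N} σ(c_n) x^n` (`IsAdicComplete`: `IsPrecomplete` gives the limit,
`IsHausdorff` uniqueness). (Or `MvPowerSeries.eval₂`/`aeval` with the adic topology.) -/
def S_EVL : Prop :=
  ∀ (k S : Type) [Field k] [CommRing S] [IsLocalRing S] [IsNoetherianRing S]
    [IsAdicComplete (IsLocalRing.maximalIdeal S) S] (σ : k →+* S) (d : ℕ) (x : Fin d → S),
    (∀ i, x i ∈ IsLocalRing.maximalIdeal S) →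
    ∃ φ : MvPowerSeries (Fin d) k →+* S, (∀ c, φ (MvPowerSeries.C c) = σ c) ∧
      ∀ i, φ (MvPowerSeries.X i) = x i

/-- `x_0, …, x_{m-1}` generate a reduction of the maximal ideal. -/
def IsRed {S : Type} [CommRing S] [IsLocalRing S] {m : ℕ} (x : Fin m → S) : Prop :=
  (∀ i, x i ∈ IsLocalRing.maximalIdeal S) ∧ ∃ r : ℕ, IsLocalRing.maximalIdeal S ^ (r + 1) =
      Ideal.span (Set.range x) * IsLocalRing.maximalIdeal S ^ r

/-- `x_0, …, x_{m-1}` are analytically independent. -/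
def AnInd {S : Type} [CommRing S] [IsLocalRing S] {m : ℕ} (x : Fin m → S) : Prop :=
  ∀ (D : ℕ) (F : MvPolynomial (Fin m) S), F.IsHomogeneous D →
    MvPolynomial.eval x F ∈ IsLocalRing.maximalIdeal S * Ideal.span (Set.range x) ^ D →
    ∀ n, F.coeff n ∈ IsLocalRing.maximalIdeal S

/-- **RED.** (Northcott–Rees) A reduction generated by analytically dependent elements can be
shortened.
Proof. `J = (x_0..x_m)`, `F` homogeneous of degree `D` with `F(x) ∈ 𝔪 J^D` and a unit coefficient. The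
reduction `F̄` of `F` to the residue field `κ` is a nonzero form, so `F̄(c_0, …, c_{m-1}, 1) ≠ 0` for some
`c ∈ κ^m` (`F̄(X_0, …, X_{m-1}, 1)` is a nonzero polynomial, `κ` is infinite); lift `c` to `S` and put
`x'_i = x_i - c_i x_m`, `J' = (x'_0..x'_{m-1})`. Then `F(x) = F(c, 1) x_m^D + (element of J' J^{D-1})`
and `F(c,1)` is a unit, so `x_m^D ∈ J' J^{D-1} + 𝔪 J^D`, `J = J' + (x_m)`,
`J^D ⊆ J' J^{D-1} + 𝔪 J^D`, and by Nakayama `J^D = J' J^{D-1}` (`D ≥ 1`, since for `D = 0` `F(x)` would be a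
unit). If `𝔪^{r+1} = J 𝔪^r` then `𝔪^{r+D} = J^D 𝔪^r = J' J^{D-1} 𝔪^r ⊆ J' 𝔪^{r+D-1}`. -/
def S_RED : Prop :=
  ∀ (S : Type) [CommRing S] [IsLocalRing S] [IsNoetherianRing S]
    [Infinite (IsLocalRing.ResidueField S)] (m : ℕ) (x : Fin (m + 1) → S),
    IsRed x → ¬ AnInd x → ∃ x' : Fin m → S, IsRed x'

/-- **INJ.** If the images of the variables are analytically independent then `φ` is injective.
Proof. Let `F ≠ 0` be a power series of order `D` with `φ F = 0`, and `F_D` its form of lowest degree,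
`G = ∑_{|n| = D} φ(c_n) X^n` (a form with a unit coefficient). `G(x) = φ(F_D) = -φ(F - F_D) ∈ J^{D+1}`
since `F - F_D ∈ 𝔪_P^{D+1}` and `𝔪_P = (X_i)` (`Pool.Agent.H707.FT867.psg`); `J^{D+1} ⊆ 𝔪 J^D`. -/
def S_INJ : Prop :=
  ∀ (k S : Type) [Field k] [CommRing S] [IsLocalRing S] (m : ℕ)
    (φ : MvPowerSeries (Fin m) k →+* S),
    (∀ i, φ (MvPowerSeries.X i) ∈ IsLocalRing.maximalIdeal S) →
    AnInd (fun i : Fin m => φ (MvPowerSeries.X i)) → Function.Injective φ

/-- **FIN.** Finiteness over the power series ring.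
Proof. `k → S/𝔪` is surjective and `𝔪` is finitely generated, so `S = ∑_g k g + 𝔪^r`, `g` running over the
finitely many monomials of degree `< r` in the generators of `𝔪`; so `S = ∑ k g + ∑_i x_i S`. Iterate:
`s = ∑_g c_g g + ∑_i x_i s_i`, … ; the coefficients converge in `P = k[[X]]` (the `N`-th correction
is in `𝔪_P^N`), and `S` is separated, so `S = ∑_g P g`. -/
def S_FIN : Prop :=
  ∀ (k S : Type) [Field k] [CommRing S] [IsLocalRing S] [IsNoetherianRing S]
    [IsAdicComplete (IsLocalRing.maximalIdeal S) S] (m r : ℕ)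
    [Algebra (MvPowerSeries (Fin m) k) S],
    (∀ s : S, ∃ c : k, s - algebraMap (MvPowerSeries (Fin m) k) S (MvPowerSeries.C c) ∈
      IsLocalRing.maximalIdeal S) →
    (∀ i : Fin m, algebraMap (MvPowerSeries (Fin m) k) S (MvPowerSeries.X i) ∈
      IsLocalRing.maximalIdeal S) →
    IsLocalRing.maximalIdeal S ^ r ≤ Ideal.span (Set.range fun i : Fin m =>
      algebraMap (MvPowerSeries (Fin m) k) S (MvPowerSeries.X i)) →
    Module.Finite (MvPowerSeries (Fin m) k) S

/-- **PBS.** `p`-bases: elements of `S` can be changed modulo `𝔪²` so that they generate `K` over `K^p`.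
Proof. `L = Frac P`. `P` is generated by the monomials `X^a`, `0 ≤ a_i < p`, over `P^p` (`k` perfect), so
`[L : L^p] ≤ p^d`, and `[K : K^p] = [L : L^p]` since `[K : L] = [K^p : L^p] < ∞` (Frobenius). So
`[K : K^p] ≤ p^d`. Choose `x'_i` one after the other: let `K_i = K^p(x'_0, …, x'_{i-1})`. If `K_i = K` take
`x'_i = x_i`. If `K_i ≠ K` and `x_i ∉ K_i` take `x'_i = x_i`. If `K_i ≠ K` and `x_i ∈ K_i` there is
`y ∈ S`, `y ∉ K_i` (`K = Frac S`); take `x'_i = x_i + s^p y` with `0 ≠ s ∈ 𝔪`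
(`𝔪 ≠ 0`: otherwise `S` is a field, finite over `P`, so `P` is a field, `d = 0`); `s^p ∈ K^p ⊆ K_i`, so
`x'_i ∉ K_i`, and `s^p y ∈ 𝔪²`. Each step with `K_i ≠ K` multiplies the degree over `K^p` by `p`
(`x'^p ∈ K^p`), so after `d` steps `K_d = K`. -/
def S_PBS : Prop :=
  ∀ (p : ℕ) [Fact p.Prime] (k : Type) [Field k] [CharP k p] [PerfectRing k p] (d : ℕ)
    (S K : Type) [CommRing S] [IsDomain S] [IsLocalRing S]
    [Algebra (MvPowerSeries (Fin d) k) S] [Module.Finite (MvPowerSeries (Fin d) k) S]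
    [FaithfulSMul (MvPowerSeries (Fin d) k) S]
    [Field K] [CharP K p] [Algebra S K] [IsFractionRing S K] (x : Fin d → S),
    ∃ x' : Fin d → S, (∀ i, x' i - x i ∈ IsLocalRing.maximalIdeal S ^ 2) ∧
      IntermediateField.adjoin (frobenius K p).fieldRange
        (Set.range fun i => algebraMap S K (x' i)) = ⊤

/-- **SEP.** `K = K^p L` implies that `K / L` is separable.
Proof. `K = K^{p^n} L` for all `n` by induction. If `E` is the separable closure of `L` in `K` then `K / E`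
is finite purely inseparable, so `K^{p^n} ⊆ E` for some `n`, and `K = K^{p^n} L ⊆ E`. -/
def S_SEP : Prop :=
  ∀ (p : ℕ) [Fact p.Prime] (L K : Type) [Field L] [Field K] [CharP K p] [Algebra L K]
    [FiniteDimensional L K],
    IntermediateField.adjoin (frobenius K p).fieldRange (Set.range (algebraMap L K)) = ⊤ →
    Algebra.IsSeparable L K

/-- **DMS.** The Krull dimension of a finite extension of `k[[X_0..X_{d-1}]]` is `d`.
Proof. Chain `0 ⊂ (X_0) ⊂ (X_0, X_1) ⊂ …` of primes, and Krull's height theorem for `≤`; integral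
extensions preserve the dimension. -/
def S_DMS : Prop :=
  ∀ (k : Type) [Field k] (d : ℕ) (S : Type) [CommRing S] [Algebra (MvPowerSeries (Fin d) k) S]
    [Module.Finite (MvPowerSeries (Fin d) k) S] [FaithfulSMul (MvPowerSeries (Fin d) k) S],
    ringKrullDim S = d

/-- **FFP.** Finite algebras over `k[[X_0..X_{d-1}]]`, `k` perfect, are F-finite.
Proof. `P` is generated by the monomials `X^a`, `0 ≤ a_i < p`, as a module over itself via Frobenius
(`g = ∑_a g_a^p X^a`), and `S` is finite over `P`: if `s_j` generate `S` over `P` then the `X^a s_j` generate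
`S` over `P^p`, a fortiori over `S^p`. -/
def S_FFP : Prop :=
  ∀ (p : ℕ) [Fact p.Prime] (k : Type) [Field k] [CharP k p] [PerfectRing k p] (d : ℕ) (S : Type)
    [CommRing S] [CharP S p] [Algebra (MvPowerSeries (Fin d) k) S]
    [Module.Finite (MvPowerSeries (Fin d) k) S], (frobenius S p).Finite

/-- **COH.** Existence of good presentations. (From `S_COE`, `S_EVL`, `S_RED`, `S_INJ`, `S_FIN`, `S_PBS`,
`S_SEP`, `S_DMS`.)
Proof. `κ` the residue field, `σ` from `S_COE`. Let `m` be minimal such that there is `x : Fin m → S` with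
`IsRed x` (there is one: finitely many generators of `𝔪`). By `S_RED` (and minimality; the case `m = 0`
is trivial: a form in no variables is a constant) every `x : Fin m → S` with `IsRed x` has `AnInd x`.
`S_EVL`, `S_INJ`, `S_FIN` make `S` a finite faithful algebra over `P = κ[[X_0..X_{m-1}]]`, `X_i ↦ x_i`.
`S_PBS` gives `x'_i ≡ x_i mod 𝔪²` with `K = K^p(x')`; `IsRed x'`: `𝔪^{r+1} = (x) 𝔪^r ⊆ (x') 𝔪^r + 𝔪^{r+2}`
and Nakayama. Use `S_EVL`, `S_INJ`, `S_FIN` again for `x'`. `K = K^p L` since `x'_i ∈ L`, so `S_SEP` applies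
(`K` is finite over `L`, see `Pool.Agent.H867.FT` Core, or `IsIntegralClosure`/localization lemmas);
it suffices to treat `FractionRing S` in `S_PBS` and to transfer along the isomorphism with `K`, or to
do the last step for every `K` (`S_PBS` for `K = FractionRing S`). `S_DMS`. -/
def S_COH : Prop :=
  ∀ (p : ℕ) [Fact p.Prime] (S : Type) [CommRing S] [IsDomain S] [IsLocalRing S]
    [IsNoetherianRing S] [CharP S p] [IsAdicComplete (IsLocalRing.maximalIdeal S) S]
    [IsAlgClosed (IsLocalRing.ResidueField S)],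
    ∃ (k : Type) (_ : Field k) (_ : IsAlgClosed k) (_ : CharP k p) (d : ℕ)
      (_ : Algebra (MvPowerSeries (Fin d) k) S),
      Module.Finite (MvPowerSeries (Fin d) k) S ∧ FaithfulSMul (MvPowerSeries (Fin d) k) S ∧
      (∃ r : ℕ, IsLocalRing.maximalIdeal S ^ (r + 1) =
        (IsLocalRing.maximalIdeal (MvPowerSeries (Fin d) k)).map
          (algebraMap (MvPowerSeries (Fin d) k) S) * IsLocalRing.maximalIdeal S ^ r) ∧
      ringKrullDim S = d ∧
      ∀ (L K : Type) [Field L] [Algebra (MvPowerSeries (Fin d) k) L]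
        [IsFractionRing (MvPowerSeries (Fin d) k) L] [Field K] [Algebra S K] [IsFractionRing S K]
        [Algebra (MvPowerSeries (Fin d) k) K] [IsScalarTower (MvPowerSeries (Fin d) k) S K]
        [Algebra L K] [IsScalarTower (MvPowerSeries (Fin d) k) L K], Algebra.IsSeparable L K

/-- `{β ∈ K : β y^q ∈ C for all y ∈ C}`. -/
def Dq {S K : Type} [CommRing S] [Field K] [Algebra S K] (q : ℕ) (C : Submodule S K) :
    Submodule S K where
  carrier := {β | ∀ y ∈ C, β * y ^ q ∈ C}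
  zero_mem' := by
    intro y _
    rw [zero_mul]
    exact C.zero_mem
  add_mem' := by
    intro a b ha hb y hy
    rw [add_mul]
    exact C.add_mem (ha y hy) (hb y hy)
  smul_mem' := by
    intro r a ha y hy
    rw [smul_mul_assoc]
    exact C.smul_mem r (ha y hy)

/-- **CRT.** The module of `q^{-1}`-linear maps of `S` is isomorphic to `Dq q C`, `C` the canonical module.
Proof. `e : C ≅ Hom_P(S, P)`, `λ_y = e y`, `T` the generator of the Cartier maps of `P`. Every
`q^{-1}`-linear `ψ : S → P` (`ψ(g^q s) = g ψ(s)`, `g ∈ P`) is `s ↦ T(μ s)` for a unique `μ ∈ Hom_P(S, P)`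
(for fixed `s` the map `g ↦ ψ(g s)` is a Cartier map of `P`, so equal to `g ↦ T(u_s g)`; `u_s` is additive
and `P`-linear in `s` by uniqueness).
(1) Let `φ` be a Cartier map of `S`. For `y ∈ C` let `μ_y` be such that `λ_y ∘ φ = T ∘ μ_y`, and
`y* ∈ C` with `λ_{y*} = μ_y`. `y ↦ y*` is additive with `(r y)* = r^q y*`. So `y*/y^q = β` does not depend on
`0 ≠ y ∈ C` (`y, y' ∈ C` nonzero: `r y = r' y'`). Put `E φ = β`; so `y* = β y^q`: `β ∈ Dq`, and
`λ_y(φ s) = T(λ_{β y^q}(s))`.
(2) Conversely for `β ∈ Dq` and `s ∈ S` the map `y ↦ [r ↦ T(λ_{β (r y)^q}(s)) = T(λ_{β y^q}(r^q s))]` is a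
well defined `S`-linear map `C → Hom_P(S, P) ≅ C`, so multiplication by an element `φ(s) ∈ K` with
`φ(s) C ⊆ C`; `C` is a finitely generated `S`-module (`P` Noetherian), nonzero, so `φ(s)` is integral over
`S`, so in `S`. `φ` is a Cartier map with `E φ = β`.
(3) `E` is injective: `β = 0` gives `λ_y(φ s) = 0` for all `y`, and `Hom_P(S,P)` separates points
(`S` is a torsion-free finite `P`-module); linearity: `ψ = φ(r ·)` has
`λ_y(ψ s) = T(λ_{β y^q}(r s)) = T(λ_{r β y^q}(s))`. -/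
def S_CRT : Prop :=
  ∀ (p e : ℕ) [Fact p.Prime] (P S K : Type) [CommRing P] [IsDomain P] [IsNoetherianRing P]
    [IsIntegrallyClosed P] [CommRing S] [IsDomain S] [IsIntegrallyClosed S] [CharP S p]
    [Algebra P S] [Module.Finite P S] [FaithfulSMul P S]
    [Field K] [Algebra S K] [IsFractionRing S K] (C : Submodule S K),
    CartGen P (p ^ e) → IsCanonical P C →
    ∃ E : {φ : S →+ S // IsCartier (p ^ e) φ} → K, Function.Injective E ∧
      (∀ β, β ∈ Dq (p ^ e) C ↔ ∃ φ, E φ = β) ∧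
      (∀ φ ψ χ, (∀ s, χ.1 s = φ.1 s + ψ.1 s) → E χ = E φ + E ψ) ∧
      ∀ r φ ψ, (∀ s, ψ.1 s = φ.1 (r * s)) → E ψ = algebraMap S K r * E φ

/-- **IND.** Independence of the presentation. (From `S_CRT`.)
Proof. `E, E'` from `S_CRT` for `P`, `P'`. There is `z ∈ K^×` with `E' φ = z E φ`: choose `φ₀` with `E φ₀ ≠ 0`
(there is one: `Dq q C ≠ 0`, as `C` is a nonzero finitely generated `S`-module, hence has a
common denominator...), and for any `φ` write `E φ / E φ₀ = r / s`; then `φ(s ·)` and `φ₀(r ·)` have the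
same `E`, so they are equal, so `s E' φ = r E' φ₀`. `z = E' φ₀ / E φ₀ ≠ 0` by injectivity. -/
def S_IND : Prop :=
  ∀ (p e : ℕ) [Fact p.Prime] (P P' S K : Type) [CommRing P] [IsDomain P] [IsNoetherianRing P]
    [IsIntegrallyClosed P] [CommRing P'] [IsDomain P'] [IsNoetherianRing P']
    [IsIntegrallyClosed P'] [CommRing S] [IsDomain S] [IsIntegrallyClosed S] [CharP S p]
    [Algebra P S] [Module.Finite P S] [FaithfulSMul P S]
    [Algebra P' S] [Module.Finite P' S] [FaithfulSMul P' S]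
    [Field K] [Algebra S K] [IsFractionRing S K] (C C' : Submodule S K),
    CartGen P (p ^ e) → CartGen P' (p ^ e) → IsCanonical P C → IsCanonical P' C' →
    ∃ z : K, z ≠ 0 ∧ ∀ β : K, β ∈ Dq (p ^ e) C' ↔ ∃ β₀ ∈ Dq (p ^ e) C, β = z * β₀

/-- **CRF.** The canonical module is nonzero, finitely generated and reflexive.
Proof. `C ≅ Hom_P(S, P)` is finitely generated over `P`; it is not zero since `S` is a torsion-free
finite `P`-module (`P`-linear functionals on `K = S ⊗ L`, clear denominators). Let `z ∈ 1/(1/C)`, choose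
`0 ≠ s ∈ P` with `s z ∈ C`, and `λ_z(r) = e(s z)(r) / s ∈ L = Frac P` (independent of `s`). Let `𝔮` be a
height one prime of `P`. `S_𝔮` (localization at `P \ 𝔮`) is a semilocal Dedekind domain, a PID, so
`C_𝔮 = y S_𝔮`, `(1/C)_𝔮 = y⁻¹ S_𝔮` (`C` finitely generated), so `z ∈ y S_𝔮 = C_𝔮`: there is `s' ∈ P \ 𝔮` with
`s' z ∈ C`, so `λ_z(r) ∈ P_𝔮`. By `S_KRU` (`Pool.Agent.H738.FT867KRU.kru`) `λ_z(r) ∈ P`, so `λ_z = e(z')`
with `z' ∈ C`, and `s z' = s z`, `z = z' ∈ C`. (Compare `Pool.Agent.H307.FT867LOB`,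
`Pool.Agent.H772.FT867BCN` for the localizations.) -/
def S_CRF : Prop :=
  ∀ (P S K : Type) [CommRing P] [IsDomain P] [IsNoetherianRing P]
    [IsIntegrallyClosed P] [CommRing S] [IsDomain S] [IsIntegrallyClosed S]
    [Algebra P S] [Module.Finite P S] [FaithfulSMul P S]
    [Field K] [Algebra S K] [IsFractionRing S K] (C : Submodule S K), IsCanonical P C →
    C ≠ ⊥ ∧ C.FG ∧ 1 / (1 / C) = C

/-- **DQE.** `Dq q C = 1 / C^{q-1}`.
Proof. `⊇` is clear. Let `β y^q ∈ C` for all `y ∈ C` and `c = y_1 ⋯ y_{q-1}`, `y_i ∈ C`. By `S_KRU` for `S`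
(`Pool.Agent.H738.FT867KRU.kru`) it suffices that for each height one prime `𝔭` of `S` there is `s ∉ 𝔭` with
`s β c ∈ S`. `S_𝔭` is a discrete valuation ring and `C` is finitely generated, so there are `y₀ ∈ C` and
`s ∉ 𝔭` with `s C ⊆ S y₀`. `β y₀^q ∈ C` gives `s β y₀^{q-1} ∈ S`, and `s^{q-1} c ∈ S y₀^{q-1}`. -/
def S_DQE : Prop :=
  ∀ (q : ℕ) (S K : Type) [CommRing S] [IsDomain S] [IsNoetherianRing S] [IsIntegrallyClosed S]
    [Field K] [Algebra S K] [IsFractionRing S K] (C : Submodule S K), 1 ≤ q → C ≠ ⊥ → C.FG →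
    Dq q C = 1 / C ^ (q - 1)

/-- **DDC.** Duals of powers over a Noetherian normal domain.
Proof. Both sides are of the form `1 / N`, hence determined by their localizations at height one primes
`𝔭` (`z ∈ 1/N` iff for all `𝔭` and `n ∈ N` some `s ∉ 𝔭` has `s z n ∈ S`, by `S_KRU`). At `𝔭`: `s M ⊆ S y₀`,
`y₀ ∈ M`, `s ∉ 𝔭`; so `M, 1/M, (1/M)^n, M^n, 1/M^n` are `y₀ S_𝔭, y₀⁻¹ S_𝔭, y₀^{-n} S_𝔭, y₀^n S_𝔭, y₀^{-n} S_𝔭`. -/
def S_DDC : Prop :=
  ∀ (n : ℕ) (S K : Type) [CommRing S] [IsDomain S] [IsNoetherianRing S] [IsIntegrallyClosed S]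
    [Field K] [Algebra S K] [IsFractionRing S K] (M : Submodule S K), M ≠ ⊥ → M.FG →
    1 / ((1 / M) ^ n) = 1 / (1 / M ^ n)

/-- **TEQ.** `C` is torsion iff `Dq q C` is. (From `S_DQE`, `S_DDC`.)
Proof. `1/(1/(1/N)) = 1/N` always. `M = C^{q-1}`, `D = Dq q C = 1/M`.
`D^n` torsion: `span {s} = 1/(1/D^n)`, and `1/D^n = 1/((1/M)^n) = 1/(1/M^n)` (`S_DDC`), so
`span {s} = 1/(1/(1/M^n)) = 1/M^n`, `1/(1/C^{n(q-1)}) = 1/span{s} = span {s⁻¹}` (`s ≠ 0`).
Conversely let `1/(1/C^n) = span {t}`. For `N` fin. gen. nonzero, `1/(1/(1/N))^m = …`: by `S_DDC` twice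
`1/((1/(1/N))^m) = 1/(1/((1/N)^m))`, and `1/((1/N)^m) = 1/(1/N^m)`, so it is `1/(1/(1/N^m)) = 1/N^m`. With
`N = C^n`, `m = q - 1`: `1/M^n = 1/(C^n)^{q-1} = 1/(span {t})^{q-1} = span {t^{-(q-1)}}`, and
`1/(1/D^n) = 1/(1/(1/M^n)) = 1/M^n`. (`1/N` is finitely generated and nonzero if `N` is: Noetherian.) -/
def S_TEQ : Prop :=
  ∀ (q : ℕ) (S K : Type) [CommRing S] [IsDomain S] [IsNoetherianRing S] [IsIntegrallyClosed S]
    [Field K] [Algebra S K] [IsFractionRing S K] (C : Submodule S K), 2 ≤ q → C ≠ ⊥ → C.FG →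
    (Tors C ↔ Tors (Dq q C))

end Pool.Agent.H867.FT
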