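import Pool.Agent.H867.FT.Cub3
import Pool.Agent.H867.FT.Gen5

/-!
# Assembly, part 5: the cubic case over the order valuation, conclusion.
-/

namespace Pool.Agent.H867.FT

open Module

set_option linter.unusedSectionVars false

section P

variable {P : Type} [CommRing P] [IsLocalRing P]

theorem sq_expand {a w z' : P} (hz' : z' ∈ Ideal.span {a, w}) {m : ℕ} (hm : 2 ≤ m) (r : P) :
    ∃ e₁ e₂ e₃ : P, z' ^ m * r = e₁ * a ^ 2 + e₂ * a * w + e₃ * w ^ 2 := by
  obtain ⟨α, β, rfl⟩ := Ideal.mem_span_pair.1 hz'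
  obtain ⟨n, rfl⟩ := Nat.exists_eq_add_of_le hm
  refine ⟨(α * a + β * w) ^ n * r * α ^ 2, (α * a + β * w) ^ n * r * (2 * α * β),
    (α * a + β * w) ^ n * r * β ^ 2, ?_⟩
  rw [pow_add]
  ring

theorem pow_mem_mul {I : Ideal P} (hI : I ≤ IsLocalRing.maximalIdeal P) {z' : P} (hz' : z' ∈ I)
    {m : ℕ} (hm : 2 ≤ m) (r : P) : z' ^ m * r ∈ IsLocalRing.maximalIdeal P * I := by
  obtain ⟨n, rfl⟩ := Nat.exists_eq_add_of_le hm
  have : z' ^ (2 + n) * r = z' * (z' * (z' ^ n * r)) := by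
    rw [pow_add]; ring
  rw [this]
  exact Ideal.mul_mem_mul (hI hz') (Ideal.mul_mem_right _ _ hz')

theorem pow_mem_sq {z' : P} (hz' : z' ∈ IsLocalRing.maximalIdeal P)
    {m : ℕ} (hm : 2 ≤ m) (r : P) : z' ^ m * r ∈ IsLocalRing.maximalIdeal P ^ 2 := by
  rw [pow_two]
  exact pow_mem_mul le_rfl hz' hm r

end P

section W

variable {P R V L W K : Type} [CommRing P] [IsDomain P] [IsLocalRing P] [IsNoetherianRing P]
    [IsIntegrallyClosed P]
    [CommRing R] [IsDomain R] [IsLocalRing R] [IsIntegrallyClosed R]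
    [Algebra P R] [Module.Finite P R] [Module.Free P R]
    [CommRing V] [IsDomain V] [IsDiscreteValuationRing V] [Algebra P V] [Field L]
    [Algebra P L] [IsFractionRing P L] [Algebra V L] [IsFractionRing V L] [IsScalarTower P V L]
    [Field K] [Algebra R K] [IsFractionRing R K] [Algebra P K] [IsScalarTower P R K]
    [CommRing W] [IsDomain W] [Algebra V W]
    [Algebra W K] [IsFractionRing W K] [Algebra L K] [Algebra V K] [IsScalarTower V L K]
    [IsScalarTower P L K] [IsScalarTower P V K]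
    [IsScalarTower V W K] [IsIntegralClosure W V K] [FiniteDimensional L K]
    [Algebra.IsSeparable L K]

/-- The cubic case, `a ∉ 𝔪²`, all coefficients in `(a, z)`. -/
theorem main_order (H : Lems)
    {C : Submodule R K} {B : Module.Basis (Fin 3) P R}
    {bW : Module.Basis (Fin 3) V W} {q N A : ℕ} {f : R} {T : P →+ P} {TL : L →+ L}
    {β : K} {g : P} {π : P} (U : Setup C B bW q N A f T TL β g π) (hP : CubP P)
    [IsAlgClosed (IsLocalRing.ResidueField P)]
    {z a b c d : P} {x y₀ : K} (h : Nf L C z a b c d x y₀)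
    (ha : a ∈ IsLocalRing.maximalIdeal P) (hz : z ∈ IsLocalRing.maximalIdeal P)
    (hind : Ind a z) (hnt : ¬ Tors C) :
    2 * N + (q - 1) ≤ 2 * (A * (q - 1)) := by
  have hle := span_le_max ha hz
  have ha2 := hind.left
  have haI : a ∈ Ideal.span {a, z} := Ideal.subset_span (by simp)
  -- no root modulo `𝔪²`
  by_cases hroot : ∀ l : P, a * l ^ 3 + b * l ^ 2 + c * l + d ∉ IsLocalRing.maximalIdeal P ^ 2
  · exfalso
    obtain ⟨ω, θ, hcub⟩ := h.cub
    obtain ⟨t, ht, h1, h2, h3⟩ := H.trz P R L K C a b c d z x y₀ ω θ hcub hind.symm.ne_zero ha hz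
      h.hb h.hc h.hd hroot
    exact hnt ⟨3, by norm_num, t, H.tor P R K (C ^ 3) t a z ht hind.ne_zero
      (reg_of_ind hP ha hz hind) h1 h2 h3⟩
  push Not at hroot
  obtain ⟨l, hl⟩ := hroot
  have h1 := h.shift H l
  rcases root_case H U hP h1 ha hz hind hl with hb | ⟨ξ, z', ρ, m, hξ, hm, hρ, hz's, hz'm, hF,
    hind1, hspan1⟩
  · exact hb
  have h2 := h1.shift H ξ
  rw [hF] at h2
  generalize b + 3 * a * l + 3 * a * ξ = b₁ at h2
  generalize c + 2 * b * l + 3 * a * l ^ 2 + 2 * (b + 3 * a * l) * ξ + 3 * a * ξ ^ 2 = c₁ at h2 hind1 hspan1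
  generalize x - algebraMap P K l - algebraMap P K ξ = x₁ at h2
  obtain ⟨ω₁, θ₁, hcub₁⟩ := h2.cub
  have hc₁ := hle h2.hc
  have hb₁ := hle h2.hb
  -- one root
  by_cases hroot2 : ∀ l : P, a * l ^ 2 + b₁ * l + c₁ ∉ IsLocalRing.maximalIdeal P ^ 2
  · exfalso
    obtain ⟨t, ht, h3, h4, h5⟩ := H.tro P R L K C a b₁ c₁ z' ρ m x₁ y₀ ω₁ θ₁ hcub₁ hm hρ
      hind1.symm.ne_zero hind1.ne_zero hc₁ hz'm (by rw [hspan1]; exact haI)
      (by rw [hspan1]; exact h2.hb) ha2 hroot2
    obtain ⟨hpz, -⟩ := hP.rgs z' c₁ hz'm hc₁ hind1.symm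
    have hpz' : Prime z' := (Ideal.span_singleton_prime hind1.symm.ne_zero).1 hpz
    have hzc : ¬ z' ∣ c₁ ^ m := by
      intro hdvd
      have h6 : z' ∣ c₁ := hpz'.dvd_of_dvd_pow hdvd
      obtain ⟨r, hr⟩ := h6
      have h7 := (hind1 1 (-r) (by
        rw [one_mul, hr, neg_mul, mul_comm z' r, add_neg_cancel]; exact Ideal.zero_mem _)).1
      exact one_notMem h7
    refine hnt ⟨2 * m + 1, by omega, t, H.tor P R K (C ^ (2 * m + 1)) t (z' ^ m) (c₁ ^ m) ht
      (pow_ne_zero _ hind1.symm.ne_zero) ?_ h3 h4 h5⟩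
    intro u hu
    exact hpz'.pow_dvd_of_dvd_mul_left m hzc hu
  push Not at hroot2
  obtain ⟨l', hl'⟩ := hroot2
  have hlu : IsUnit l' := by
    rw [← notMem_iff_isUnit]
    intro hl'm
    apply hind1.left
    have e1 : a * l' ^ 2 + b₁ * l' ∈ IsLocalRing.maximalIdeal P ^ 2 := by
      rw [pow_two (IsLocalRing.maximalIdeal P)]
      refine Ideal.add_mem _ ?_ (Ideal.mul_mem_mul hb₁ hl'm)
      rw [pow_two, ← mul_assoc]
      exact Ideal.mul_mem_right _ _ (Ideal.mul_mem_mul ha hl'm)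
    have := Ideal.sub_mem _ hl' e1
    rwa [add_sub_cancel_left] at this
  have hd₁ : z' ^ m * ρ ∈ IsLocalRing.maximalIdeal P ^ 2 := pow_mem_sq hz'm hm ρ
  have hF1 : a * l' ^ 3 + b₁ * l' ^ 2 + c₁ * l' + z' ^ m * ρ ∈ IsLocalRing.maximalIdeal P ^ 2 := by
    have : a * l' ^ 3 + b₁ * l' ^ 2 + c₁ * l' + z' ^ m * ρ =
        l' * (a * l' ^ 2 + b₁ * l' + c₁) + z' ^ m * ρ := by ring
    rw [this]
    exact Ideal.add_mem _ (Ideal.mul_mem_left _ _ hl') hd₁
  have h3 := h2.shift H l'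
  rcases root_case H U hP h3 ha hz hind hF1 with hb | ⟨ξ', z'', ρ', m', hξ', hm', hρ', hz''s,
    hz''m, hF', hind2, hspan2⟩
  · exact hb
  -- two roots
  set lam : P := l' + ξ' with hlam
  have hlamu : IsUnit lam := by
    rw [← notMem_iff_isUnit]
    intro hcon
    have := Ideal.sub_mem _ hcon hξ'
    rw [hlam, add_sub_cancel_right] at this
    exact notMem_iff_isUnit.2 hlu this
  obtain ⟨v, hv⟩ := hlamu.exists_left_inv
  have he0 : a * lam ^ 2 + b₁ * lam + c₁ = v * (z'' ^ m' * ρ' - z' ^ m * ρ) := by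
    have e1 : lam * (a * lam ^ 2 + b₁ * lam + c₁) = z'' ^ m' * ρ' - z' ^ m * ρ := by
      rw [← hF', hlam]; ring
    rw [← e1, ← mul_assoc, hv, one_mul]
  have hmI1 : z' ^ m * ρ ∈ IsLocalRing.maximalIdeal P * Ideal.span {a, z} :=
    pow_mem_mul hle hz's hm ρ
  have hmI2 : z'' ^ m' * ρ' ∈ IsLocalRing.maximalIdeal P * Ideal.span {a, z} :=
    pow_mem_mul hle hz''s hm' ρ'
  have hspanT : Ideal.span {a, z} = Ideal.span {a, b₁ + a * lam} := by
    apply le_antisymm
    · refine Submodule.le_of_le_smul_of_le_jacobson_bot (I := IsLocalRing.maximalIdeal P)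
        (IsNoetherian.noetherian _) (IsLocalRing.maximalIdeal_le_jacobson _) ?_
      set J : Ideal P := Ideal.span {a, b₁ + a * lam} ⊔
        IsLocalRing.maximalIdeal P • Ideal.span {a, z} with hJ
      have j1 : a ∈ J := Ideal.mem_sup_left (Ideal.subset_span (by simp))
      have j2 : b₁ + a * lam ∈ J := Ideal.mem_sup_left (Ideal.subset_span (by simp))
      have j3 : b₁ ∈ J := by
        have := Ideal.sub_mem _ j2 (Ideal.mul_mem_right lam _ j1)
        rwa [add_sub_cancel_right] at this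
      have j4 : z' ^ m * ρ ∈ J := Ideal.mem_sup_right hmI1
      have j5 : z'' ^ m' * ρ' ∈ J := Ideal.mem_sup_right hmI2
      have j6 : c₁ ∈ J := by
        have e1 : a * lam ^ 2 + b₁ * lam + c₁ ∈ J := by
          rw [he0]
          exact Ideal.mul_mem_left _ _ (Ideal.sub_mem _ j5 j4)
        have := Ideal.sub_mem _ e1 (Ideal.add_mem _ (Ideal.mul_mem_right (lam ^ 2) _ j1)
          (Ideal.mul_mem_right lam _ j3))
        rwa [add_sub_cancel_left] at this
      have j7 : Ideal.span {a, b₁, c₁, z' ^ m * ρ} ≤ J := by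
        rw [Ideal.span_le]
        intro y hy
        simp only [Set.mem_insert_iff, Set.mem_singleton_iff] at hy
        rcases hy with rfl | rfl | rfl | rfl
        · exact j1
        · exact j3
        · exact j6
        · exact j4
      have j8 : z ∈ J := j7 h2.hz
      rw [Ideal.span_le]
      intro y hy
      simp only [Set.mem_insert_iff, Set.mem_singleton_iff] at hy
      rcases hy with rfl | rfl
      · exact j1
      · exact j8
    · rw [Ideal.span_le]
      intro y hy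
      simp only [Set.mem_insert_iff, Set.mem_singleton_iff] at hy
      rcases hy with rfl | rfl
      · exact haI
      · exact Ideal.add_mem _ h2.hb (Ideal.mul_mem_right _ _ haI)
  have hindT : Ind a (b₁ + a * lam) := hind.of_span hspanT
  obtain ⟨d₁, d₂, d₃, hd⟩ := sq_expand (a := a) (w := b₁ + a * lam) (z' := z')
    (by rw [← hspanT]; exact hz's) hm ρ
  obtain ⟨e₁, e₂, e₃, he⟩ := sq_expand (a := a) (w := b₁ + a * lam) (z' := z'')
    (by rw [← hspanT]; exact hz''s) hm' ρ'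
  refine case_TAU H U hP (lam := lam) hcub₁ ha ha2 hb₁ hc₁ (Ideal.pow_le_self (by norm_num) hd₁)
    hindT (e₁ := v * (e₁ - d₁)) (e₂ := v * (e₂ - d₂)) (e₃ := v * (e₃ - d₃)) ?_ hd
  rw [he0, hd, he]
  ring

end W

end Pool.Agent.H867.FT
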