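import Pool.Agent.H867.FT.Gen2

/-!
# Statements, part 4: the non-CM case, the canonical module, completion.
-/

namespace Pool.Agent.H867.FT

/-- `C` is (isomorphic to) the canonical module `ω_R = Hom_P(R, P)`. -/
def IsCanonical (P : Type) {R K : Type} [CommRing P] [CommRing R] [Algebra P R] [Field K]
    [Algebra R K] (C : Submodule R K) : Prop :=
  ∃ e : C ≃+ (R →ₗ[P] P), ∀ (r : R) (y : C) (s : R), e (r • y) s = e y (r * s)

/-- **CAN.** The codifferent is isomorphic to `Hom_P(R, P)`, by `y ↦ (r ↦ Tr(y r))`.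
Proof. The map is injective since the trace form of `K/L` is nondegenerate and every element of `K` is
`r / s`, `r ∈ R`, `0 ≠ s ∈ P`. Surjective: `λ : R → P` extends to an `L`-linear map `K → L`
(`K = L ⊗_P R`, i.e. localization at `P \ 0`), which is `z ↦ Tr(y z)` for some `y ∈ K`. -/
def S_CAN : Prop :=
  ∀ (P R L K : Type) [CommRing P] [IsDomain P] [CommRing R] [IsDomain R]
    [Algebra P R] [Module.Finite P R] [FaithfulSMul P R] [Field L]
    [Algebra P L] [IsFractionRing P L] [IsIntegrallyClosed P]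
    [Field K] [Algebra R K] [IsFractionRing R K] [Algebra P K] [IsScalarTower P R K]
    [Algebra L K] [IsScalarTower P L K] [FiniteDimensional L K]
    [Algebra.IsSeparable L K],
    ∃ C : Submodule R K, (∀ y : K, y ∈ C ↔
      ∀ r : R, ∃ g : P, algebraMap P L g = Algebra.trace L K (y * algebraMap R K r)) ∧
      IsCanonical P C

/-- **CMP.** A splitting of a Noetherian local ring `R` extends to its completion `S`.
Proof. If `𝔪_R` has `μ` generators then `𝔪_R^{μ q + q j} ⊆ (𝔪_R^j)^{[q]}·R` (pigeonhole), so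
`φ(𝔪_R^{q (μ + j)}) ⊆ 𝔪_R^j`: `φ` is uniformly continuous. Put `φ_S(s) = lim φ(r_n)` for
`s - ι(r_n) ∈ 𝔪_S^n`; it is well defined (`S` is complete and separated), additive,
`φ_S(s^q t) = s φ_S(t)`, and `φ_S(ι f) = ι(φ f) = 1`. -/
def S_CMP : Prop :=
  ∀ (q : ℕ) (R S : Type) [CommRing R] [IsLocalRing R] [IsNoetherianRing R] [CommRing S]
    [IsLocalRing S] [IsAdicComplete (IsLocalRing.maximalIdeal S) S] (ι : R →+* S),
    1 ≤ q →
    (∀ (n : ℕ) (s : S), ∃ r : R, s - ι r ∈ IsLocalRing.maximalIdeal S ^ n) →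
    (∀ (n : ℕ) (r : R), r ∈ IsLocalRing.maximalIdeal R ^ n → ι r ∈ IsLocalRing.maximalIdeal S ^ n) →
    (∀ (n : ℕ) (r : R), ι r ∈ IsLocalRing.maximalIdeal S ^ n → r ∈ IsLocalRing.maximalIdeal R ^ n) →
    ∀ f : R, FSplits R q f → FSplits S q (ι f)

/-- **SRJ.** If the residue field of `P` is algebraically closed and `R` is local and finite over `P`
then `P → R / 𝔪_R` is surjective. -/
def S_SRJ : Prop :=
  ∀ (P R : Type) [CommRing P] [IsLocalRing P] [CommRing R] [IsLocalRing R] [Algebra P R]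
    [Module.Finite P R] [FaithfulSMul P R] [IsAlgClosed (IsLocalRing.ResidueField P)],
    ∀ r : R, ∃ g : P, r - algebraMap P R g ∈ IsLocalRing.maximalIdeal R

/-- **INT.** If `π² ∣ a, b, c, d` in `V` then `ω = a x`, `θ = a x² + b x + c` are in `π² W`.
Proof. `ω³ + b ω² + a c ω + a² d = 0`, `θ³ - c θ² + b d θ - a d² = 0` (multiply `F(x,1) = 0` by `a²`, and
use `θ = -d/x`); divide by `π⁶`. -/
def S_INT : Prop :=
  ∀ (V L W K : Type) [CommRing V] [IsDomain V] [IsDiscreteValuationRing V] [Field L]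
    [Algebra V L] [IsFractionRing V L] [CommRing W] [IsDomain W] [Algebra V W] [Field K]
    [Algebra W K] [IsFractionRing W K] [Algebra L K] [Algebra V K] [IsScalarTower V L K]
    [IsScalarTower V W K] [IsIntegralClosure W V K] (π a b c d : V) (x : K),
    π ≠ 0 → a ≠ 0 → x ≠ 0 → π ^ 2 ∣ a → π ^ 2 ∣ b → π ^ 2 ∣ c → π ^ 2 ∣ d →
    algebraMap V K a * x ^ 3 + algebraMap V K b * x ^ 2 + algebraMap V K c * x +
        algebraMap V K d = 0 →
    (∃ w : W, algebraMap V K a * x = algebraMap V K π ^ 2 * algebraMap W K w) ∧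
    ∃ w : W, algebraMap V K a * x ^ 2 + algebraMap V K b * x + algebraMap V K c =
      algebraMap V K π ^ 2 * algebraMap W K w

/-- **NCM.** (the non-Cohen–Macaulay case)  `P = k[[X_0..X_{d+1}]]`, `k` infinite, `R ⊇ P` a finite
domain, local, `𝔪_R^{r+1} = 𝔪_P 𝔪_R^r`, not free over `P`. There is a constant `c` such that for all
`q = p^e`, if `f ∈ 𝔪_R^N` splits at level `q` then `N ≤ d (q-1) + c`.
Proof. `x_i ∈ R` the image of `X_i`, `I = unm x`. If `I = R` then (with `s = 1` in the definition) the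
`X_i` form a regular sequence on `R` and `R` is free by `S_FRE` (`m ∈ J • ⊤` iff `m ∈ J R`:
`Ideal.smul_top_eq_map`). So `I ≠ R`. `J = I ∩ P` is contained in no height one prime of `P` by `S_LFR`
and `S_XRG`, and `J ≠ 0` (take a minimal prime of `(X_0)`: it has height one by Krull). By
`S_AVD` there are `c₁, c₂ ∈ J`, and `r'` from `S_RDC`:
`𝔪_P^{r' + d (q-1)} ⊆ (c₁, c₂) + (X_i^q)`. Now
`𝔪_R^{r + j} ⊆ 𝔪_P^j R`, so if `N ≥ r + r' + d (q-1)` then `f ∈ I + (x_i^q)`, contradicting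
`S_UNM`. So `c = r + r'` works. -/
def S_NCM : Prop :=
  ∀ (p : ℕ) [Fact p.Prime] (k : Type) [Field k] [Infinite k] [CharP k p] (d : ℕ) (R : Type)
    [CommRing R] [IsDomain R] [IsLocalRing R] [CharP R p]
    [Algebra (MvPowerSeries (Fin (d + 2)) k) R]
    [Module.Finite (MvPowerSeries (Fin (d + 2)) k) R]
    [FaithfulSMul (MvPowerSeries (Fin (d + 2)) k) R],
    ¬ Module.Free (MvPowerSeries (Fin (d + 2)) k) R →
    (∃ r : ℕ, IsLocalRing.maximalIdeal R ^ (r + 1) =
      (IsLocalRing.maximalIdeal (MvPowerSeries (Fin (d + 2)) k)).map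
        (algebraMap (MvPowerSeries (Fin (d + 2)) k) R) * IsLocalRing.maximalIdeal R ^ r) →
    ∃ c : ℕ, ∀ (e N : ℕ) (f : R), f ∈ IsLocalRing.maximalIdeal R ^ N →
      FSplits R (p ^ e) f → N ≤ d * (p ^ e - 1) + c

end Pool.Agent.H867.FT
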