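import Pool.Agent.H867.FT.Cub4
import Pool.Agent.H867.FT.Gen3

/-!
# Assembly, part 6: the cubic case.
-/

namespace Pool.Agent.H867.FT

open Module

set_option linter.unusedSectionVars false

theorem exists_W (V L K : Type) [CommRing V] [IsDomain V] [IsDiscreteValuationRing V] [Field L]
    [Algebra V L] [IsFractionRing V L] [Field K] [Algebra L K] [Algebra V K]
    [IsScalarTower V L K] [FiniteDimensional L K] [Algebra.IsSeparable L K] (n : ℕ)
    (hn : Module.finrank L K = n) :
    ∃ (W : Type) (_ : CommRing W) (_ : IsDomain W) (_ : Algebra V W) (_ : Algebra W K)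
      (_ : IsFractionRing W K) (_ : IsScalarTower V W K) (_ : IsIntegralClosure W V K),
      Nonempty (Module.Basis (Fin n) V W) := by
  have hfr : IsFractionRing (integralClosure V K) K :=
    integralClosure.isFractionRing_of_finite_extension L K
  have hinj : Function.Injective (algebraMap V K) := by
    rw [IsScalarTower.algebraMap_eq V L K]
    exact (algebraMap L K).injective.comp (IsFractionRing.injective V L)
  have hf : FaithfulSMul V K := (faithfulSMul_iff_algebraMap_injective V K).2 hinj
  have h1 : Module.Finite V (integralClosure V K) :=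
    IsIntegralClosure.finite V L K (integralClosure V K)
  have h2 : Module.Free V (integralClosure V K) :=
    IsIntegralClosure.module_free V L K (integralClosure V K)
  have h3 : Module.finrank V (integralClosure V K) = n := by
    rw [IsIntegralClosure.rank V L K (integralClosure V K), hn]
  exact ⟨integralClosure V K, inferInstance, inferInstance, inferInstance, inferInstance, hfr,
    inferInstance, inferInstance, ⟨Module.finBasisOfFinrankEq V _ h3⟩⟩

section W

variable {P R V L W K : Type} [CommRing P] [IsDomain P] [IsLocalRing P] [IsNoetherianRing P]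
    [IsIntegrallyClosed P]
    [CommRing R] [IsDomain R] [IsLocalRing R] [IsIntegrallyClosed R]
    [Algebra P R] [Module.Finite P R] [Module.Free P R]
    [CommRing V] [IsDomain V] [IsDiscreteValuationRing V] [Algebra P V] [Field L]
    [Algebra P L] [IsFractionRing P L] [Algebra V L] [IsFractionRing V L] [IsScalarTower P V L]
    [Field K] [Algebra R K] [IsFractionRing R K] [Algebra P K] [IsScalarTower P R K]
    [CommRing W] [IsDomain W] [Algebra V W]
    [Algebra W K] [IsFractionRing W K] [Algebra L K] [Algebra V K] [IsScalarTower V L K]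
    [IsScalarTower P L K] [IsScalarTower P V K]
    [IsScalarTower V W K] [IsIntegralClosure W V K] [FiniteDimensional L K]
    [Algebra.IsSeparable L K]

/-- all coefficients divisible by `π²` -/
theorem case_W (H : Lems) (hINT : S_INT)
    {C : Submodule R K} {b : Module.Basis (Fin 3) P R}
    (bW : Module.Basis (Fin 3) V W) {q N A : ℕ} {f : R} {T : P →+ P} {TL : L →+ L}
    {β : K} {g : P} (S : SplitData C q N f T TL β g (Algebra.discr P b)) {π : P}
    (hV : VPack P L V π (A + 1)) (hb0 : b 0 = 1)
    (hbj : ∀ j : Fin 2, b j.succ ∈ IsLocalRing.maximalIdeal R)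
    (hred : ∃ r : ℕ, IsLocalRing.maximalIdeal R ^ (r + 1) =
      (IsLocalRing.maximalIdeal P).map (algebraMap P R) * IsLocalRing.maximalIdeal R ^ r)
    {a b' c d : P} {x y₀ : K} {ω θ : R} (hcub : IsCub L C a b' c d x y₀ ω θ)
    (h : ∀ y ∈ ({a, b', c, d} : Set P), algebraMap P V π ^ 2 ∣ algebraMap P V y) :
    2 * N + (q - 1) ≤ 2 * (A * (q - 1)) := by
  obtain ⟨δ, hδ0, hδ, ε, hε, hεn⟩ := H.dif V L W K (Fin 3) bW
  obtain ⟨w, hw⟩ := key_of H.key S hV hδ0 hδ
  obtain ⟨-, -, hx, -⟩ := H.shf P R L K C a b' c d x y₀ ω θ hcub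
  have hPL : Function.Injective (algebraMap P L) := IsFractionRing.injective P L
  have ha : algebraMap P V a ≠ 0 := by
    intro h0
    apply hcub.ha
    apply hPL
    rw [IsScalarTower.algebraMap_apply P V L, h0, map_zero, map_zero]
  obtain ⟨⟨w₁, hw₁⟩, ⟨w₂, hw₂⟩⟩ := hINT V L W K (algebraMap P V π) (algebraMap P V a)
    (algebraMap P V b') (algebraMap P V c) (algebraMap P V d) x hV.irr.ne_zero ha hx
    (h a (by simp)) (h b' (by simp)) (h c (by simp)) (h d (by simp)) (by
      rw [← IsScalarTower.algebraMap_apply P V K, ← IsScalarTower.algebraMap_apply P V K,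
        ← IsScalarTower.algebraMap_apply P V K, ← IsScalarTower.algebraMap_apply P V K]
      exact hcub.root)
  rw [← IsScalarTower.algebraMap_apply P V K, ← IsScalarTower.algebraMap_apply P V K,
    ← hcub.hω] at hw₁
  rw [← IsScalarTower.algebraMap_apply P V K, ← IsScalarTower.algebraMap_apply P V K,
    ← IsScalarTower.algebraMap_apply P V K, ← IsScalarTower.algebraMap_apply P V K,
    ← hcub.hθ] at hw₂
  have h3 := ineq_core H bW S hV hb0 hbj hred hcub.gen hδ hε hεn hw isUnit_one
    (norm_V bW _) hw₁ hw₂
  have h4 : (A + 1) * (q - 1) = A * (q - 1) + (q - 1) := by ring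
  rw [h4] at h3
  generalize A * (q - 1) = M at *
  omega

end W

/-- what is used of `P` (`d` variables) -/
structure PData (d : ℕ) (P L : Type) [CommRing P] [IsDomain P] [IsLocalRing P] [Field L]
    [Algebra P L] [IsFractionRing P L] : Prop where
  cub : CubP P
  ord : ∃ (V : Type) (_ : CommRing V) (_ : IsDomain V) (_ : IsDiscreteValuationRing V)
      (_ : Algebra V L) (_ : IsFractionRing V L) (_ : Algebra P V) (_ : IsScalarTower P V L)
      (π : P), VPack P L V π (d - 1) ∧ IsOrd P V π
  wt : ∀ y ∈ IsLocalRing.maximalIdeal P, y ∉ IsLocalRing.maximalIdeal P ^ 2 →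
      ∃ (V : Type) (_ : CommRing V) (_ : IsDomain V) (_ : IsDiscreteValuationRing V)
      (_ : Algebra V L) (_ : IsFractionRing V L) (_ : Algebra P V) (_ : IsScalarTower P V L)
      (π : P), VPack P L V π d ∧
        ∀ g ∈ Ideal.span {y} ⊔ IsLocalRing.maximalIdeal P ^ 2,
          algebraMap P V π ^ 2 ∣ algebraMap P V g

section P

variable {P R L K : Type} [CommRing P] [IsDomain P] [IsLocalRing P] [IsNoetherianRing P]
    [IsIntegrallyClosed P]
    [CommRing R] [IsDomain R] [IsLocalRing R] [IsIntegrallyClosed R]
    [Algebra P R] [Module.Finite P R] [Module.Free P R]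
    [Field L] [Algebra P L] [IsFractionRing P L]
    [Field K] [Algebra R K] [IsFractionRing R K] [Algebra P K] [IsScalarTower P R K]
    [Algebra L K] [IsScalarTower P L K] [FiniteDimensional L K]
    [Algebra.IsSeparable L K]

theorem finrank_of_basis {n : ℕ} (b : Module.Basis (Fin n) P R) : Module.finrank L K = n := by
  have hloc : IsLocalization (Algebra.algebraMapSubmonoid R (nonZeroDivisors P)) K :=
    IsIntegralClosure.isLocalization P L K R
  rw [Module.finrank_eq_card_basis (b.localizationLocalization L (nonZeroDivisors P) K),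
    Fintype.card_fin]

theorem tors_of_principal (hTOR : S_TOR) {C : Submodule R K} {y : K} (hy : y ≠ 0)
    (h : C = Submodule.span R {y}) (P : Type) [CommRing P] [IsDomain P] [Algebra P R]
    [Module.Finite P R] [Module.Free P R] [Algebra P K] [IsScalarTower P R K] : Tors C := by
  refine ⟨1, le_rfl, y, ?_⟩
  rw [pow_one]
  refine hTOR P R K C y 1 1 hy one_ne_zero (fun u hu => by simpa using hu) ?_ ?_ ?_
  · intro z hz
    rw [h] at hz
    obtain ⟨r, hr⟩ := Submodule.mem_span_singleton.1 hz
    exact ⟨r, by rw [← hr, Algebra.smul_def]⟩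
  · rw [map_one, one_mul, h]; exact Submodule.mem_span_singleton_self y
  · rw [map_one, one_mul, h]; exact Submodule.mem_span_singleton_self y

end P

end Pool.Agent.H867.FT
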