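import Pool.Agent.H867.FT.Cub5

/-!
# Assembly, part 7: the cubic case.
-/

namespace Pool.Agent.H867.FT

open Module

set_option linter.unusedSectionVars false

/-- further hypotheses (proved separately). -/
structure Lems2 : Prop extends Lems where
  bet : S_BET
  lob : S_LOB
  bcn : S_BCN
  cubS : S_CUB
  int : S_INT
  rk2 : S_RK2

section P

variable {P R L K : Type} [CommRing P] [IsDomain P] [IsLocalRing P] [IsNoetherianRing P]
    [IsIntegrallyClosed P]
    [CommRing R] [IsDomain R] [IsLocalRing R] [IsIntegrallyClosed R]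
    [Algebra P R] [Module.Finite P R] [Module.Free P R]
    [Field L] [Algebra P L] [IsFractionRing P L]
    [Field K] [Algebra R K] [IsFractionRing R K] [Algebra P K] [IsScalarTower P R K]
    [Algebra L K] [IsScalarTower P L K] [FiniteDimensional L K]
    [Algebra.IsSeparable L K]

/-- Vandermonde -/
theorem vander {I : Ideal P} {a b c d : P} (l : Fin 4 → P) (hl : ∀ i j, i ≠ j → IsUnit (l i - l j))
    (h : ∀ i, a * l i ^ 3 + b * l i ^ 2 + c * l i + d ∈ I) : a ∈ I ∧ b ∈ I ∧ c ∈ I ∧ d ∈ I := by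
  -- divided differences
  have key : ∀ (u : P) (v : P), IsUnit u → v * u ∈ I → v ∈ I := by
    intro u v hu huv
    obtain ⟨w, hw⟩ := hu.exists_right_inv
    have := I.mul_mem_right w huv
    rwa [mul_assoc, hw, mul_one] at this
  have h1 : ∀ i, i ≠ 0 → a * (l i ^ 2 + l i * l 0 + l 0 ^ 2) + b * (l i + l 0) + c ∈ I := by
    intro i hi
    apply key _ _ (hl i 0 hi)
    have := I.sub_mem (h i) (h 0)
    have e : (a * (l i ^ 2 + l i * l 0 + l 0 ^ 2) + b * (l i + l 0) + c) * (l i - l 0) =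
      a * l i ^ 3 + b * l i ^ 2 + c * l i + d - (a * l 0 ^ 3 + b * l 0 ^ 2 + c * l 0 + d) := by ring
    rw [e]; exact this
  have h2 : ∀ i, i ≠ 0 → i ≠ 1 → a * (l i + l 1 + l 0) + b ∈ I := by
    intro i hi hi1
    apply key _ _ (hl i 1 hi1)
    have := I.sub_mem (h1 i hi) (h1 1 (by decide))
    have e : (a * (l i + l 1 + l 0) + b) * (l i - l 1) =
      a * (l i ^ 2 + l i * l 0 + l 0 ^ 2) + b * (l i + l 0) + c -
        (a * (l 1 ^ 2 + l 1 * l 0 + l 0 ^ 2) + b * (l 1 + l 0) + c) := by ring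
    rw [e]; exact this
  have ha : a ∈ I := by
    apply key _ _ (hl 3 2 (by decide))
    have := I.sub_mem (h2 3 (by decide) (by decide)) (h2 2 (by decide) (by decide))
    have e : a * (l 3 - l 2) = a * (l 3 + l 1 + l 0) + b - (a * (l 2 + l 1 + l 0) + b) := by ring
    rw [e]; exact this
  have hb : b ∈ I := by
    have := I.sub_mem (h2 3 (by decide) (by decide)) (I.mul_mem_right (l 3 + l 1 + l 0) ha)
    rwa [add_sub_cancel_left] at this
  have hc : c ∈ I := by
    have := I.sub_mem (h1 1 (by decide)) (I.add_mem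
      (I.mul_mem_right (l 1 ^ 2 + l 1 * l 0 + l 0 ^ 2) ha) (I.mul_mem_right (l 1 + l 0) hb))
    rwa [add_sub_cancel_left] at this
  refine ⟨ha, hb, hc, ?_⟩
  have := I.sub_mem (h 0) (I.add_mem (I.add_mem
    (I.mul_mem_right (l 0 ^ 3) ha) (I.mul_mem_right (l 0 ^ 2) hb)) (I.mul_mem_right (l 0) hc))
  rwa [add_sub_cancel_left] at this

/-- The cubic case when `a ∉ 𝔪²`. -/
theorem cubic_a (H : Lems2) {d q N : ℕ} (hq : 3 ≤ q) (D : PData d P L)
    [IsAlgClosed (IsLocalRing.ResidueField P)] (hd1 : 1 ≤ d)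
    {C : Submodule R K} (hC : IsCodiff P R L K C) (hnt : ¬ Tors C)
    (B : Module.Basis (Fin 3) P R) (hb0 : B 0 = 1)
    (hbj : ∀ j : Fin 2, B j.succ ∈ IsLocalRing.maximalIdeal R)
    (hred : ∃ r : ℕ, IsLocalRing.maximalIdeal R ^ (r + 1) =
      (IsLocalRing.maximalIdeal P).map (algebraMap P R) * IsLocalRing.maximalIdeal R ^ r)
    {f : R} {T : P →+ P} {TL : L →+ L} {β : K} {g : P}
    (S : SplitData C q N f T TL β g (Algebra.discr P B))
    {a b c d' : P} {x y₀ : K} {ω θ : R} (hcub : IsCub L C a b c d' x y₀ ω θ)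
    (ha : a ∈ IsLocalRing.maximalIdeal P) (ha2 : a ∉ IsLocalRing.maximalIdeal P ^ 2)
    (hb : b ∈ IsLocalRing.maximalIdeal P) (hc : c ∈ IsLocalRing.maximalIdeal P)
    (hd : d' ∈ IsLocalRing.maximalIdeal P) :
    2 * N + (q - 1) ≤ 2 * ((d - 1) * (q - 1)) := by
  have hfin : Module.finrank L K = 3 := finrank_of_basis B
  by_cases hall : ∀ z ∈ ({b, c, d'} : Set P),
      z ∈ Ideal.span {a} ⊔ IsLocalRing.maximalIdeal P ^ 2
  · -- weighted order
    obtain ⟨V, i1, i2, i3, i4, i5, i6, i7, π, hV, hwt⟩ := D.wt a ha ha2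
    let _ : Algebra V K := ((algebraMap L K).comp (algebraMap V L)).toAlgebra
    have : IsScalarTower V L K := IsScalarTower.of_algebraMap_eq (fun _ => rfl)
    have : IsScalarTower P V K := IsScalarTower.of_algebraMap_eq (fun r => by
      rw [IsScalarTower.algebraMap_apply P L K, IsScalarTower.algebraMap_apply P V L]
      rfl)
    obtain ⟨W, j1, j2, j3, j4, j5, j6, j7, ⟨bW⟩⟩ := exists_W V L K 3 hfin
    obtain ⟨m, rfl⟩ := Nat.exists_eq_add_of_le hd1
    rw [add_comm 1 m] at hV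
    rw [add_tsub_cancel_left]
    refine case_W (W := W) H.toLems H.int bW S hV hb0 hbj hred hcub ?_
    intro y hy
    simp only [Set.mem_insert_iff, Set.mem_singleton_iff] at hy
    rcases hy with rfl | rfl | rfl | rfl
    · exact hwt _ (Ideal.mem_sup_left (Ideal.mem_span_singleton_self _))
    · exact hwt _ (hall _ (by simp))
    · exact hwt _ (hall _ (by simp))
    · exact hwt _ (hall _ (by simp))
  -- order valuation
  push Not at hall
  obtain ⟨z, hz, hza⟩ := hall
  have hzm : z ∈ IsLocalRing.maximalIdeal P := by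
    simp only [Set.mem_insert_iff, Set.mem_singleton_iff] at hz
    rcases hz with rfl | rfl | rfl <;> assumption
  have hind : Ind a z := by
    intro r s hrs
    have hs : s ∈ IsLocalRing.maximalIdeal P := by
      by_contra hs
      obtain ⟨v, hv⟩ := (notMem_iff_isUnit.1 hs).exists_left_inv
      apply hza
      have e : z = (-(v * r)) * a + v * (r * a + s * z) := by
        linear_combination (-z) * hv
      rw [e]
      exact Ideal.add_mem _ (Ideal.mem_sup_left (Ideal.mul_mem_left _ _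
        (Ideal.mem_span_singleton_self _))) (Ideal.mem_sup_right (Ideal.mul_mem_left _ _ hrs))
    refine ⟨?_, hs⟩
    by_contra hr
    obtain ⟨v, hv⟩ := (notMem_iff_isUnit.1 hr).exists_left_inv
    apply ha2
    have e : a = v * ((r * a + s * z) - s * z) := by
      linear_combination (-a) * hv
    rw [e]
    refine Ideal.mul_mem_left _ _ (Ideal.sub_mem _ hrs ?_)
    rw [pow_two]
    exact Ideal.mul_mem_mul hs hzm
  obtain ⟨V, i1, i2, i3, i4, i5, i6, i7, π, hV, ho⟩ := D.ord
  let _ : Algebra V K := ((algebraMap L K).comp (algebraMap V L)).toAlgebra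
  have : IsScalarTower V L K := IsScalarTower.of_algebraMap_eq (fun _ => rfl)
  have : IsScalarTower P V K := IsScalarTower.of_algebraMap_eq (fun r => by
    rw [IsScalarTower.algebraMap_apply P L K, IsScalarTower.algebraMap_apply P V L]
    rfl)
  obtain ⟨W, j1, j2, j3, j4, j5, j6, j7, ⟨bW⟩⟩ := exists_W V L K 3 hfin
  have U : Setup C B bW q N (d - 1) f T TL β g π := ⟨hC, S, hV, ho, hb0, hbj, hred, hq⟩
  have hzc : z ∈ Ideal.span {a, b, c, d'} := by
    simp only [Set.mem_insert_iff, Set.mem_singleton_iff] at hz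
    rcases hz with rfl | rfl | rfl
    · exact Ideal.subset_span (by simp)
    · exact Ideal.subset_span (by simp)
    · exact Ideal.subset_span (by simp)
  by_cases hall2 : ∀ w ∈ ({b, c, d'} : Set P), w ∈ Ideal.span {a, z}
  · exact main_order (W := W) H.toLems U D.cub ⟨⟨ω, θ, hcub⟩, hall2 _ (by simp), hall2 _ (by simp),
      hall2 _ (by simp), hzc⟩ ha hzm hind hnt
  · push Not at hall2
    obtain ⟨w, hw, hwa⟩ := hall2
    have hwc : w ∈ Ideal.span {a, b, c, d'} := by
      simp only [Set.mem_insert_iff, Set.mem_singleton_iff] at hw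
      rcases hw with rfl | rfl | rfl
      · exact Ideal.subset_span (by simp)
      · exact Ideal.subset_span (by simp)
      · exact Ideal.subset_span (by simp)
    obtain ⟨l, hl⟩ := D.cub.units
    obtain ⟨-, hp2⟩ := D.cub.rgs a z ha hzm hind
    refine case_V (W := W) H.toLems U hcub ha ha2 hb hc hd (fun i => l i.castSucc)
      (fun i j hij => hl _ _ (fun h => hij (Fin.castSucc_injective _ h))) ![a, z, w] ?_ ?_ ?_ ?_
    · intro i
      fin_cases i
      · exact Ideal.subset_span (by simp)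
      · exact hzc
      · exact hwc
    · exact hcub.ha
    · exact reg_of_ind D.cub ha hzm hind
    · intro u hu
      exact (hp2.mem_or_mem hu).resolve_left hwa

theorem cubic (H : Lems2) {d q N : ℕ} (hq : 3 ≤ q) (D : PData d P L)
    [IsAlgClosed (IsLocalRing.ResidueField P)] (hd1 : 1 ≤ d) (hT : CartGen P q)
    {C : Submodule R K} (hC : IsCodiff P R L K C) (hnt : ¬ Tors C)
    (B : Module.Basis (Fin 3) P R) (hb0 : B 0 = 1)
    (hbj : ∀ j : Fin 2, B j.succ ∈ IsLocalRing.maximalIdeal R)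
    (hred : ∃ r : ℕ, IsLocalRing.maximalIdeal R ^ (r + 1) =
      (IsLocalRing.maximalIdeal P).map (algebraMap P R) * IsLocalRing.maximalIdeal R ^ r)
    {f : R} (hN : f ∈ IsLocalRing.maximalIdeal R ^ N) (hf : FSplits R q f) :
    2 * N + (q - 1) ≤ 2 * ((d - 1) * (q - 1)) := by
  obtain ⟨T, hT1, hT2, hT3⟩ := hT
  obtain ⟨TL, β, g, S⟩ := splitData_of H.bet H.lob H.bcn B C hC q N (by omega) T hT1 hT2 hT3 f hN hf
  have hfin : Module.finrank L K = 3 := finrank_of_basis B
  obtain ⟨a, b, c, d', x, y₀, ω, θ, h1, h2, h3, h4, h5, h6, h7, h8⟩ :=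
    H.cubS P R L K B C hb0 hC
  have hcub : IsCub L C a b c d' x y₀ ω θ := ⟨h1, h2, h3, h4, h5, h6, h7, h8⟩
  obtain ⟨l, hl⟩ := D.cub.units
  by_cases hunit : IsUnit a ∨ IsUnit b ∨ IsUnit c ∨ IsUnit d'
  · exfalso
    obtain ⟨y, hy, hCy⟩ := H.gor P R L K C a b c d' x y₀ ω θ l hl hcub hunit
    exact hnt (tors_of_principal H.tor hy hCy P)
  push Not at hunit
  obtain ⟨ua, ub, uc, ud⟩ := hunit
  have hm : ∀ {r : P}, ¬ IsUnit r → r ∈ IsLocalRing.maximalIdeal P := fun h => by
    by_contra hcon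
    exact h (notMem_iff_isUnit.1 hcon)
  have ha := hm ua
  have hb := hm ub
  have hc := hm uc
  have hd := hm ud
  by_cases hall : ∀ i, a * l i ^ 3 + b * l i ^ 2 + c * l i + d' ∈ IsLocalRing.maximalIdeal P ^ 2
  · -- all coefficients in `𝔪²`
    obtain ⟨ha2, hb2, hc2, hd2⟩ := vander l hl hall
    obtain ⟨V₀, i1, i2, i3, i4, i5, i6, i7, π₀, hV₀, ho₀⟩ := D.ord
    have hπ₀ : π₀ ∉ IsLocalRing.maximalIdeal P ^ 2 := by
      intro hcon
      rw [ho₀] at hcon
      obtain ⟨u, hu⟩ := hcon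
      have h0 : algebraMap P V₀ π₀ ≠ 0 := hV₀.irr.ne_zero
      have h1 : algebraMap P V₀ π₀ * (algebraMap P V₀ π₀ * u) = algebraMap P V₀ π₀ * 1 := by
        rw [mul_one]
        nth_rewrite 3 [hu]
        ring
      exact hV₀.irr.not_isUnit (IsUnit.of_mul_eq_one _ (mul_left_cancel₀ h0 h1))
    obtain ⟨V, i1, i2, i3, i4, i5, i6, i7, π, hV, hwt⟩ := D.wt π₀ hV₀.mem hπ₀
    let _ : Algebra V K := ((algebraMap L K).comp (algebraMap V L)).toAlgebra
    have : IsScalarTower V L K := IsScalarTower.of_algebraMap_eq (fun _ => rfl)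
    have : IsScalarTower P V K := IsScalarTower.of_algebraMap_eq (fun r => by
      rw [IsScalarTower.algebraMap_apply P L K, IsScalarTower.algebraMap_apply P V L]
      rfl)
    obtain ⟨W, j1, j2, j3, j4, j5, j6, j7, ⟨bW⟩⟩ := exists_W V L K 3 hfin
    obtain ⟨m, rfl⟩ := Nat.exists_eq_add_of_le hd1
    rw [add_comm 1 m] at hV
    rw [add_tsub_cancel_left]
    refine case_W (W := W) H.toLems H.int bW S hV hb0 hbj hred hcub ?_
    intro y hy
    simp only [Set.mem_insert_iff, Set.mem_singleton_iff] at hy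
    rcases hy with rfl | rfl | rfl | rfl
    · exact hwt _ (Ideal.mem_sup_right ha2)
    · exact hwt _ (Ideal.mem_sup_right hb2)
    · exact hwt _ (Ideal.mem_sup_right hc2)
    · exact hwt _ (Ideal.mem_sup_right hd2)
  · push Not at hall
    obtain ⟨i, hi⟩ := hall
    obtain ⟨ω', θ', hcub'⟩ := (H.shf P R L K C a b c d' x y₀ ω θ hcub).1 (l i)
    obtain ⟨-, -, -, ω'', θ'', hcub''⟩ := H.shf P R L K C _ _ _ _ _ _ ω' θ' hcub'
    refine cubic_a H hq D hd1 hC hnt B hb0 hbj hred S hcub'' ?_ hi ?_ ?_ ha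
    · exact Ideal.add_mem _ (Ideal.add_mem _ (Ideal.add_mem _ (Ideal.mul_mem_right _ _ ha)
        (Ideal.mul_mem_right _ _ hb)) (Ideal.mul_mem_right _ _ hc)) hd
    · exact Ideal.add_mem _ (Ideal.add_mem _ hc (Ideal.mul_mem_right _ _
        (Ideal.mul_mem_left _ _ hb))) (Ideal.mul_mem_right _ _ (Ideal.mul_mem_left _ _ ha))
    · exact Ideal.add_mem _ hb (Ideal.mul_mem_right _ _ (Ideal.mul_mem_left _ _ ha))

end P

end Pool.Agent.H867.FT
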