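import Pool.Agent.H867.FT.Cub6

/-!
# Assembly, part 8: all ranks.
-/

namespace Pool.Agent.H867.FT

open Module

set_option linter.unusedSectionVars false

theorem rank_arith {m N n M : ℕ} (hm : 3 ≤ m)
    (h : (m + 1) * N + 2 * m * n ≤ (m + 1) * n + (m + 1) * M) : 2 * N + n ≤ 2 * M := by
  obtain ⟨j, rfl⟩ := Nat.exists_eq_add_of_le hm
  have h1 : (3 + j + 1) * (2 * N + n) ≤ (3 + j + 1) * (2 * M) := by
    nlinarith [Nat.zero_le (j * n)]
  exact Nat.le_of_mul_le_mul_left h1 (by omega)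

section P

variable {P R L K : Type} [CommRing P] [IsDomain P] [IsLocalRing P] [IsNoetherianRing P]
    [IsIntegrallyClosed P]
    [CommRing R] [IsDomain R] [IsLocalRing R] [IsIntegrallyClosed R]
    [Algebra P R] [Module.Finite P R] [Module.Free P R]
    [Field L] [Algebra P L] [IsFractionRing P L]
    [Field K] [Algebra R K] [IsFractionRing R K] [Algebra P K] [IsScalarTower P R K]
    [Algebra L K] [IsScalarTower P L K] [FiniteDimensional L K]
    [Algebra.IsSeparable L K]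

/-- The bound for a Cohen–Macaulay ring. -/
theorem bound_cm (H : Lems2) (hBAS : S_BAS) (hSRJ : S_SRJ) {d q N : ℕ} (hq : 3 ≤ q)
    (D : PData d P L) [FaithfulSMul P R]
    [IsAlgClosed (IsLocalRing.ResidueField P)] (hd1 : 1 ≤ d) (hT : CartGen P q)
    {C : Submodule R K} (hC : IsCodiff P R L K C) (hnt : ¬ Tors C)
    (hred : ∃ r : ℕ, IsLocalRing.maximalIdeal R ^ (r + 1) =
      (IsLocalRing.maximalIdeal P).map (algebraMap P R) * IsLocalRing.maximalIdeal R ^ r)
    {f : R} (hN : f ∈ IsLocalRing.maximalIdeal R ^ N) (hf : FSplits R q f) :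
    2 * N + (q - 1) ≤ 2 * ((d - 1) * (q - 1)) := by
  obtain ⟨m, B, hb0, hbj⟩ := hBAS P R (hSRJ P R)
  by_cases hm1 : m ≤ 1
  · exfalso
    obtain ⟨y, hy, hCy⟩ := H.rk2 m P R L K B C hb0 hm1 hC
    exact hnt (tors_of_principal H.tor hy hCy P)
  by_cases hm2 : m = 2
  · subst hm2
    exact cubic H hq D hd1 hT hC hnt B hb0 hbj hred hN hf
  have hm3 : 3 ≤ m := by omega
  obtain ⟨T, hT1, hT2, hT3⟩ := hT
  obtain ⟨TL, β, g, S⟩ := splitData_of H.bet H.lob H.bcn B C hC q N (by omega) T hT1 hT2 hT3 f hN hf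
  have hfin : Module.finrank L K = m + 1 := finrank_of_basis B
  obtain ⟨V, i1, i2, i3, i4, i5, i6, i7, π, hV, ho⟩ := D.ord
  let _ : Algebra V K := ((algebraMap L K).comp (algebraMap V L)).toAlgebra
  have : IsScalarTower V L K := IsScalarTower.of_algebraMap_eq (fun _ => rfl)
  have : IsScalarTower P V K := IsScalarTower.of_algebraMap_eq (fun r => by
    rw [IsScalarTower.algebraMap_apply P L K, IsScalarTower.algebraMap_apply P V L]
    rfl)
  obtain ⟨W, j1, j2, j3, j4, j5, j6, j7, ⟨bW⟩⟩ := exists_W V L K (m + 1) hfin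
  exact rank_arith hm3 (ineq_rank (W := W) H.key H.lat H.dif H.inq B bW S hV hb0 hbj hred)

end P

end Pool.Agent.H867.FT
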