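import Pool.Agent.H867.FT.Gen5

/-!
# Statements, part 7: arbitrary infinite F-finite residue fields.
-/

namespace Pool.Agent.H867.FT

open Polynomial

/-- **PSF.** Cartier maps on `k[[x_1..x_d]]`, `k` an F-finite field.
Proof. `q = p^e`, `k` is finite over `k^q`. There is a nonzero additive `τ : k → k` with
`τ(a^q b) = a τ(b)` (coordinate with respect to a basis of `k/k^q`, followed by `a^q ↦ a`); `u ↦ τ(u ·)` is
injective from `k` to the Cartier maps of `k`, and both have the same finite dimension over `k^q`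
(`Hom_{k^q}(k, k^q)`), so it is bijective. As in `S_PSC` (`Pool.Agent.H261.FT867PSC`):
`coeff b (T g) = τ (coeff (q b + (q-1,...,q-1)) g)`. Every `g` is a finite sum
`g = ∑_{a ∈ [0,q)^d, j} g_{a,j}^q c_j x^a`, `c_j` a basis of `k / k^q`. For a Cartier map `ψ` of `P` the map
`c ↦ ψ(c x^a)` restricted to `k`, coefficient by coefficient, is a Cartier map `k → k`, equal to
`τ(u_{a,b} c)`; put `u = ∑_a x^{(q-1)-a} ∑_b u_{a,b} x^{q b}`. Last statement: if `w ∉ (x_i^q)` there is an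
exponent `a ∈ [0,q)^d` with `w_a := coeff a w ≠ 0`; take such an `a` with `|a|` minimal and
`u = v x^{(q-1)-a}` with `τ(v w_a) ≠ 0`: the constant term of `T(u w)` is
`τ (coeff (q-1,…) (u w)) = τ(v w_a) ≠ 0`. -/
def S_PSF : Prop :=
  ∀ (p : ℕ) [Fact p.Prime] (k : Type) [Field k] [CharP k p], (frobenius k p).Finite →
    ∀ (d e : ℕ), ∃ T : MvPowerSeries (Fin d) k →+ MvPowerSeries (Fin d) k, IsCartier (p ^ e) T ∧
      (∀ ψ : MvPowerSeries (Fin d) k →+ MvPowerSeries (Fin d) k, IsCartier (p ^ e) ψ →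
        ∃ u, ∀ g, ψ g = T (u * g)) ∧
      (∀ u, (∀ g, T (u * g) = 0) → u = 0) ∧
      ∀ w : MvPowerSeries (Fin d) k, w ∉ Ideal.span (Set.range fun i : Fin d =>
          (MvPowerSeries.X i : MvPowerSeries (Fin d) k) ^ (p ^ e)) → ∃ u, IsUnit (T (u * w))

/-- **CLB.** The analogues of `S_LOB` and `S_BCN` for a cubic ring, not necessarily normal, whose
coefficients are not all in a height one prime.
Proof. Let `𝔭` be a prime of height one of `P`. (1) There are `y ∈ C` and `s, v ∈ P \ 𝔭` with `s C ⊆ y R` and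
`N(y) disc(R/P) = v`. If `a ∉ 𝔭`: `y = y₀`, `a C ⊆ y₀ R` (`a x = ω`), `N(y₀) disc = ε a` (`S_NYO`,
`Pool.Agent.H638.FT867NYO.nyo`). Otherwise `v = F(l) = a l³ + b l² + c l + d ∉ 𝔭` for one of the `l = l_i`
(Vandermonde), and with `x' = x - l`, `θ' = a x'^2 + b' x' + c'` as in `S_SHF`
(`Pool.Agent.H726.FT867SHF.shf`) `x' θ' = -v`; take `y = y₀ x' ∈ C`: `v y₀ = -y θ'`, `v y₀ x' = v y`,
`v y₀ θ' = -y θ'^2`, so `v C ⊆ y R` (`C = y₀ (P + P x' + P θ')`), and `N(x') = ± v / a`.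
(2) `β y^q ∈ C` gives `r₁ = s β y^{q-1} ∈ R`; so `N(β) / disc^{q-1} = N(r₁) / (s³ v^{q-1}) ∈ P_𝔭`, for all `𝔭`,
so it is in `P` by `S_KRU` (`Pool.Agent.H738.FT867KRU.kru`): `N(β) = g disc^{q-1}`. `N(r₁) = r₁ r₂` with
`r₂ ∈ R`, so `s² v^{q-1} (g/β) = y^{q-1} r₂ ∈ C^{q-1}`. (3) `z ∈ C^{q-1}`: `s^{q-1} z ∈ y^{q-1} R`, so
`s^q β z ∈ R`; the coordinates of `β z` in the basis of `R/P` are in `P_𝔭` for all `𝔭`, so in `P`. -/
def S_CLB : Prop :=
  ∀ (q : ℕ) (P R L K : Type) [CommRing P] [IsDomain P] [IsNoetherianRing P]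
    [IsIntegrallyClosed P] [CommRing R] [IsDomain R]
    [Algebra P R] [Module.Finite P R] [Module.Free P R] [Field L]
    [Algebra P L] [IsFractionRing P L]
    [Field K] [Algebra R K] [IsFractionRing R K] [Algebra P K] [IsScalarTower P R K]
    [Algebra L K] [IsScalarTower P L K] [FiniteDimensional L K]
    [Algebra.IsSeparable L K] (bs : Module.Basis (Fin 3) P R)
    (C : Submodule R K) (a b c d : P) (x y₀ : K) (ω θ : R) (l : Fin 4 → P) (β : K), 1 ≤ q →
    (∀ i j, i ≠ j → IsUnit (l i - l j)) →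
    (∀ y : K, y ∈ C ↔
      ∀ r : R, ∃ g : P, algebraMap P L g = Algebra.trace L K (y * algebraMap R K r)) →
    IsCub L C a b c d x y₀ ω θ →
    (∀ 𝔭 : Ideal P, 𝔭.IsPrime → 𝔭.height = 1 → ¬ Ideal.span {a, b, c, d} ≤ 𝔭) →
    (∀ y ∈ C, β * y ^ q ∈ C) → β ≠ 0 →
    (∃ g : P, Algebra.norm L β = algebraMap P L (g * Algebra.discr P bs ^ (q - 1)) ∧
      ∀ 𝔭 : Ideal P, 𝔭.IsPrime → 𝔭.height = 1 →
        ∃ c : P, c ∉ 𝔭 ∧ algebraMap P K c * (algebraMap P K g / β) ∈ C ^ (q - 1)) ∧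
    ∀ y ∈ C ^ (q - 1), ∃ r : R, β * y = algebraMap R K r

/-- `G` divides `F` modulo `𝔪²`. -/
def DvdSq {P : Type} [CommRing P] [IsLocalRing P] (G F : P[X]) : Prop :=
  ∃ Q : P[X], ∀ n, (F - G * Q).coeff n ∈ IsLocalRing.maximalIdeal P ^ 2

/-- **TR2.** `S_TRZ` (proved: `Pool.Agent.H264.FTTrz.trz`) without assumption on the residue field.
The only use of the hypothesis on roots in the proof is: `F = a A + z B`, `A` monic, and `A, B` are
coprime modulo `𝔪`. If a monic polynomial `Ḡ` of degree `≥ 1` over the residue field divides both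
reductions, lift it to a monic `G ∈ P[X]`; `A - G A'`, `B - G B'` have coefficients in `𝔪`, so `G` divides
`F` modulo `𝔪²` (`a, z ∈ 𝔪`). -/
def S_TR2 : Prop :=
  ∀ (P R L K : Type) [CommRing P] [IsDomain P] [IsLocalRing P] [IsNoetherianRing P] [CommRing R]
    [IsDomain R] [IsIntegrallyClosed R] [Algebra P R] [Module.Finite P R]
    [Field L] [Algebra P L] [IsFractionRing P L]
    [Field K] [Algebra R K] [IsFractionRing R K] [Algebra P K] [IsScalarTower P R K]
    [Algebra L K] [IsScalarTower P L K]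
    (C : Submodule R K) (a b c d z : P) (x y₀ : K) (ω θ : R),
    IsCub L C a b c d x y₀ ω θ → z ≠ 0 →
    a ∈ IsLocalRing.maximalIdeal P → z ∈ IsLocalRing.maximalIdeal P →
    b ∈ Ideal.span {a, z} → c ∈ Ideal.span {a, z} → d ∈ Ideal.span {a, z} →
    (∀ G : P[X], G.Monic → 1 ≤ G.natDegree →
      ¬ DvdSq G (Polynomial.C a * X ^ 3 + Polynomial.C b * X ^ 2 + Polynomial.C c * X +
        Polynomial.C d : P[X])) →
    ∃ t : K, t ≠ 0 ∧ (∀ y ∈ C ^ 3, ∃ r : R, y = algebraMap R K r * t) ∧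
      algebraMap P K a * t ∈ C ^ 3 ∧ algebraMap P K z * t ∈ C ^ 3

/-- **TR3.** `S_TRO` (proved: `Pool.Agent.H404.FTTro.tro`) without assumption on the residue field.
The only use of the hypothesis on roots is that the binary quadratic forms `A`, `B` with
`H = a X² + b X + c = c A + z B` are coprime modulo `𝔪`. -/
def S_TR3 : Prop :=
  ∀ (P R L K : Type) [CommRing P] [IsDomain P] [IsLocalRing P] [IsNoetherianRing P] [CommRing R]
    [IsDomain R] [IsIntegrallyClosed R] [Algebra P R] [Module.Finite P R]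
    [Field L] [Algebra P L] [IsFractionRing P L]
    [Field K] [Algebra R K] [IsFractionRing R K] [Algebra P K] [IsScalarTower P R K]
    [Algebra L K] [IsScalarTower P L K]
    (C : Submodule R K) (a b c z ρ : P) (k : ℕ) (x y₀ : K) (ω θ : R),
    IsCub L C a b c (z ^ k * ρ) x y₀ ω θ → 2 ≤ k → IsUnit ρ → z ≠ 0 → c ≠ 0 →
    c ∈ IsLocalRing.maximalIdeal P → z ∈ IsLocalRing.maximalIdeal P →
    a ∈ Ideal.span {c, z} → b ∈ Ideal.span {c, z} → a ∉ IsLocalRing.maximalIdeal P ^ 2 →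
    (∀ G : P[X], G.Monic → 1 ≤ G.natDegree →
      ¬ DvdSq G (Polynomial.C a * X ^ 2 + Polynomial.C b * X + Polynomial.C c : P[X])) →
    ∃ t : K, t ≠ 0 ∧ (∀ y ∈ C ^ (2 * k + 1), ∃ r : R, y = algebraMap R K r * t) ∧
      algebraMap P K (z ^ k) * t ∈ C ^ (2 * k + 1) ∧ algebraMap P K (c ^ k) * t ∈ C ^ (2 * k + 1)

/-- **QBC.** Base change of a cubic ring over `k[[X]]` along a quadratic extension `k'/k`.
Proof. `k' = k ⊕ k s`, `P' = k'[[X]] = P ⊕ P s`, `L' = Frac P' = L ⊕ L s`. `K' = K ⊕ K s`: `K ⊗_L L'` is a field as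
`[K : L] = 3` and `[L' : L] = 2` are coprime (or: `K' = L'(x')` inside an algebraic closure of `L'`, `x'` a
root of `F`, of degree 3 over `L'`), separable over `L'`. `R' = P' + P' ω + P' θ = R ⊕ R s`. The trace of
`K'/L'` restricts to that of `K/L`, so the codifferent of `R'/P'` is `C' = C ⊕ C s = P'-span of C`
`= y₀ (P' + P' x + P' θ)`. `R'` is local and `ω, θ ∈ 𝔪_{R'}` (as in `S_EXL`,
`Pool.Agent.H790.FT867EXL.exl`). Splitting: let `φ f = 1`. `β ∈ K` from `S_BET`
(`Pool.Agent.H772.FT.bet`): `Tr(φ(r) y) = T(Tr(β y^q r))` for `y ∈ C`, and `β y^q ∈ C`. Let `y₁ ∈ C` be dual to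
`1` in the basis `1, ω, θ` (`Tr(y₁) = 1`, `Tr(y₁ ω) = Tr(y₁ θ) = 0`), `w = Tr(β y₁^q f) ∈ P`: `T(w) = Tr(y₁ φ(f)) = 1`,
so `w ∉ (X_i^q) P` and `w ∉ (X_i^q) P'` (look at coefficients). By `S_PSF` for `k'` there is `u' ∈ P'` with
`T'(u' w)` a unit. `β y'^q ∈ C'` for all `y' ∈ C'` (`y' = ∑ g_i c_i`, `g_i ∈ P'`, `c_i ∈ C`, characteristic `p`), so as
in step (2) of the proof of `S_EXF` (`Pool.Agent.H400.FT867EXF`) there is a Cartier map `φ'` of `R'` with
`Tr(y' φ'(r')) = T'(Tr(β y'^q r'))` for `y' ∈ C'`. `Tr(y₁ φ'(u' f)) = T'(u' w)` is a unit, so `φ'(u' f)` is a unit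
(write it as `g₀ + g₁ ω + g₂ θ`, then `g₀` is a unit), and `φ'(u'·)` divided by it splits `f`. -/
def S_QBC : Prop :=
  ∀ (p e : ℕ) [Fact p.Prime] (k k' : Type) [Field k] [Field k'] [CharP k p] [CharP k' p]
    [Algebra k k'] (D : ℕ) (R L K : Type) [CommRing R] [IsDomain R] [IsLocalRing R] [CharP R p]
    [Algebra (MvPowerSeries (Fin D) k) R] [Module.Finite (MvPowerSeries (Fin D) k) R]
    [Module.Free (MvPowerSeries (Fin D) k) R] [Field L] [Algebra (MvPowerSeries (Fin D) k) L]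
    [IsFractionRing (MvPowerSeries (Fin D) k) L] [Field K] [Algebra R K] [IsFractionRing R K]
    [Algebra (MvPowerSeries (Fin D) k) K] [IsScalarTower (MvPowerSeries (Fin D) k) R K]
    [Algebra L K] [IsScalarTower (MvPowerSeries (Fin D) k) L K] [FiniteDimensional L K]
    [Algebra.IsSeparable L K] (C : Submodule R K) (a b c d : MvPowerSeries (Fin D) k)
    (x y₀ : K) (ω θ f : R) (N : ℕ),
    (frobenius k p).Finite → Module.finrank k k' = 2 →
    a ∈ IsLocalRing.maximalIdeal (MvPowerSeries (Fin D) k) →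
    b ∈ IsLocalRing.maximalIdeal (MvPowerSeries (Fin D) k) →
    c ∈ IsLocalRing.maximalIdeal (MvPowerSeries (Fin D) k) →
    d ∈ IsLocalRing.maximalIdeal (MvPowerSeries (Fin D) k) →
    (∀ y : K, y ∈ C ↔ ∀ r : R, ∃ g : MvPowerSeries (Fin D) k,
      algebraMap (MvPowerSeries (Fin D) k) L g = Algebra.trace L K (y * algebraMap R K r)) →
    IsCub L C a b c d x y₀ ω θ →
    f ∈ IsLocalRing.maximalIdeal R ^ N → FSplits R (p ^ e) f →
    ∃ (R' : Type) (_ : CommRing R') (_ : IsDomain R') (_ : IsLocalRing R')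
      (_ : Algebra (MvPowerSeries (Fin D) k') R') (_ : Module.Finite (MvPowerSeries (Fin D) k') R')
      (_ : Module.Free (MvPowerSeries (Fin D) k') R') (L' : Type) (_ : Field L')
      (_ : Algebra (MvPowerSeries (Fin D) k') L')
      (_ : IsFractionRing (MvPowerSeries (Fin D) k') L') (K' : Type) (_ : Field K')
      (_ : Algebra R' K') (_ : IsFractionRing R' K') (_ : Algebra (MvPowerSeries (Fin D) k') K')
      (_ : IsScalarTower (MvPowerSeries (Fin D) k') R' K') (_ : Algebra L' K')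
      (_ : IsScalarTower (MvPowerSeries (Fin D) k') L' K') (_ : FiniteDimensional L' K')
      (_ : Algebra.IsSeparable L' K') (C' : Submodule R' K') (x' y₀' : K') (ω' θ' f' : R'),
      (∀ y : K', y ∈ C' ↔ ∀ r : R', ∃ g : MvPowerSeries (Fin D) k',
        algebraMap (MvPowerSeries (Fin D) k') L' g =
          Algebra.trace L' K' (y * algebraMap R' K' r)) ∧
      IsCub L' C' (MvPowerSeries.map (algebraMap k k') a) (MvPowerSeries.map (algebraMap k k') b)
        (MvPowerSeries.map (algebraMap k k') c) (MvPowerSeries.map (algebraMap k k') d)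
        x' y₀' ω' θ' ∧
      f' ∈ IsLocalRing.maximalIdeal R' ^ N ∧ FSplits R' (p ^ e) f'

/-- `t_0, …, t_{s-1}` is a `p`-basis of the field `k`. -/
def IsPB (p : ℕ) {k : Type} [Field k] {s : ℕ} (t : Fin s → k) : Prop :=
  ∀ α : k, ∃! c : (Fin s → Fin p) → k, α = ∑ a, c a ^ p * ∏ i, t i ^ (a i : ℕ)

/-- **PBE.** F-finite fields have finite `p`-bases. -/
def S_PBE : Prop :=
  ∀ (p : ℕ) [Fact p.Prime] (k : Type) [Field k] [CharP k p], (frobenius k p).Finite →
    ∃ (s : ℕ) (t : Fin s → k), IsPB p t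

/-- **COF.** Coefficient fields with prescribed `p`-basis.
Proof. `κ` the residue field, `t_i` the residue of `τ_i`. Iterating, every `α ∈ κ` is uniquely
`∑_a α_a^{p^n} t^a`, `a ∈ [0, p^n)^s`. Put `σ_n(α) = ∑_a (lift of α_a)^{p^n} τ^a`, well defined modulo `𝔪^{n+1}`
(if `b ≡ b' mod 𝔪` then `b^{p^n} ≡ b'^{p^n} mod 𝔪^{p^n}`, `p = 0` in `S`). Modulo `𝔪^{n+1}` it is additive
and multiplicative (`t^a t^{a'} = (t^{a''})^{p^n} t^{a'''}`), `σ_{n+1} ≡ σ_n mod 𝔪^{n+1}`, and
`σ_n(t_i) = τ_i`. `σ = lim σ_n`. -/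
def S_COF : Prop :=
  ∀ (p : ℕ) [Fact p.Prime] (S : Type) [CommRing S] [IsLocalRing S] [CharP S p]
    [IsAdicComplete (IsLocalRing.maximalIdeal S) S] (s : ℕ) (τ : Fin s → S),
    IsPB p (fun i => IsLocalRing.residue S (τ i)) →
    ∃ σ : IsLocalRing.ResidueField S →+* S, (∀ a, IsLocalRing.residue S (σ a) = a) ∧
      ∀ i, σ (IsLocalRing.residue S (τ i)) = τ i

/-- **PBF.** As `S_PBS` for a field `k` with a finite `p`-basis (`s` elements).
Proof. As for `S_PBS`: `[K : K^p] = [L : L^p] ≤ p^{s+d}` (`P` is generated over `P^p` by the `t^a X^b`,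
`0 ≤ a_i, b_j < p`), `𝔪 ≠ 0` as `d ≥ 1`, and the greedy choice is applied to the `s + d` elements
`τ_0, …, τ_{s-1}, x_0, …, x_{d-1}`. -/
def S_PBF : Prop :=
  ∀ (p : ℕ) [Fact p.Prime] (k : Type) [Field k] [CharP k p] (s d : ℕ) (t : Fin s → k),
    IsPB p t → 1 ≤ d → ∀ (S K : Type) [CommRing S] [IsDomain S] [IsLocalRing S]
    [Algebra (MvPowerSeries (Fin d) k) S] [Module.Finite (MvPowerSeries (Fin d) k) S]
    [FaithfulSMul (MvPowerSeries (Fin d) k) S]
    [Field K] [CharP K p] [Algebra S K] [IsFractionRing S K] (τ : Fin s → S) (x : Fin d → S),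
    ∃ (τ' : Fin s → S) (x' : Fin d → S),
      (∀ i, τ' i - τ i ∈ IsLocalRing.maximalIdeal S ^ 2) ∧
      (∀ i, x' i - x i ∈ IsLocalRing.maximalIdeal S ^ 2) ∧
      IntermediateField.adjoin (frobenius K p).fieldRange
        ((Set.range fun i => algebraMap S K (τ' i)) ∪
          Set.range fun i => algebraMap S K (x' i)) = ⊤

/-- **CH2.** Existence of good presentations, infinite F-finite residue field. (From `S_COF`, `S_PBE`,
`S_EVL`, `S_RED`, `S_INJ`, `S_FIN`, `S_PBF`, `S_SEP`, `S_DMS`.)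
Proof. As for `S_COH`. `κ` the residue field, `t` a `p`-basis (`S_PBE`), `τ_i ∈ S` lifts, `σ` from `S_COF`,
`x` a reduction with the minimal number `m` of elements (`m ≥ 1` since `𝔪 ≠ 0` and `S` is a domain). `S_EVL`,
`S_INJ`, `S_FIN` for `σ, x`; `S_PBF` gives `τ', x'`, and `τ'_i` has the same residue as `τ_i`; let `σ'` be the
coefficient field with `σ'(t_i) = τ'_i` (`S_COF`). `S_EVL`, `S_INJ`, `S_FIN` for `σ', x'`; now
`τ'_i, x'_i ∈ P`, so `K = K^p L`. -/
def S_CH2 : Prop :=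
  ∀ (p : ℕ) [Fact p.Prime] (S : Type) [CommRing S] [IsDomain S] [IsLocalRing S]
    [IsNoetherianRing S] [CharP S p] [IsAdicComplete (IsLocalRing.maximalIdeal S) S]
    [Infinite (IsLocalRing.ResidueField S)] [CharP (IsLocalRing.ResidueField S) p],
    (frobenius (IsLocalRing.ResidueField S) p).Finite → IsLocalRing.maximalIdeal S ≠ ⊥ →
    ∃ (k : Type) (_ : Field k) (_ : Infinite k) (_ : CharP k p) (d : ℕ)
      (_ : Algebra (MvPowerSeries (Fin d) k) S), (frobenius k p).Finite ∧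
      Module.Finite (MvPowerSeries (Fin d) k) S ∧ FaithfulSMul (MvPowerSeries (Fin d) k) S ∧
      (∀ s : S, ∃ c : k, s - algebraMap (MvPowerSeries (Fin d) k) S (MvPowerSeries.C c) ∈
        IsLocalRing.maximalIdeal S) ∧
      (∃ r : ℕ, IsLocalRing.maximalIdeal S ^ (r + 1) =
        (IsLocalRing.maximalIdeal (MvPowerSeries (Fin d) k)).map
          (algebraMap (MvPowerSeries (Fin d) k) S) * IsLocalRing.maximalIdeal S ^ r) ∧
      ringKrullDim S = d ∧
      ∀ (L K : Type) [Field L] [Algebra (MvPowerSeries (Fin d) k) L]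
        [IsFractionRing (MvPowerSeries (Fin d) k) L] [Field K] [Algebra S K] [IsFractionRing S K]
        [Algebra (MvPowerSeries (Fin d) k) K] [IsScalarTower (MvPowerSeries (Fin d) k) S K]
        [Algebra L K] [IsScalarTower (MvPowerSeries (Fin d) k) L K], Algebra.IsSeparable L K

/-- **FF2.** Finite algebras over `k[[X]]`, `k` F-finite, are F-finite; and conversely the residue
field of an F-finite local ring is F-finite. -/
def S_FF2 : Prop :=
  (∀ (p : ℕ) [Fact p.Prime] (k : Type) [Field k] [CharP k p], (frobenius k p).Finite →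
    ∀ (d : ℕ) (S : Type) [CommRing S] [CharP S p] [Algebra (MvPowerSeries (Fin d) k) S]
    [Module.Finite (MvPowerSeries (Fin d) k) S], (frobenius S p).Finite) ∧
  ∀ (p : ℕ) [Fact p.Prime] (S : Type) [CommRing S] [IsLocalRing S] [CharP S p]
    [CharP (IsLocalRing.ResidueField S) p], (frobenius S p).Finite →
    (frobenius (IsLocalRing.ResidueField S) p).Finite

end Pool.Agent.H867.FT
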