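import Pool.Agent.H867.FT.Cub5
import Pool.Agent.H867.FT.Gen6

/-!
# Assembly, part 12: the cubic case over the order valuation, general residue field.
-/

namespace Pool.Agent.H867.FT

open Module

set_option linter.unusedSectionVars false
set_option linter.unusedSimpArgs false

section P

variable {P : Type} [CommRing P] [IsLocalRing P]

open Polynomial

theorem dvdSq_iff {G F : P[X]} : DvdSq G F ↔
    ∃ Q : P[X], F.map (Ideal.Quotient.mk (IsLocalRing.maximalIdeal P ^ 2)) =
      G.map (Ideal.Quotient.mk (IsLocalRing.maximalIdeal P ^ 2)) *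
      Q.map (Ideal.Quotient.mk (IsLocalRing.maximalIdeal P ^ 2)) := by
  constructor
  · rintro ⟨Q, hQ⟩
    refine ⟨Q, ?_⟩
    rw [← Polynomial.map_mul, ← sub_eq_zero, ← Polynomial.map_sub]
    ext n
    rw [Polynomial.coeff_map, Polynomial.coeff_zero, Ideal.Quotient.eq_zero_iff_mem]
    exact hQ n
  · rintro ⟨Q, hQ⟩
    refine ⟨Q, fun n => ?_⟩
    rw [← Ideal.Quotient.eq_zero_iff_mem, ← Polynomial.coeff_map, Polynomial.map_sub,
      Polynomial.map_mul, hQ, sub_self, Polynomial.coeff_zero]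

theorem dvdSq_high {F G : P[X]} (hG : G.Monic) {n : ℕ} (hF : F.natDegree ≤ n)
    (hn : n ≤ G.natDegree) (h : DvdSq G F) (i : ℕ) :
    F.coeff i ∈ Ideal.span {F.coeff n} ⊔ IsLocalRing.maximalIdeal P ^ 2 := by
  obtain ⟨Q, hQ⟩ := dvdSq_iff.1 h
  set φ := Ideal.Quotient.mk (IsLocalRing.maximalIdeal P ^ 2) with hφ
  have hne : (IsLocalRing.maximalIdeal P ^ 2) ≠ ⊤ := by
    intro h1
    apply one_notMem (P := P)
    exact Ideal.pow_le_self (n := 2) (by norm_num) (by rw [h1]; trivial)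
  have : Nontrivial (P ⧸ (IsLocalRing.maximalIdeal P ^ 2)) := Ideal.Quotient.nontrivial_iff.2 hne
  have hGm : (G.map φ).Monic := hG.map φ
  have hGd : (G.map φ).natDegree = G.natDegree := hG.natDegree_map φ
  by_cases hQ0 : Q.map φ = 0
  · rw [hQ0, mul_zero] at hQ
    apply Ideal.mem_sup_right
    rw [← Ideal.Quotient.eq_zero_iff_mem]
    have := congrArg (fun f => Polynomial.coeff f i) hQ
    simpa using this
  · have hdeg : (F.map φ).natDegree = (G.map φ).natDegree + (Q.map φ).natDegree := by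
      rw [hQ]
      exact hGm.natDegree_mul' hQ0
    have hle : (F.map φ).natDegree ≤ F.natDegree := Polynomial.natDegree_map_le
    have hQd : (Q.map φ).natDegree = 0 := by omega
    have hGn : G.natDegree = n := by omega
    rw [Polynomial.eq_C_of_natDegree_eq_zero hQd] at hQ
    have hc : ∀ j, φ (F.coeff j) = φ (G.coeff j) * (Q.map φ).coeff 0 := by
      intro j
      have := congrArg (fun f => Polynomial.coeff f j) hQ
      simpa using this
    have hcn := hc n
    have hGc : G.coeff n = 1 := by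
      rw [← hGn]; exact hG.coeff_natDegree
    rw [hGc, map_one, one_mul] at hcn
    have h3 : φ (F.coeff i - G.coeff i * F.coeff n) = 0 := by
      rw [map_sub, map_mul, hcn, hc i, sub_self]
    rw [hφ, Ideal.Quotient.eq_zero_iff_mem] at h3
    have h4 : F.coeff i = G.coeff i * F.coeff n + (F.coeff i - G.coeff i * F.coeff n) := by ring
    rw [h4]
    exact Ideal.add_mem _ (Ideal.mem_sup_left (Ideal.mul_mem_left _ _
      (Ideal.mem_span_singleton_self _))) (Ideal.mem_sup_right h3)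

/-- a linear factor gives a root -/
theorem dvdSq_root {F G : P[X]} (hG : G.Monic) (h1 : G.natDegree = 1) (h : DvdSq G F) :
    ∃ l : P, F.eval l ∈ IsLocalRing.maximalIdeal P ^ 2 := by
  obtain ⟨Q, hQ⟩ := dvdSq_iff.1 h
  set φ := Ideal.Quotient.mk (IsLocalRing.maximalIdeal P ^ 2) with hφ
  refine ⟨-(G.coeff 0), ?_⟩
  have hGX : G = X + C (G.coeff 0) := hG.eq_X_add_C h1
  have hev : G.eval (-(G.coeff 0)) = 0 := by
    have h2 := congrArg (Polynomial.eval (-(G.coeff 0))) hGX
    rw [Polynomial.eval_add, Polynomial.eval_X, Polynomial.eval_C, neg_add_cancel] at h2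
    exact h2
  rw [← Ideal.Quotient.eq_zero_iff_mem, ← hφ, ← Polynomial.eval₂_at_apply, ← Polynomial.eval_map,
    hQ, Polynomial.eval_mul, Polynomial.eval_map, Polynomial.eval₂_at_apply, hev, map_zero,
    zero_mul]

/-- The cofactor of a monic polynomial dividing, modulo `𝔪²`, a polynomial with coefficients in `𝔪`
has coefficients in `𝔪`. -/
theorem cofactor_mem {F G Q : P[X]} (hG : G.Monic)
    (hF : ∀ n, F.coeff n ∈ IsLocalRing.maximalIdeal P)
    (hQ : ∀ n, (F - G * Q).coeff n ∈ IsLocalRing.maximalIdeal P ^ 2) (n : ℕ) :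
    Q.coeff n ∈ IsLocalRing.maximalIdeal P := by
  set ψ := Ideal.Quotient.mk (IsLocalRing.maximalIdeal P) with hψ
  have h1 : G.map ψ * Q.map ψ = 0 := by
    have h2 : (F - G * Q).map ψ = 0 := by
      ext m
      rw [Polynomial.coeff_map, Polynomial.coeff_zero, hψ, Ideal.Quotient.eq_zero_iff_mem]
      exact Ideal.pow_le_self (by norm_num) (hQ m)
    have h3 : F.map ψ = 0 := by
      ext m
      rw [Polynomial.coeff_map, Polynomial.coeff_zero, hψ, Ideal.Quotient.eq_zero_iff_mem]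
      exact hF m
    rw [Polynomial.map_sub, Polynomial.map_mul, h3, zero_sub, neg_eq_zero] at h2
    exact h2
  have h4 : Q.map ψ = 0 := ((hG.map ψ).isRegular.left) (by
    show G.map ψ * Q.map ψ = G.map ψ * 0
    rw [h1, mul_zero])
  rw [← Ideal.Quotient.eq_zero_iff_mem, ← hψ, ← Polynomial.coeff_map, h4, Polynomial.coeff_zero]

/-- if `G` has a root modulo `𝔪` and divides `F` modulo `𝔪²`, `F` has a root modulo `𝔪²` -/
theorem dvdSq_eval {F G : P[X]} (hG : G.Monic)
    (hF : ∀ n, F.coeff n ∈ IsLocalRing.maximalIdeal P) (h : DvdSq G F) {l : P}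
    (hl : G.eval l ∈ IsLocalRing.maximalIdeal P) :
    F.eval l ∈ IsLocalRing.maximalIdeal P ^ 2 := by
  obtain ⟨Q, hQ⟩ := h
  have hQm := cofactor_mem hG hF hQ
  have h1 : Q.eval l ∈ IsLocalRing.maximalIdeal P := by
    rw [Polynomial.eval_eq_sum_range]
    exact Ideal.sum_mem _ (fun i _ => Ideal.mul_mem_right _ _ (hQm i))
  have h2 : (F - G * Q).eval l ∈ IsLocalRing.maximalIdeal P ^ 2 := by
    rw [Polynomial.eval_eq_sum_range]
    exact Ideal.sum_mem _ (fun i _ => Ideal.mul_mem_right _ _ (hQ i))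
  have h3 : F.eval l = (F - G * Q).eval l + G.eval l * Q.eval l := by
    rw [Polynomial.eval_sub, Polynomial.eval_mul]; ring
  rw [h3]
  refine Ideal.add_mem _ h2 ?_
  rw [pow_two]
  exact Ideal.mul_mem_mul hl h1

theorem Ind.notMem {a z : P} (h : Ind a z) :
    z ∉ Ideal.span {a} ⊔ IsLocalRing.maximalIdeal P ^ 2 := by
  intro hz
  obtain ⟨r, hr, m, hm, hrm⟩ := Submodule.mem_sup.1 hz
  obtain ⟨s, rfl⟩ := Ideal.mem_span_singleton'.1 hr
  have h1 := (h (-s) 1 (by
    have : -s * a + 1 * z = m := by rw [← hrm]; ring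
    rw [this]; exact hm)).2
  exact one_notMem h1

end P

section W

variable {P R V L W K : Type} [CommRing P] [IsDomain P] [IsLocalRing P] [IsNoetherianRing P]
    [IsIntegrallyClosed P]
    [CommRing R] [IsDomain R] [IsLocalRing R]
    [Algebra P R] [Module.Finite P R] [Module.Free P R]
    [CommRing V] [IsDomain V] [IsDiscreteValuationRing V] [Algebra P V] [Field L]
    [Algebra P L] [IsFractionRing P L] [Algebra V L] [IsFractionRing V L] [IsScalarTower P V L]
    [Field K] [Algebra R K] [IsFractionRing R K] [Algebra P K] [IsScalarTower P R K]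
    [CommRing W] [IsDomain W] [Algebra V W]
    [Algebra W K] [IsFractionRing W K] [Algebra L K] [Algebra V K] [IsScalarTower V L K]
    [IsScalarTower P L K] [IsScalarTower P V K]
    [IsScalarTower V W K] [IsIntegralClosure W V K] [FiniteDimensional L K]
    [Algebra.IsSeparable L K]

/-- The second root. -/
theorem two_roots_core (H : Lems)
    {C : Submodule R K} {B : Module.Basis (Fin 3) P R}
    {bW : Module.Basis (Fin 3) V W} {q N A : ℕ} {f : R} {T : P →+ P} {TL : L →+ L}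
    {β : K} {g : P} {π : P} (U : Setup C B bW q N A f T TL β g π) (hP : CubP P)
    {z a b₁ c₁ z' ρ : P} {m : ℕ} {x₁ y₀ : K} (h2 : Nf L C z a b₁ c₁ (z' ^ m * ρ) x₁ y₀)
    (ha : a ∈ IsLocalRing.maximalIdeal P) (hz : z ∈ IsLocalRing.maximalIdeal P)
    (hind : Ind a z) (hm : 2 ≤ m) (hz's : z' ∈ Ideal.span {a, z}) {l' : P} (hlu : IsUnit l')
    (hF1 : a * l' ^ 3 + b₁ * l' ^ 2 + c₁ * l' + z' ^ m * ρ ∈ IsLocalRing.maximalIdeal P ^ 2) :
    2 * N + (q - 1) ≤ 2 * (A * (q - 1)) := by
  have hle := span_le_max ha hz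
  have ha2 := hind.left
  have hz'm := hle hz's
  have haI : a ∈ Ideal.span {a, z} := Ideal.subset_span (by simp)
  have hc₁ := hle h2.hc
  have hb₁ := hle h2.hb
  obtain ⟨ω₁, θ₁, hcub₁⟩ := h2.cub
  have hd₁ : z' ^ m * ρ ∈ IsLocalRing.maximalIdeal P ^ 2 := pow_mem_sq hz'm hm ρ
  have h3 := h2.shift H l'
  rcases root_case H U hP h3 ha hz hind hF1 with hb | ⟨ξ', z'', ρ', m', hξ', hm', hρ', hz''s,
    hz''m, hF', hind2, hspan2⟩
  · exact hb
  -- two roots
  set lam : P := l' + ξ' with hlam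
  have hlamu : IsUnit lam := by
    rw [← notMem_iff_isUnit]
    intro hcon
    have := Ideal.sub_mem _ hcon hξ'
    rw [hlam, add_sub_cancel_right] at this
    exact notMem_iff_isUnit.2 hlu this
  obtain ⟨v, hv⟩ := hlamu.exists_left_inv
  have he0 : a * lam ^ 2 + b₁ * lam + c₁ = v * (z'' ^ m' * ρ' - z' ^ m * ρ) := by
    have e1 : lam * (a * lam ^ 2 + b₁ * lam + c₁) = z'' ^ m' * ρ' - z' ^ m * ρ := by
      rw [← hF', hlam]; ring
    rw [← e1, ← mul_assoc, hv, one_mul]
  have hmI1 : z' ^ m * ρ ∈ IsLocalRing.maximalIdeal P * Ideal.span {a, z} :=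
    pow_mem_mul hle hz's hm ρ
  have hmI2 : z'' ^ m' * ρ' ∈ IsLocalRing.maximalIdeal P * Ideal.span {a, z} :=
    pow_mem_mul hle hz''s hm' ρ'
  have hspanT : Ideal.span {a, z} = Ideal.span {a, b₁ + a * lam} := by
    apply le_antisymm
    · refine Submodule.le_of_le_smul_of_le_jacobson_bot (I := IsLocalRing.maximalIdeal P)
        (IsNoetherian.noetherian _) (IsLocalRing.maximalIdeal_le_jacobson _) ?_
      set J : Ideal P := Ideal.span {a, b₁ + a * lam} ⊔
        IsLocalRing.maximalIdeal P • Ideal.span {a, z} with hJ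
      have j1 : a ∈ J := Ideal.mem_sup_left (Ideal.subset_span (by simp))
      have j2 : b₁ + a * lam ∈ J := Ideal.mem_sup_left (Ideal.subset_span (by simp))
      have j3 : b₁ ∈ J := by
        have := Ideal.sub_mem _ j2 (Ideal.mul_mem_right lam _ j1)
        rwa [add_sub_cancel_right] at this
      have j4 : z' ^ m * ρ ∈ J := Ideal.mem_sup_right hmI1
      have j5 : z'' ^ m' * ρ' ∈ J := Ideal.mem_sup_right hmI2
      have j6 : c₁ ∈ J := by
        have e1 : a * lam ^ 2 + b₁ * lam + c₁ ∈ J := by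
          rw [he0]
          exact Ideal.mul_mem_left _ _ (Ideal.sub_mem _ j5 j4)
        have := Ideal.sub_mem _ e1 (Ideal.add_mem _ (Ideal.mul_mem_right (lam ^ 2) _ j1)
          (Ideal.mul_mem_right lam _ j3))
        rwa [add_sub_cancel_left] at this
      have j7 : Ideal.span {a, b₁, c₁, z' ^ m * ρ} ≤ J := by
        rw [Ideal.span_le]
        intro y hy
        simp only [Set.mem_insert_iff, Set.mem_singleton_iff] at hy
        rcases hy with rfl | rfl | rfl | rfl
        · exact j1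
        · exact j3
        · exact j6
        · exact j4
      have j8 : z ∈ J := j7 h2.hz
      rw [Ideal.span_le]
      intro y hy
      simp only [Set.mem_insert_iff, Set.mem_singleton_iff] at hy
      rcases hy with rfl | rfl
      · exact j1
      · exact j8
    · rw [Ideal.span_le]
      intro y hy
      simp only [Set.mem_insert_iff, Set.mem_singleton_iff] at hy
      rcases hy with rfl | rfl
      · exact haI
      · exact Ideal.add_mem _ h2.hb (Ideal.mul_mem_right _ _ haI)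
  have hindT : Ind a (b₁ + a * lam) := hind.of_span hspanT
  obtain ⟨d₁, d₂, d₃, hd⟩ := sq_expand (a := a) (w := b₁ + a * lam) (z' := z')
    (by rw [← hspanT]; exact hz's) hm ρ
  obtain ⟨e₁, e₂, e₃, he⟩ := sq_expand (a := a) (w := b₁ + a * lam) (z' := z'')
    (by rw [← hspanT]; exact hz''s) hm' ρ'
  refine case_TAU H U hP (lam := lam) hcub₁ ha ha2 hb₁ hc₁ (Ideal.pow_le_self (by norm_num) hd₁)
    hindT (e₁ := v * (e₁ - d₁)) (e₂ := v * (e₂ - d₂)) (e₃ := v * (e₃ - d₃)) ?_ hd
  rw [he0, hd, he]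
  ring

/-- Two different roots modulo `𝔪²`. -/
theorem two_roots (H : Lems)
    {C : Submodule R K} {B : Module.Basis (Fin 3) P R}
    {bW : Module.Basis (Fin 3) V W} {q N A : ℕ} {f : R} {T : P →+ P} {TL : L →+ L}
    {β : K} {g : P} {π : P} (U : Setup C B bW q N A f T TL β g π) (hP : CubP P)
    {z a b c d : P} {x y₀ : K} (h : Nf L C z a b c d x y₀)
    (ha : a ∈ IsLocalRing.maximalIdeal P) (hz : z ∈ IsLocalRing.maximalIdeal P)
    (hind : Ind a z) {l₁ l₂ : P} (hu : IsUnit (l₂ - l₁))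
    (h1 : a * l₁ ^ 3 + b * l₁ ^ 2 + c * l₁ + d ∈ IsLocalRing.maximalIdeal P ^ 2)
    (h2 : a * l₂ ^ 3 + b * l₂ ^ 2 + c * l₂ + d ∈ IsLocalRing.maximalIdeal P ^ 2) :
    2 * N + (q - 1) ≤ 2 * (A * (q - 1)) := by
  have e1 := h.shift H l₁
  rcases root_case H U hP e1 ha hz hind h1 with hb | ⟨ξ, z', ρ, m, hξ, hm, hρ, hz's, hz'm, hF,
    hind1, hspan1⟩
  · exact hb
  have e2 := e1.shift H ξ
  have hδ : IsUnit (l₂ - l₁ - ξ) := by
    rw [← notMem_iff_isUnit]
    intro hcon
    have := Ideal.add_mem _ hcon hξ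
    rw [sub_add_cancel] at this
    exact notMem_iff_isUnit.2 hu this
  have hval : a * (l₂ - l₁ - ξ) ^ 3 + (b + 3 * a * l₁ + 3 * a * ξ) * (l₂ - l₁ - ξ) ^ 2 +
      (c + 2 * b * l₁ + 3 * a * l₁ ^ 2 + 2 * (b + 3 * a * l₁) * ξ + 3 * a * ξ ^ 2) *
        (l₂ - l₁ - ξ) + z' ^ m * ρ ∈ IsLocalRing.maximalIdeal P ^ 2 := by
    rw [← hF]
    have : a * (l₂ - l₁ - ξ) ^ 3 + (b + 3 * a * l₁ + 3 * a * ξ) * (l₂ - l₁ - ξ) ^ 2 +
      (c + 2 * b * l₁ + 3 * a * l₁ ^ 2 + 2 * (b + 3 * a * l₁) * ξ + 3 * a * ξ ^ 2) *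
        (l₂ - l₁ - ξ) + (a * ξ ^ 3 + (b + 3 * a * l₁) * ξ ^ 2 +
          (c + 2 * b * l₁ + 3 * a * l₁ ^ 2) * ξ + (a * l₁ ^ 3 + b * l₁ ^ 2 + c * l₁ + d)) =
        a * l₂ ^ 3 + b * l₂ ^ 2 + c * l₂ + d := by ring
    rw [this]
    exact h2
  rw [hF] at e2
  exact two_roots_core H U hP e2 ha hz hind hm hz's hδ hval

/-- A double root modulo `𝔪²`. -/
theorem dbl_root (H : Lems)
    {C : Submodule R K} {B : Module.Basis (Fin 3) P R}
    {bW : Module.Basis (Fin 3) V W} {q N A : ℕ} {f : R} {T : P →+ P} {TL : L →+ L}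
    {β : K} {g : P} {π : P} (U : Setup C B bW q N A f T TL β g π)
    {z a b c d : P} {x y₀ : K} (h : Nf L C z a b c d x y₀)
    (ha : a ∈ IsLocalRing.maximalIdeal P) (hz : z ∈ IsLocalRing.maximalIdeal P)
    (hind : Ind a z) {l : P}
    (h1 : a * l ^ 3 + b * l ^ 2 + c * l + d ∈ IsLocalRing.maximalIdeal P ^ 2)
    (h2 : c + 2 * b * l + 3 * a * l ^ 2 ∈ IsLocalRing.maximalIdeal P ^ 2) :
    2 * N + (q - 1) ≤ 2 * (A * (q - 1)) := by
  have e1 := h.shift H l
  obtain ⟨ω, θ, hcub⟩ := e1.cub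
  exact case_DBL H U hcub ha hind.left (span_le_max ha hz e1.hb) h2 h1

/-- The cubic case, `a ∉ 𝔪²`, all coefficients in `(a, z)`, general residue field. -/
theorem main_order2 [IsIntegrallyClosed R] (H : Lems) (hTR2 : S_TR2) (hTR3 : S_TR3)
    {C : Submodule R K} {B : Module.Basis (Fin 3) P R}
    {bW : Module.Basis (Fin 3) V W} {q N A : ℕ} {f : R} {T : P →+ P} {TL : L →+ L}
    {β : K} {g : P} {π : P} (U : Setup C B bW q N A f T TL β g π) (hP : CubP P)
    {z a b c d : P} {x y₀ : K} (h : Nf L C z a b c d x y₀)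
    (ha : a ∈ IsLocalRing.maximalIdeal P) (hz : z ∈ IsLocalRing.maximalIdeal P)
    (hind : Ind a z) (hnt : ¬ Tors C)
    (hquad : ∀ G : Polynomial P, G.Monic → G.natDegree = 2 →
      (∀ l : P, G.eval l ∉ IsLocalRing.maximalIdeal P) →
      DvdSq G (Polynomial.C a * Polynomial.X ^ 3 + Polynomial.C b * Polynomial.X ^ 2 +
        Polynomial.C c * Polynomial.X + Polynomial.C d) →
      2 * N + (q - 1) ≤ 2 * (A * (q - 1))) :
    2 * N + (q - 1) ≤ 2 * (A * (q - 1)) := by
  have hle := span_le_max ha hz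
  have ha2 := hind.left
  have haI : a ∈ Ideal.span {a, z} := Ideal.subset_span (by simp)
  obtain ⟨ω, θ, hcub⟩ := h.cub
  set F : Polynomial P := Polynomial.C a * Polynomial.X ^ 3 + Polynomial.C b * Polynomial.X ^ 2 +
        Polynomial.C c * Polynomial.X + Polynomial.C d with hF
  have hFd : F.natDegree ≤ 3 := Polynomial.natDegree_cubic_le
  have c0 : F.coeff 0 = d := by rw [hF]; simp
  have c1 : F.coeff 1 = c := by simp [hF, Polynomial.coeff_X, Polynomial.coeff_C]
  have c2 : F.coeff 2 = b := by simp [hF, Polynomial.coeff_X, Polynomial.coeff_C]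
  have c3 : F.coeff 3 = a := by simp [hF, Polynomial.coeff_X, Polynomial.coeff_C]
  have hFm : ∀ n, F.coeff n ∈ IsLocalRing.maximalIdeal P := by
    intro n
    rcases Nat.lt_or_ge n 4 with hn | hn
    · interval_cases n
      · rw [c0]; exact hle h.hd
      · rw [c1]; exact hle h.hc
      · rw [c2]; exact hle h.hb
      · rw [c3]; exact ha
    · rw [Polynomial.coeff_eq_zero_of_natDegree_lt (by omega)]
      exact Ideal.zero_mem _
  have hev : ∀ l, F.eval l = a * l ^ 3 + b * l ^ 2 + c * l + d := by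
    intro l; rw [hF]; simp
  by_cases hno : ∀ G : Polynomial P, G.Monic → 1 ≤ G.natDegree → ¬ DvdSq G F
  · exfalso
    obtain ⟨t, ht, h1, h2, h3⟩ := hTR2 P R L K C a b c d z x y₀ ω θ hcub hind.symm.ne_zero ha hz
      h.hb h.hc h.hd hno
    exact hnt ⟨3, by norm_num, t, H.tor P R K (C ^ 3) t a z ht hind.ne_zero
      (reg_of_ind hP ha hz hind) h1 h2 h3⟩
  push Not at hno
  obtain ⟨G, hG, hG1, hGF⟩ := hno
  by_cases hroot : ∃ l : P, F.eval l ∈ IsLocalRing.maximalIdeal P ^ 2
  · obtain ⟨l, hl⟩ := hroot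
    rw [hev] at hl
    have h1 := h.shift H l
    rcases root_case H U hP h1 ha hz hind hl with hb | ⟨ξ, z', ρ, m, hξ, hm, hρ, hz's, hz'm, hF',
      hind1, hspan1⟩
    · exact hb
    have h2 := h1.shift H ξ
    rw [hF'] at h2
    generalize b + 3 * a * l + 3 * a * ξ = b₁ at h2
    generalize c + 2 * b * l + 3 * a * l ^ 2 + 2 * (b + 3 * a * l) * ξ + 3 * a * ξ ^ 2 = c₁
      at h2 hind1 hspan1
    generalize x - algebraMap P K l - algebraMap P K ξ = x₁ at h2
    obtain ⟨ω₁, θ₁, hcub₁⟩ := h2.cub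
    have hc₁ := hle h2.hc
    have hb₁ := hle h2.hb
    have hd₁ : z' ^ m * ρ ∈ IsLocalRing.maximalIdeal P ^ 2 := pow_mem_sq hz'm hm ρ
    by_cases hno2 : ∀ G : Polynomial P, G.Monic → 1 ≤ G.natDegree →
        ¬ DvdSq G (Polynomial.C a * Polynomial.X ^ 2 + Polynomial.C b₁ * Polynomial.X +
          Polynomial.C c₁)
    · exfalso
      obtain ⟨t, ht, h3, h4, h5⟩ := hTR3 P R L K C a b₁ c₁ z' ρ m x₁ y₀ ω₁ θ₁ hcub₁ hm hρ
        hind1.symm.ne_zero hind1.ne_zero hc₁ hz'm (by rw [hspan1]; exact haI)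
        (by rw [hspan1]; exact h2.hb) ha2 hno2
      obtain ⟨hpz, -⟩ := hP.rgs z' c₁ hz'm hc₁ hind1.symm
      have hpz' : Prime z' := (Ideal.span_singleton_prime hind1.symm.ne_zero).1 hpz
      have hzc : ¬ z' ∣ c₁ ^ m := by
        intro hdvd
        have h6 : z' ∣ c₁ := hpz'.dvd_of_dvd_pow hdvd
        obtain ⟨r, hr⟩ := h6
        have h7 := (hind1 1 (-r) (by
          rw [one_mul, hr, neg_mul, mul_comm z' r, add_neg_cancel]; exact Ideal.zero_mem _)).1
        exact one_notMem h7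
      refine hnt ⟨2 * m + 1, by omega, t, H.tor P R K (C ^ (2 * m + 1)) t (z' ^ m) (c₁ ^ m) ht
        (pow_ne_zero _ hind1.symm.ne_zero) ?_ h3 h4 h5⟩
      intro u hu
      exact hpz'.pow_dvd_of_dvd_mul_left m hzc hu
    push Not at hno2
    obtain ⟨G₂, hG₂, hG₂1, hG₂F⟩ := hno2
    set F₂ : Polynomial P := Polynomial.C a * Polynomial.X ^ 2 + Polynomial.C b₁ * Polynomial.X +
          Polynomial.C c₁ with hF₂
    have hF₂d : F₂.natDegree ≤ 2 := Polynomial.natDegree_quadratic_le
    have d0 : F₂.coeff 0 = c₁ := by rw [hF₂]; simp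
    have d1 : F₂.coeff 1 = b₁ := by simp [hF₂, Polynomial.coeff_X, Polynomial.coeff_C]
    have d2 : F₂.coeff 2 = a := by simp [hF₂, Polynomial.coeff_X, Polynomial.coeff_C]
    rcases Nat.lt_or_ge G₂.natDegree 2 with hdeg | hdeg
    · obtain ⟨l', hl'⟩ := dvdSq_root hG₂ (by omega) hG₂F
      have hl'' : a * l' ^ 2 + b₁ * l' + c₁ ∈ IsLocalRing.maximalIdeal P ^ 2 := by
        have : F₂.eval l' = a * l' ^ 2 + b₁ * l' + c₁ := by rw [hF₂]; simp
        rwa [this] at hl'
      have hlu : IsUnit l' := by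
        rw [← notMem_iff_isUnit]
        intro hl'm
        apply hind1.left
        have e1 : a * l' ^ 2 + b₁ * l' ∈ IsLocalRing.maximalIdeal P ^ 2 := by
          rw [pow_two (IsLocalRing.maximalIdeal P)]
          refine Ideal.add_mem _ ?_ (Ideal.mul_mem_mul hb₁ hl'm)
          rw [pow_two, ← mul_assoc]
          exact Ideal.mul_mem_right _ _ (Ideal.mul_mem_mul ha hl'm)
        have := Ideal.sub_mem _ hl'' e1
        rwa [add_sub_cancel_left] at this
      have hF1 : a * l' ^ 3 + b₁ * l' ^ 2 + c₁ * l' + z' ^ m * ρ ∈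
          IsLocalRing.maximalIdeal P ^ 2 := by
        have : a * l' ^ 3 + b₁ * l' ^ 2 + c₁ * l' + z' ^ m * ρ =
            l' * (a * l' ^ 2 + b₁ * l' + c₁) + z' ^ m * ρ := by ring
        rw [this]
        exact Ideal.add_mem _ (Ideal.mul_mem_left _ _ hl'') hd₁
      exact two_roots_core H U hP h2 ha hz hind hm hz's hlu hF1
    · exfalso
      have hh := dvdSq_high hG₂ hF₂d hdeg hG₂F
      rw [d2] at hh
      apply hind.notMem
      have hall : Ideal.span {a, b₁, c₁, z' ^ m * ρ} ≤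
          Ideal.span {a} ⊔ IsLocalRing.maximalIdeal P ^ 2 := by
        rw [Ideal.span_le]
        intro y hy
        simp only [Set.mem_insert_iff, Set.mem_singleton_iff] at hy
        rcases hy with rfl | rfl | rfl | rfl
        · exact Ideal.mem_sup_left (Ideal.mem_span_singleton_self _)
        · rw [← d1]; exact hh 1
        · rw [← d0]; exact hh 0
        · exact Ideal.mem_sup_right hd₁
      exact hall h2.hz
  · push Not at hroot
    rcases Nat.lt_or_ge G.natDegree 3 with hdeg | hdeg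
    · rcases Nat.lt_or_ge G.natDegree 2 with hdeg1 | hdeg1
      · exfalso
        obtain ⟨l, hl⟩ := dvdSq_root hG (by omega) hGF
        exact hroot l hl
      · refine hquad G hG (by omega) ?_ hGF
        intro l hl
        exact hroot l (dvdSq_eval hG hFm hGF hl)
    · exfalso
      have hh := dvdSq_high hG hFd hdeg hGF
      rw [c3] at hh
      apply hind.notMem
      have hall : Ideal.span {a, b, c, d} ≤
          Ideal.span {a} ⊔ IsLocalRing.maximalIdeal P ^ 2 := by
        rw [Ideal.span_le]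
        intro y hy
        simp only [Set.mem_insert_iff, Set.mem_singleton_iff] at hy
        rcases hy with rfl | rfl | rfl | rfl
        · exact Ideal.mem_sup_left (Ideal.mem_span_singleton_self _)
        · rw [← c2]; exact hh 2
        · rw [← c1]; exact hh 1
        · rw [← c0]; exact hh 0
      exact hall h.hz

end W

end Pool.Agent.H867.FT
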