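import Pool.Agent.H867.FT.Cub8
import Pool.Agent.H102.FT867CLB

/-!
# Assembly, part 13: cubic rings which are not necessarily normal.
-/

namespace Pool.Agent.H867.FT

open Module

set_option linter.unusedSectionVars false

section P

variable {P R L K : Type} [CommRing P] [IsDomain P] [IsLocalRing P] [IsNoetherianRing P]
    [IsIntegrallyClosed P]
    [CommRing R] [IsDomain R] [IsLocalRing R]
    [Algebra P R] [Module.Finite P R] [Module.Free P R]
    [Field L] [Algebra P L] [IsFractionRing P L]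
    [Field K] [Algebra R K] [IsFractionRing R K] [Algebra P K] [IsScalarTower P R K]
    [Algebra L K] [IsScalarTower P L K] [FiniteDimensional L K]
    [Algebra.IsSeparable L K]

theorem cub_basis {C : Submodule R K} {a b c d : P} {x y₀ : K} {ω θ : R}
    (h : IsCub L C a b c d x y₀ ω θ) :
    ∃ B : Module.Basis (Fin 3) P R, B 0 = 1 ∧ B 1 = ω ∧ B 2 = θ := by
  have hPL : Function.Injective (algebraMap P L) := IsFractionRing.injective P L
  have hli : LinearIndependent P ![(1 : R), ω, θ] := by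
    rw [Fintype.linearIndependent_iff]
    intro g hg
    rw [Fin.sum_univ_three] at hg
    have h1 : algebraMap P R (g 0) + g 1 • ω + g 2 • θ = 0 := by
      rw [← hg, Algebra.algebraMap_eq_smul_one]
      rfl
    have h2 := congrArg (algebraMap R K) h1
    rw [map_zero, map_add, map_add, Algebra.smul_def, Algebra.smul_def, map_mul, map_mul,
      ← IsScalarTower.algebraMap_apply P R K, ← IsScalarTower.algebraMap_apply P R K,
      ← IsScalarTower.algebraMap_apply P R K, h.hω, h.hθ] at h2
    have h3 := h.ind (algebraMap P L (g 0 + g 2 * c)) (algebraMap P L (g 1 * a + g 2 * b))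
      (algebraMap P L (g 2 * a)) (by
        rw [← IsScalarTower.algebraMap_apply P L K, ← IsScalarTower.algebraMap_apply P L K,
          ← IsScalarTower.algebraMap_apply P L K, ← h2]
        simp only [map_add, map_mul]
        ring)
    obtain ⟨e0, e1, e2⟩ := h3
    have f2 : g 2 = 0 := by
      have : g 2 * a = 0 := hPL (by rw [e2, map_zero])
      exact (mul_eq_zero.1 this).resolve_right h.ha
    have f1 : g 1 = 0 := by
      have : g 1 * a + g 2 * b = 0 := hPL (by rw [e1, map_zero])
      rw [f2, zero_mul, add_zero] at this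
      exact (mul_eq_zero.1 this).resolve_right h.ha
    have f0 : g 0 = 0 := by
      have : g 0 + g 2 * c = 0 := hPL (by rw [e0, map_zero])
      rwa [f2, zero_mul, add_zero] at this
    intro i
    fin_cases i
    · exact f0
    · exact f1
    · exact f2
  have hsp : ⊤ ≤ Submodule.span P (Set.range ![(1 : R), ω, θ]) := by
    intro r _
    obtain ⟨r₀, r₁, r₂, hr⟩ := h.gen r
    rw [hr, Algebra.algebraMap_eq_smul_one]
    refine Submodule.add_mem _ (Submodule.add_mem _ (Submodule.smul_mem _ _ ?_)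
      (Submodule.smul_mem _ _ ?_)) (Submodule.smul_mem _ _ ?_)
    · exact Submodule.subset_span ⟨0, rfl⟩
    · exact Submodule.subset_span ⟨1, rfl⟩
    · exact Submodule.subset_span ⟨2, rfl⟩
  refine ⟨Module.Basis.mk hli hsp, ?_, ?_, ?_⟩
  · rw [Module.Basis.mk_apply]; rfl
  · rw [Module.Basis.mk_apply]; rfl
  · rw [Module.Basis.mk_apply]; rfl

theorem cub_mem {C : Submodule R K} {a b c d : P} {x y₀ : K} {ω θ : R}
    (h : IsCub L C a b c d x y₀ ω θ) (hloc : (IsLocalRing.maximalIdeal P).map (algebraMap P R) ≤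
      IsLocalRing.maximalIdeal R)
    (ha : a ∈ IsLocalRing.maximalIdeal P) (hb : b ∈ IsLocalRing.maximalIdeal P)
    (hc : c ∈ IsLocalRing.maximalIdeal P) (hd : d ∈ IsLocalRing.maximalIdeal P) :
    ω ∈ IsLocalRing.maximalIdeal R ∧ θ ∈ IsLocalRing.maximalIdeal R := by
  have hinj : Function.Injective (algebraMap R K) := IsFractionRing.injective R K
  have hm : ∀ {y : P}, y ∈ IsLocalRing.maximalIdeal P → algebraMap P R y ∈
      IsLocalRing.maximalIdeal R := fun hy => hloc (Ideal.mem_map_of_mem _ hy)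
  have hp := (IsLocalRing.maximalIdeal.isMaximal R).isPrime
  have h1 : ω ^ 2 = algebraMap P R a * θ - algebraMap P R b * ω - algebraMap P R (a * c) := by
    apply hinj
    rw [map_sub, map_sub, map_mul, map_mul, map_pow, ← IsScalarTower.algebraMap_apply P R K,
      ← IsScalarTower.algebraMap_apply P R K, ← IsScalarTower.algebraMap_apply P R K, h.hω, h.hθ,
      map_mul]
    ring
  have h2 : θ ^ 2 = algebraMap P R c * θ - algebraMap P R d * ω - algebraMap P R (b * d) := by
    apply hinj
    rw [map_sub, map_sub, map_mul, map_mul, map_pow, ← IsScalarTower.algebraMap_apply P R K,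
      ← IsScalarTower.algebraMap_apply P R K, ← IsScalarTower.algebraMap_apply P R K, h.hω, h.hθ,
      map_mul]
    linear_combination (algebraMap P K a * x + algebraMap P K b) * h.root
  constructor
  · apply hp.mem_of_pow_mem 2
    rw [h1]
    exact Ideal.sub_mem _ (Ideal.sub_mem _ (Ideal.mul_mem_right _ _ (hm ha))
      (Ideal.mul_mem_right _ _ (hm hb))) (hm (Ideal.mul_mem_right _ _ ha))
  · apply hp.mem_of_pow_mem 2
    rw [h2]
    exact Ideal.sub_mem _ (Ideal.sub_mem _ (Ideal.mul_mem_right _ _ (hm hc))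
      (Ideal.mul_mem_right _ _ (hm hd))) (hm (Ideal.mul_mem_right _ _ hb))

theorem content_ht (hP : CubP P) {a z : P} (ha : a ∈ IsLocalRing.maximalIdeal P)
    (hz : z ∈ IsLocalRing.maximalIdeal P) (hind : Ind a z) {I : Ideal P} (haI : a ∈ I)
    (hzI : z ∈ I) (𝔭 : Ideal P) (h𝔭 : 𝔭.IsPrime) (hht : 𝔭.height = 1) : ¬ I ≤ 𝔭 := by
  intro hle
  obtain ⟨hpa, -⟩ := hP.rgs a z ha hz hind
  have h1 : Ideal.span {a} ≤ 𝔭 := by
    rw [Ideal.span_le, Set.singleton_subset_iff]
    exact hle haI
  have hzn : z ∉ Ideal.span {a} := fun h => hind.notMem (Ideal.mem_sup_left h)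
  have h2 : Ideal.span {a} < 𝔭 := by
    refine lt_of_le_of_ne h1 ?_
    intro h
    apply hzn
    rw [h]
    exact hle hzI
  have hbot : (⊥ : Ideal P) < Ideal.span {a} := by
    rw [bot_lt_iff_ne_bot, Ne, Ideal.span_singleton_eq_bot]
    exact hind.ne_zero
  have hb : (⊥ : Ideal P).IsPrime := Ideal.isPrime_bot
  have h3 := Ideal.height_add_one_le_of_lt_of_isPrime hbot
  have h4 := Ideal.height_add_one_le_of_lt_of_isPrime h2
  rw [hht] at h4
  have h5 : (1 : ℕ∞) ≤ (Ideal.span {a}).height := le_trans le_add_self h3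
  have h6 : (1 : ℕ∞) + 1 ≤ 1 := le_trans (add_le_add_left h5 1) h4
  exact absurd h6 (by decide)

theorem splitData_of2 (hBET : S_BET) (hCLB : S_CLB) (hP : CubP P)
    {C : Submodule R K} (hC : IsCodiff P R L K C) {a b c d : P} {x y₀ : K} {ω θ : R}
    (hcub : IsCub L C a b c d x y₀ ω θ)
    (hcont : ∀ 𝔭 : Ideal P, 𝔭.IsPrime → 𝔭.height = 1 → ¬ Ideal.span {a, b, c, d} ≤ 𝔭)
    (B : Module.Basis (Fin 3) P R) (q N : ℕ) (hq : 1 ≤ q)
    (hT : CartGen P q)
    (f : R) (hN : f ∈ IsLocalRing.maximalIdeal R ^ N) (hf : FSplits R q f) :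
    ∃ (T : P →+ P) (TL : L →+ L) (β : K) (g : P),
      SplitData C q N f T TL β g (Algebra.discr P B) := by
  obtain ⟨T, hT, hT1, hT2⟩ := hT
  obtain ⟨φ, hφ, hφf⟩ := hf
  obtain ⟨TL, φK, β, h1, h2, h3, h4, h5, h6⟩ := hBET q P R L K T φ hq hT hT1 hT2 hφ
  have key : ∀ y : K, Algebra.trace L K y =
      TL (Algebra.trace L K (β * algebraMap R K f * y ^ q)) := by
    intro y
    have e1 : φK (y ^ q * algebraMap R K f) = y := by
      rw [h2, h4, hφf, map_one, mul_one]
    have e2 := h5 (y ^ q * algebraMap R K f)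
    rw [e1] at e2
    rw [e2]
    congr 2
    ring
  have hβ : β ≠ 0 := by
    rintro rfl
    have hex : ∃ y : K, Algebra.trace L K y ≠ 0 := by
      by_contra hcon
      push Not at hcon
      exact Algebra.trace_ne_zero L K (LinearMap.ext hcon)
    obtain ⟨y, hy⟩ := hex
    exact hy (by rw [key y, zero_mul, zero_mul, map_zero, map_zero])
  have hf0 : f ≠ 0 := by
    rintro rfl
    rw [map_zero] at hφf
    exact zero_ne_one hφf
  have hinv : ∀ y ∈ C, β * y ^ q ∈ C := by
    intro y hy
    rw [hC] at hy ⊢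
    intro r
    exact h6 y hy r
  obtain ⟨l, hl⟩ := hP.units
  obtain ⟨⟨g, hg1, hg2⟩, hg3⟩ := hCLB q P R L K B C a b c d x y₀ ω θ l β hq hl hC hcub hcont hinv hβ
  exact ⟨T, TL, β, g, hq, hT, h1, h3, key, hβ, hf0, hN, hg1, hg2, hg3⟩

end P

end Pool.Agent.H867.FT
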