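import Mathlib

/-!
# F-pure thresholds of the maximal ideal; affine toric rings

Definitions for the hand-in on MP_7dd379_ag.
-/

namespace Pool.Agent.H867.FT

/-- `f` *splits at level `q`* (`q = p ^ e`): the `R`-linear map `R → R^{1/q}`, `1 ↦ f^{1/q}`
splits.  Transporting the module structure along `R^{1/q} ≅ R`, a splitting is the same thing as
an additive map `φ : R → R` with `φ (r ^ q * s) = r * φ s` and `φ f = 1`. -/
def FSplits (R : Type*) [CommRing R] (q : ℕ) (f : R) : Prop :=
  ∃ φ : R →+ R, (∀ r s : R, φ (r ^ q * s) = r * φ s) ∧ φ f = 1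

/-- The pair `(R, 𝔞 ^ t)` is F-pure: for every sufficiently large `q = p ^ e` some
`f ∈ 𝔞 ^ ⌈t (q - 1)⌉` splits. -/
def FPurePair (R : Type*) [CommRing R] (p : ℕ) (𝔞 : Ideal R) (t : ℝ) : Prop :=
  ∃ e₀ : ℕ, ∀ e : ℕ, e₀ ≤ e → ∃ f ∈ 𝔞 ^ ⌈t * ((p : ℝ) ^ e - 1)⌉₊, FSplits R (p ^ e) f

/-- The F-pure threshold of an ideal. -/
noncomputable def fpt (R : Type*) [CommRing R] (p : ℕ) (𝔞 : Ideal R) : ℝ :=
  sSup {t : ℝ | 0 ≤ t ∧ FPurePair R p 𝔞 t}

/-- The primitive generators `v 0, …, v (n-1)` of the rays of a full-dimensional, strongly convex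
rational polyhedral cone `σ` in `ℝ ^ d`:
* `spans`: they span `ℝ ^ d` (no nonzero vector is orthogonal to all of them);
* `primitive`: each of them is a primitive lattice vector;
* `facet`: each of them spans an extreme ray of `σ` (some functional vanishes on it and is
  positive on all the others; for `n ≥ 2` this also makes `σ` strongly convex). -/
structure Cone (d n : ℕ) where
  /-- the ray generators -/
  v : Fin n → (Fin d → ℤ)
  spans : ∀ u : Fin d → ℤ, (∀ i, v i ⬝ᵥ u = 0) → u = 0
  primitive : ∀ (i : Fin n) (k : ℤ) (w : Fin d → ℤ), v i = k • w → IsUnit k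
  facet : ∀ i : Fin n, ∃ u : Fin d → ℤ, v i ⬝ᵥ u = 0 ∧ ∀ j, j ≠ i → 0 < v j ⬝ᵥ u

namespace Cone

variable {d n : ℕ} (C : Cone d n)

theorem zero_mem_aux (i : Fin n) : 0 ≤ C.v i ⬝ᵥ (0 : Fin d → ℤ) := by simp

theorem add_mem_aux {a b : Fin d → ℤ} (ha : ∀ i, 0 ≤ C.v i ⬝ᵥ a) (hb : ∀ i, 0 ≤ C.v i ⬝ᵥ b)
    (i : Fin n) : 0 ≤ C.v i ⬝ᵥ (a + b) := by
  rw [dotProduct_add]
  exact add_nonneg (ha i) (hb i)

/-- The semigroup `σ^∨ ∩ ℤ ^ d` of the affine toric variety of the cone. -/
def S : AddSubmonoid (Fin d → ℤ) where
  carrier := {u | ∀ i, 0 ≤ C.v i ⬝ᵥ u}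
  zero_mem' := C.zero_mem_aux
  add_mem' := fun ha hb => C.add_mem_aux ha hb

theorem mem_S {u : Fin d → ℤ} : u ∈ C.S ↔ ∀ i, 0 ≤ C.v i ⬝ᵥ u := Iff.rfl

/-- The semigroup is pointed. -/
theorem eq_zero_of_add {a b : C.S} (h : a + b = 0) : a = 0 := by
  have h' : (a : Fin d → ℤ) + b = 0 := by
    have := congrArg (fun x : C.S => (x : Fin d → ℤ)) h
    simpa using this
  apply Subtype.ext
  apply C.spans
  intro i
  have h1 := a.2 i
  have h2 := b.2 i
  have h3 : C.v i ⬝ᵥ (a : Fin d → ℤ) + C.v i ⬝ᵥ (b : Fin d → ℤ) = 0 := by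
    rw [← dotProduct_add, h', dotProduct_zero]
  linarith

/-- The coordinate ring `K[σ^∨ ∩ ℤ ^ d]` of the affine toric variety. -/
abbrev Ring (K : Type*) [Field K] : Type _ := AddMonoidAlgebra K C.S

/-- The ring structure of the coordinate ring. -/
noncomputable instance instCommRingRing (K : Type*) [Field K] : CommRing (C.Ring K) :=
  inferInstance

/-- The semiring structure of the coordinate ring. -/
noncomputable instance instCommSemiringRing (K : Type*) [Field K] : CommSemiring (C.Ring K) :=
  inferInstance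

/-- The semiring structure of the coordinate ring. -/
noncomputable instance instSemiringRing (K : Type*) [Field K] : Semiring (C.Ring K) :=
  inferInstance

/-- The algebra structure of the coordinate ring. -/
noncomputable instance instAlgebraRing (K : Type*) [Field K] : Algebra K (C.Ring K) :=
  inferInstance

/-- The exponent is zero. -/
def IsOrigin (u : Multiplicative C.S) : Prop := Multiplicative.toAdd u = 0

open Classical in
/-- `u ↦ 1` if `u = 0` and `0` otherwise. -/
noncomputable def augFun (K : Type*) [Field K] (u : Multiplicative C.S) : K :=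
  if C.IsOrigin u then 1 else 0

theorem augFun_one (K : Type*) [Field K] : C.augFun K 1 = 1 := by
  simp [augFun, IsOrigin]

theorem augFun_mul (K : Type*) [Field K] (a b : Multiplicative C.S) :
    C.augFun K (a * b) = C.augFun K a * C.augFun K b := by
  unfold augFun IsOrigin
  by_cases ha : Multiplicative.toAdd a = 0
  · rw [toAdd_mul, ha, zero_add]
    simp
  · have : ¬ (Multiplicative.toAdd (a * b) = 0) := by
      intro h
      rw [toAdd_mul] at h
      exact ha (C.eq_zero_of_add h)
    rw [if_neg this, if_neg ha, zero_mul]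

/-- The monoid homomorphism `u ↦ 1` if `u = 0` and `0` otherwise. -/
noncomputable def augHom (K : Type*) [Field K] : Multiplicative C.S →* K where
  toFun := C.augFun K
  map_one' := C.augFun_one K
  map_mul' := C.augFun_mul K

@[simp]
theorem augHom_apply (K : Type*) [Field K] (u : Multiplicative C.S) :
    C.augHom K u = if Multiplicative.toAdd u = 0 then 1 else 0 := by
  classical
  show C.augFun K u = _
  unfold augFun IsOrigin
  by_cases h : Multiplicative.toAdd u = 0
  · rw [if_pos h, if_pos h]
  · rw [if_neg h, if_neg h]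

/-- Evaluation at the torus-fixed point: `x ^ u ↦ 0` for `u ≠ 0`. -/
noncomputable def aug (K : Type*) [Field K] : C.Ring K →ₐ[K] K :=
  (AddMonoidAlgebra.lift K K C.S).toFun (C.augHom K)

theorem aug_eq_lift (K : Type*) [Field K] :
    C.aug K = AddMonoidAlgebra.lift K K C.S (C.augHom K) := rfl

/-- The maximal ideal of the torus-fixed point, generated by the monomials `x ^ u`, `u ≠ 0`. -/
noncomputable def maxIdeal (K : Type*) [Field K] : Ideal (C.Ring K) :=
  RingHom.ker (C.aug K : C.Ring K →+* K)

instance (K : Type*) [Field K] : (C.maxIdeal K).IsPrime :=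
  RingHom.ker_isPrime _

/-- The local ring of the affine toric variety at its torus-fixed point. -/
abbrev LocalRing (K : Type*) [Field K] : Type _ := Localization.AtPrime (C.maxIdeal K)

/-- The ring structure of the local ring. -/
noncomputable instance instCommRingLocalRing (K : Type*) [Field K] : CommRing (C.LocalRing K) :=
  inferInstance

/-- The semiring structure of the local ring. -/
noncomputable instance instSemiringLocalRing (K : Type*) [Field K] : Semiring (C.LocalRing K) :=
  inferInstance

/-- The local ring is an algebra over the coordinate ring. -/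
noncomputable instance instAlgebraLocalRing (K : Type*) [Field K] :
    Algebra (C.Ring K) (C.LocalRing K) :=
  inferInstance

/-- The local ring is local. -/
instance instIsLocalRingLocalRing (K : Type*) [Field K] : IsLocalRing (C.LocalRing K) :=
  inferInstance

/-- The `r`-th divisorial power `ω^{(r)}` of the canonical module `ω` of `K[σ^∨ ∩ ℤ ^ d]`:
the ideal spanned by the monomials `x ^ u` with `⟨v i, u⟩ ≥ r` for all rays `v i`. For `r = 1`
this is the ideal of the interior lattice points (Danilov, Stanley), i.e. `ω = O(-∑ D_i)`. -/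
noncomputable def omega (K : Type*) [Field K] (r : ℕ) : Ideal (C.Ring K) :=
  Ideal.span {f | ∃ u : C.S, (∀ i, (r : ℤ) ≤ C.v i ⬝ᵥ (u : Fin d → ℤ)) ∧
    f = AddMonoidAlgebra.single u 1}

/-- The localization map. -/
noncomputable abbrev toLocal (K : Type*) [Field K] : C.Ring K →+* C.LocalRing K :=
  algebraMap (C.Ring K) (C.LocalRing K)

/-- The ideal `ω^{(r)}` of the local ring. -/
noncomputable abbrev localOmega (K : Type*) [Field K] (r : ℕ) : Ideal (C.LocalRing K) :=
  (C.omega K r).map (C.toLocal K)

/-- The local ring is `ℚ`-Gorenstein: some divisorial power `ω^{(r)}`, `r ≥ 1`, of its canonical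
module is principal (the canonical class is torsion). -/
def QGorenstein (K : Type*) [Field K] : Prop :=
  ∃ r : ℕ, 1 ≤ r ∧ (C.localOmega K r).IsPrincipal

end Cone

end Pool.Agent.H867.FT

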