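import Pool.Agent.H867.FT.Gen4

/-! # FTS EXL: a cubic ring with coefficients in the maximal ideal is local (by helper790) -/

set_option autoImplicit false

namespace Pool.Agent.H867.FT.EXLc

open IsLocalRing

/-- the ideal generated by the maximal ideal of `P` and `ω`, `θ` -/
def nn (P : Type) {R : Type} [CommRing P] [IsLocalRing P] [CommRing R] [Algebra P R] (ω θ : R) :
    Ideal R :=
  (maximalIdeal P).map (algebraMap P R) ⊔ Ideal.span {ω, θ}

section

variable {P R : Type} [CommRing P] [IsLocalRing P] [CommRing R] [Algebra P R] {ω θ : R}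

theorem map_le : (maximalIdeal P).map (algebraMap P R) ≤ nn P ω θ := le_sup_left

theorem om_mem : ω ∈ nn P ω θ :=
  Ideal.mem_sup_right (Ideal.subset_span (by simp))

theorem th_mem : θ ∈ nn P ω θ :=
  Ideal.mem_sup_right (Ideal.subset_span (by simp))

theorem al_mem {a : P} (ha : a ∈ maximalIdeal P) :
    algebraMap P R a ∈ (maximalIdeal P).map (algebraMap P R) := Ideal.mem_map_of_mem _ ha

/-- every maximal ideal is `nn` -/
theorem max_eq [IsDomain R] [Module.Finite P R] {a b c d : P} (ha : a ∈ maximalIdeal P)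
    (hb : b ∈ maximalIdeal P) (hc : c ∈ maximalIdeal P) (hd : d ∈ maximalIdeal P)
    (h1 : ω * ω = -(algebraMap P R a * algebraMap P R c) - algebraMap P R b * ω +
      algebraMap P R a * θ)
    (h3 : θ * θ = -(algebraMap P R b * algebraMap P R d) - algebraMap P R d * ω +
      algebraMap P R c * θ)
    (hR : ∀ r : R, ∃ r₀ r₁ r₂ : P, r = algebraMap P R r₀ + r₁ • ω + r₂ • θ)
    (M : Ideal R) [hM : M.IsMaximal] : M = nn P ω θ := by
  have hint : Algebra.IsIntegral P R := inferInstance
  have hcm : (M.comap (algebraMap P R)).IsMaximal :=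
    Ideal.isMaximal_comap_of_isIntegral_of_isMaximal M
  have hce : M.comap (algebraMap P R) = maximalIdeal P := IsLocalRing.eq_maximalIdeal hcm
  have hmap : (maximalIdeal P).map (algebraMap P R) ≤ M := by
    rw [Ideal.map_le_iff_le_comap, hce]
  have hal : ∀ u ∈ maximalIdeal P, algebraMap P R u ∈ M := fun u hu => hmap (al_mem hu)
  have hω : ω ∈ M := by
    have h4 : ω * ω ∈ M := by
      rw [h1]
      exact M.add_mem (M.sub_mem (M.neg_mem (M.mul_mem_right _ (hal a ha)))
        (M.mul_mem_right _ (hal b hb))) (M.mul_mem_right _ (hal a ha))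
    exact (hM.isPrime.mem_or_mem h4).elim id id
  have hθ : θ ∈ M := by
    have h4 : θ * θ ∈ M := by
      rw [h3]
      exact M.add_mem (M.sub_mem (M.neg_mem (M.mul_mem_right _ (hal b hb)))
        (M.mul_mem_right _ (hal d hd))) (M.mul_mem_right _ (hal c hc))
    exact (hM.isPrime.mem_or_mem h4).elim id id
  apply le_antisymm
  · intro r hr
    obtain ⟨r₀, r₁, r₂, rfl⟩ := hR r
    have h5 : algebraMap P R r₀ ∈ M := by
      have e : algebraMap P R r₀ = (algebraMap P R r₀ + r₁ • ω + r₂ • θ) -
          algebraMap P R r₁ * ω - algebraMap P R r₂ * θ := by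
        rw [Algebra.smul_def, Algebra.smul_def]
        ring
      rw [e]
      exact M.sub_mem (M.sub_mem hr (M.mul_mem_left _ hω)) (M.mul_mem_left _ hθ)
    have h6 : r₀ ∈ maximalIdeal P := by
      rw [← hce]
      exact h5
    rw [Algebra.smul_def, Algebra.smul_def]
    exact (nn P ω θ).add_mem ((nn P ω θ).add_mem (map_le (al_mem h6))
      ((nn P ω θ).mul_mem_left _ om_mem)) ((nn P ω θ).mul_mem_left _ th_mem)
  · refine sup_le hmap ?_
    rw [Ideal.span_le]
    intro y hy
    rcases hy with rfl | hy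
    · exact hω
    · rw [Set.mem_singleton_iff] at hy
      rw [hy]
      exact hθ

/-- the square of `nn` -/
theorem sq_le {a b c d : P} (ha : a ∈ maximalIdeal P)
    (hb : b ∈ maximalIdeal P) (hc : c ∈ maximalIdeal P) (hd : d ∈ maximalIdeal P)
    (h1 : ω * ω = -(algebraMap P R a * algebraMap P R c) - algebraMap P R b * ω +
      algebraMap P R a * θ)
    (h2 : ω * θ = -(algebraMap P R a * algebraMap P R d))
    (h3 : θ * θ = -(algebraMap P R b * algebraMap P R d) - algebraMap P R d * ω +
      algebraMap P R c * θ) :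
    nn P ω θ * nn P ω θ ≤ (maximalIdeal P).map (algebraMap P R) * nn P ω θ := by
  obtain ⟨Q, hQ⟩ : ∃ Q : Ideal R, Q = (maximalIdeal P).map (algebraMap P R) * nn P ω θ := ⟨_, rfl⟩
  rw [← hQ]
  have key : ∀ u ∈ maximalIdeal P, ∀ y ∈ nn P ω θ, algebraMap P R u * y ∈ Q := by
    intro u hu y hy
    rw [hQ]
    exact Ideal.mul_mem_mul (al_mem hu) hy
  have hal : ∀ u ∈ maximalIdeal P, algebraMap P R u ∈ nn P ω θ := fun u hu => map_le (al_mem hu)
  have e1 : ω * ω ∈ Q := by
    rw [h1]
    exact Q.add_mem (Q.sub_mem (Q.neg_mem (key a ha _ (hal c hc))) (key b hb _ om_mem))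
      (key a ha _ th_mem)
  have e2 : ω * θ ∈ Q := by
    rw [h2]
    exact Q.neg_mem (key a ha _ (hal d hd))
  have e3 : θ * θ ∈ Q := by
    rw [h3]
    exact Q.add_mem (Q.sub_mem (Q.neg_mem (key b hb _ (hal d hd))) (key d hd _ om_mem))
      (key c hc _ th_mem)
  have hJJ : Ideal.span {ω, θ} * Ideal.span {ω, θ} ≤ Q := by
    rw [Ideal.span_mul_span', Ideal.span_le]
    rintro _ ⟨u, hu, v, hv, rfl⟩
    show u * v ∈ Q
    rcases hu with rfl | hu <;> rcases hv with rfl | hv
    · exact e1
    · rw [Set.mem_singleton_iff] at hv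
      rw [hv]
      exact e2
    · rw [Set.mem_singleton_iff] at hu
      rw [hu, mul_comm]
      exact e2
    · rw [Set.mem_singleton_iff] at hu hv
      rw [hu, hv]
      exact e3
  have hJ : Ideal.span {ω, θ} ≤ nn P ω θ := le_sup_right
  have step1 : nn P ω θ * nn P ω θ = (maximalIdeal P).map (algebraMap P R) * nn P ω θ ⊔
      Ideal.span {ω, θ} * nn P ω θ := by
    conv_lhs => rw [nn]
    rw [Ideal.sup_mul]
    rfl
  have step2 : Ideal.span {ω, θ} * nn P ω θ = Ideal.span {ω, θ} *
      (maximalIdeal P).map (algebraMap P R) ⊔ Ideal.span {ω, θ} * Ideal.span {ω, θ} := by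
    conv_lhs => rw [nn]
    rw [Ideal.mul_sup]
  rw [step1, ← hQ]
  refine sup_le le_rfl ?_
  rw [step2]
  refine sup_le ?_ hJJ
  rw [mul_comm, hQ]
  exact Ideal.mul_mono_right hJ

end

theorem exl : Pool.Agent.H867.FT.S_EXL := by
  intro P R K _ _ _ _ _ _ _ _ _ _ _ _ _ a b c d x ω θ ha hb hc hd hx hω hθ hR
  have inj : Function.Injective (algebraMap R K) := IsFractionRing.injective R K
  have tw : ∀ u : P, algebraMap R K (algebraMap P R u) = algebraMap P K u := fun u =>
    (IsScalarTower.algebraMap_apply P R K u).symm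
  have h1 : ω * ω = -(algebraMap P R a * algebraMap P R c) - algebraMap P R b * ω +
      algebraMap P R a * θ := by
    apply inj
    simp only [map_mul, map_add, map_sub, map_neg, tw, hω, hθ]
    ring
  have h2 : ω * θ = -(algebraMap P R a * algebraMap P R d) := by
    apply inj
    simp only [map_mul, map_neg, tw, hω, hθ]
    linear_combination (algebraMap P K a) * hx
  have h3 : θ * θ = -(algebraMap P R b * algebraMap P R d) - algebraMap P R d * ω +
      algebraMap P R c * θ := by
    apply inj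
    simp only [map_mul, map_add, map_sub, map_neg, tw, hω, hθ]
    linear_combination (algebraMap P K a * x + algebraMap P K b) * hx
  have hloc : IsLocalRing R := by
    apply IsLocalRing.of_unique_max_ideal
    obtain ⟨M, hM⟩ := Ideal.exists_maximal R
    refine ⟨M, hM, fun M' hM' => ?_⟩
    have e1 := max_eq ha hb hc hd h1 h3 hR M
    have e2 := @max_eq P R _ _ _ _ ω θ _ _ a b c d ha hb hc hd h1 h3 hR M' hM'
    rw [e1, e2]
  refine ⟨hloc, ?_⟩
  have hn : maximalIdeal R = nn P ω θ := max_eq ha hb hc hd h1 h3 hR (maximalIdeal R)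
  rw [hn, pow_one, show nn P ω θ ^ (1 + 1) = nn P ω θ * nn P ω θ from by
    rw [show (1 + 1 : ℕ) = 2 from rfl, pow_two]]
  exact le_antisymm (sq_le ha hb hc hd h1 h2 h3) (Ideal.mul_mono_left map_le)

end Pool.Agent.H867.FT.EXLc
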