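import Pool.Agent.H867.FT.Gen3

/-!
# Statements, part 5: the extremal example `F = X_0 T³ + X_1 T + X_2` over `k[[X_0, …, X_{m+2}]]`.
-/

namespace Pool.Agent.H867.FT

/-- **EXK.** The polynomial `X_0 T³ + X_1 T + X_2` is irreducible and separable over
`L = Frac k[[X_0..X_{m+2}]]`.
Proof. `P = k[[X]]` is a UFD? If not available: it is integrally closed, and a rational root `x = u/v`
... use the valuations of the primes `(X_0)`, `(X_2)` (`P/(X_i)` is a domain): a root `x` in `L` has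
`v_{X_0}(x) ≥ 0` or `= -1/2 …` (Newton polygon), so `v_{X_0}(x) = 0` or `x` has... Alternatively:
`F` is irreducible in `k[[X_0, X_1, X_3..]][T][[X_2]]`, being of the form `X_2 + g`. Any proof will do:
a cubic without root in `L` is irreducible; if `x` is a root, `X_0 x` is integral over `P` (normal), so
`y = X_0 x ∈ P` and `y³ + X_0 X_1 y + X_0² X_2 = 0`; so `X_0 ∣ y³`, `y = X_0 z` (`X_0` is prime), and
`X_0 z³ + X_1 z + X_2 = 0` with `z ∈ P`; look at the linear parts modulo `𝔪²`: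
`z₀ X_1 + X_2 + X_0 z₀³ = 0` with `z₀ ∈ k` the constant term; contradiction. Derivative `3 X_0 T² + X_1 ≠ 0`.
Take `K = AdjoinRoot`. -/
def S_EXK : Prop :=
  ∀ (k : Type) [Field k] (m : ℕ) (L : Type) [Field L] [Algebra (MvPowerSeries (Fin (m + 3)) k) L]
    [IsFractionRing (MvPowerSeries (Fin (m + 3)) k) L],
    ∃ (K : Type) (_ : Field K) (_ : Algebra L K) (x : K), FiniteDimensional L K ∧
      Algebra.IsSeparable L K ∧ Module.finrank L K = 3 ∧
      algebraMap L K (algebraMap (MvPowerSeries (Fin (m + 3)) k) L (MvPowerSeries.X 0)) * x ^ 3 +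
        algebraMap L K (algebraMap (MvPowerSeries (Fin (m + 3)) k) L (MvPowerSeries.X 1)) * x +
        algebraMap L K (algebraMap (MvPowerSeries (Fin (m + 3)) k) L (MvPowerSeries.X 2)) = 0 ∧
      ∀ l₀ l₁ l₂ : L, algebraMap L K l₀ + algebraMap L K l₁ * x + algebraMap L K l₂ * x ^ 2 = 0 →
        l₀ = 0 ∧ l₁ = 0 ∧ l₂ = 0

/-- **DRV.** Let `A` be a discrete valuation ring with a derivation `D`, `f ∈ A[T]` monic and
irreducible over `Frac A`, and suppose that `D` applied to the coefficients of `f` gives a unit of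
`A` (a constant polynomial `u`). Then `A[T]/(f)` is integrally closed.
Proof. Let `M ∋ f` be a maximal ideal of `A[T]` (it contains `π`), `M = (π, g)`. If `f ∈ M²` then
applying `D` coefficientwise, `u ∈ M`, a contradiction. So `f = α π + β g` with `α ∉ M` or `β ∉ M`, and the
maximal ideal of the localization of `B = A[T]/(f)` at `M` is principal, so this local domain of
dimension one is a discrete valuation ring. `B` is the intersection of these. (`B` a Noetherian domain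
all of whose localizations at maximal ideals are integrally closed:
`IsIntegrallyClosed.of_localization_maximal`.) -/
def S_DRV : Prop :=
  ∀ (A F E : Type) [CommRing A] [IsDomain A] [IsDiscreteValuationRing A] [Field F] [Algebra A F]
    [IsFractionRing A F] [Field E] [Algebra F E] [Algebra A E] [IsScalarTower A F E]
    (D : Derivation ℤ A A) (f : Polynomial A) (u : A) (x : E), f.Monic → IsUnit u →
    (∀ i, D (f.coeff i) = if i = 0 then u else 0) → Polynomial.aeval x f = 0 →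
    (∀ g : Polynomial F, Polynomial.aeval x g = 0 → g.natDegree < f.natDegree → g = 0) →
    ∀ y : E, y ∈ Algebra.adjoin F {x} → IsIntegral A y → y ∈ Algebra.adjoin A {x}

/-- **EXN.** Normality of the example.
Proof. (`S_DRV`, `S_KRU`.) Let `y` be integral over `P`, `y = l₀ + l₁ ω + l₂ θ` with `l_i ∈ L`
(`ω = X_0 x`, `θ = X_0 x² + X_1`). By `S_KRU` it suffices that `l_i ∈ P_𝔭` for every height one prime
`𝔭`. `A = P_𝔭` is a discrete valuation ring (`isDVR` in `Pool.Agent.H307.FT867LOB`) and the derivations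
`∂/∂X_i` of `P` extend to `A`. If `X_0 ∉ 𝔭`: `f = T³ + (X_1/X_0) T + X_2/X_0`, `D = ∂/∂X_2`, `u = 1/X_0`;
`y ∈ A[x] = A + A ω + A θ`. If `X_0 ∈ 𝔭` then `𝔭 = (X_0)` and `X_2 ∉ 𝔭`: `1/x` is a root of
`f = T³ + (X_1/X_2) T² + X_0/X_2`, `D = ∂/∂X_0`, `u = 1/X_2`; `A[1/x] = A + A ω + A θ` since
`1/x = -θ/X_2`, and `1/x² = -(X_1/X_2)(1/x)... `: `X_2/x² + X_1/x + X_0 x = 0`, i.e. `1/x²` is in
`A ω + A θ`. -/
def S_EXN : Prop :=
  ∀ (k : Type) [Field k] (m : ℕ) (L K : Type) [Field L]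
    [Algebra (MvPowerSeries (Fin (m + 3)) k) L]
    [IsFractionRing (MvPowerSeries (Fin (m + 3)) k) L] [Field K] [Algebra L K]
    [Algebra (MvPowerSeries (Fin (m + 3)) k) K]
    [IsScalarTower (MvPowerSeries (Fin (m + 3)) k) L K] [FiniteDimensional L K]
    [Algebra.IsSeparable L K] (x : K), Module.finrank L K = 3 →
    algebraMap (MvPowerSeries (Fin (m + 3)) k) K (MvPowerSeries.X 0) * x ^ 3 +
        algebraMap (MvPowerSeries (Fin (m + 3)) k) K (MvPowerSeries.X 1) * x +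
        algebraMap (MvPowerSeries (Fin (m + 3)) k) K (MvPowerSeries.X 2) = 0 →
    (∀ l₀ l₁ l₂ : L, algebraMap L K l₀ + algebraMap L K l₁ * x + algebraMap L K l₂ * x ^ 2 = 0 →
        l₀ = 0 ∧ l₁ = 0 ∧ l₂ = 0) →
    ∀ y : K, IsIntegral (MvPowerSeries (Fin (m + 3)) k) y →
      ∃ g₀ g₁ g₂ : MvPowerSeries (Fin (m + 3)) k,
        y = algebraMap (MvPowerSeries (Fin (m + 3)) k) K g₀ +
          algebraMap (MvPowerSeries (Fin (m + 3)) k) K g₁ *
            (algebraMap (MvPowerSeries (Fin (m + 3)) k) K (MvPowerSeries.X 0) * x) +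
          algebraMap (MvPowerSeries (Fin (m + 3)) k) K g₂ *
            (algebraMap (MvPowerSeries (Fin (m + 3)) k) K (MvPowerSeries.X 0) * x ^ 2 +
              algebraMap (MvPowerSeries (Fin (m + 3)) k) K (MvPowerSeries.X 1))

/-- **EXL.** A cubic ring with all coefficients in `𝔪_P` is local, with `𝔪_R² = 𝔪_P 𝔪_R`.
Proof. `ω² = -a c - b ω + a θ`, `ω θ = -a d`, `θ² = -b d - d ω + c θ`. Every maximal ideal of `R` contains
`𝔪_P R` (`R` is integral over `P`), so `ω, θ`, so it contains `𝔫 = 𝔪_P R + (ω, θ)`, and `R/𝔫` is a quotient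
of `P/𝔪_P`. So `𝔪_R = 𝔫`, and the products `ω², ωθ, θ²` are in `𝔪_P 𝔫`. -/
def S_EXL : Prop :=
  ∀ (P R K : Type) [CommRing P] [IsDomain P] [IsLocalRing P] [CommRing R] [IsDomain R]
    [Algebra P R] [Module.Finite P R] [FaithfulSMul P R] [Field K] [Algebra R K]
    [IsFractionRing R K] [Algebra P K] [IsScalarTower P R K] (a b c d : P) (x : K) (ω θ : R),
    a ∈ IsLocalRing.maximalIdeal P → b ∈ IsLocalRing.maximalIdeal P →
    c ∈ IsLocalRing.maximalIdeal P → d ∈ IsLocalRing.maximalIdeal P →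
    algebraMap P K a * x ^ 3 + algebraMap P K b * x ^ 2 + algebraMap P K c * x +
        algebraMap P K d = 0 →
    algebraMap R K ω = algebraMap P K a * x →
    algebraMap R K θ = algebraMap P K a * x ^ 2 + algebraMap P K b * x + algebraMap P K c →
    (∀ r : R, ∃ r₀ r₁ r₂ : P, r = algebraMap P R r₀ + r₁ • ω + r₂ • θ) →
    ∃ _ : IsLocalRing R, IsLocalRing.maximalIdeal R ^ (1 + 1) =
      (IsLocalRing.maximalIdeal P).map (algebraMap P R) * IsLocalRing.maximalIdeal R ^ 1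

/-- **ECD.** The codifferent of a cubic ring, with explicit `y₀ = 1 / F'(x)`.
Proof. Euler's formula: `Tr(x^i / F'(x)) = 0, 0, 1/a` for `i = 0, 1, 2`; so the matrix of traces of
products of `y₀, y₀ x, y₀ θ` with `1, ω, θ` is unimodular. (See `Pool.Agent.H597.FT867CUB`, where this is
the last part of the proof of `S_CUB`.) -/
def S_ECD : Prop :=
  ∀ (P R L K : Type) [CommRing P] [IsDomain P] [CommRing R] [IsDomain R]
    [Algebra P R] [Field L] [Algebra P L] [IsFractionRing P L]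
    [Field K] [Algebra R K] [IsFractionRing R K] [Algebra P K] [IsScalarTower P R K]
    [Algebra L K] [IsScalarTower P L K] [FiniteDimensional L K]
    [Algebra.IsSeparable L K] (a b c d : P) (x : K) (ω θ : R), a ≠ 0 →
    Module.finrank L K = 3 →
    algebraMap P K a * x ^ 3 + algebraMap P K b * x ^ 2 + algebraMap P K c * x +
        algebraMap P K d = 0 →
    algebraMap R K ω = algebraMap P K a * x →
    algebraMap R K θ = algebraMap P K a * x ^ 2 + algebraMap P K b * x + algebraMap P K c →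
    (∀ r : R, ∃ r₀ r₁ r₂ : P, r = algebraMap P R r₀ + r₁ • ω + r₂ • θ) →
    (∀ l₀ l₁ l₂ : L, algebraMap L K l₀ + algebraMap L K l₁ * x + algebraMap L K l₂ * x ^ 2 = 0 →
        l₀ = 0 ∧ l₁ = 0 ∧ l₂ = 0) →
    ∃ (C : Submodule R K) (y₀ : K),
      (3 * algebraMap P K a * x ^ 2 + 2 * algebraMap P K b * x + algebraMap P K c) * y₀ = 1 ∧
      IsCub L C a b c d x y₀ ω θ ∧
      (∀ y : K, y ∈ C ↔
        ∀ r : R, ∃ g : P, algebraMap P L g = Algebra.trace L K (y * algebraMap R K r)) ∧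
      Algebra.trace L K y₀ = 0 ∧ Algebra.trace L K (y₀ * x) = 0 ∧
      algebraMap P L a * Algebra.trace L K (y₀ * x ^ 2) = 1

/-- **EXF.** The splitting in the example.
Proof. `q = p^e`, `n = q - 1`, `a = X_0`, `c = X_1`, `d = X_2`, `u = ∏_{i ≥ 3} X_i^n`,
`f = a^{⌊n/2⌋} d^n u`, `β = a^{⌈n/2⌉} / y₀^n`, `T` the generator of `S_PSC` (`T` extracts the
exponents `≡ q-1 mod q`; in particular `T(X^s) = 0` unless all `s_i ≡ q-1 mod q`,
`T(∏ X_i^{q-1}) = 1`; construct it as in `Pool.Agent.H261.FT867PSC`).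
(1) `β C^{[q]} ⊆ C`: `β y₀^q = a^{⌈n/2⌉} y₀`, and `a^{⌈n/2⌉} x^q ∈ R + R x` since `a x² = θ - c ∈ R`
(`q` odd: `(a x²)^{n/2} x`; `q` even: `(a x²)^{q/2}`), `θ^q ∈ R`.
(2) So for `r ∈ R` the map `C → P`, `y ↦ T(Tr(β y^q r))` is `P`-linear, hence of the form
`y ↦ Tr(y φ(r))` with a unique `φ(r) ∈ R` (`R` is the trace dual of `C`, as `C` is that of the free
`P`-module `R`); `φ` is additive and `φ(s^q r) = s φ(r)` (by uniqueness).
(3) `φ(f) = 1`: to check `T(Tr(β y^q f)) = Tr(y)` for `y = y₀ v`, `v = 1, x, θ` (then for all of `C` by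
linearity), i.e. `T(a^n d^n u Tr(y₀ v^q)) = Tr(y₀ v) = 0, 0, 1`.
`v = 1`: `Tr(y₀) = 0`. `v = x`: with `s_i = Tr(y₀ x^i)`, `s_0 = s_1 = 0`, `a s_2 = 1`,
`a s_{i+3} + c s_{i+1} + d s_i = 0`, by induction `a^{i-1} s_i` (`i ≥ 2`) is a polynomial in `a, c, d`
all of whose monomials have `a`-exponent `≤ i - 2`; so `a^n s_q = a^{q-1} s_q` has `a`-exponents
`≤ q - 2` and `T` kills it. `v = θ`: `r_i = Tr(y₀ θ^i)`; `θ² = c θ - a d x`, `θ x = -d`, so `θ³ = c θ² + a d²`;
`r_0 = 0`, `r_1 = 1`, `r_2 = c`, `r_{i+3} = c r_{i+2} + a d² r_i`; so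
`r_q = c^{q-1} + (terms divisible by a)`, all with `a`-exponents `≤ (q-1)/3`, and
`T(a^n d^n u r_q) = T(a^n c^n d^n u) = 1` since the other monomials have `a`-exponent in
`[q, 2q-2]`, not `≡ q-1`. -/
def S_EXF : Prop :=
  ∀ (p : ℕ) [Fact p.Prime] (k : Type) [Field k] [CharP k p] [PerfectRing k p] (m e : ℕ)
    (R L K : Type) [CommRing R] [IsDomain R] [Algebra (MvPowerSeries (Fin (m + 3)) k) R]
    [Module.Finite (MvPowerSeries (Fin (m + 3)) k) R]
    [Module.Free (MvPowerSeries (Fin (m + 3)) k) R] [Field L]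
    [Algebra (MvPowerSeries (Fin (m + 3)) k) L]
    [IsFractionRing (MvPowerSeries (Fin (m + 3)) k) L] [Field K] [Algebra R K]
    [IsFractionRing R K] [Algebra (MvPowerSeries (Fin (m + 3)) k) K]
    [IsScalarTower (MvPowerSeries (Fin (m + 3)) k) R K] [Algebra L K]
    [IsScalarTower (MvPowerSeries (Fin (m + 3)) k) L K] [FiniteDimensional L K]
    [Algebra.IsSeparable L K] (C : Submodule R K) (x y₀ : K) (ω θ : R),
    IsCub L C (MvPowerSeries.X 0 : MvPowerSeries (Fin (m + 3)) k) 0 (MvPowerSeries.X 1)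
      (MvPowerSeries.X 2) x y₀ ω θ →
    (∀ y : K, y ∈ C ↔ ∀ r : R, ∃ g : MvPowerSeries (Fin (m + 3)) k,
      algebraMap (MvPowerSeries (Fin (m + 3)) k) L g =
        Algebra.trace L K (y * algebraMap R K r)) →
    Algebra.trace L K y₀ = 0 → Algebra.trace L K (y₀ * x) = 0 →
    algebraMap (MvPowerSeries (Fin (m + 3)) k) L (MvPowerSeries.X 0) *
      Algebra.trace L K (y₀ * x ^ 2) = 1 →
    FSplits R (p ^ e) (algebraMap (MvPowerSeries (Fin (m + 3)) k) R
      (MvPowerSeries.X 0 ^ ((p ^ e - 1) / 2) * MvPowerSeries.X 2 ^ (p ^ e - 1) *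
        ∏ i : Fin m, MvPowerSeries.X (i.addNat 3) ^ (p ^ e - 1)))

/-- **EXT.** The canonical class of the example is not torsion.
Proof. (`S_REF`, `S_POW`, `S_DIF`/`S_KRU` are available: `Pool.Agent.H127.FT867REF`,
`Pool.Agent.H975.FT867POW`, `Pool.Agent.H155.FT867DIF`, `Pool.Agent.H738.FT867KRU`.) Suppose
`1/(1/C^n) = t R`, `n ≥ 1`. Then `1/C^n = t⁻¹ R`, and if `z C^{3n} ⊆ R` then `z C^{2n} ⊆ 1/C^n = t⁻¹ R`, so
`z t C^{2n} ⊆ R`, ..., `z t³ ∈ R`: `1/C^{3n} = t⁻³ R`, with `N = 3n ≥ 3`, `s = t³`, `C^N ⊆ s R`.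
Claim `s R ⊆ C^N`: let `y ∈ s R`; at a height one prime `𝔭` of `P`, `R_𝔭` is a PID and
`C_𝔭 = c R_𝔭` (see the proof of `S_LOB`), so `1/C^N ⊇ …`: `(1/C^N)_𝔭 = c^{-N} R_𝔭` (`C` is finitely
generated) and `s⁻¹ ∈ 1/C^N` shows `y ∈ s R_𝔭`, `s R_𝔭 = c^N R_𝔭 = (C^N)_𝔭`. By `S_POW`, `S_REF`
(with `cc = (X_0, X_1, X_2)`, a regular sequence) `y ∈ C^N`. So `C^N = s R`, and `M_N = y₀^{-N} C^N` is generated
by three elements as a `P`-module. But `∑_{i ≤ N} p_i x^i = 0`, `p_i ∈ P` implies `p_i ∈ 𝔪_P`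
(the polynomial is divisible by `F` over `L`, so over `P` as in the proof of `S_REF`), so `M_N / 𝔪_P M_N`
has dimension `N + 1 ≥ 4` over `P/𝔪_P`. Contradiction. -/
def S_EXT2 : Prop :=
  ∀ (k : Type) [Field k] [Infinite k] (m : ℕ)
    (R L K : Type) [CommRing R] [IsDomain R] [IsIntegrallyClosed R]
    [Algebra (MvPowerSeries (Fin (m + 3)) k) R]
    [Module.Finite (MvPowerSeries (Fin (m + 3)) k) R]
    [Module.Free (MvPowerSeries (Fin (m + 3)) k) R] [Field L]
    [Algebra (MvPowerSeries (Fin (m + 3)) k) L]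
    [IsFractionRing (MvPowerSeries (Fin (m + 3)) k) L] [Field K] [Algebra R K]
    [IsFractionRing R K] [Algebra (MvPowerSeries (Fin (m + 3)) k) K]
    [IsScalarTower (MvPowerSeries (Fin (m + 3)) k) R K] [Algebra L K]
    [IsScalarTower (MvPowerSeries (Fin (m + 3)) k) L K] [FiniteDimensional L K]
    [Algebra.IsSeparable L K] (C : Submodule R K) (x y₀ : K) (ω θ : R),
    IsNoetherianRing (MvPowerSeries (Fin (m + 3)) k) →
    IsIntegrallyClosed (MvPowerSeries (Fin (m + 3)) k) →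
    IsCub L C (MvPowerSeries.X 0 : MvPowerSeries (Fin (m + 3)) k) 0 (MvPowerSeries.X 1)
      (MvPowerSeries.X 2) x y₀ ω θ →
    (∀ y : K, y ∈ C ↔ ∀ r : R, ∃ g : MvPowerSeries (Fin (m + 3)) k,
      algebraMap (MvPowerSeries (Fin (m + 3)) k) L g =
        Algebra.trace L K (y * algebraMap R K r)) →
    ∀ (n : ℕ) (t : K), 1 ≤ n → 1 / (1 / C ^ n) ≠ Submodule.span R {t}

/-- **UNI.** Canonical fractional ideals are unique up to multiplication by `λ ∈ K^×`, so being torsion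
does not depend on the choice.
Proof. `e₂⁻¹ ∘ e₁ : C → C'` is an additive bijection commuting with `R` (compare `(e (r y))(s) = e y (r s)`),
so it is multiplication by some `λ ∈ K`, `λ ≠ 0` (`C ≠ 0` as `Hom_P(R, P) ≠ 0`: hypothesis `C ≠ ⊥`).
`1/(1/(λ C)^n) = λ^n (1/(1/C^n))`. -/
def S_UNI : Prop :=
  ∀ (P R K : Type) [CommRing P] [CommRing R] [IsDomain R] [Algebra P R] [Field K]
    [Algebra R K] [IsFractionRing R K] (C C' : Submodule R K), C ≠ ⊥ →
    IsCanonical P C → IsCanonical P C' → ∀ n : ℕ,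
    (∃ t : K, 1 / (1 / C' ^ n) = Submodule.span R {t}) →
    ∃ t : K, 1 / (1 / C ^ n) = Submodule.span R {t}

end Pool.Agent.H867.FT
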