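import Pool.Agent.H867.FT.Lim
import Pool.Agent.H867.FT.Gen4
import Pool.Agent.H867.FT.EXLc
import Pool.Agent.H261.FT867ECD
import Pool.Agent.H387.FT867EXK
import Pool.Agent.H729.FT867DRV
import Pool.Agent.H695.FT867EXN
import Pool.Agent.H400.FT867EXF
import Pool.Agent.H706.FT867EXT2

/-!
# Assembly, part 11: the extremal example.
-/

namespace Pool.Agent.H867.FT

open Module

set_option linter.unusedSectionVars false

section cubic_ring

variable {P L K : Type} [CommRing P] [IsDomain P] [IsLocalRing P] [IsNoetherianRing P]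
    [IsIntegrallyClosed P] [Field L] [Algebra P L] [IsFractionRing P L]
    [Field K] [Algebra P K] [Algebra L K] [IsScalarTower P L K] [FiniteDimensional L K]
    [Algebra.IsSeparable L K]

theorem cubic_ring {a b c d : P} {x : K} (ha0 : a ≠ 0)
    (ha : a ∈ IsLocalRing.maximalIdeal P) (hb : b ∈ IsLocalRing.maximalIdeal P)
    (hc : c ∈ IsLocalRing.maximalIdeal P) (hd : d ∈ IsLocalRing.maximalIdeal P)
    (hfin : Module.finrank L K = 3)
    (hroot : algebraMap P K a * x ^ 3 + algebraMap P K b * x ^ 2 + algebraMap P K c * x +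
        algebraMap P K d = 0)
    (hind : ∀ l₀ l₁ l₂ : L, algebraMap L K l₀ + algebraMap L K l₁ * x +
      algebraMap L K l₂ * x ^ 2 = 0 → l₀ = 0 ∧ l₁ = 0 ∧ l₂ = 0)
    (hnorm : ∀ y : K, IsIntegral P y → ∃ g₀ g₁ g₂ : P,
        y = algebraMap P K g₀ + algebraMap P K g₁ * (algebraMap P K a * x) +
          algebraMap P K g₂ * (algebraMap P K a * x ^ 2 + algebraMap P K b * x +
            algebraMap P K c)) :
    ∃ (R : Type) (_ : CommRing R) (_ : IsDomain R) (_ : IsLocalRing R) (_ : IsIntegrallyClosed R)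
      (_ : Algebra P R) (_ : Module.Finite P R) (_ : Module.Free P R) (_ : FaithfulSMul P R)
      (_ : Algebra R K) (_ : IsFractionRing R K) (_ : IsScalarTower P R K)
      (C : Submodule R K) (y₀ : K) (ω θ : R), IsCub L C a b c d x y₀ ω θ ∧
      (∀ y : K, y ∈ C ↔
        ∀ r : R, ∃ g : P, algebraMap P L g = Algebra.trace L K (y * algebraMap R K r)) ∧
      (∃ r : ℕ, IsLocalRing.maximalIdeal R ^ (r + 1) =
        (IsLocalRing.maximalIdeal P).map (algebraMap P R) * IsLocalRing.maximalIdeal R ^ r) ∧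
      Algebra.trace L K y₀ = 0 ∧ Algebra.trace L K (y₀ * x) = 0 ∧
      algebraMap P L a * Algebra.trace L K (y₀ * x ^ 2) = 1 := by
  have hPL : Function.Injective (algebraMap P L) := IsFractionRing.injective P L
  have hPK : Function.Injective (algebraMap P K) := by
    rw [IsScalarTower.algebraMap_eq P L K]
    exact (algebraMap L K).injective.comp hPL
  have hPKf : FaithfulSMul P K := (faithfulSMul_iff_algebraMap_injective P K).2 hPK
  -- the ring
  have hx0 : x ≠ 0 := by
    rintro rfl
    have := (hind 0 1 0 (by simp)).2.1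
    exact one_ne_zero this
  set w : K := algebraMap P K a * x with hw
  set t : K := algebraMap P K a * x ^ 2 + algebraMap P K b * x + algebraMap P K c with ht
  have hwi : IsIntegral P w := by
    refine ⟨Polynomial.X ^ 3 + Polynomial.C b * Polynomial.X ^ 2 +
      Polynomial.C (a * c) * Polynomial.X + Polynomial.C (a ^ 2 * d), ?_, ?_⟩
    · monicity!
    · simp only [Polynomial.eval₂_add, Polynomial.eval₂_mul, Polynomial.eval₂_pow,
        Polynomial.eval₂_X, Polynomial.eval₂_C, map_mul, map_pow]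
      rw [hw]
      linear_combination (algebraMap P K a) ^ 2 * hroot
  have htx : t * x = - algebraMap P K d := by
    rw [ht]; linear_combination hroot
  have hti : IsIntegral P t := by
    refine ⟨Polynomial.X ^ 3 + Polynomial.C (-c) * Polynomial.X ^ 2 +
      Polynomial.C (b * d) * Polynomial.X + Polynomial.C (-(a * d ^ 2)), ?_, ?_⟩
    · monicity!
    · simp only [Polynomial.eval₂_add, Polynomial.eval₂_mul, Polynomial.eval₂_pow,
        Polynomial.eval₂_X, Polynomial.eval₂_C, Polynomial.eval₂_neg, map_mul, map_pow, map_neg]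
      have h1 : t * t = - algebraMap P K b * algebraMap P K d - algebraMap P K a * algebraMap P K d * x
          + algebraMap P K c * t := by
        have : t * t = (algebraMap P K a * x) * (t * x) + algebraMap P K b * (t * x) +
            algebraMap P K c * t := by
          nth_rewrite 1 [ht]; ring
        rw [this, htx]; ring
      have h2 : t ^ 3 = - algebraMap P K b * algebraMap P K d * t -
          algebraMap P K a * algebraMap P K d * (t * x) + algebraMap P K c * t ^ 2 := by
        have : t ^ 3 = t * (t * t) := by ring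
        rw [this, h1]; ring
      rw [h2, htx]; ring
  set R := integralClosure P K with hR
  have i1 : Module.Finite P R := IsIntegralClosure.finite P L K R
  have i2 : IsIntegrallyClosed R := integralClosure.isIntegrallyClosedOfFiniteExtension L
  have i3 : IsFractionRing R K := integralClosure.isFractionRing_of_finite_extension L K
  have i4 : FaithfulSMul P R := by
    rw [faithfulSMul_iff_algebraMap_injective]
    have h : (algebraMap R K).comp (algebraMap P R) = algebraMap P K :=
      (IsScalarTower.algebraMap_eq P R K).symm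
    exact Function.Injective.of_comp (f := algebraMap R K) (by
      rw [← RingHom.coe_comp, h]; exact hPK)
  let ω : R := ⟨w, hwi⟩
  let θ : R := ⟨t, hti⟩
  have hωK : algebraMap R K ω = algebraMap P K a * x := rfl
  have hθK : algebraMap R K θ = algebraMap P K a * x ^ 2 + algebraMap P K b * x +
    algebraMap P K c := rfl
  have hinjR : Function.Injective (algebraMap R K) := IsFractionRing.injective R K
  have hcomb : ∀ g₀ g₁ g₂ : P, algebraMap R K (algebraMap P R g₀ + g₁ • ω + g₂ • θ) =
      algebraMap P K g₀ + algebraMap P K g₁ * w + algebraMap P K g₂ * t := by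
    intro g₀ g₁ g₂
    rw [map_add, map_add, Algebra.smul_def, Algebra.smul_def, map_mul, map_mul,
      ← IsScalarTower.algebraMap_apply P R K, ← IsScalarTower.algebraMap_apply P R K,
      ← IsScalarTower.algebraMap_apply P R K]
    rfl
  have hgen : ∀ r : R, ∃ r₀ r₁ r₂ : P, r = algebraMap P R r₀ + r₁ • ω + r₂ • θ := by
    intro r
    obtain ⟨g₀, g₁, g₂, hg⟩ := hnorm (algebraMap R K r) r.2
    exact ⟨g₀, g₁, g₂, hinjR (by rw [hcomb]; exact hg)⟩
  -- freeness
  have hli : LinearIndependent P ![(1 : R), ω, θ] := by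
    rw [Fintype.linearIndependent_iff]
    intro g hg
    rw [Fin.sum_univ_three] at hg
    have h1 : algebraMap P R (g 0) + g 1 • ω + g 2 • θ = 0 := by
      rw [← hg, Algebra.algebraMap_eq_smul_one]
      rfl
    have h2 := congrArg (algebraMap R K) h1
    rw [hcomb, map_zero] at h2
    have h3 := hind (algebraMap P L (g 0 + g 2 * c)) (algebraMap P L (g 1 * a + g 2 * b))
      (algebraMap P L (g 2 * a)) (by
        rw [← IsScalarTower.algebraMap_apply P L K, ← IsScalarTower.algebraMap_apply P L K,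
          ← IsScalarTower.algebraMap_apply P L K, ← h2, hw, ht]
        simp only [map_add, map_mul]
        ring)
    obtain ⟨e0, e1, e2⟩ := h3
    have f2 : g 2 = 0 := by
      have : g 2 * a = 0 := hPL (by rw [e2, map_zero])
      exact (mul_eq_zero.1 this).resolve_right ha0
    have f1 : g 1 = 0 := by
      have : g 1 * a + g 2 * b = 0 := hPL (by rw [e1, map_zero])
      rw [f2, zero_mul, add_zero] at this
      exact (mul_eq_zero.1 this).resolve_right ha0
    have f0 : g 0 = 0 := by
      have : g 0 + g 2 * c = 0 := hPL (by rw [e0, map_zero])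
      rwa [f2, zero_mul, add_zero] at this
    intro i
    fin_cases i
    · exact f0
    · exact f1
    · exact f2
  have hsp : ⊤ ≤ Submodule.span P (Set.range ![(1 : R), ω, θ]) := by
    intro r _
    obtain ⟨r₀, r₁, r₂, hr⟩ := hgen r
    rw [hr, Algebra.algebraMap_eq_smul_one]
    refine Submodule.add_mem _ (Submodule.add_mem _ (Submodule.smul_mem _ _ ?_)
      (Submodule.smul_mem _ _ ?_)) (Submodule.smul_mem _ _ ?_)
    · exact Submodule.subset_span ⟨0, rfl⟩
    · exact Submodule.subset_span ⟨1, rfl⟩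
    · exact Submodule.subset_span ⟨2, rfl⟩
  have i5 : Module.Free P R := Module.Free.of_basis (Module.Basis.mk hli hsp)
  obtain ⟨i6, hred⟩ := EXLc.exl P R K a b c d x ω θ ha hb hc hd hroot hωK hθK
    hgen
  obtain ⟨C, y₀, -, hcub, hcod, t0, t1, t2⟩ := Pool.Agent.H261.FT867ECD.ecd P R L K a b c d x ω θ
    ha0 hfin hroot hωK hθK hgen hind
  exact ⟨R, inferInstance, inferInstance, i6, i2, inferInstance, i1, i5, i4, inferInstance, i3,
    inferInstance, C, y₀, ω, θ, hcub, hcod, ⟨1, hred⟩, t0, t1, t2⟩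

end cubic_ring

section exa

variable (p : ℕ) [Fact p.Prime] (k : Type) [Field k] [IsAlgClosed k] [CharP k p]

theorem X_mem_max (m : ℕ) (i : Fin m) : (MvPowerSeries.X i : MvPowerSeries (Fin m) k) ∈
    IsLocalRing.maximalIdeal (MvPowerSeries (Fin m) k) := by
  rw [(Pool.Agent.H707.FT867.psg k m).1]
  exact Ideal.subset_span ⟨i, rfl⟩

theorem X_ne (m : ℕ) (i : Fin m) : (MvPowerSeries.X i : MvPowerSeries (Fin m) k) ≠ 0 := by
  intro h
  have h2 := congrArg (MvPowerSeries.coeff (Finsupp.single i 1)) h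
  rw [MvPowerSeries.coeff_index_single_self_X, map_zero] at h2
  exact one_ne_zero h2

theorem exa (m : ℕ) :
    ∃ (R : Type) (_ : CommRing R) (_ : IsDomain R) (_ : IsLocalRing R) (_ : IsIntegrallyClosed R)
      (_ : CharP R p) (_ : Algebra (MvPowerSeries (Fin (m + 3)) k) R)
      (_ : Module.Finite (MvPowerSeries (Fin (m + 3)) k) R)
      (_ : FaithfulSMul (MvPowerSeries (Fin (m + 3)) k) R) (K : Type) (_ : Field K)
      (_ : Algebra R K) (_ : IsFractionRing R K) (C : Submodule R K),
      IsCanonical (MvPowerSeries (Fin (m + 3)) k) C ∧ ¬ Tors C ∧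
      ∀ e : ℕ, ∃ f ∈ IsLocalRing.maximalIdeal R ^ ((p ^ e - 1) / 2 + (m + 1) * (p ^ e - 1)),
        FSplits R (p ^ e) f := by
  have hInf : Infinite k := IsAlgClosed.instInfinite
  have hperf : PerfectField k := inferInstance
  have hpr : PerfectRing k p := PerfectField.toPerfectRing p
  have hnoe := (Pool.Agent.H719.FT867RES.res k (m + 3)).1
  have hIC : IsIntegrallyClosed (MvPowerSeries (Fin (m + 3)) k) :=
    Pool.Agent.H671.FT867PSN.psn k (m + 3)
  obtain ⟨K, j1, j2, x, j3, j4, hfin, hroot, hind⟩ :=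
    Pool.Agent.H387.FT867EXK.exk Pool.Agent.H671.FT867PSN.psn k m
      (FractionRing (MvPowerSeries (Fin (m + 3)) k))
  let _ : Algebra (MvPowerSeries (Fin (m + 3)) k) K :=
    ((algebraMap (FractionRing (MvPowerSeries (Fin (m + 3)) k)) K).comp
      (algebraMap (MvPowerSeries (Fin (m + 3)) k)
        (FractionRing (MvPowerSeries (Fin (m + 3)) k)))).toAlgebra
  have hst : IsScalarTower (MvPowerSeries (Fin (m + 3)) k)
      (FractionRing (MvPowerSeries (Fin (m + 3)) k)) K :=
    IsScalarTower.of_algebraMap_eq (fun _ => rfl)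
  have hroot1 : algebraMap (MvPowerSeries (Fin (m + 3)) k) K (MvPowerSeries.X 0) * x ^ 3 +
      algebraMap (MvPowerSeries (Fin (m + 3)) k) K (MvPowerSeries.X 1) * x +
      algebraMap (MvPowerSeries (Fin (m + 3)) k) K (MvPowerSeries.X 2) = 0 := hroot
  have hroot2 : algebraMap (MvPowerSeries (Fin (m + 3)) k) K (MvPowerSeries.X 0) * x ^ 3 +
      algebraMap (MvPowerSeries (Fin (m + 3)) k) K 0 * x ^ 2 +
      algebraMap (MvPowerSeries (Fin (m + 3)) k) K (MvPowerSeries.X 1) * x +
      algebraMap (MvPowerSeries (Fin (m + 3)) k) K (MvPowerSeries.X 2) = 0 := by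
    rw [map_zero, zero_mul, add_zero]; exact hroot1
  obtain ⟨R, k1, k2, k3, k4, k5, k6, k7, k8, k9, k10, k11, C, y₀, ω, θ, hcub, hcod, hred, t0, t1,
    t2⟩ := cubic_ring (L := FractionRing (MvPowerSeries (Fin (m + 3)) k)) (X_ne k (m + 3) 0)
      (X_mem_max k (m + 3) 0) (Ideal.zero_mem _) (X_mem_max k (m + 3) 1) (X_mem_max k (m + 3) 2)
      hfin hroot2 hind (by
        intro y hy
        obtain ⟨g₀, g₁, g₂, hg⟩ := Pool.Agent.H695.FT867EXN.exn Pool.Agent.H729.FT867DRV.drv kru k
          m (FractionRing (MvPowerSeries (Fin (m + 3)) k)) K x hfin hroot1 hind y hy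
        exact ⟨g₀, g₁, g₂, by rw [hg, map_zero, zero_mul, add_zero]⟩)
  have hchar : CharP R p := by
    have h1 : Function.Injective ((algebraMap (MvPowerSeries (Fin (m + 3)) k) R).comp
        (MvPowerSeries.C : k →+* MvPowerSeries (Fin (m + 3)) k)) := RingHom.injective _
    exact charP_of_injective_ringHom h1 p
  obtain ⟨C', hC', hcan⟩ := Pool.Agent.H588.FT867CAN.can (MvPowerSeries (Fin (m + 3)) k) R
    (FractionRing (MvPowerSeries (Fin (m + 3)) k)) K
  have hCC : C' = C := by
    ext y
    rw [hC', hcod]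
  rw [hCC] at hcan
  refine ⟨R, k1, k2, k3, k4, hchar, k5, k6, k8, K, j1, k9, k10, C, hcan, ?_, ?_⟩
  · rintro ⟨n, hn, t, ht⟩
    exact Pool.Agent.H706.FT867EXT2.ext2 k m R (FractionRing (MvPowerSeries (Fin (m + 3)) k)) K C
      x y₀ ω θ hnoe hIC hcub hcod n t hn ht
  · intro e
    refine ⟨_, ?_, Pool.Agent.H400.FT867EXF.exf p k m e R
      (FractionRing (MvPowerSeries (Fin (m + 3)) k)) K C x y₀ ω θ hcub hcod t0 t1 t2⟩
    have hle : (IsLocalRing.maximalIdeal (MvPowerSeries (Fin (m + 3)) k)).map
        (algebraMap (MvPowerSeries (Fin (m + 3)) k) R) ≤ IsLocalRing.maximalIdeal R := by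
      rw [Ideal.map_le_iff_le_comap]
      intro g hg
      rw [Ideal.mem_comap, IsLocalRing.mem_maximalIdeal]
      rw [IsLocalRing.mem_maximalIdeal] at hg
      exact fun h => hg (isUnit_of_map_unit (algebraMap (MvPowerSeries (Fin (m + 3)) k) R) g h)
    have hmem : MvPowerSeries.X 0 ^ ((p ^ e - 1) / 2) * MvPowerSeries.X 2 ^ (p ^ e - 1) *
        ∏ i : Fin m, MvPowerSeries.X (i.addNat 3) ^ (p ^ e - 1) ∈
        IsLocalRing.maximalIdeal (MvPowerSeries (Fin (m + 3)) k) ^
          ((p ^ e - 1) / 2 + (m + 1) * (p ^ e - 1)) := by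
      have h1 : ∏ i : Fin m, (MvPowerSeries.X (i.addNat 3) : MvPowerSeries (Fin (m + 3)) k) ^
          (p ^ e - 1) ∈ IsLocalRing.maximalIdeal (MvPowerSeries (Fin (m + 3)) k) ^
          (m * (p ^ e - 1)) := by
        have h0 := Ideal.prod_mem_prod (s := Finset.univ) (I := fun _ : Fin m =>
          IsLocalRing.maximalIdeal (MvPowerSeries (Fin (m + 3)) k) ^ (p ^ e - 1))
          (x := fun i : Fin m => (MvPowerSeries.X (i.addNat 3) :
            MvPowerSeries (Fin (m + 3)) k) ^ (p ^ e - 1))
          (fun i _ => Ideal.pow_mem_pow (X_mem_max k (m + 3) (i.addNat 3)) (p ^ e - 1))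
        rw [Finset.prod_const, Finset.card_univ, Fintype.card_fin, ← pow_mul, mul_comm] at h0
        exact h0
      have h2 := Ideal.mul_mem_mul (Ideal.mul_mem_mul
        (Ideal.pow_mem_pow (X_mem_max k (m + 3) 0) ((p ^ e - 1) / 2))
        (Ideal.pow_mem_pow (X_mem_max k (m + 3) 2) (p ^ e - 1))) h1
      rw [← pow_add, ← pow_add] at h2
      have h3 : (p ^ e - 1) / 2 + (p ^ e - 1) + m * (p ^ e - 1) =
          (p ^ e - 1) / 2 + (m + 1) * (p ^ e - 1) := by ring
      rwa [h3] at h2
    have h4 := Ideal.mem_map_of_mem (algebraMap (MvPowerSeries (Fin (m + 3)) k) R) hmem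
    rw [Ideal.map_pow] at h4
    exact Ideal.pow_right_mono hle _ h4

end exa

end Pool.Agent.H867.FT
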