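import Pool.Agent.H867.FT.Cls
import Pool.Agent.H867.FT.Exa
import Pool.Agent.H695.FT867CPL

/-!
# The example is in the class.
-/

namespace Pool.Agent.H867.FT

open Module

theorem isCompletion_id {R : Type} [CommRing R] [IsLocalRing R]
    (h : IsAdicComplete (IsLocalRing.maximalIdeal R) R) : IsCompletion (RingHom.id R) where
  complete := h
  dense := fun n s => ⟨s, by rw [RingHom.id_apply, sub_self]; exact Ideal.zero_mem _⟩
  mem_iff := fun n r => Iff.rfl

theorem fsplits_one {R : Type} [CommRing R] {q : ℕ} {f : R} (h : FSplits R q f) :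
    FSplits R q 1 := by
  obtain ⟨φ, h1, h2⟩ := h
  refine ⟨φ.comp (AddMonoidHom.mulLeft f), ?_, ?_⟩
  · intro r s
    simp only [AddMonoidHom.comp_apply, AddMonoidHom.coe_mulLeft]
    rw [← h1]
    congr 1
    ring
  · simp only [AddMonoidHom.comp_apply, AddMonoidHom.coe_mulLeft, mul_one]
    exact h2

theorem exa_arith {p : ℕ} (hp : 2 ≤ p) (m : ℕ) {t : ℝ} (ht0 : 0 ≤ t)
    (ht : t < ((m + 3 : ℕ) : ℝ) - 3 / 2) :
    ∃ e₀ : ℕ, ∀ e : ℕ, e₀ ≤ e →
      ⌈t * ((p : ℝ) ^ e - 1)⌉₊ ≤ (p ^ e - 1) / 2 + (m + 1) * (p ^ e - 1) := by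
  set δ : ℝ := ((m + 3 : ℕ) : ℝ) - 3 / 2 - t with hδ
  have hδ0 : 0 < δ := by rw [hδ]; linarith
  obtain ⟨e₀, he₀⟩ := exists_nat_gt (1 / δ + 1)
  refine ⟨e₀, fun e he => ?_⟩
  have hpe : e < p ^ e := Nat.lt_pow_self (by omega)
  have h1 : (1 : ℝ) / δ + 1 < (p : ℝ) ^ e := by
    have h2 : (e : ℝ) < ((p ^ e : ℕ) : ℝ) := by exact_mod_cast hpe
    rw [Nat.cast_pow] at h2
    have h3 : (e₀ : ℝ) ≤ (e : ℝ) := by exact_mod_cast he
    linarith
  have hpos : 1 ≤ p ^ e := Nat.one_le_pow _ _ (by omega)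
  have hcast : ((p ^ e - 1 : ℕ) : ℝ) = (p : ℝ) ^ e - 1 := by
    rw [Nat.cast_sub hpos, Nat.cast_pow, Nat.cast_one]
  rw [← hcast]
  have h4 : (1 : ℝ) < δ * ((p ^ e - 1 : ℕ) : ℝ) := by
    rw [hcast]
    have : (1 : ℝ) / δ < (p : ℝ) ^ e - 1 := by linarith
    rwa [div_lt_iff₀' hδ0] at this
  generalize p ^ e - 1 = n at h4 ⊢
  rw [Nat.ceil_le]
  have h5 : (n : ℝ) ≤ 2 * ((n / 2 : ℕ) : ℝ) + 1 := by
    have : n ≤ 2 * (n / 2) + 1 := by omega
    exact_mod_cast this
  push_cast at hδ ⊢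
  have h6 : t = m + 3 - 3 / 2 - δ := by linarith
  rw [h6]
  nlinarith

theorem exaF (hPSF : S_PSF) (p : ℕ) [Fact p.Prime] (m : ℕ) :
    ∃ (R : Type) (_ : CommRing R) (_ : IsDomain R) (_ : IsLocalRing R) (_ : CharP R p),
      InClass p (m + 3) R ∧ Infinite (IsLocalRing.ResidueField R) ∧
      ∀ t : ℝ, 0 ≤ t → t < ((m + 3 : ℕ) : ℝ) - 3 / 2 →
        FPurePair R p (IsLocalRing.maximalIdeal R) t := by
  obtain ⟨R, r1, r2, r3, r4, r5, r6, r7, r8, K, q1, q2, q3, C, hC, hnt, hex⟩ :=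
    exa p (AlgebraicClosure (ZMod p)) m
  have hp2 : 2 ≤ p := (Fact.out : p.Prime).two_le
  have hnoeP : IsNoetherianRing (MvPowerSeries (Fin (m + 3)) (AlgebraicClosure (ZMod p))) :=
    (Pool.Agent.H719.FT867RES.res _ (m + 3)).1
  have hnorP : IsIntegrallyClosed (MvPowerSeries (Fin (m + 3)) (AlgebraicClosure (ZMod p))) :=
    Pool.Agent.H671.FT867PSN.psn _ (m + 3)
  have hnoe : IsNoetherianRing R :=
    IsNoetherianRing.of_finite (MvPowerSeries (Fin (m + 3)) (AlgebraicClosure (ZMod p))) R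
  have hkF : (frobenius (AlgebraicClosure (ZMod p)) p).Finite := by
    have : PerfectRing (AlgebraicClosure (ZMod p)) p := PerfectField.toPerfectRing p
    exact RingHom.Finite.of_surjective _ (PerfectRing.bijective_frobenius.2)
  have hinf : Infinite (IsLocalRing.ResidueField R) := by
    have hInf : Infinite (AlgebraicClosure (ZMod p)) := IsAlgClosed.instInfinite
    exact Infinite.of_injective (((IsLocalRing.residue R).comp
      (algebraMap (MvPowerSeries (Fin (m + 3)) (AlgebraicClosure (ZMod p))) R)).comp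
        (MvPowerSeries.C (σ := Fin (m + 3)))) (RingHom.injective _)
  have hff : (frobenius R p).Finite :=
    Pool.Agent.H803.FT867FF2.ff2.1 p (AlgebraicClosure (ZMod p)) hkF (m + 3) R
  have hcpl : IsAdicComplete (IsLocalRing.maximalIdeal R) R :=
    Pool.Agent.H695.FT867.cpl (AlgebraicClosure (ZMod p)) (m + 3) R
  let e : K ≃ₐ[R] FractionRing R := IsLocalization.algEquiv (nonZeroDivisors R) K (FractionRing R)
  have hC' := canonical_map e hC
  obtain ⟨-, hfg, -⟩ := Pool.Agent.H665.FT867CRF.crf _ R (FractionRing R) _ hC'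
  have hnt' : ¬ Tors (C.map e.toLinearMap) := by
    intro h
    have h1 := tors_map e.symm h
    have h2 : (C.map e.toLinearMap).map e.symm.toLinearMap = C := by
      rw [← Submodule.map_comp]
      have : e.symm.toLinearMap ∘ₗ e.toLinearMap = LinearMap.id := by
        ext x
        simp
      rw [this, Submodule.map_id]
    rw [h2] at h1
    exact hnt h1
  have hspan : Submodule.span R ((RingHom.id (FractionRing R)) ''
      ((C.map e.toLinearMap : Submodule R (FractionRing R)) : Set (FractionRing R))) =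
      C.map e.toLinearMap := by
    have : (RingHom.id (FractionRing R)) ''
      ((C.map e.toLinearMap : Submodule R (FractionRing R)) : Set (FractionRing R)) =
      ((C.map e.toLinearMap : Submodule R (FractionRing R)) : Set (FractionRing R)) :=
      Set.image_id _
    rw [this, Submodule.span_eq]
  have hQ : NonQG p (m + 3) R := by
    refine ⟨hnoe, r4, hff, ?_, R, r1, r2, r3, hnoe, r4, RingHom.id R, RingHom.id _,
      C.map e.toLinearMap, isCompletion_id hcpl, fun a => rfl, hfg, ?_, hnt'⟩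
    · exact Pool.Agent.H962.FT867DMS.dms (AlgebraicClosure (ZMod p)) (m + 3) R
    · rw [hspan]
      exact ⟨AlgebraicClosure (ZMod p), inferInstance, inferInstance, m + 3, r6, hkF, r7, r8, hC'⟩
  refine ⟨R, r1, r2, r3, r5, ⟨?_, hQ, Or.inl hinf⟩, hinf, ?_⟩
  · obtain ⟨f, -, hf⟩ := hex 1
    rw [pow_one] at hf
    exact fsplits_one hf
  · intro t ht0 ht
    obtain ⟨e₀, he₀⟩ := exa_arith hp2 m ht0 ht
    refine ⟨e₀, fun e he => ?_⟩
    obtain ⟨f, hf, hs⟩ := hex e
    exact ⟨f, Ideal.pow_le_pow_right (he₀ e he) hf, hs⟩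

end Pool.Agent.H867.FT
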