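import Pool.Agent.H867.FT.Gen10

/-!
# The completion of an F-finite normal local domain is a normal domain.
-/

namespace Pool.Agent.H867.FT

section int

variable {S : Type} [CommRing S]

/-- `a / b` is almost integral implies integral. -/
theorem int_eq_of_almost [IsNoetherianRing S] {a b : S} {N : ℕ} (hb : ∀ x, b * x = 0 → x = 0)
    (h : ∀ n, ∃ w, b ^ N * a ^ n = b ^ n * w) :
    ∃ (m : ℕ) (c : Fin m → S), a ^ m = ∑ i, c i * (a ^ (i : ℕ) * b ^ (m - i)) := by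
  choose w hw using h
  have hbN : ∀ (n : ℕ) (x y : S), b ^ n * x = b ^ n * y → x = y := by
    intro n
    induction n with
    | zero => intro x y h; simpa using h
    | succ n ih =>
      intro x y h
      rw [pow_succ', mul_assoc, mul_assoc, ← sub_eq_zero, ← mul_sub] at h
      have := hb _ h
      rw [sub_eq_zero] at this
      exact ih x y this
  -- the chain of ideals
  let I : ℕ →o Ideal S := ⟨fun m => Ideal.span (w '' {i | i < m}), fun m n hmn =>
    Ideal.span_mono (Set.image_mono fun i hi => lt_of_lt_of_le hi hmn)⟩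
  obtain ⟨m, hm⟩ := monotone_stabilizes_iff_noetherian.2 (inferInstance : IsNoetherianRing S) I
  have h1 : w m ∈ I m := by
    rw [hm (m + 1) (Nat.le_succ m)]
    exact Ideal.subset_span ⟨m, Nat.lt_succ_self m, rfl⟩
  have h2 : w m ∈ Ideal.span (Set.range fun i : Fin m => w i) := by
    refine Ideal.span_mono ?_ h1
    rintro y ⟨i, hi, rfl⟩
    exact ⟨⟨i, hi⟩, rfl⟩
  obtain ⟨c, hc⟩ := Ideal.mem_span_range_iff_exists_fun.1 h2
  refine ⟨m, c, ?_⟩
  apply hbN N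
  rw [hw m, ← hc, Finset.mul_sum, Finset.mul_sum]
  apply Finset.sum_congr rfl
  intro i _
  have e1 : b ^ m = b ^ (m - (i : ℕ)) * b ^ (i : ℕ) := by
    rw [← pow_add, Nat.sub_add_cancel (le_of_lt i.2)]
  rw [e1]
  have e2 := hw i
  calc b ^ (m - (i : ℕ)) * b ^ (i : ℕ) * (c i * w i)
      = c i * b ^ (m - (i : ℕ)) * (b ^ (i : ℕ) * w i) := by ring
    _ = c i * b ^ (m - (i : ℕ)) * (b ^ N * a ^ (i : ℕ)) := by rw [← e2]
    _ = b ^ N * (c i * (a ^ (i : ℕ) * b ^ (m - (i : ℕ)))) := by ring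

theorem almost_of_int_eq {a b : S} {m : ℕ} {c : Fin m → S}
    (h : a ^ m = ∑ i, c i * (a ^ (i : ℕ) * b ^ (m - i))) (n : ℕ) :
    ∃ w, b ^ m * a ^ n = b ^ n * w := by
  induction n using Nat.strong_induction_on with
  | _ n ih =>
    rcases Nat.lt_or_ge n m with hn | hn
    · refine ⟨b ^ (m - n) * a ^ n, ?_⟩
      rw [← mul_assoc, ← pow_add, Nat.add_sub_cancel' (le_of_lt hn)]
    · have hw : ∀ i : Fin m, ∃ w, b ^ m * a ^ (n - m + i) = b ^ (n - m + i) * w :=
        fun i => ih _ (by omega)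
      choose w hw using hw
      refine ⟨∑ i, c i * w i, ?_⟩
      have e1 : a ^ n = a ^ (n - m) * a ^ m := by
        rw [← pow_add, Nat.sub_add_cancel hn]
      rw [e1, h, Finset.mul_sum, Finset.mul_sum, Finset.mul_sum]
      apply Finset.sum_congr rfl
      intro i _
      have e2 : b ^ n = b ^ (m - (i : ℕ)) * b ^ (n - m + i) := by
        rw [← pow_add]; congr 1; omega
      rw [e2]
      calc b ^ m * (a ^ (n - m) * (c i * (a ^ (i : ℕ) * b ^ (m - (i : ℕ)))))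
          = c i * b ^ (m - (i : ℕ)) * (b ^ m * a ^ (n - m + i)) := by rw [pow_add]; ring
        _ = c i * b ^ (m - (i : ℕ)) * (b ^ (n - m + i) * w i) := by rw [hw]
        _ = b ^ (m - (i : ℕ)) * b ^ (n - m + i) * (c i * w i) := by ring

theorem int_eq_transfer {a b a' r : S} {m : ℕ} {c : Fin m → S}
    (hb : ∀ x, b * x = 0 → x = 0) (h : r * a = b * a')
    (he : a ^ m = ∑ i, c i * (a ^ (i : ℕ) * b ^ (m - i))) :
    a' ^ m = ∑ i, c i * (a' ^ (i : ℕ) * r ^ (m - i)) := by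
  have hbN : ∀ (n : ℕ) (x y : S), b ^ n * x = b ^ n * y → x = y := by
    intro n
    induction n with
    | zero => intro x y h; simpa using h
    | succ n ih =>
      intro x y h
      rw [pow_succ', mul_assoc, mul_assoc, ← sub_eq_zero, ← mul_sub] at h
      have := hb _ h
      rw [sub_eq_zero] at this
      exact ih x y this
  apply hbN m
  rw [← mul_pow, ← h, mul_pow, he, Finset.mul_sum, Finset.mul_sum]
  apply Finset.sum_congr rfl
  intro i _
  have e1 : r ^ m = r ^ (m - (i : ℕ)) * r ^ (i : ℕ) := by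
    rw [← pow_add, Nat.sub_add_cancel (le_of_lt i.2)]
  have e2 : b ^ m = b ^ (m - (i : ℕ)) * b ^ (i : ℕ) := by
    rw [← pow_add, Nat.sub_add_cancel (le_of_lt i.2)]
  calc r ^ m * (c i * (a ^ (i : ℕ) * b ^ (m - (i : ℕ))))
      = c i * r ^ (m - (i : ℕ)) * b ^ (m - (i : ℕ)) * (r * a) ^ (i : ℕ) := by rw [e1]; ring
    _ = b ^ m * (c i * (a' ^ (i : ℕ) * r ^ (m - (i : ℕ)))) := by rw [h, e2]; ring

end int

theorem nrc (hCXT : S_CXT) (hCXU : S_CXU) (hDUB : S_DUB) (hHTO : S_HTO) (hSTA : S_STA)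
    (hSTB : S_STB) (hRND : S_RND) (hFLT : S_FLT) (p : ℕ) [Fact p.Prime] (R S : Type) [CommRing R]
    [IsDomain R] [IsLocalRing R] [IsNoetherianRing R] [IsIntegrallyClosed R] [CharP R p]
    [CommRing S] [IsLocalRing S] [IsNoetherianRing S]
    [IsAdicComplete (IsLocalRing.maximalIdeal S) S] (ι : R →+* S)
    (hF : (frobenius R p).Finite)
    (hdense : ∀ (n : ℕ) (s : S), ∃ r : R, s - ι r ∈ IsLocalRing.maximalIdeal S ^ n)
    (hmem : ∀ (n : ℕ) (r : R),
      r ∈ IsLocalRing.maximalIdeal R ^ n ↔ ι r ∈ IsLocalRing.maximalIdeal S ^ n) :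
    IsDomain S ∧ IsIntegrallyClosed S := by
  let _ : Algebra R S := ι.toAlgebra
  have hflat : Module.Flat R S := hFLT R S hdense hmem
  have hq : ∀ e : ℕ, 1 ≤ p ^ e := fun e => Nat.one_le_pow _ _ (Fact.out : p.Prime).pos
  have hreg : ∀ r : R, r ≠ 0 → ∀ x : S, ι r * x = 0 → x = 0 := by
    intro r hr x hx
    have h1 : IsSMulRegular S r := (IsSMulRegular.of_ne_zero hr).of_flat
    apply h1
    show r • x = r • 0
    rw [smul_zero, Algebra.smul_def]
    exact hx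
  -- dual bases of `S`
  have hdual : ∀ e : ℕ, ∃ (n : ℕ) (u : Fin n → R) (φ : Fin n → R →+ R) (ψ : Fin n → S →+ S)
      (c : R), c ≠ 0 ∧ (∀ r, c ^ p ^ e * r = ∑ j, φ j r ^ p ^ e * u j) ∧
      (∀ j, IsCartier (p ^ e) (ψ j)) ∧ (∀ j r, ψ j (ι r) = ι (φ j r)) ∧
      ∀ s, ι c ^ p ^ e * s = ∑ j, ψ j s ^ p ^ e * ι (u j) := by
    intro e
    obtain ⟨n, u, φ, c, hc, hφ, hid⟩ := hDUB p e R hF
    have h1 : ∀ j, ∃ ψ : S →+ S, IsCartier (p ^ e) ψ ∧ ∀ r, ψ (ι r) = ι (φ j r) :=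
      fun j => hCXT (p ^ e) R S ι (hq e) hdense hmem (φ j) (hφ j)
    choose ψ hψ hψφ using h1
    exact ⟨n, u, φ, ψ, c, hc, hid, hψ, hψφ,
      hCXU (p ^ e) n R S ι (hq e) hdense φ ψ u c hψ hψφ hid⟩
  have hred : IsReduced S := by
    refine ⟨fun s hs => ?_⟩
    obtain ⟨n, hn⟩ := hs
    obtain ⟨n', u, φ, ψ, c, hc, hid, hψ, hψφ, -⟩ := hdual n
    have hs0 : s ^ p ^ n = 0 := by
      have : n ≤ p ^ n := le_of_lt (Nat.lt_pow_self (Fact.out : p.Prime).one_lt)
      exact pow_eq_zero_of_le this hn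
    have hex : ∃ j, φ j 1 ≠ 0 := by
      by_contra hcon
      push Not at hcon
      have h1 := hid 1
      rw [mul_one, Finset.sum_eq_zero (fun j _ => by
        rw [hcon j, zero_pow (by have := hq n; omega), zero_mul])] at h1
      exact hc (pow_eq_zero_iff (by have := hq n; omega) |>.1 h1)
    obtain ⟨j, hj⟩ := hex
    have h2 := hψ j s 1
    rw [hs0, zero_mul, map_zero, ← map_one ι, hψφ, mul_comm] at h2
    exact hreg _ hj s h2.symm
  refine hRND S ?_
  intro a b N hb hab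
  obtain ⟨r, a', hr, hra⟩ := hSTA p R S ι (fun e => by
    obtain ⟨n, u, φ, ψ, c, hc, -, hψ, -, h⟩ := hdual e
    exact ⟨n, fun j => ι (u j), ψ, c, hc, hψ, h⟩) a b N hb hab
  obtain ⟨m, c, hm⟩ := int_eq_of_almost hb hab
  have h1 := int_eq_transfer hb hra hm
  obtain ⟨z, hz⟩ := hSTB p R S (fun 𝔭 h𝔭 hht c hc => by
    obtain ⟨e, φ, hφ, hφc⟩ := hHTO p R hF 𝔭 h𝔭 hht c hc
    obtain ⟨ψ, hψ, hψφ⟩ := hCXT (p ^ e) R S ι (hq e) hdense hmem φ hφ
    exact ⟨e, φ, ψ, hφ, hψ, hψφ, hφc⟩) r a' m hr (fun n => almost_of_int_eq h1 n)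
  refine ⟨z, ?_⟩
  have h2 : ι r * (a - b * z) = 0 := by
    have h3 : a' = ι r * z := hz
    rw [mul_sub, hra, h3]
    ring
  have := hreg r hr _ h2
  rwa [sub_eq_zero] at this

end Pool.Agent.H867.FT
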