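import Pool.Agent.H867.FT.Max
import Pool.Agent.H867.FT.Nrm
import Pool.Agent.H867.FT.Gen12

/-!
# Finite residue fields; the final form of the class.
-/

namespace Pool.Agent.H867.FT

open Module Polynomial

/-- the lemmas of parts 9 - 13 -/
structure Hyps : Prop where
  noc : S_NOC
  acp : S_ACP
  rza : S_RZA
  rzb : S_RZB
  rzc : S_RZC
  gnc : S_GNC
  cek : S_CEK
  cik : S_CIK
  cil : S_CIL
  cif : S_CIF
  fbc : S_FBC
  tex : S_TEX
  kff : S_KFF
  ten : S_TEN
  cxt : S_CXT
  cxu : S_CXU
  dub : S_DUB
  hto : S_HTO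
  sta : S_STA
  stb : S_STB
  rnd : S_RND

theorem flt : S_FLT := Pool.Agent.H407.FT867FLT.flt
theorem des : S_DES := Pool.Agent.H102.FT.DES.des Pool.Agent.H124.FT867.fdv
theorem teq : S_TEQ := Pool.Agent.H97.FT867TEQ.teq
    (Pool.Agent.H349.FTDQE.dqe Pool.Agent.H738.FT867KRU.kru)
    (Pool.Agent.H295.FTDDC.ddc Pool.Agent.H738.FT867KRU.kru)
theorem psf : S_PSF := PSFc.psf
theorem qbc : S_QBC := Pool.Agent.H553.FT867QBC.qbc0
theorem cdm : S_CDM := Pool.Agent.H727.FT867CDM.cdm

theorem isCompletion_hat (H : Hyps) (A : Type) [CommRing A] [IsLocalRing A] [IsNoetherianRing A] :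
    IsCompletion (algebraMap A (AdicCompletion (IsLocalRing.maximalIdeal A) A)) where
  complete := inferInstance
  dense := (H.acp A).1
  mem_iff := (H.acp A).2

/-- The completion of an F-finite normal local domain. -/
theorem hat_normal (H : Hyps) (p : ℕ) [Fact p.Prime] (A : Type) [CommRing A] [IsDomain A]
    [IsLocalRing A] [IsNoetherianRing A] [IsIntegrallyClosed A] [CharP A p]
    (hF : (frobenius A p).Finite) :
    IsNoetherianRing (AdicCompletion (IsLocalRing.maximalIdeal A) A) ∧
    IsDomain (AdicCompletion (IsLocalRing.maximalIdeal A) A) ∧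
    IsIntegrallyClosed (AdicCompletion (IsLocalRing.maximalIdeal A) A) := by
  have hcA : CharP (IsLocalRing.ResidueField A) p := charP_res
  have hff2 := Pool.Agent.H803.FT867FF2.ff2.2 p A hF
  have h1 := H.noc p A hff2
  have h2 := nrc H.cxt H.cxu H.dub H.hto H.sta H.stb H.rnd flt p A
    (AdicCompletion (IsLocalRing.maximalIdeal A) A) (algebraMap A _) hF (H.acp A).1 (H.acp A).2
  exact ⟨h1, h2⟩

theorem exists_j {R T : Type} [CommRing R] [IsDomain R] [CommRing T] [IsDomain T] (ρ : R →+* T)
    (h : Function.Injective ρ) : ∃ j : FractionRing R →+* FractionRing T,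
      ∀ r, j (algebraMap R (FractionRing R) r) = algebraMap T (FractionRing T) (ρ r) := by
  have hinj : Function.Injective ((algebraMap T (FractionRing T)).comp ρ) :=
    (IsFractionRing.injective T (FractionRing T)).comp h
  exact ⟨IsFractionRing.lift hinj, fun r => IsFractionRing.lift_algebraMap hinj r⟩

theorem inj_of_completion {R T : Type} [CommRing R] [IsLocalRing R] [IsNoetherianRing R]
    [CommRing T] [IsLocalRing T] {ρ : R →+* T} (hρ : IsCompletion ρ) : Function.Injective ρ := by
  rw [injective_iff_map_eq_zero]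
  intro r hr
  have h1 : ∀ n, r ∈ IsLocalRing.maximalIdeal R ^ n := fun n => (hρ.mem_iff n r).2 (by
    rw [hr]; exact Ideal.zero_mem _)
  have h2 := Ideal.iInf_pow_eq_bot_of_isLocalRing (IsLocalRing.maximalIdeal R)
    (IsLocalRing.maximalIdeal.isMaximal R).ne_top
  have h3 : r ∈ (⨅ n, IsLocalRing.maximalIdeal R ^ n : Ideal R) := (Ideal.mem_iInf).2 h1
  rw [h2] at h3
  exact h3

theorem isLocalHom_of_completion {R T : Type} [CommRing R] [IsLocalRing R]
    [CommRing T] [IsLocalRing T] {ρ : R →+* T} (hρ : IsCompletion ρ) : IsLocalHom ρ :=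
  ⟨fun a ha => by
    by_contra h
    have h1 : a ∈ IsLocalRing.maximalIdeal R := (IsLocalRing.mem_maximalIdeal _).2 h
    have h2 := (hρ.mem_iff 1 a).1 (by rwa [pow_one])
    rw [pow_one] at h2
    exact (IsLocalRing.mem_maximalIdeal _).1 h2 ha⟩

theorem charP_of_hom {R T : Type} [CommRing R] [CommRing T] [Nontrivial T] {p : ℕ}
    [Fact p.Prime] [CharP R p] (ρ : R →+* T) : CharP T p := by
  have h : ((p : ℕ) : T) = 0 := by
    have := congrArg ρ (CharP.cast_eq_zero R p)
    rwa [map_natCast, map_zero] at this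
  exact (CharP.charP_iff_prime_eq_zero Fact.out).2 h

/-- residue field of the completion -/
theorem res_completion {R T : Type} [CommRing R] [IsLocalRing R]
    [CommRing T] [IsLocalRing T] {ρ : R →+* T} (hρ : IsCompletion ρ) {p : ℕ} [Fact p.Prime]
    [CharP R p] [CharP (IsLocalRing.ResidueField R) p] [CharP (IsLocalRing.ResidueField T) p]
    (hff : (frobenius (IsLocalRing.ResidueField R) p).Finite) :
    (frobenius (IsLocalRing.ResidueField T) p).Finite ∧
    (Infinite (IsLocalRing.ResidueField R) → Infinite (IsLocalRing.ResidueField T)) := by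
  have hloc : IsLocalHom ρ := isLocalHom_of_completion hρ
  set r : IsLocalRing.ResidueField R →+* IsLocalRing.ResidueField T :=
    IsLocalRing.ResidueField.map ρ with hr
  have hrs : Function.Surjective r := by
    intro y
    obtain ⟨s, rfl⟩ := IsLocalRing.residue_surjective y
    obtain ⟨a, ha⟩ := hρ.dense 1 s
    rw [pow_one] at ha
    refine ⟨IsLocalRing.residue R a, ?_⟩
    rw [hr, IsLocalRing.ResidueField.map_residue]
    have : IsLocalRing.residue T (s - ρ a) = 0 := (IsLocalRing.residue_eq_zero_iff _).2 ha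
    rw [map_sub, sub_eq_zero] at this
    exact this.symm
  constructor
  · have e1 : (frobenius (IsLocalRing.ResidueField T) p).comp r =
        r.comp (frobenius (IsLocalRing.ResidueField R) p) := by
      ext a
      simp [frobenius_def]
    have e2 : ((frobenius (IsLocalRing.ResidueField T) p).comp r).Finite := by
      rw [e1]
      exact (RingHom.Finite.of_surjective r hrs).comp hff
    exact RingHom.Finite.of_comp_finite e2
  · intro h
    exact Infinite.of_injective r r.injective

/-- The upper bound, infinite residue field, from the non-torsion of the canonical ideals of the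
completion. -/
theorem upper_core {p : ℕ} [Fact p.Prime] {d : ℕ} (hd : 2 ≤ d) {A T : Type} [CommRing A]
    [IsLocalRing A] [IsNoetherianRing A] [CharP A p] [CommRing T] [IsDomain T] [IsLocalRing T]
    [IsNoetherianRing T] [IsIntegrallyClosed T] {ρ : A →+* T} (hρ : IsCompletion ρ)
    (hF : (frobenius A p).Finite) (hinf : Infinite (IsLocalRing.ResidueField A))
    (hdim : ringKrullDim A = d)
    (hnt : ∀ C : Submodule T (FractionRing T), CanonicalIdeal p T C → ¬ Tors C)
    {t : ℝ} (ht : FPurePair A p (IsLocalRing.maximalIdeal A) t) : t ≤ (d : ℝ) - 3 / 2 := by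
  have hcomp := hρ.complete
  have hcA : CharP (IsLocalRing.ResidueField A) p := charP_res
  have hff2 := Pool.Agent.H803.FT867FF2.ff2.2 p A hF
  have hcT : CharP T p := charP_of_hom ρ
  have hcTr : CharP (IsLocalRing.ResidueField T) p := charP_res
  obtain ⟨hffT, hinfT⟩ := res_completion hρ hff2
  obtain ⟨m, rfl⟩ := Nat.exists_eq_add_of_le' hd
  have hdimT : ringKrullDim T = ((m + 2 : ℕ) : WithBot ℕ∞) := by
    rw [cdm A T ρ hρ.dense hρ.mem_iff, hdim]
  obtain ⟨c, hc⟩ := upper_pres psf qbc (hinfT hinf) hffT hdimT hnt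
  exact limit_arg hc ρ hρ ht

end Pool.Agent.H867.FT
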