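import Pool.Agent.H867.FT.Fin2

/-!
# Finite residue fields: the chain `R → R(Z) → T`.
-/

namespace Pool.Agent.H867.FT

open Module Polynomial

theorem tors_scale_iff {S K : Type} [CommRing S] [Field K] [Algebra S K] {z : K} (hz : z ≠ 0)
    (D : Submodule S K) : Tors (Submodule.span S {z} * D) ↔ Tors D := by
  constructor
  · exact tors_scale hz
  · intro h
    apply tors_scale (inv_ne_zero hz)
    rwa [← mul_assoc, Submodule.span_mul_span, Set.singleton_mul_singleton, inv_mul_cancel₀ hz,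
      ← Submodule.one_eq_span, one_mul]

/-- for a complete ring, the canonical ideal is torsion iff the ideal of Cartier maps is. -/
theorem tors_iff_CI (H : Hyps) {p : ℕ} [Fact p.Prime] {S : Type} [CommRing S] [IsDomain S]
    [IsIntegrallyClosed S] [CharP S p] {C : Submodule S (FractionRing S)}
    (hC : CanonicalIdeal p S C) {Φ : FractionRing S →+ FractionRing S} (hΦ : IsCartier p Φ)
    (hΦ0 : Φ ≠ 0) : Tors C ↔ Tors (CI S Φ) := by
  obtain ⟨k, l1, l2, n, l3, hkF, l4, l5, hcan⟩ := hC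
  have n1 : IsNoetherianRing (MvPowerSeries (Fin n) k) := (Pool.Agent.H719.FT867RES.res k n).1
  have n2 : IsIntegrallyClosed (MvPowerSeries (Fin n) k) := Pool.Agent.H671.FT867PSN.psn k n
  have hnoe : IsNoetherianRing S := IsNoetherianRing.of_finite (MvPowerSeries (Fin n) k) S
  have hFS : (frobenius S p).Finite := Pool.Agent.H803.FT867FF2.ff2.1 p k hkF n S
  obtain ⟨c1, c2, -⟩ := Pool.Agent.H665.FT867CRF.crf (MvPowerSeries (Fin n) k) S (FractionRing S)
    C hcan
  have hp : 2 ≤ p ^ 1 := by rw [pow_one]; exact (Fact.out : p.Prime).two_le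
  obtain ⟨z, hz, hD⟩ := H.cil p (MvPowerSeries (Fin n) k) S (FractionRing S) C
    (cartGen3 psf p k hkF n 1) hFS hcan Φ hΦ hΦ0
  rw [teq (p ^ 1) S (FractionRing S) C hp c1 c2, hD]
  exact tors_scale_iff hz _

/-- compatibility of the extensions to the fraction fields -/
theorem compat {p m : ℕ} [Fact p.Prime] {R T K K' : Type} [CommRing R] [IsDomain R]
    [CommRing T] [IsDomain T] [Field K] [Algebra R K] [IsFractionRing R K] [Field K']
    [Algebra T K'] [IsFractionRing T K'] (ρ : R →+* T) (j : K →+* K')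
    (hj : ∀ r : R, j (algebraMap R K r) = algebraMap T K' (ρ r))
    {φ : R →+ R} {ψ : T →+ T} {Φ : K →+ K} {Φ' : K' →+ K'} (hΦ : IsCartier p Φ)
    (hΦφ : ∀ r, Φ (algebraMap R K r) = algebraMap R K (φ r)) (hΦ' : IsCartier p Φ')
    (hΦψ : ∀ t, Φ' (algebraMap T K' t) = algebraMap T K' (ψ t)) {Z : T}
    (hψ : ∀ (r : R) (n : ℕ), n ≤ 2 * m - 2 →
      ψ (ρ r * Z ^ n) = if n = m - 1 then ρ (φ r) else 0)
    (x : K) (n : ℕ) (hn : n ≤ 2 * m - 2) :
    Φ' (j x * algebraMap T K' Z ^ n) = if n = m - 1 then j (Φ x) else 0 := by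
  obtain ⟨a, s, hs, rfl⟩ := IsFractionRing.div_surjective (A := R) x
  have hp : 1 ≤ p := (Fact.out : p.Prime).one_lt.le
  have hs0 : algebraMap R K s ≠ 0 := by
    rw [Ne, IsFractionRing.to_map_eq_zero_iff]
    exact nonZeroDivisors.ne_zero hs
  have e1 : algebraMap R K a / algebraMap R K s =
      ((algebraMap R K s)⁻¹) ^ p * algebraMap R K (s ^ (p - 1) * a) := by
    obtain ⟨q, rfl⟩ := Nat.exists_eq_add_of_le' hp
    rw [map_mul, map_pow, Nat.add_sub_cancel]
    have h1 : (algebraMap R K s)⁻¹ ^ q * algebraMap R K s ^ q = 1 := by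
      rw [← mul_pow, inv_mul_cancel₀ hs0, one_pow]
    have h2 : (algebraMap R K s)⁻¹ ^ (q + 1) * (algebraMap R K s ^ q * algebraMap R K a) =
        algebraMap R K a * (algebraMap R K s)⁻¹ *
          ((algebraMap R K s)⁻¹ ^ q * algebraMap R K s ^ q) := by
      rw [pow_succ]; ring
    rw [h2, h1, mul_one, div_eq_mul_inv]
  have e2 : j (algebraMap R K a / algebraMap R K s) * algebraMap T K' Z ^ n =
      (j (algebraMap R K s)⁻¹) ^ p * algebraMap T K' (ρ (s ^ (p - 1) * a) * Z ^ n) := by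
    rw [e1, map_mul, map_pow, hj, map_mul (algebraMap T K'), map_pow (algebraMap T K')]
    ring
  rw [e2, hΦ', hΦψ, hψ _ n hn, e1, hΦ, hΦφ]
  split_ifs with h
  · rw [map_mul j, hj]
  · rw [map_zero, mul_zero]

/-- generators over `R^p` -/
theorem ffgens {p : ℕ} [Fact p.Prime] {R : Type} [CommRing R] [CharP R p]
    (hF : (frobenius R p).Finite) :
    ∃ (N : ℕ) (a : Fin N → R), ∀ x : R, ∃ b : Fin N → R, x = ∑ k, b k ^ p * a k := by
  have key : ∀ (M : Type) [AddCommGroup M] [Module R M] [Module.Finite R M],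
      ∃ (N : ℕ) (a : Fin N → M), ∀ x : M, ∃ b : Fin N → R, x = ∑ k, b k • a k := by
    intro M _ _ _
    obtain ⟨N, a, ha⟩ := Module.Finite.exists_fin (R := R) (M := M)
    refine ⟨N, a, fun x => ?_⟩
    have hx : x ∈ Submodule.span R (Set.range a) := by rw [ha]; trivial
    obtain ⟨b, hb⟩ := (Submodule.mem_span_range_iff_exists_fun R).1 hx
    exact ⟨b, hb.symm⟩
  exact @key R _ (frobenius R p).toAlgebra.toModule hF

end Pool.Agent.H867.FT
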