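import Pool.Agent.H867.FT.Fin3

/-!
# Finite residue fields: base change of the ideal of Cartier maps.
-/

namespace Pool.Agent.H867.FT

open Module Polynomial

theorem ci_completion (H : Hyps) {p : ℕ} [Fact p.Prime] {R S : Type} [CommRing R] [IsDomain R]
    [IsLocalRing R] [IsNoetherianRing R] [CharP R p] [CommRing S] [IsDomain S] [IsLocalRing S]
    [IsNoetherianRing S] {ι : R →+* S} (hι : IsCompletion ι) (hF : (frobenius R p).Finite)
    (j : FractionRing R →+* FractionRing S)
    (hj : ∀ r, j (algebraMap R (FractionRing R) r) = algebraMap S (FractionRing S) (ι r))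
    {φ : R →+ R} {ψ : S →+ S} (hψφ : ∀ r, ψ (ι r) = ι (φ r))
    {Φ : FractionRing R →+ FractionRing R} (hΦ : IsCartier p Φ) (hΦ0 : Φ ≠ 0)
    (hΦφ : ∀ r, Φ (algebraMap R (FractionRing R) r) = algebraMap R (FractionRing R) (φ r))
    {Φ' : FractionRing S →+ FractionRing S} (hΦ' : IsCartier p Φ')
    (hΦψ : ∀ s, Φ' (algebraMap S (FractionRing S) s) = algebraMap S (FractionRing S) (ψ s)) :
    Submodule.span S (j '' (CI R Φ : Set (FractionRing R))) = CI S Φ' := by
  have hcomp := hι.complete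
  have hcS : CharP S p := charP_of_hom ι
  let _ : Algebra R S := ι.toAlgebra
  have hflat : Module.Flat R S := flt R S hι.dense hι.mem_iff
  obtain ⟨N, a, ha⟩ := ffgens hF
  refine H.fbc p 1 R S (FractionRing R) (FractionRing S) j hj hF le_rfl 1 Φ Φ' hΦ hΦ0 hΦ' ?_ ?_
  · intro x n hn
    refine compat (m := 1) ι j hj hΦ hΦφ hΦ' hΦψ ?_ x n hn
    intro r n hn
    have hn0 : n = 0 := by omega
    subst hn0
    rw [pow_zero, mul_one, hψφ, if_pos rfl]
  · intro t
    obtain ⟨b, hb⟩ := H.gnc p N R S ι hι.dense a ha t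
    refine ⟨N, fun k _ => b k, a, ?_⟩
    rw [hb]
    apply Finset.sum_congr rfl
    intro k _
    rw [Fin.sum_univ_one, one_pow, mul_one]
    rfl

theorem gen_nagata (H : Hyps) {p : ℕ} [Fact p.Prime] {R A : Type} [CommRing R]
    [IsLocalRing R] [CharP R p] [CommRing A] [CharP A p] [Algebra R[X] A]
    (hprime : ((IsLocalRing.maximalIdeal R).map (Polynomial.C : R →+* R[X])).IsPrime)
    (hA : @IsLocalization.AtPrime R[X] _ A _ _ ((IsLocalRing.maximalIdeal R).map
      (Polynomial.C : R →+* R[X])) hprime) (hF : (frobenius R p).Finite) :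
    ∃ (N : ℕ) (a : Fin N → R), ∀ x : A, ∃ b : Fin (N * p) → A,
      x = ∑ y, b y ^ p * algebraMap R[X] A (Polynomial.C (a (finProdFinEquiv.symm y).1) *
        X ^ ((finProdFinEquiv.symm y).2 : ℕ)) := by
  obtain ⟨N, a, ha⟩ := ffgens hF
  refine ⟨N, a, fun x => ?_⟩
  obtain ⟨n, b, r, hx⟩ := (H.rzb p R A hprime hA hF).2 x
  choose c hc using fun l => ha (r l)
  refine ⟨fun y => ∑ l, b l (finProdFinEquiv.symm y).2 *
    algebraMap R[X] A (Polynomial.C (c l (finProdFinEquiv.symm y).1)), ?_⟩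
  rw [Equiv.sum_comp (finProdFinEquiv (m := N) (n := p)).symm (fun z : Fin N × Fin p =>
    (∑ l, b l z.2 * algebraMap R[X] A (Polynomial.C (c l z.1))) ^ p *
      algebraMap R[X] A (Polynomial.C (a z.1) * X ^ (z.2 : ℕ))), Fintype.sum_prod_type]
  have e1 : ∀ l (i : Fin p), algebraMap R[X] A (Polynomial.C (r l) * X ^ (i : ℕ)) =
      ∑ k, algebraMap R[X] A (Polynomial.C (c l k)) ^ p *
        algebraMap R[X] A (Polynomial.C (a k) * X ^ (i : ℕ)) := by
    intro l i
    rw [hc l, map_sum, Finset.sum_mul, map_sum]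
    apply Finset.sum_congr rfl
    intro k _
    rw [map_mul Polynomial.C, map_pow Polynomial.C, mul_assoc, map_mul (algebraMap R[X] A),
      map_pow (algebraMap R[X] A)]
  conv_lhs => rw [hx]
  simp_rw [e1, sum_pow_char p, mul_pow, Finset.sum_mul, Finset.mul_sum]
  rw [Finset.sum_comm]
  have e2 : ∀ i : Fin p, (∑ l, ∑ k, b l i ^ p * (algebraMap R[X] A (Polynomial.C (c l k)) ^ p *
      algebraMap R[X] A (Polynomial.C (a k) * X ^ (i : ℕ)))) =
      ∑ k, ∑ l, b l i ^ p * algebraMap R[X] A (Polynomial.C (c l k)) ^ p *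
      algebraMap R[X] A (Polynomial.C (a k) * X ^ (i : ℕ)) := by
    intro i
    rw [Finset.sum_comm]
    simp_rw [mul_assoc]
  simp_rw [e2]
  rw [Finset.sum_comm]

theorem ci_nagata (H : Hyps) {p : ℕ} [Fact p.Prime] {R A T : Type} [CommRing R] [IsDomain R]
    [IsLocalRing R] [IsNoetherianRing R] [IsIntegrallyClosed R] [CharP R p]
    [CommRing A] [IsLocalRing A] [IsNoetherianRing A] [CharP A p] [Algebra R[X] A]
    (hprime : ((IsLocalRing.maximalIdeal R).map (Polynomial.C : R →+* R[X])).IsPrime)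
    (hA : @IsLocalization.AtPrime R[X] _ A _ _ ((IsLocalRing.maximalIdeal R).map
      (Polynomial.C : R →+* R[X])) hprime) (hF : (frobenius R p).Finite)
    [CommRing T] [IsDomain T] [IsLocalRing T] [IsNoetherianRing T] {κ : A →+* T}
    (hκ : IsCompletion κ) (j : FractionRing R →+* FractionRing T)
    (hj : ∀ r, j (algebraMap R (FractionRing R) r) =
      algebraMap T (FractionRing T) (κ (algebraMap R[X] A (Polynomial.C r))))
    {φ : R →+ R} {Φ : FractionRing R →+ FractionRing R} (hφ : IsCartier p φ) (hΦ : IsCartier p Φ)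
    (hΦ0 : Φ ≠ 0)
    (hΦφ : ∀ r, Φ (algebraMap R (FractionRing R) r) = algebraMap R (FractionRing R) (φ r)) :
    ∃ Φ' : FractionRing T →+ FractionRing T, IsCartier p Φ' ∧ (∀ x, Φ' (j x) =
        if 0 = p - 1 then j (Φ x) else 0) ∧
      (∀ x, Φ' (j x * algebraMap T (FractionRing T) (κ (algebraMap R[X] A X)) ^ (p - 1)) =
        j (Φ x)) ∧
      Submodule.span T (j '' (CI R Φ : Set (FractionRing R))) = CI T Φ' := by
  have hcomp := hκ.complete
  have hcT : CharP T p := charP_of_hom κ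
  have hp : 1 ≤ p := (Fact.out : p.Prime).one_lt.le
  let _ : Algebra R A := ((algebraMap R[X] A).comp Polynomial.C).toAlgebra
  have hst : IsScalarTower R R[X] A := IsScalarTower.of_algebraMap_eq (fun _ => rfl)
  obtain ⟨hdA, hnA, hflA, hlocA, hdimA⟩ := H.rza R A hprime hA
  obtain ⟨ψA, hψA, hψAφ⟩ := H.rzc p R A hprime hA φ hφ
  obtain ⟨ψ, hψ, hψψ⟩ := H.cxt p A T κ hp hκ.dense hκ.mem_iff ψA hψA
  obtain ⟨Φ', hΦ', hΦψ⟩ := H.cek p T (FractionRing T) ψ hψ
  let _ : Algebra A T := κ.toAlgebra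
  have hflT : Module.Flat A T := flt A T hκ.dense hκ.mem_iff
  let _ : Algebra R T := (κ.comp ((algebraMap R[X] A).comp Polynomial.C)).toAlgebra
  have hst2 : IsScalarTower R A T := IsScalarTower.of_algebraMap_eq (fun _ => rfl)
  have hflat : Module.Flat R T := Module.Flat.trans R A T
  have hcompat : ∀ (x : FractionRing R) (n : ℕ), n ≤ 2 * p - 2 →
      Φ' (j x * algebraMap T (FractionRing T) (κ (algebraMap R[X] A X)) ^ n) =
        if n = p - 1 then j (Φ x) else 0 := by
    intro x n hn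
    refine compat (m := p) (κ.comp ((algebraMap R[X] A).comp Polynomial.C)) j hj hΦ hΦφ hΦ' hΦψ
      ?_ x n hn
    intro r n hn
    have e1 : (κ.comp ((algebraMap R[X] A).comp Polynomial.C)) r *
        κ (algebraMap R[X] A X) ^ n = κ (algebraMap R[X] A (Polynomial.C r * X ^ n)) := by
      rw [map_mul (algebraMap R[X] A), map_pow (algebraMap R[X] A), map_mul κ, map_pow κ]
      rfl
    rw [e1, hψψ, hψAφ r n hn]
    split_ifs
    · rfl
    · exact map_zero κ
  refine ⟨Φ', hΦ', ?_, ?_, ?_⟩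
  · intro x
    have := hcompat x 0 (Nat.zero_le _)
    rwa [pow_zero, mul_one] at this
  · intro x
    have := hcompat x (p - 1) (by omega)
    rwa [if_pos rfl] at this
  · refine H.fbc p p R T (FractionRing R) (FractionRing T) j hj hF hp
      (κ (algebraMap R[X] A X)) Φ Φ' hΦ hΦ0 hΦ' hcompat ?_
    intro t
    obtain ⟨N, a, ha⟩ := gen_nagata H hprime hA hF
    obtain ⟨b, hb⟩ := H.gnc p (N * p) A T κ hκ.dense _ ha t
    refine ⟨N, fun k i => b (finProdFinEquiv (k, i)), a, ?_⟩
    rw [hb, ← Equiv.sum_comp (finProdFinEquiv (m := N) (n := p)), Fintype.sum_prod_type]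
    apply Finset.sum_congr rfl
    intro k _
    apply Finset.sum_congr rfl
    intro i _
    rw [Equiv.symm_apply_apply, map_mul (algebraMap R[X] A), map_pow (algebraMap R[X] A),
      map_mul κ, map_pow κ]
    rfl

end Pool.Agent.H867.FT
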