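import Pool.Agent.H867.FT.Fin4

/-!
# Finite residue fields: the upper bound.
-/

namespace Pool.Agent.H867.FT

open Module Polynomial

theorem chain (H : Hyps) {p : ℕ} [Fact p.Prime] {R A S T : Type} [CommRing R] [IsDomain R]
    [IsLocalRing R] [IsNoetherianRing R] [IsIntegrallyClosed R] [CharP R p]
    (hF : (frobenius R p).Finite) (hpure : FSplits R p 1)
    [CommRing A] [IsLocalRing A] [IsNoetherianRing A] [CharP A p] [Algebra R[X] A]
    (hprime : ((IsLocalRing.maximalIdeal R).map (Polynomial.C : R →+* R[X])).IsPrime)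
    (hA : @IsLocalization.AtPrime R[X] _ A _ _ ((IsLocalRing.maximalIdeal R).map
      (Polynomial.C : R →+* R[X])) hprime)
    [CommRing S] [IsDomain S] [IsLocalRing S] [IsNoetherianRing S] [IsIntegrallyClosed S]
    {ι : R →+* S} (hι : IsCompletion ι)
    [CommRing T] [IsDomain T] [IsLocalRing T] [IsNoetherianRing T] [IsIntegrallyClosed T]
    {κ : A →+* T} (hκ : IsCompletion κ)
    (C : Submodule R (FractionRing R)) (hfg : C.FG)
    (j : FractionRing R →+* FractionRing S)
    (hj : ∀ r, j (algebraMap R (FractionRing R) r) = algebraMap S (FractionRing S) (ι r))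
    (hcan : CanonicalIdeal p S (Submodule.span S (j '' (C : Set (FractionRing R)))))
    (hnt : ¬ Tors C) (C' : Submodule T (FractionRing T)) (hC' : CanonicalIdeal p T C') :
    ¬ Tors C' := by
  intro hT
  have hcompS := hι.complete
  have hcS : CharP S p := charP_of_hom ι
  have hcT : CharP T p := charP_of_hom κ
  have hp : 1 ≤ p := (Fact.out : p.Prime).one_lt.le
  obtain ⟨φ, hφ, hφ1⟩ := hpure
  obtain ⟨Φ, hΦ, hΦφ⟩ := H.cek p R (FractionRing R) φ hφ
  have hΦ1 : Φ 1 = 1 := by
    have := hΦφ 1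
    rwa [hφ1, map_one] at this
  have hΦ0 : Φ ≠ 0 := by
    rintro rfl
    rw [AddMonoidHom.zero_apply] at hΦ1
    exact zero_ne_one hΦ1
  obtain ⟨hDfg, hD0⟩ := H.cif p R (FractionRing R) hF Φ hΦ hΦ0
  -- the completion of `R`
  obtain ⟨ψ, hψ, hψφ⟩ := H.cxt p R S ι hp hι.dense hι.mem_iff φ hφ
  obtain ⟨Φs, hΦs, hΦsψ⟩ := H.cek p S (FractionRing S) ψ hψ
  have hΦs0 : Φs ≠ 0 := by
    rintro rfl
    have h1 := hΦsψ 1
    rw [AddMonoidHom.zero_apply, ← map_one ι, hψφ, hφ1, map_one, map_one] at h1
    exact zero_ne_one h1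
  have hS := ci_completion H hι hF j hj hψφ hΦ hΦ0 hΦφ hΦs hΦsψ
  -- the completion of `A`
  let _ : Algebra R A := ((algebraMap R[X] A).comp Polynomial.C).toAlgebra
  have hst : IsScalarTower R R[X] A := IsScalarTower.of_algebraMap_eq (fun _ => rfl)
  obtain ⟨hdA, hnA, hflA, hlocA, hdimA⟩ := H.rza R A hprime hA
  let _ : Algebra A T := κ.toAlgebra
  have hcompT := hκ.complete
  have hflT : Module.Flat A T := flt A T hκ.dense hκ.mem_iff
  let _ : Algebra R T := (κ.comp ((algebraMap R[X] A).comp Polynomial.C)).toAlgebra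
  have hst2 : IsScalarTower R A T := IsScalarTower.of_algebraMap_eq (fun _ => rfl)
  have hflat : Module.Flat R T := Module.Flat.trans R A T
  have hlocT : IsLocalHom (algebraMap R T) := by
    have h1 : IsLocalHom κ := isLocalHom_of_completion hκ
    refine ⟨fun a ha => ?_⟩
    exact hlocA.map_nonunit a (h1.map_nonunit _ ha)
  have hinjT : Function.Injective (κ.comp ((algebraMap R[X] A).comp Polynomial.C)) := by
    have h1 : Function.Injective κ := inj_of_completion hκ
    have h2 : Function.Injective (algebraMap R[X] A) :=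
      IsLocalization.injective (M := ((IsLocalRing.maximalIdeal R).map
        (Polynomial.C : R →+* R[X])).primeCompl) A
        (Ideal.primeCompl_le_nonZeroDivisors _)
    exact h1.comp (h2.comp Polynomial.C_injective)
  obtain ⟨jT, hjT⟩ := exists_j (κ.comp ((algebraMap R[X] A).comp Polynomial.C)) hinjT
  obtain ⟨Φt, hΦt, -, ht2, hTci⟩ := ci_nagata H hprime hA hF hκ jT hjT hφ hΦ hΦ0 hΦφ
  have hΦt0 : Φt ≠ 0 := by
    rintro rfl
    have h1 := ht2 1
    rw [AddMonoidHom.zero_apply, hΦ1, map_one] at h1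
    exact zero_ne_one h1
  -- descent
  have h1 := (tors_iff_CI H hC' hΦt hΦt0).1 hT
  rw [← hTci] at h1
  have h2 : Tors (CI R Φ) := des R T (FractionRing R) (FractionRing T) jT hjT (CI R Φ) hDfg h1
  let _ : Algebra R S := ι.toAlgebra
  have hflS : Module.Flat R S := flt R S hι.dense hι.mem_iff
  have hlocS : IsLocalHom (algebraMap R S) := isLocalHom_of_completion hι
  have h3 := H.tex R S (FractionRing R) (FractionRing S) j hj (CI R Φ) hDfg hD0 h2
  rw [hS] at h3
  have h4 := (tors_iff_CI H hcan hΦs hΦs0).2 h3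
  exact hnt (des R S (FractionRing R) (FractionRing S) j hj C hfg h4)

end Pool.Agent.H867.FT
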