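import Pool.Agent.H867.FT.Fin5

/-!
# The final form: upper bound and example in terms of Mathlib's completion.
-/

namespace Pool.Agent.H867.FT

open Module Polynomial TensorProduct

/-- `M ≅ Hom_P(S, P)` as `S`-modules. -/
def IsCanonicalMod (P S M : Type) [CommRing P] [CommRing S] [Algebra P S] [AddCommGroup M]
    [Module S M] : Prop :=
  ∃ e : M ≃+ (S →ₗ[P] P), ∀ (s : S) (y : M) (x : S), e (s • y) x = e y (s * x)

/-- the canonical ideal of `R` becomes one of the completion -/
theorem canonical_of_tensor (H : Hyps) {P R S : Type} [CommRing P] [CommRing R] [IsDomain R]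
    [CommRing S] [IsDomain S] [Algebra R S] [Module.Flat R S] [Algebra P S]
    (j : FractionRing R →+* FractionRing S)
    (hj : ∀ r, j (algebraMap R (FractionRing R) r) =
      algebraMap S (FractionRing S) (algebraMap R S r))
    (C : Submodule R (FractionRing R)) (h : IsCanonicalMod P S (S ⊗[R] C)) :
    IsCanonical P (Submodule.span S (j '' (C : Set (FractionRing R)))) := by
  obtain ⟨e, he⟩ := h
  obtain ⟨g⟩ := H.ten R S (FractionRing R) (FractionRing S) j hj C
  refine ⟨g.symm.toAddEquiv.trans e, ?_⟩
  intro r y s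
  have h1 : (g.symm.toAddEquiv.trans e) (r • y) = e (g.symm (r • y)) := rfl
  have h2 : (g.symm.toAddEquiv.trans e) y = e (g.symm y) := rfl
  rw [h1, h2, map_smul]
  exact he r _ s

/-- transfer to an isomorphic ring -/
theorem canonical_transfer {P R S : Type} [CommRing P] [CommRing R] [IsDomain R]
    [CommRing S] [Algebra P R] [Algebra R S] [Algebra P S] [IsScalarTower P R S]
    (hb : Function.Bijective (algebraMap R S))
    (C : Submodule R (FractionRing R)) (h : IsCanonical P C) :
    IsCanonicalMod P S (S ⊗[R] C) := by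
  obtain ⟨e, he⟩ := h
  let ρ : R ≃ₗ[R] S := LinearEquiv.ofBijective (Algebra.linearMap R S) hb
  have hρ : ∀ r, ρ r = algebraMap R S r := fun r => rfl
  have hρs : ∀ s, algebraMap R S (ρ.symm s) = s := fun s => ρ.apply_symm_apply s
  have hρm : ∀ s s', ρ.symm (s * s') = ρ.symm s * ρ.symm s' := by
    intro s s'
    apply hb.1
    rw [map_mul (algebraMap R S), hρs, hρs, hρs]
  let ten : (S ⊗[R] C) ≃ₗ[R] C :=
    (LinearEquiv.rTensor C ρ.symm).trans (TensorProduct.lid R C)
  have hten : ∀ (s : S) (y : S ⊗[R] C), ten (s • y) = ρ.symm s • ten y := by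
    intro s y
    induction y using TensorProduct.induction_on with
    | zero => rw [smul_zero, map_zero, smul_zero]
    | tmul s' c =>
      show ρ.symm (s * s') • c = ρ.symm s • (ρ.symm s' • c)
      rw [hρm, mul_smul]
    | add y z hy hz => rw [smul_add, map_add, hy, hz, map_add, smul_add]
  -- precomposition with `ρ.symm`
  let ρP : S →ₗ[P] R :=
    { toFun := fun s => ρ.symm s
      map_add' := fun a b => map_add _ a b
      map_smul' := by
        intro c s
        apply hb.1
        show algebraMap R S (ρ.symm (c • s)) = algebraMap R S (c • ρ.symm s)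
        rw [hρs, Algebra.smul_def, Algebra.smul_def, map_mul, hρs,
          ← IsScalarTower.algebraMap_apply] }
  let ρP' : R →ₗ[P] S :=
    { toFun := fun r => algebraMap R S r
      map_add' := fun a b => map_add _ a b
      map_smul' := by
        intro c s
        show algebraMap R S (c • s) = c • algebraMap R S s
        rw [Algebra.smul_def, Algebra.smul_def, map_mul, ← IsScalarTower.algebraMap_apply] }
  let E : (R →ₗ[P] P) ≃+ (S →ₗ[P] P) :=
    { toFun := fun f => f.comp ρP
      invFun := fun f => f.comp ρP'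
      left_inv := by
        intro f
        ext r
        show f (ρ.symm (ρ r)) = f r
        rw [ρ.symm_apply_apply]
      right_inv := by
        intro f
        ext s
        show f (algebraMap R S (ρ.symm s)) = f s
        rw [hρs]
      map_add' := fun f g => rfl }
  refine ⟨(ten.toAddEquiv.trans e).trans E, ?_⟩
  intro s y x
  show e (ten (s • y)) (ρ.symm x) = e (ten y) (ρ.symm (s * x))
  rw [hten, he, hρm]

theorem charP_of_inj {k S : Type} [Field k] [CommRing S] {p : ℕ} [Fact p.Prime] [CharP S p]
    (f : k →+* S) (h : Function.Injective f) : CharP k p := by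
  have h1 : ((p : ℕ) : k) = 0 := by
    apply h
    rw [map_natCast, map_zero, CharP.cast_eq_zero]
  exact (CharP.charP_iff_prime_eq_zero Fact.out).2 h1

/-- **The upper bound**, in terms of `R` only. -/
theorem final_upper (H : Hyps) {p : ℕ} [Fact p.Prime] {d : ℕ} (hd : 2 ≤ d) {R : Type}
    [CommRing R] [IsDomain R] [IsLocalRing R] [IsNoetherianRing R] [IsIntegrallyClosed R]
    [CharP R p] (hF : (frobenius R p).Finite) (hpure : FSplits R p 1)
    (hdim : ringKrullDim R = d) (C : Submodule R (FractionRing R)) (hfg : C.FG)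
    (k : Type) [Field k] (n : ℕ)
    [Algebra (MvPowerSeries (Fin n) k) (AdicCompletion (IsLocalRing.maximalIdeal R) R)]
    [Module.Finite (MvPowerSeries (Fin n) k) (AdicCompletion (IsLocalRing.maximalIdeal R) R)]
    (hinj : Function.Injective (algebraMap (MvPowerSeries (Fin n) k)
      (AdicCompletion (IsLocalRing.maximalIdeal R) R)))
    (hcan : IsCanonicalMod (MvPowerSeries (Fin n) k)
      (AdicCompletion (IsLocalRing.maximalIdeal R) R)
      ((AdicCompletion (IsLocalRing.maximalIdeal R) R) ⊗[R] C))
    (hnt : ¬ Tors C) {t : ℝ} (ht : FPurePair R p (IsLocalRing.maximalIdeal R) t) :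
    t ≤ (d : ℝ) - 3 / 2 := by
  -- the completion `S` of `R`
  obtain ⟨hSn, hSd, hSi⟩ := hat_normal H p R hF
  have hι := isCompletion_hat H R
  have hcS : CharP (AdicCompletion (IsLocalRing.maximalIdeal R) R) p :=
    charP_of_hom (algebraMap R _)
  have hcR : CharP (IsLocalRing.ResidueField R) p := charP_res
  have hcSr : CharP (IsLocalRing.ResidueField
    (AdicCompletion (IsLocalRing.maximalIdeal R) R)) p := charP_res
  have hffR := Pool.Agent.H803.FT867FF2.ff2.2 p R hF
  obtain ⟨hffS, -⟩ := res_completion hι hffR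
  have hck : CharP k p := charP_of_inj ((algebraMap (MvPowerSeries (Fin n) k)
    (AdicCompletion (IsLocalRing.maximalIdeal R) R)).comp (MvPowerSeries.C (σ := Fin n)))
    (RingHom.injective _)
  have hkF : (frobenius k p).Finite :=
    H.kff p k n (AdicCompletion (IsLocalRing.maximalIdeal R) R) hffS
  have hflS : Module.Flat R (AdicCompletion (IsLocalRing.maximalIdeal R) R) :=
    flt R _ hι.dense hι.mem_iff
  obtain ⟨j, hj⟩ := exists_j (algebraMap R (AdicCompletion (IsLocalRing.maximalIdeal R) R))
    (inj_of_completion hι)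
  have hcan' : CanonicalIdeal p (AdicCompletion (IsLocalRing.maximalIdeal R) R)
      (Submodule.span _ (j '' (C : Set (FractionRing R)))) :=
    ⟨k, inferInstance, hck, n, inferInstance, hkF, inferInstance,
      (faithfulSMul_iff_algebraMap_injective _ _).2 hinj, canonical_of_tensor H j hj C hcan⟩
  -- Nagata's ring
  have hmp : (IsLocalRing.maximalIdeal R).IsPrime := (IsLocalRing.maximalIdeal.isMaximal R).isPrime
  have hprime : ((IsLocalRing.maximalIdeal R).map (Polynomial.C : R →+* R[X])).IsPrime :=
    Ideal.isPrime_map_C_of_isPrime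
  obtain ⟨A, a1, a2, a3, hA⟩ : ∃ (A : Type) (_ : CommRing A) (_ : IsLocalRing A)
      (_ : Algebra R[X] A), @IsLocalization.AtPrime R[X] _ A _ _
        ((IsLocalRing.maximalIdeal R).map (Polynomial.C : R →+* R[X])) hprime :=
    ⟨Localization.AtPrime ((IsLocalRing.maximalIdeal R).map (Polynomial.C : R →+* R[X])),
      inferInstance, inferInstance, inferInstance, inferInstance⟩
  obtain ⟨hAn, hAc, hAinf, -, hAt⟩ := Pool.Agent.H397.FT867NAG.nag p R A hprime hA
  let _ : Algebra R A := ((algebraMap R[X] A).comp Polynomial.C).toAlgebra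
  have hst : IsScalarTower R R[X] A := IsScalarTower.of_algebraMap_eq (fun _ => rfl)
  obtain ⟨hAd, hAi, hAfl, hAloc, hAdim⟩ := H.rza R A hprime hA
  have hAF := (H.rzb p R A hprime hA hF).1
  obtain ⟨hTn, hTd, hTi⟩ := hat_normal H p A hAF
  have hκ := isCompletion_hat H A
  refine upper_core hd hκ hAF hAinf (hAdim.trans hdim) ?_ (hAt t ht)
  intro C' hC'
  exact chain H hF hpure hprime hA hι hκ C hfg j hj hcan' hnt C' hC'

end Pool.Agent.H867.FT
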