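import Pool.Agent.H867.FT.Gen11

/-!
# `S_GNC`: generation by `p`-th powers passes to a complete Noetherian local ring.

`Fr : (Fin N → T) → T`, `b ↦ ∑ b_k ^ p ι(a_k)` is `T`-linear when the target carries the `T`-module
structure given by Frobenius; it is surjective modulo `𝔪^[p]`, so it is surjective, by completeness.
-/

namespace Pool.Agent.H867.FT.GNCc

theorem mem_pow_smul_top_pi {T : Type} [CommRing T] (J : Ideal T) (N : ℕ) (x : Fin N → T) :
    x ∈ (J • ⊤ : Submodule T (Fin N → T)) ↔ ∀ k, x k ∈ J := by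
  constructor
  · intro hx k
    refine Submodule.smul_induction_on (p := fun y : Fin N → T => y k ∈ J) hx ?_ ?_
    · intro r hr m _
      exact J.mul_mem_right _ hr
    · intro y z hy hz
      exact J.add_mem hy hz
  · intro hx
    have e : x = ∑ k, x k • (Pi.single k (1 : T) : Fin N → T) := by
      funext j
      rw [Finset.sum_apply, Finset.sum_eq_single j]
      · rw [Pi.smul_apply, Pi.single_eq_same, smul_eq_mul, mul_one]
      · intro b _ hb
        rw [Pi.smul_apply, Pi.single_eq_of_ne (Ne.symm hb), smul_zero]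
      · intro h
        exact absurd (Finset.mem_univ j) h
    rw [e]
    exact Submodule.sum_mem _ fun k _ => Submodule.smul_mem_smul (hx k) Submodule.mem_top

theorem mem_smul_top_self {T : Type} [CommRing T] (J : Ideal T) (x : T) :
    x ∈ (J • ⊤ : Submodule T T) ↔ x ∈ J := by
  rw [smul_eq_mul, Ideal.mul_top]

theorem precomplete_pi {T : Type} [CommRing T] (I : Ideal T) (N : ℕ) [hI : IsPrecomplete I T] :
    IsPrecomplete I (Fin N → T) := by
  refine ⟨fun f hf => ?_⟩
  have h : ∀ k : Fin N, ∃ L : T, ∀ n, f n k ≡ L [SMOD (I ^ n • ⊤ : Submodule T T)] := by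
    intro k
    refine IsPrecomplete.prec hI (f := fun n => f n k) ?_
    intro m n hmn
    have h1 := hf hmn
    rw [SModEq.sub_mem] at h1 ⊢
    rw [mem_smul_top_self]
    exact (mem_pow_smul_top_pi (I ^ m) N _).1 h1 k
  choose L hL using h
  refine ⟨L, fun n => ?_⟩
  rw [SModEq.sub_mem, mem_pow_smul_top_pi]
  intro k
  have h1 := hL k n
  rw [SModEq.sub_mem, mem_smul_top_self] at h1
  exact h1

theorem gnc_aux {T S : Type} [CommRing T] [CommRing S] (I : Ideal T) (f : T →+* S)
    [IsPrecomplete I T] [hH : IsHausdorff (I.map f) S] (N : ℕ) (a : Fin N → S)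
    (h : ∀ s : S, ∃ b : Fin N → T, s - ∑ k, f (b k) * a k ∈ I.map f) (s : S) :
    ∃ b : Fin N → T, s = ∑ k, f (b k) * a k := by
  let _ := f.toAlgebra
  have h1 : IsHausdorff I S := IsHausdorff.map_algebraMap_iff.mp hH
  have h2 := precomplete_pi I N
  let F : (Fin N → T) →ₗ[T] S :=
    { toFun := fun b => ∑ k, f (b k) * a k
      map_add' := by
        intro x y
        rw [← Finset.sum_add_distrib]
        refine Finset.sum_congr rfl fun k _ => ?_
        rw [Pi.add_apply, map_add, add_mul]
      map_smul' := by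
        intro c x
        show ∑ k, f (c * x k) * a k = f c * ∑ k, f (x k) * a k
        rw [Finset.mul_sum]
        refine Finset.sum_congr rfl fun k _ => ?_
        rw [map_mul, mul_assoc] }
  have hF : Function.Surjective (Submodule.mkQ (I • ⊤ : Submodule T S) ∘ₗ F) := by
    intro y
    obtain ⟨y, rfl⟩ := Submodule.mkQ_surjective _ y
    obtain ⟨b, hb⟩ := h y
    refine ⟨b, ?_⟩
    rw [LinearMap.comp_apply, Submodule.mkQ_apply, Submodule.mkQ_apply, eq_comm,
      Submodule.Quotient.eq, Ideal.smul_top_eq_map]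
    exact hb
  obtain ⟨b, hb⟩ := surjective_of_mkQ_comp_surjective hF s
  exact ⟨b, hb.symm⟩

/-- **GNC.** -/
theorem gnc : Pool.Agent.H867.FT.S_GNC := by
  intro p N hp A T _ _ _ _ _ hc ι hd a ha t
  have hple : (IsLocalRing.maximalIdeal T).map (frobenius T p) ≤ IsLocalRing.maximalIdeal T := by
    rw [Ideal.map_le_iff_le_comap]
    intro x hx
    rw [Ideal.mem_comap, frobenius_def]
    exact Ideal.pow_mem_of_mem _ hx p hp.out.pos
  have hH : IsHausdorff ((IsLocalRing.maximalIdeal T).map (frobenius T p)) T := by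
    refine ⟨fun x hx => IsHausdorff.haus (I := IsLocalRing.maximalIdeal T) inferInstance x
      fun n => ?_⟩
    have h1 := hx n
    rw [SModEq.sub_mem, mem_smul_top_self] at h1 ⊢
    exact Ideal.pow_right_mono hple n h1
  have hrad : IsLocalRing.maximalIdeal T ≤
      ((IsLocalRing.maximalIdeal T).map (frobenius T p)).radical := by
    intro x hx
    refine ⟨p, ?_⟩
    rw [← frobenius_def]
    exact Ideal.mem_map_of_mem _ hx
  obtain ⟨n, hn⟩ := Ideal.exists_pow_le_of_le_radical_of_fg hrad
    (IsNoetherian.noetherian (IsLocalRing.maximalIdeal T))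
  have key := gnc_aux (IsLocalRing.maximalIdeal T) (frobenius T p) N (fun k => ι (a k)) ?_ t
  · obtain ⟨b, hb⟩ := key
    exact ⟨b, hb⟩
  · intro s
    obtain ⟨r, hr⟩ := hd n s
    obtain ⟨b, hb⟩ := ha r
    refine ⟨fun k => ι (b k), hn ?_⟩
    have e : ∑ k, (frobenius T p) (ι (b k)) * ι (a k) = ι r := by
      rw [hb, map_sum]
      refine Finset.sum_congr rfl fun k _ => ?_
      rw [map_mul, map_pow, frobenius_def]
    rw [e]
    exact hr

end Pool.Agent.H867.FT.GNCc
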