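import Mathlib
import Pool.Agent.H867.FT.Gen12

set_option autoImplicit false

/-! The coefficient field of a Noether normalization is F-finite. -/

namespace Pool.Agent.H867.FT.KFFc

open Pool.Agent.H867.FT

lemma finite_of_comp_injective {A B C : Type*} [CommRing A] [CommRing B] [CommRing C]
    [IsNoetherianRing A] (f : A →+* B) (g : B →+* C) (hg : Function.Injective g)
    (h : (g.comp f).Finite) : f.Finite := by
  letI := f.toAlgebra
  letI := (g.comp f).toAlgebra
  haveI : Module.Finite A C := h
  haveI : IsNoetherian A C := isNoetherian_of_isNoetherianRing_of_finite A C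
  let gl : B →ₗ[A] C :=
    { toFun := g
      map_add' := fun x y => map_add g x y
      map_smul' := fun a x => by
        change g (f a * x) = g (f a) * g x
        rw [map_mul] }
  exact Module.Finite.of_injective gl hg

theorem kff : S_KFF := by
  intro p _ k _ _ d S _ _ _ _ _ hF
  -- the residue field is finite over the power series ring
  haveI : Module.Finite S (IsLocalRing.ResidueField S) :=
    Module.Finite.of_surjective (Algebra.linearMap S (IsLocalRing.ResidueField S))
      IsLocalRing.residue_surjective
  haveI : Module.Finite (MvPowerSeries (Fin d) k) (IsLocalRing.ResidueField S) :=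
    Module.Finite.trans S (IsLocalRing.ResidueField S)
  have hmax : (RingHom.ker (algebraMap (MvPowerSeries (Fin d) k) (IsLocalRing.ResidueField S))).IsMaximal := by
    have h1 : (Ideal.comap (algebraMap (MvPowerSeries (Fin d) k) (IsLocalRing.ResidueField S)) ⊥).IsMaximal :=
      Ideal.isMaximal_comap_of_isIntegral_of_isMaximal _
    exact h1
  have hker : ∀ f : MvPowerSeries (Fin d) k, MvPowerSeries.constantCoeff f = 0 →
      algebraMap (MvPowerSeries (Fin d) k) (IsLocalRing.ResidueField S) f = 0 := by
    intro f hf
    have h1 : f ∈ IsLocalRing.maximalIdeal (MvPowerSeries (Fin d) k) := by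
      rw [IsLocalRing.mem_maximalIdeal, mem_nonunits_iff, MvPowerSeries.isUnit_iff_constantCoeff, hf]
      exact not_isUnit_zero
    rw [← IsLocalRing.eq_maximalIdeal hmax] at h1
    exact h1
  -- the map of the coefficient field
  let ψ : k →+* IsLocalRing.ResidueField S :=
    (algebraMap (MvPowerSeries (Fin d) k) (IsLocalRing.ResidueField S)).comp MvPowerSeries.C
  have hψ : ψ.comp (MvPowerSeries.constantCoeff) =
      algebraMap (MvPowerSeries (Fin d) k) (IsLocalRing.ResidueField S) := by
    refine RingHom.ext fun f => ?_
    have h1 := hker (MvPowerSeries.C (MvPowerSeries.constantCoeff f) - f) (by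
      rw [map_sub, MvPowerSeries.constantCoeff_C, sub_self])
    rw [map_sub, sub_eq_zero] at h1
    exact h1
  have hfin : ψ.Finite := by
    apply RingHom.Finite.of_comp_finite (f := MvPowerSeries.constantCoeff)
    rw [hψ]
    exact RingHom.finite_algebraMap.2 inferInstance
  have hcomp : ψ.comp (frobenius k p) = (frobenius (IsLocalRing.ResidueField S) p).comp ψ := by
    refine RingHom.ext fun x => ?_
    change ψ (frobenius k p x) = frobenius (IsLocalRing.ResidueField S) p (ψ x)
    rw [frobenius_def, frobenius_def, map_pow]
  refine finite_of_comp_injective (frobenius k p) ψ ψ.injective ?_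
  rw [hcomp]
  exact hF.comp hfin

end Pool.Agent.H867.FT.KFFc
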