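import Pool.Agent.H867.FT.Fin6
import Pool.Agent.H25.FT867NOC
import Pool.Agent.H284.FT867ACP
import Pool.Agent.H287.FT867RZA
import Pool.Agent.H686.FT867RZB
import Pool.Agent.H769.FT867RZC
import Pool.Agent.H867.FT.GNCc
import Pool.Agent.H16.FT867CEK
import Pool.Agent.H52.FT867CIK
import Pool.Agent.H323.FT867CIL
import Pool.Agent.H860.FT867CIF
import Pool.Agent.H323.FT867FBC
import Pool.Agent.H120.FT867TEX
import Pool.Agent.H867.FT.KFFc
import Pool.Agent.H867.FT.TENc
import Pool.Agent.H550.FT867CXT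
import Pool.Agent.H134.FT867CXU
import Pool.Agent.H789.FT867DUB
import Pool.Agent.H179.FT867HTO
import Pool.Agent.H224.FT867STA
import Pool.Agent.H415.FT867STB
import Pool.Agent.H596.FT867RND

/-!
# The final form: all lemmas; the example.
-/

namespace Pool.Agent.H867.FT

open Module TensorProduct

theorem hyps : Hyps where
  noc := Pool.Agent.H25.FT867NOC.noc
  acp := Pool.Agent.H284.FT867ACP.acp
  rza := Pool.Agent.H287.FT867RZA.rza
  rzb := Pool.Agent.H686.FT867RZB.rzb
  rzc := Pool.Agent.H769.FT867RZC.rzc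
  gnc := GNCc.gnc
  cek := Pool.Agent.H16.FT867CEK.cek
  cik := Pool.Agent.H52.FT867CIK.cik Pool.Agent.H16.FT867CEK.cek
  cil := Pool.Agent.H323.FT867CIL.cil (Pool.Agent.H52.FT867CIK.cik Pool.Agent.H16.FT867CEK.cek)
  cif := Pool.Agent.H860.FT867CIF.cif
  fbc := Pool.Agent.H323.FT867FBC.fbc
  tex := Pool.Agent.H120.FT.TEX.tex Pool.Agent.H124.FT867.fdv
  kff := KFFc.kff
  ten := TENc.ten
  cxt := Pool.Agent.H550.FT867CXT.cxt
  cxu := Pool.Agent.H134.FT867CXU.cxu
  dub := Pool.Agent.H789.FT867DUB.dub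
  hto := Pool.Agent.H179.FT867HTO.hto
  sta := Pool.Agent.H224.FT867STA.sta
  stb := Pool.Agent.H415.FT867STB.stb
  rnd := Pool.Agent.H596.FT867RND.rnd

/-- the completion of a complete ring -/
theorem hat_bijective (R : Type) [CommRing R] [IsLocalRing R] [IsNoetherianRing R]
    [IsAdicComplete (IsLocalRing.maximalIdeal R) R] :
    Function.Bijective (algebraMap R (AdicCompletion (IsLocalRing.maximalIdeal R) R)) := by
  have h := AdicCompletion.of_bijective (IsLocalRing.maximalIdeal R) R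
  exact h

/-- **The example.** -/
theorem final_example (p : ℕ) [Fact p.Prime] (m : ℕ) :
    ∃ (R : Type) (_ : CommRing R) (_ : IsDomain R) (_ : IsLocalRing R) (_ : CharP R p),
      IsNoetherianRing R ∧ IsIntegrallyClosed R ∧ (frobenius R p).Finite ∧ FSplits R p 1 ∧
      ringKrullDim R = ((m + 3 : ℕ) : WithBot ℕ∞) ∧
      (∃ C : Submodule R (FractionRing R), C.FG ∧
        (∃ (k : Type) (_ : Field k) (n : ℕ) (_ : Algebra (MvPowerSeries (Fin n) k)
            (AdicCompletion (IsLocalRing.maximalIdeal R) R)),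
          Module.Finite (MvPowerSeries (Fin n) k)
            (AdicCompletion (IsLocalRing.maximalIdeal R) R) ∧
          Function.Injective (algebraMap (MvPowerSeries (Fin n) k)
            (AdicCompletion (IsLocalRing.maximalIdeal R) R)) ∧
          IsCanonicalMod (MvPowerSeries (Fin n) k)
            (AdicCompletion (IsLocalRing.maximalIdeal R) R)
            ((AdicCompletion (IsLocalRing.maximalIdeal R) R) ⊗[R] C)) ∧ ¬ Tors C) ∧
      ∀ t : ℝ, 0 ≤ t → t < ((m + 3 : ℕ) : ℝ) - 3 / 2 →
        FPurePair R p (IsLocalRing.maximalIdeal R) t := by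
  obtain ⟨R, r1, r2, r3, r4, r5, r6, r7, r8, K, q1, q2, q3, C, hC, hnt, hex⟩ :=
    exa p (AlgebraicClosure (ZMod p)) m
  have hp2 : 2 ≤ p := (Fact.out : p.Prime).two_le
  have hnoeP : IsNoetherianRing (MvPowerSeries (Fin (m + 3)) (AlgebraicClosure (ZMod p))) :=
    (Pool.Agent.H719.FT867RES.res _ (m + 3)).1
  have hnorP : IsIntegrallyClosed (MvPowerSeries (Fin (m + 3)) (AlgebraicClosure (ZMod p))) :=
    Pool.Agent.H671.FT867PSN.psn _ (m + 3)
  have hnoe : IsNoetherianRing R :=
    IsNoetherianRing.of_finite (MvPowerSeries (Fin (m + 3)) (AlgebraicClosure (ZMod p))) R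
  have hkF : (frobenius (AlgebraicClosure (ZMod p)) p).Finite := by
    have : PerfectRing (AlgebraicClosure (ZMod p)) p := PerfectField.toPerfectRing p
    exact RingHom.Finite.of_surjective _ (PerfectRing.bijective_frobenius.2)
  have hff : (frobenius R p).Finite :=
    Pool.Agent.H803.FT867FF2.ff2.1 p (AlgebraicClosure (ZMod p)) hkF (m + 3) R
  have hcpl : IsAdicComplete (IsLocalRing.maximalIdeal R) R :=
    Pool.Agent.H695.FT867.cpl (AlgebraicClosure (ZMod p)) (m + 3) R
  let e : K ≃ₐ[R] FractionRing R := IsLocalization.algEquiv (nonZeroDivisors R) K (FractionRing R)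
  have hC' := canonical_map e hC
  obtain ⟨-, hfg, -⟩ := Pool.Agent.H665.FT867CRF.crf _ R (FractionRing R) _ hC'
  have hnt' : ¬ Tors (C.map e.toLinearMap) := by
    intro h
    have h1 := tors_map e.symm h
    have h2 : (C.map e.toLinearMap).map e.symm.toLinearMap = C := by
      rw [← Submodule.map_comp]
      have : e.symm.toLinearMap ∘ₗ e.toLinearMap = LinearMap.id := by
        ext x
        simp
      rw [this, Submodule.map_id]
    rw [h2] at h1
    exact hnt h1
  have hb := hat_bijective R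
  let alg : Algebra (MvPowerSeries (Fin (m + 3)) (AlgebraicClosure (ZMod p)))
      (AdicCompletion (IsLocalRing.maximalIdeal R) R) :=
    ((algebraMap R (AdicCompletion (IsLocalRing.maximalIdeal R) R)).comp
      (algebraMap (MvPowerSeries (Fin (m + 3)) (AlgebraicClosure (ZMod p))) R)).toAlgebra
  have hst : @IsScalarTower (MvPowerSeries (Fin (m + 3)) (AlgebraicClosure (ZMod p))) R
      (AdicCompletion (IsLocalRing.maximalIdeal R) R) _ _ alg.toSMul :=
    @IsScalarTower.of_algebraMap_eq _ _ _ _ _ _ _ _ alg (fun _ => rfl)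
  have hcanm := @canonical_transfer (MvPowerSeries (Fin (m + 3)) (AlgebraicClosure (ZMod p))) R
    (AdicCompletion (IsLocalRing.maximalIdeal R) R) _ _ _ _ _ _ alg hst hb
    (C.map e.toLinearMap) hC'
  refine ⟨R, r1, r2, r3, r5, hnoe, r4, hff, ?_, ?_,
    ⟨C.map e.toLinearMap, hfg, ⟨AlgebraicClosure (ZMod p), inferInstance, m + 3, alg, ?_, ?_,
      hcanm⟩, hnt'⟩, ?_⟩
  · obtain ⟨f, -, hf⟩ := hex 1
    rw [pow_one] at hf
    exact fsplits_one hf
  · exact Pool.Agent.H962.FT867DMS.dms (AlgebraicClosure (ZMod p)) (m + 3) R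
  · have h1 : (algebraMap R (AdicCompletion (IsLocalRing.maximalIdeal R) R)).Finite :=
      RingHom.Finite.of_surjective _ hb.2
    have h2 : (algebraMap (MvPowerSeries (Fin (m + 3)) (AlgebraicClosure (ZMod p))) R).Finite :=
      RingHom.finite_algebraMap.2 inferInstance
    exact h1.comp h2
  · exact hb.1.comp (FaithfulSMul.algebraMap_injective _ R)
  · intro t ht0 ht
    obtain ⟨e₀, he₀⟩ := exa_arith hp2 m ht0 ht
    refine ⟨e₀, fun e he => ?_⟩
    obtain ⟨f, hf, hs⟩ := hex e
    exact ⟨f, Ideal.pow_le_pow_right (he₀ e he) hf, hs⟩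

end Pool.Agent.H867.FT
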