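import Pool.Agent.H867.FT.Cub9
import Pool.Agent.H867.FT.All

/-!
# Assembly, part 14: quadratic base change.
-/

namespace Pool.Agent.H867.FT

open Module MvPowerSeries

set_option linter.unusedSectionVars false

section coeffs

variable {k : Type} [Field k] {D : ℕ}

theorem mem_max_iff {f : MvPowerSeries (Fin D) k} :
    f ∈ IsLocalRing.maximalIdeal (MvPowerSeries (Fin D) k) ↔ constantCoeff f = 0 :=
  Pool.Agent.H707.FT867.mem_max

theorem mem_sq_iff {f : MvPowerSeries (Fin D) k} :
    f ∈ IsLocalRing.maximalIdeal (MvPowerSeries (Fin D) k) ^ 2 ↔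
      constantCoeff f = 0 ∧ ∀ i, coeff (Finsupp.single i 1) f = 0 := by
  constructor
  · intro h
    have h1 := Pool.Agent.H707.FT867.order_of_mem 2 f h
    constructor
    · rw [← coeff_zero_eq_constantCoeff_apply]
      apply coeff_of_lt_order
      refine lt_of_lt_of_le ?_ h1
      simp
    · intro i
      apply coeff_of_lt_order
      refine lt_of_lt_of_le ?_ h1
      rw [Finsupp.degree_single]
      norm_num
  · rintro ⟨h0, h1⟩
    apply Pool.Agent.H707.FT867.mem_pow
    apply nat_le_order
    intro d hd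
    rcases Nat.lt_or_ge d.degree 1 with h | h
    · have hd0 : d = 0 := by
        have : d.degree = 0 := by omega
        exact (Finsupp.degree_eq_zero_iff d).1 this
      rw [hd0, coeff_zero_eq_constantCoeff_apply]
      exact h0
    · have hd1 : d.degree = 1 := by omega
      obtain ⟨i, rfl⟩ : ∃ i, d = Finsupp.single i 1 := by
        have hd2 : Finsupp.sum d (fun _ n => n) = 1 := by
          rw [← hd1]; rfl
        exact (Finsupp.sum_eq_one_iff d).mp hd2
      exact h1 i

theorem coeff_mul_max {r a : MvPowerSeries (Fin D) k}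
    (ha : a ∈ IsLocalRing.maximalIdeal (MvPowerSeries (Fin D) k)) (i : Fin D) :
    coeff (Finsupp.single i 1) (r * a) = constantCoeff r * coeff (Finsupp.single i 1) a := by
  have h1 : r - C (constantCoeff r) ∈ IsLocalRing.maximalIdeal (MvPowerSeries (Fin D) k) := by
    rw [mem_max_iff, map_sub, constantCoeff_C, sub_self]
  have h2 : (r - C (constantCoeff r)) * a ∈
      IsLocalRing.maximalIdeal (MvPowerSeries (Fin D) k) ^ 2 := by
    rw [pow_two]; exact Ideal.mul_mem_mul h1 ha
  have h3 := (mem_sq_iff.1 h2).2 i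
  rw [sub_mul, map_sub, sub_eq_zero, coeff_C_mul] at h3
  exact h3

theorem ind_iff {a z : MvPowerSeries (Fin D) k}
    (ha : a ∈ IsLocalRing.maximalIdeal (MvPowerSeries (Fin D) k))
    (hz : z ∈ IsLocalRing.maximalIdeal (MvPowerSeries (Fin D) k)) :
    Ind a z ↔ ∀ r s : k, (∀ i, r * coeff (Finsupp.single i 1) a +
      s * coeff (Finsupp.single i 1) z = 0) → r = 0 ∧ s = 0 := by
  have key : ∀ r s : MvPowerSeries (Fin D) k, r * a + s * z ∈
      IsLocalRing.maximalIdeal (MvPowerSeries (Fin D) k) ^ 2 ↔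
      ∀ i, constantCoeff r * coeff (Finsupp.single i 1) a +
        constantCoeff s * coeff (Finsupp.single i 1) z = 0 := by
    intro r s
    rw [mem_sq_iff]
    constructor
    · rintro ⟨-, h⟩ i
      have := h i
      rwa [map_add, coeff_mul_max ha, coeff_mul_max hz] at this
    · intro h
      refine ⟨?_, fun i => ?_⟩
      · rw [map_add, map_mul, map_mul, mem_max_iff.1 ha, mem_max_iff.1 hz, mul_zero, mul_zero,
          add_zero]
      · rw [map_add, coeff_mul_max ha, coeff_mul_max hz]
        exact h i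
  constructor
  · intro h r s hrs
    have h1 := h (C r) (C s) ((key _ _).2 (by
      intro i; rw [constantCoeff_C, constantCoeff_C]; exact hrs i))
    rw [mem_max_iff, mem_max_iff, constantCoeff_C, constantCoeff_C] at h1
    exact h1
  · intro h r s hrs
    have h1 := h _ _ ((key _ _).1 hrs)
    rw [mem_max_iff, mem_max_iff]
    exact h1

variable {k' : Type} [Field k'] [Algebra k k']

theorem map_mem_pow {n : ℕ} {g : MvPowerSeries (Fin D) k}
    (hg : g ∈ IsLocalRing.maximalIdeal (MvPowerSeries (Fin D) k) ^ n) :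
    MvPowerSeries.map (algebraMap k k') g ∈
      IsLocalRing.maximalIdeal (MvPowerSeries (Fin D) k') ^ n := by
  have hle : (IsLocalRing.maximalIdeal (MvPowerSeries (Fin D) k)).map
      (MvPowerSeries.map (algebraMap k k') : MvPowerSeries (Fin D) k →+* _) ≤
      IsLocalRing.maximalIdeal (MvPowerSeries (Fin D) k') := by
    rw [Ideal.map_le_iff_le_comap]
    intro f hf
    rw [Ideal.mem_comap, mem_max_iff, constantCoeff_map, mem_max_iff.1 hf, map_zero]
  have h1 := Ideal.mem_map_of_mem (MvPowerSeries.map (algebraMap k k') :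
    MvPowerSeries (Fin D) k →+* _) hg
  rw [Ideal.map_pow] at h1
  exact Ideal.pow_right_mono hle _ h1

theorem map_mem {g : MvPowerSeries (Fin D) k}
    (hg : g ∈ IsLocalRing.maximalIdeal (MvPowerSeries (Fin D) k)) :
    MvPowerSeries.map (algebraMap k k') g ∈
      IsLocalRing.maximalIdeal (MvPowerSeries (Fin D) k') := by
  have := map_mem_pow (k' := k') (n := 1) (by rwa [pow_one])
  rwa [pow_one] at this

theorem ind_map {a z : MvPowerSeries (Fin D) k}
    (ha : a ∈ IsLocalRing.maximalIdeal (MvPowerSeries (Fin D) k))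
    (hz : z ∈ IsLocalRing.maximalIdeal (MvPowerSeries (Fin D) k)) (h : Ind a z) :
    Ind (MvPowerSeries.map (algebraMap k k') a) (MvPowerSeries.map (algebraMap k k') z) := by
  rw [ind_iff (map_mem ha) (map_mem hz)]
  rw [ind_iff ha hz] at h
  intro r s hrs
  have key : ∀ l : Module.Dual k k', l r = 0 ∧ l s = 0 := by
    intro l
    apply h
    intro i
    have h1 := congrArg l (hrs i)
    rw [coeff_map, coeff_map, map_add, map_zero, mul_comm r, mul_comm s, ← Algebra.smul_def,
      ← Algebra.smul_def, map_smul, map_smul, smul_eq_mul, smul_eq_mul, mul_comm _ (l r),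
      mul_comm _ (l s)] at h1
    exact h1
  exact ⟨(Module.forall_dual_apply_eq_zero_iff k r).1 fun l => (key l).1,
    (Module.forall_dual_apply_eq_zero_iff k s).1 fun l => (key l).2⟩

end coeffs

section general

variable (p : ℕ) [Fact p.Prime] (k : Type) [Field k] [Infinite k] [CharP k p]

theorem cartGen2 (hPSF : S_PSF) (hF : (frobenius k p).Finite) (d e : ℕ) :
    CartGen (MvPowerSeries (Fin d) k) (p ^ e) := by
  obtain ⟨T, h1, h2, h3, -⟩ := hPSF p k hF d e
  exact ⟨T, h1, h2, h3⟩

theorem regBase2 (hPSF : S_PSF) (hF : (frobenius k p).Finite) (d : ℕ) (hd : 1 ≤ d) :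
    RegBase p d (MvPowerSeries (Fin d) k) where
  noeth := (Pool.Agent.H719.FT867RES.res k d).1
  normal := Pool.Agent.H671.FT867PSN.psn k d
  gens := ⟨_, (Pool.Agent.H707.FT867.psg k d).1⟩
  ne_bot := by
    obtain ⟨j, rfl⟩ := Nat.exists_eq_add_of_le hd
    intro h
    have h1 : (MvPowerSeries.X (⟨0, by omega⟩ : Fin (1 + j)) : MvPowerSeries (Fin (1 + j)) k) ∈
        IsLocalRing.maximalIdeal (MvPowerSeries (Fin (1 + j)) k) := by
      rw [(Pool.Agent.H707.FT867.psg k (1 + j)).1]
      exact Ideal.subset_span ⟨_, rfl⟩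
    rw [h, Ideal.mem_bot] at h1
    have h2 := congrArg (MvPowerSeries.coeff
      (Finsupp.single (⟨0, by omega⟩ : Fin (1 + j)) 1)) h1
    rw [MvPowerSeries.coeff_index_single_self_X, map_zero] at h2
    exact one_ne_zero h2
  gr := (Pool.Agent.H707.FT867.psg k d).2
  cart := cartGen2 p k hPSF hF d

omit [CharP k p] [Fact (Nat.Prime p)] in
theorem cubP2 (d : ℕ) : CubP (MvPowerSeries (Fin d) k) where
  rgs := fun y z hy hz h => Pool.Agent.H261.FT867RGS.rgs k d y z hy hz h
  rho := Pool.Agent.H947.FT867.rho k d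
  units := by
    refine ⟨fun i => MvPowerSeries.C (Infinite.natEmbedding k (i : ℕ)), fun i j hij => ?_⟩
    rw [← map_sub]
    refine IsUnit.map _ (isUnit_iff_ne_zero.2 (sub_ne_zero.2 ?_))
    intro h
    exact hij (Fin.ext ((Infinite.natEmbedding k).injective h))

include p in
theorem pdata2 (hPSF : S_PSF) (hF : (frobenius k p).Finite) (d : ℕ) (hd : 2 ≤ d) (L : Type)
    [Field L] [Algebra (MvPowerSeries (Fin d) k) L]
    [IsFractionRing (MvPowerSeries (Fin d) k) L] : PData d (MvPowerSeries (Fin d) k) L where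
  cub := cubP2 k d
  ord := by
    obtain ⟨V, i1, i2, i3, i4, i5, i6, i7, π, hirr, ho, hπ⟩ :=
      Pool.Agent.H670.FTVAL.val p d (MvPowerSeries (Fin d) k) L (regBase2 p k hPSF hF d (by omega))
    refine ⟨V, i1, i2, i3, i4, i5, i6, i7, π, ⟨hirr, hπ, ?_, ?_⟩, ho⟩
    · intro g hg
      have := (ho g 1).1 (by rwa [pow_one])
      rwa [pow_one] at this
    · intro q hq T TL h1 h2 h3
      exact Pool.Agent.H922.FTTV.tv p d q (MvPowerSeries (Fin d) k) L V π
        (regBase2 p k hPSF hF d (by omega)) hq (by omega) hirr ho T TL h1 h2 h3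
  wt := by
    intro y hy hy2
    obtain ⟨V, i1, i2, i3, i4, i5, i6, i7, π, hirr, hπ, h1, h2, h3⟩ :=
      Pool.Agent.H190.FT867VAT.vat Pool.Agent.H738.FT867AUT.s_aut k d y L hd hy hy2
    exact ⟨V, i1, i2, i3, i4, i5, i6, i7, π, ⟨hirr, hπ, h1, fun q hq T TL e1 e2 e3 =>
      h3 q hq T TL e1 e2 e3⟩, h2⟩

end general

end Pool.Agent.H867.FT
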