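import Pool.Agent.H867.FT.Gen9

/-!
# Statements, part 11: the completion of an F-finite normal local domain is a normal domain.
-/

namespace Pool.Agent.H867.FT

/-- **CXT.** A Cartier map of `R` extends to the completion.
Proof. This is inside the proof of `Pool.Agent.H746.FT867CMP.cmp` (`Pool.Agent.H746.FT867CMP.unif` is the
uniform continuity): `ψ(s) = lim ι (φ r_n)`, `s = lim ι r_n`. -/
def S_CXT : Prop :=
  ∀ (q : ℕ) (R S : Type) [CommRing R] [IsLocalRing R] [IsNoetherianRing R] [CommRing S]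
    [IsLocalRing S] [IsNoetherianRing S] [IsAdicComplete (IsLocalRing.maximalIdeal S) S]
    (ι : R →+* S), 1 ≤ q →
    (∀ (n : ℕ) (s : S), ∃ r : R, s - ι r ∈ IsLocalRing.maximalIdeal S ^ n) →
    (∀ (n : ℕ) (r : R),
      r ∈ IsLocalRing.maximalIdeal R ^ n ↔ ι r ∈ IsLocalRing.maximalIdeal S ^ n) →
    ∀ φ : R →+ R, IsCartier q φ → ∃ ψ : S →+ S, IsCartier q ψ ∧ ∀ r, ψ (ι r) = ι (φ r)

/-- **CXU.** Identities extend to the completion.
Proof. `ψ_j` is uniformly continuous (`Pool.Agent.H746.FT867CMP.unif` for `S`): for `n` given choose `M ≥ n`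
with `ψ_j (𝔪_S^M) ⊆ 𝔪_S^n`, and `r` with `s - ι r ∈ 𝔪_S^M`. Both sides change by elements of `𝔪_S^n`
(`y - z ∣ y^q - z^q`), so their difference is in `⋂ 𝔪_S^n = 0`. -/
def S_CXU : Prop :=
  ∀ (q n : ℕ) (R S : Type) [CommRing R] [CommRing S]
    [IsLocalRing S] [IsNoetherianRing S] (ι : R →+* S), 1 ≤ q →
    (∀ (n : ℕ) (s : S), ∃ r : R, s - ι r ∈ IsLocalRing.maximalIdeal S ^ n) →
    ∀ (φ : Fin n → R →+ R) (ψ : Fin n → S →+ S) (u : Fin n → R) (c : R),
      (∀ j, IsCartier q (ψ j)) → (∀ j r, ψ j (ι r) = ι (φ j r)) →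
      (∀ r, c ^ q * r = ∑ j, φ j r ^ q * u j) →
      ∀ s : S, ι c ^ q * s = ∑ j, ψ j s ^ q * ι (u j)

/-- **DUB.** Dual bases for Frobenius.
Proof. Let `M` be `R` as an `R`-module through `r • m = r^q m`, `q = p^e`; it is finitely generated
(iterate `(frobenius R p).Finite`) and torsion free. Let `u_1, …, u_n ∈ R` be a basis of `K` over `K^q`
(`K = Frac R`; it exists inside `R` since `K = R K^q`), `φ_j` the coordinate functionals
`K → K`, `x = ∑_j φ_j(x)^q u_j`, and `c ≠ 0` a common denominator: `c φ_j(R) ⊆ R` (enough for generators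
of `M`). Take `c φ_j`. -/
def S_DUB : Prop :=
  ∀ (p e : ℕ) [Fact p.Prime] (R : Type) [CommRing R] [IsDomain R] [CharP R p],
    (frobenius R p).Finite →
    ∃ (n : ℕ) (u : Fin n → R) (φ : Fin n → R →+ R) (c : R), c ≠ 0 ∧
      (∀ j, IsCartier (p ^ e) (φ j)) ∧ ∀ r, c ^ p ^ e * r = ∑ j, φ j r ^ p ^ e * u j

/-- **HTO.** At a height one prime of an F-finite normal domain every `c ≠ 0` has a Cartier map with
`φ(c) ∉ 𝔭`.
Proof. `V = R_𝔭` is a discrete valuation ring, `c ∉ 𝔭^q V` for some `q = p^e`. `V` as a module `M` over itself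
through the `q`-th power is finitely generated and torsion free, so free, and `c ∉ 𝔪_V • M = 𝔭^q V`; so `c`
is part of a basis of `M` and there is a Cartier map `φ_V` of `V` with `φ_V(c) = 1`. `φ_V(R) ⊆ (1/s) R` for some
`s ∉ 𝔭` (`R` is finitely generated over `R^q`). `φ = s φ_V` restricted to `R`, `φ(c) = s`. -/
def S_HTO : Prop :=
  ∀ (p : ℕ) [Fact p.Prime] (R : Type) [CommRing R] [IsDomain R] [IsNoetherianRing R]
    [IsIntegrallyClosed R] [CharP R p], (frobenius R p).Finite →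
    ∀ 𝔭 : Ideal R, 𝔭.IsPrime → 𝔭.height = 1 → ∀ c : R, c ≠ 0 →
      ∃ (e : ℕ) (φ : R →+ R), IsCartier (p ^ e) φ ∧ φ c ∉ 𝔭

/-- **STA.** First step for normality of `S`: denominators in `R`.
Proof. `I = {y ∈ S : y a ∈ b S}`. Suppose `ι r ∉ I` for all `r ≠ 0`. There is a prime `𝔮 ⊇ I` with
`𝔮 ∩ ι (R \ 0) = ∅` (`Ideal.exists_le_prime_disjoint`). For `q = p^e`: `b^N a^q = b^q w`; apply `ψ_j`:
`a ψ_j(b^N) = b ψ_j(w)`, so `ψ_j(b^N) ∈ I` and `ι c^q b^N = ∑_j ψ_j(b^N)^q u_j ∈ I^q ⊆ 𝔮^q`. In the Noetherian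
local ring `S_𝔮` the element `ι c` is a unit, so `b^N ∈ 𝔮^q S_𝔮` for all `q = p^e`, hence `b^N = 0` in `S_𝔮`
(Krull intersection theorem): `s b^N = 0` for some `s ∉ 𝔮`, and `s = 0`, a contradiction. -/
def S_STA : Prop :=
  ∀ (p : ℕ) [Fact p.Prime] (R S : Type) [CommRing R] [IsDomain R] [CommRing S]
    [IsNoetherianRing S] (ι : R →+* S),
    (∀ e : ℕ, ∃ (n : ℕ) (u : Fin n → S) (ψ : Fin n → S →+ S) (c : R), c ≠ 0 ∧
      (∀ j, IsCartier (p ^ e) (ψ j)) ∧ ∀ s, ι c ^ p ^ e * s = ∑ j, ψ j s ^ p ^ e * u j) →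
    ∀ (a b : S) (N : ℕ), (∀ x, b * x = 0 → x = 0) →
      (∀ n, ∃ w, b ^ N * a ^ n = b ^ n * w) → ∃ (r : R) (a' : S), r ≠ 0 ∧ ι r * a = b * a'

/-- **STB.** Second step: denominators in `R` are harmless.
Proof. Let `J ⊆ R` be the ideal generated by all `φ(r^M)`, where `φ, ψ` are as in the hypothesis (Cartier maps
of `R` of any level `p^e` which extend to `S`). `r^M a'^q = r^q w`; apply `ψ`: `a' φ(r^M) = r ψ(w)`; so
`a' J ⊆ r S`. `J` is contained in no height one prime; in particular `J ≠ 0` (if `R` is a field the claim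
is clear: `r` is a unit). Let `j_1 ≠ 0, j_2, …, j_n` generate `J`, `a' j_i = r s_i`. Then
`r (j_1 s_i - j_i s_1) = 0`, so `j_1 s_i = j_i s_1` (`S` flat, `R` a domain). By the equational criterion of
flatness (`Mathlib/RingTheory/Flat/EquationalCriterion.lean`; compare
`Pool.Agent.H124.FT867FDV`) there are `t_k ∈ S`, `r_{ik} ∈ R`, `s_i = ∑_k r_{ik} t_k`,
`j_1 r_{ik} = j_i r_{1k}`. `x_k = r_{1k} / j_1 ∈ K` satisfies `x_k J ⊆ R`, so `x_k ∈ R` by `S_KRU`
(`Pool.Agent.H738.FT867KRU.kru`). `a' j_1 = r s_1 = r j_1 ∑_k x_k t_k`, so `a' = r ∑_k x_k t_k`. -/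
def S_STB : Prop :=
  ∀ (p : ℕ) [Fact p.Prime] (R S : Type) [CommRing R] [IsDomain R] [IsNoetherianRing R]
    [IsIntegrallyClosed R] [CommRing S] [Algebra R S] [Module.Flat R S],
    (∀ 𝔭 : Ideal R, 𝔭.IsPrime → 𝔭.height = 1 → ∀ c : R, c ≠ 0 →
      ∃ (e : ℕ) (φ : R →+ R) (ψ : S →+ S), IsCartier (p ^ e) φ ∧ IsCartier (p ^ e) ψ ∧
        (∀ r, ψ (algebraMap R S r) = algebraMap R S (φ r)) ∧ φ c ∉ 𝔭) →
    ∀ (r : R) (a' : S) (M : ℕ), r ≠ 0 →
      (∀ n, ∃ w, algebraMap R S r ^ M * a' ^ n = algebraMap R S r ^ n * w) →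
      ∃ z, a' = algebraMap R S r * z

/-- **RND.** A criterion for normality.
Proof. Integrally closed, once `S` is a domain: `x = a / b` integral over `S` of degree `m`; `b^(m-1) x^n ∈ S`
for all `n`, so the hypothesis gives `x ∈ S`. Domain: let `P_1, …, P_m` be the minimal primes of the reduced
Noetherian ring `S`, `I = P_1`, `J = ⋂_{i ≥ 2} P_i`; if `m ≥ 2` then `I J ⊆ I ∩ J = 0` and `I + J` is contained in no
minimal prime, so (prime avoidance) there are `x ∈ I`, `y ∈ J` with `b = x + y` in no minimal prime, i.e. `b` is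
not a zero divisor (reduced ring). `x b = x²`, so `b x^n = b^n x`, and the hypothesis for `a = x` (`N = 1`) gives
`x = b z`, `b (1 - z) = y`. So `z ∈ P_1` and `1 - z ∈ P_2`, both contained in the maximal ideal, a
contradiction. -/
def S_RND : Prop :=
  ∀ (S : Type) [CommRing S] [IsLocalRing S] [IsNoetherianRing S] [IsReduced S],
    (∀ (a b : S) (N : ℕ), (∀ x, b * x = 0 → x = 0) →
      (∀ n, ∃ w, b ^ N * a ^ n = b ^ n * w) → ∃ z, a = b * z) →
    IsDomain S ∧ IsIntegrallyClosed S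

open TensorProduct in
/-- **TEN.** `S ⊗_R C ≅ C S` for a flat extension.
Proof. `S ⊗_R C → K'`, `s ⊗ c ↦ s j(c)`, has image `C S`. It is injective: `S ⊗ C → S ⊗ K` is injective (flat), every
element of `S ⊗_R K` is `s ⊗ (1 / b)`, and `s / j(b) = 0` only if `s = 0`. -/
def S_TEN : Prop :=
  ∀ (R S K K' : Type) [CommRing R] [IsDomain R] [CommRing S] [IsDomain S]
    [Algebra R S] [Module.Flat R S] [Field K] [Algebra R K] [IsFractionRing R K] [Field K']
    [Algebra S K'] [IsFractionRing S K'] (j : K →+* K'),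
    (∀ r : R, j (algebraMap R K r) = algebraMap S K' (algebraMap R S r)) →
    ∀ C : Submodule R K,
      Nonempty ((S ⊗[R] C) ≃ₗ[S] Submodule.span S (j '' (C : Set K)))

end Pool.Agent.H867.FT
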