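import Pool.Agent.H867.FT.Gen10

/-!
# Statements, part 12: finite residue fields.

`T` is the completion of Nagata's ring `A = R(Z)`. The module of Cartier maps of `R` is a fractional ideal
`CI R Φ` which is compatible with `R → A → T` and with `R → S` (the completion of `R`).
-/

namespace Pool.Agent.H867.FT

open Polynomial

/-- `{u ∈ K : Φ(u R) ⊆ R}`; this is the module of Cartier maps of `R`, by `u ↦ Φ(u ·)`. -/
def CI (R : Type) {K : Type} [CommRing R] [Field K] [Algebra R K] (Φ : K →+ K) :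
    Submodule R K where
  carrier := {u | ∀ r : R, ∃ c : R, Φ (u * algebraMap R K r) = algebraMap R K c}
  zero_mem' := fun r => ⟨0, by rw [zero_mul, map_zero, map_zero]⟩
  add_mem' := by
    intro a b ha hb r
    obtain ⟨c, hc⟩ := ha r
    obtain ⟨d, hd⟩ := hb r
    exact ⟨c + d, by rw [add_mul, map_add, hc, hd, map_add]⟩
  smul_mem' := by
    intro s a ha r
    obtain ⟨c, hc⟩ := ha (s * r)
    have e : s • a * algebraMap R K r = a * algebraMap R K (s * r) := by
      rw [Algebra.smul_def, map_mul]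
      ring
    exact ⟨c, by rw [e, hc]⟩

/-- **NOC.** The completion is Noetherian.
Proof. `T` the completion: complete local, `𝔪_T = 𝔪_A T = (x_1, …, x_m)`
(`Mathlib/RingTheory/AdicCompletion/LocalRing.lean`), residue field `≅ κ(A)`, F-finite, so it has a `p`-basis
(`S_PBE`, `Pool.Agent.H331.FT867PBE.pbe`) and `T` has a coefficient field (`S_COF`,
`Pool.Agent.H726.FT867COF.cof`). Evaluation `κ[[X_1..X_m]] → T`, `X_i ↦ x_i`, (`S_EVL`,
`Pool.Agent.H323.FT867EVL.evl`, or its proof) is surjective: `T = κ + 𝔪_T`, successive approximation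
(compare `Pool.Agent.H199.FT867FIN`). `κ[[X]]` is Noetherian (`Pool.Agent.H719.FT867RES.res`). -/
def S_NOC : Prop :=
  ∀ (p : ℕ) [Fact p.Prime] (A : Type) [CommRing A] [IsLocalRing A] [IsNoetherianRing A]
    [CharP A p] [CharP (IsLocalRing.ResidueField A) p],
    (frobenius (IsLocalRing.ResidueField A) p).Finite →
    IsNoetherianRing (AdicCompletion (IsLocalRing.maximalIdeal A) A)

/-- **ACP.** Density and induced topology for Mathlib's completion
(`AdicCompletion.maximalIdeal_eq_map`, `AdicCompletion.pow_smul_top_eq_ker_eval`). -/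
def S_ACP : Prop :=
  ∀ (A : Type) [CommRing A] [IsLocalRing A] [IsNoetherianRing A],
    (∀ (n : ℕ) (s : AdicCompletion (IsLocalRing.maximalIdeal A) A), ∃ r : A,
      s - algebraMap A (AdicCompletion (IsLocalRing.maximalIdeal A) A) r ∈
        IsLocalRing.maximalIdeal (AdicCompletion (IsLocalRing.maximalIdeal A) A) ^ n) ∧
    ∀ (n : ℕ) (r : A), r ∈ IsLocalRing.maximalIdeal A ^ n ↔
      algebraMap A (AdicCompletion (IsLocalRing.maximalIdeal A) A) r ∈
        IsLocalRing.maximalIdeal (AdicCompletion (IsLocalRing.maximalIdeal A) A) ^ n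

/-- **RZA.** Nagata's ring: commutative algebra.
Proof. `R[X]` is a normal domain (instance in `Mathlib/RingTheory/Polynomial/IsIntegral.lean`), free over
`R`; localizations. `dim A = height (𝔪 R[X]) = height 𝔪` (`Ideal.height_map_C` or
`Polynomial.height_map_C` in `Mathlib/RingTheory/KrullDimension/Polynomial.lean`,
`IsLocalization.AtPrime.ringKrullDim_eq_height`). -/
def S_RZA : Prop :=
  ∀ (R A : Type) [CommRing R] [IsDomain R] [IsLocalRing R] [IsNoetherianRing R]
    [IsIntegrallyClosed R] [CommRing A] [IsLocalRing A] [Algebra R[X] A] [Algebra R A]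
    [IsScalarTower R R[X] A]
    (h : ((IsLocalRing.maximalIdeal R).map (Polynomial.C : R →+* R[X])).IsPrime),
    @IsLocalization.AtPrime R[X] _ A _ _ ((IsLocalRing.maximalIdeal R).map
      (Polynomial.C : R →+* R[X])) h →
    IsDomain A ∧ IsIntegrallyClosed A ∧ Module.Flat R A ∧ IsLocalHom (algebraMap R A) ∧
      ringKrullDim A = ringKrullDim R

/-- **RZB.** Nagata's ring: F-finiteness.
Proof. `R = ∑ R^p r_a`, so `R[X] = ∑ R[X]^p r_a X^i`, `i < p`, and `f / s = (s^{p-1} f) / s^p`. -/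
def S_RZB : Prop :=
  ∀ (p : ℕ) [Fact p.Prime] (R A : Type) [CommRing R] [IsLocalRing R] [CharP R p]
    [CommRing A] [CharP A p] [Algebra R[X] A]
    (h : ((IsLocalRing.maximalIdeal R).map (Polynomial.C : R →+* R[X])).IsPrime),
    @IsLocalization.AtPrime R[X] _ A _ _ ((IsLocalRing.maximalIdeal R).map
      (Polynomial.C : R →+* R[X])) h →
    (frobenius R p).Finite → (frobenius A p).Finite ∧
    ∀ x : A, ∃ (n : ℕ) (b : Fin n → Fin p → A) (r : Fin n → R),
      x = ∑ a, ∑ i, b a i ^ p * (algebraMap R[X] A (Polynomial.C (r a) * X ^ (i : ℕ)))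

/-- **RZC.** Nagata's ring: extension of Cartier maps.
Proof. On `R[X]`: `ψ(∑ r_n X^n) = ∑_{n ≡ -1 mod p} φ(r_n) X^{(n - (p-1))/p}`; this is a Cartier map
(`(∑ s_j X^j)^p = ∑ s_j^p X^{p j}` in characteristic `p`); localize: `ψ(f / s) = ψ(s^{p-1} f) / s`. (Compare
`Pool.Agent.H397.FT867NAG` and `Pool.Agent.H997.FT867LOC`.) -/
def S_RZC : Prop :=
  ∀ (p : ℕ) [Fact p.Prime] (R A : Type) [CommRing R] [IsLocalRing R] [CharP R p]
    [CommRing A] [CharP A p] [Algebra R[X] A]
    (h : ((IsLocalRing.maximalIdeal R).map (Polynomial.C : R →+* R[X])).IsPrime),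
    @IsLocalization.AtPrime R[X] _ A _ _ ((IsLocalRing.maximalIdeal R).map
      (Polynomial.C : R →+* R[X])) h →
    ∀ φ : R →+ R, IsCartier p φ → ∃ ψ : A →+ A, IsCartier p ψ ∧
      ∀ (r : R) (n : ℕ), n ≤ 2 * p - 2 →
        ψ (algebraMap R[X] A (Polynomial.C r * X ^ n)) =
          if n = p - 1 then algebraMap R[X] A (Polynomial.C (φ r)) else 0

/-- **GNC.** Generators over the subring of `p`-th powers stay generators for the completion.
Proof. `𝔪_T = (y_1, …, y_m)`, `𝔪_T^{m p} ⊆ (y_1^p, …, y_m^p)`. `t = ι x + ∑_l y_l^p z_l`,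
`ι x = ∑_k ι(b_k)^p ι(a_k)`; continue with the `z_l`; the coefficients converge (`T` complete) and the limit
is `t` (`⋂ 𝔪_T^n = 0`). -/
def S_GNC : Prop :=
  ∀ (p N : ℕ) [Fact p.Prime] (A T : Type) [CommRing A] [CommRing T] [IsLocalRing T]
    [IsNoetherianRing T] [CharP T p] [IsAdicComplete (IsLocalRing.maximalIdeal T) T]
    (ι : A →+* T),
    (∀ (n : ℕ) (s : T), ∃ r : A, s - ι r ∈ IsLocalRing.maximalIdeal T ^ n) →
    ∀ a : Fin N → A, (∀ x : A, ∃ b : Fin N → A, x = ∑ k, b k ^ p * a k) →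
      ∀ t : T, ∃ b : Fin N → T, t = ∑ k, b k ^ p * ι (a k)

/-- **CEK.** A Cartier map of `R` extends to the fraction field: `Φ(a / s) = φ(a s^{p-1}) / s`. -/
def S_CEK : Prop :=
  ∀ (p : ℕ) [Fact p.Prime] (R K : Type) [CommRing R] [IsDomain R] [Field K] [Algebra R K]
    [IsFractionRing R K] (φ : R →+ R), IsCartier p φ →
    ∃ Φ : K →+ K, IsCartier p Φ ∧ ∀ r, Φ (algebraMap R K r) = algebraMap R K (φ r)

/-- **CIK.** Every Cartier map of `R` is `Φ(u ·)`. (From `S_CEK`.)
Proof. Extend `φ` to `K` (`S_CEK`). `K` is finite over `K^p` (`R` is F-finite) and the `K`-vector space of the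
Cartier maps of `K` (`(u φ)(x) = φ(u x)`) has dimension one: over `K^p` both `K` and
`Hom_{K^p}(K, K^p)` have dimension `[K : K^p]`, and `u ↦ Φ(u ·)` is injective. -/
def S_CIK : Prop :=
  ∀ (p : ℕ) [Fact p.Prime] (R K : Type) [CommRing R] [IsDomain R] [CharP R p] [Field K]
    [Algebra R K] [IsFractionRing R K], (frobenius R p).Finite →
    ∀ Φ : K →+ K, IsCartier p Φ → Φ ≠ 0 → ∀ φ : R →+ R, IsCartier p φ →
      ∃ u : K, ∀ r, algebraMap R K (φ r) = Φ (u * algebraMap R K r)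

/-- **CIL.** `Dq p C` and `CI S Φ` differ by a factor. (From `S_CIK` and `S_CRT`,
`Pool.Agent.H404.FT867CRT.crt`.)
Proof. `E` from `S_CRT`, and `u φ ∈ K` with `φ = Φ(u_φ ·)`. As in the proof of `S_IND`
(`Pool.Agent.H25.FT867IND`) `E φ = z u_φ` for all `φ` with one `z ≠ 0`. The `u_φ` are all the elements of
`CI S Φ`. -/
def S_CIL : Prop :=
  ∀ (p : ℕ) [Fact p.Prime] (P S K : Type) [CommRing P] [IsDomain P] [IsNoetherianRing P]
    [IsIntegrallyClosed P] [CommRing S] [IsDomain S] [IsIntegrallyClosed S] [CharP S p]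
    [Algebra P S] [Module.Finite P S] [FaithfulSMul P S]
    [Field K] [Algebra S K] [IsFractionRing S K] (C : Submodule S K),
    CartGen P (p ^ 1) → (frobenius S p).Finite → IsCanonical P C →
    ∀ Φ : K →+ K, IsCartier p Φ → Φ ≠ 0 →
      ∃ z : K, z ≠ 0 ∧ Dq (p ^ 1) C = Submodule.span S {z} * CI S Φ

/-- **CIF.** `CI R Φ` is finitely generated and not zero.
Proof. `R = ∑ R^p r_k`, `k = 1..N`. `s` a common denominator of the `Φ(r_k)`: `s^p ∈ CI R Φ`. The map
`u ↦ (Φ(u r_k))_k`, `CI R Φ → R^N`, is injective (`Φ(u K) = 0` only for `u = 0`) and additive and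
`Φ(c^p u r_k) = c Φ(u r_k)`; so `CI R Φ`, as an `R`-module through the Frobenius, is a submodule of `R^N`, finitely
generated, a fortiori over `R`. -/
def S_CIF : Prop :=
  ∀ (p : ℕ) [Fact p.Prime] (R K : Type) [CommRing R] [IsDomain R] [IsNoetherianRing R] [CharP R p]
    [Field K] [Algebra R K] [IsFractionRing R K], (frobenius R p).Finite →
    ∀ Φ : K →+ K, IsCartier p Φ → Φ ≠ 0 → (CI R Φ).FG ∧ CI R Φ ≠ ⊥

/-- **FBC.** Flat base change for `CI`.
Proof. `R = ∑_{k=1..N} R^p r_k`; `u_1, …, u_n ∈ R` a basis of `K` over `K^p`; `m_{kj} = Φ(u_j r_k) ∈ K`.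
`u = ∑ x_j^p u_j ∈ CI R Φ` iff `x ∈ W = {x ∈ K^n : ∑_j m_{kj} x_j ∈ R for all k}`. `M = (m_{kj})` is injective on
`K^n`. Claim: `{x ∈ K'^n : ∑_j j(m_{kj}) x_j ∈ T for all k} = T W`. Let `Λ` be a matrix with entries in `R` whose
kernel in `K^N` is `M K^n`; for `x` in the left hand side, `y = M x ∈ T^N` satisfies `Λ y = 0`; `T` is flat over
`R`, so (equational criterion, `Mathlib/RingTheory/Flat/EquationalCriterion.lean`, compare
`Pool.Agent.H124.FT867FDV`) `y = ∑ t_l y_l`, `y_l ∈ R^N`, `Λ y_l = 0`, so `y_l = M x_l`, `x_l ∈ W`, and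
`x = ∑ t_l x_l`. `⊆`: `Φ'(j(w) t) ∈ T` for `w ∈ CI R Φ`: write `t` as in the last hypothesis; `Φ'(j(w r) Z^i) ∈ T`.
`⊇`: let `v ∈ CI T Φ'`; by the last hypothesis `K' = ∑ K'^p u_j Z^i`, `i < m`, so
`v = ∑ v_{ji}^p u_j Z^i`. For `r ∈ R`, `l < m`:
`Φ'(v r Z^l) = ∑ v_{ji} Φ'(j(u_j r) Z^{i+l}) = ∑_j v_{j,m-1-l} j(Φ(u_j r)) ∈ T`, so by the claim
`v_{ji} = ∑_l t_l j(x_{l,j})` with `x_l ∈ W` (depending on `i`), and
`∑_j v_{ji}^p u_j = ∑_l t_l^p j(∑_j x_{l,j}^p u_j)`. -/
def S_FBC : Prop :=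
  ∀ (p m : ℕ) [Fact p.Prime] (R T K K' : Type) [CommRing R] [IsDomain R] [IsNoetherianRing R]
    [CharP R p] [CommRing T] [IsDomain T] [CharP T p] [Algebra R T] [Module.Flat R T]
    [Field K] [Algebra R K] [IsFractionRing R K] [Field K'] [Algebra T K'] [IsFractionRing T K']
    (j : K →+* K'), (∀ r : R, j (algebraMap R K r) = algebraMap T K' (algebraMap R T r)) →
    (frobenius R p).Finite → 1 ≤ m →
    ∀ (Z : T) (Φ : K →+ K) (Φ' : K' →+ K'), IsCartier p Φ → Φ ≠ 0 → IsCartier p Φ' →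
    (∀ (x : K) (n : ℕ), n ≤ 2 * m - 2 →
      Φ' (j x * algebraMap T K' Z ^ n) = if n = m - 1 then j (Φ x) else 0) →
    (∀ t : T, ∃ (n : ℕ) (b : Fin n → Fin m → T) (r : Fin n → R),
      t = ∑ a, ∑ i, b a i ^ p * (algebraMap R T (r a) * Z ^ (i : ℕ))) →
    Submodule.span T (j '' (CI R Φ : Set K)) = CI T Φ'

/-- **TEX.** Torsion extends along flat maps. (From `S_FDV`, proved: `Pool.Agent.H124.FT867.fdv`.)
Proof. The `T`-span of `D^n` is the `n`-th power of that of `D`; apply `S_FDV` to `D^n` and `1 / D^n` (both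
finitely generated and `≠ ⊥`, `R` Noetherian; as in `Pool.Agent.H102.FT867DES`). -/
def S_TEX : Prop :=
  ∀ (R T K K' : Type) [CommRing R] [IsDomain R] [IsNoetherianRing R] [CommRing T] [IsDomain T]
    [Algebra R T] [Module.Flat R T] [Field K] [Algebra R K] [IsFractionRing R K] [Field K']
    [Algebra T K'] [IsFractionRing T K'] (j : K →+* K'),
    (∀ r : R, j (algebraMap R K r) = algebraMap T K' (algebraMap R T r)) →
    ∀ D : Submodule R K, D.FG → D ≠ ⊥ → Tors D →
      Tors (Submodule.span T (j '' (D : Set K)))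

end Pool.Agent.H867.FT
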