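import Pool.Agent.H867.FT.Gen

/-!
# Statements for the full upper bound `fpt(𝔪) ≤ d - 3/2` (cubic case and the non-CM case)

Notation as in `Gen.lean`: `P` regular local (in the end `P = k[[X_1..X_d]]`), `R ⊇ P` finite,
`L ⊆ K` the fraction fields, `V` a discrete valuation ring of `L` dominating `P`, `W` its integral
closure in `K`, `C = {y ∈ K : Tr(y R) ⊆ P}`.  In rank three (`S_CUB`, proved)
`F = a X³ + b X² Y + c X Y² + d Y³`, `F(x, 1) = 0`, `ω = a x`, `θ = a x² + b x + c`.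
-/

namespace Pool.Agent.H867.FT

/-- `M_n = P + P x + ⋯ + P x^n`. -/
abbrev Mn (P : Type) {K : Type} [CommRing P] [Field K] [Algebra P K] (x : K) (n : ℕ) :
    Submodule P K :=
  Submodule.span P (Set.range fun i : Fin (n + 1) => x ^ (i : ℕ))

/-- The conclusion of `S_CUB`. -/
structure IsCub {P R : Type} (L : Type) {K : Type} [CommRing P] [CommRing R] [Algebra P R]
    [Field L] [Field K] [Algebra R K] [Algebra P K] [Algebra L K] (C : Submodule R K)
    (a b c d : P) (x y₀ : K) (ω θ : R) : Prop where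
  ha : a ≠ 0
  hy : y₀ ≠ 0
  root : algebraMap P K a * x ^ 3 + algebraMap P K b * x ^ 2 + algebraMap P K c * x +
        algebraMap P K d = 0
  hω : algebraMap R K ω = algebraMap P K a * x
  hθ : algebraMap R K θ = algebraMap P K a * x ^ 2 + algebraMap P K b * x + algebraMap P K c
  gen : ∀ r : R, ∃ r₀ r₁ r₂ : P, r = algebraMap P R r₀ + r₁ • ω + r₂ • θ
  ind : ∀ l₀ l₁ l₂ : L, algebraMap L K l₀ + algebraMap L K l₁ * x + algebraMap L K l₂ * x ^ 2 = 0 →
        l₀ = 0 ∧ l₁ = 0 ∧ l₂ = 0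
  hC : ∀ y : K, y ∈ C ↔ ∃ g₀ g₁ g₂ : P, y = y₀ * (algebraMap P K g₀ + algebraMap P K g₁ * x +
        algebraMap P K g₂ * algebraMap R K θ)

/-- **SHF.** Change of coordinates of the binary cubic: `x ↦ x - ξ` and `x ↦ 1/x`.
Proof. Shift: `ω' = ω - a ξ`, `θ' = θ + ξ ω + b ξ + a ξ²`. Swap: `d ≠ 0` and `x ≠ 0` by `ind`
(`x (a x² + b x + c) = -d`), `ω' = d / x = -θ`, `θ' = d / x² + c / x + b = -ω`,
`y₀ x (P + P / x + P θ') = y₀ (P + P x + P a x²) = y₀ (P + P x + P θ)`. -/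
def S_SHF : Prop :=
  ∀ (P R L K : Type) [CommRing P] [IsDomain P] [CommRing R] [IsDomain R]
    [Algebra P R] [Field L] [Algebra P L] [IsFractionRing P L]
    [Field K] [Algebra R K] [IsFractionRing R K] [Algebra P K] [IsScalarTower P R K]
    [Algebra L K] [IsScalarTower P L K] (C : Submodule R K) (a b c d : P) (x y₀ : K) (ω θ : R),
    IsCub L C a b c d x y₀ ω θ →
    (∀ ξ : P, ∃ ω' θ' : R, IsCub L C a (b + 3 * a * ξ) (c + 2 * b * ξ + 3 * a * ξ ^ 2)
      (a * ξ ^ 3 + b * ξ ^ 2 + c * ξ + d) (x - algebraMap P K ξ) y₀ ω' θ') ∧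
    d ≠ 0 ∧ x ≠ 0 ∧ ∃ ω' θ' : R, IsCub L C d c b a x⁻¹ (y₀ * x) ω' θ'

/-- **GOR.** If one of `a, b, c, d` is a unit then `C` is principal.
Proof. `C = y₀ (R + R x)`. If `a` is a unit, `x ∈ R` and `C = y₀ R`. If `F(l, 1)` is a unit for some
`l ∈ P` then, with `x' = x - l` (see `S_SHF`), `x' θ' = -F(l,1)`, so `R + R x' = R x'`. If `a, d` are not
units and `b` or `c` is, the polynomial `F(X, 1)` is nonzero of degree `≤ 3` modulo `𝔪`, so one of four
elements with unit differences is not a root modulo `𝔪` (Vandermonde). -/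
def S_GOR : Prop :=
  ∀ (P R L K : Type) [CommRing P] [IsDomain P] [IsLocalRing P] [CommRing R] [IsDomain R]
    [Algebra P R] [Field L] [Algebra P L] [IsFractionRing P L]
    [Field K] [Algebra R K] [IsFractionRing R K] [Algebra P K] [IsScalarTower P R K]
    [Algebra L K] [IsScalarTower P L K] (C : Submodule R K) (a b c d : P) (x y₀ : K) (ω θ : R)
    (l : Fin 4 → P), (∀ i j, i ≠ j → IsUnit (l i - l j)) →
    IsCub L C a b c d x y₀ ω θ → (IsUnit a ∨ IsUnit b ∨ IsUnit c ∨ IsUnit d) →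
    ∃ y : K, y ≠ 0 ∧ C = Submodule.span R {y}

/-- **NYO.** `N(y₀) disc(R/P) = a` up to a unit of `P`.
Proof. Replacing `bs` by `1, ω, θ` changes `disc` by the square of a unit. `C` has the `P`-bases
`y₀, y₀ x, y₀ θ` and (trace) dual basis of `1, ω, θ`, so the matrix `Tr(y₀ u_i b_j)`,
`u = (1, x, θ)`, `b = (1, ω, θ)`, is invertible over `P`. Since `ω = a x`, its determinant is
`N(y₀) disc(1, ω, θ) / a`. -/
def S_NYO : Prop :=
  ∀ (P R L K : Type) [CommRing P] [IsDomain P] [CommRing R] [IsDomain R]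
    [Algebra P R] [Field L] [Algebra P L] [IsFractionRing P L]
    [Field K] [Algebra R K] [IsFractionRing R K] [Algebra P K] [IsScalarTower P R K]
    [Algebra L K] [IsScalarTower P L K] [FiniteDimensional L K]
    [Algebra.IsSeparable L K] (bs : Module.Basis (Fin 3) P R) (C : Submodule R K)
    (a b c d : P) (x y₀ : K) (ω θ : R),
    (∀ y : K, y ∈ C ↔
      ∀ r : R, ∃ g : P, algebraMap P L g = Algebra.trace L K (y * algebraMap R K r)) →
    IsCub L C a b c d x y₀ ω θ →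
    ∃ ε : P, IsUnit ε ∧
      Algebra.norm L y₀ * algebraMap P L (Algebra.discr P bs) = algebraMap P L (ε * a)

/-- **EON.** Suppose `a = π u`, `u ∈ V` a unit, and `π` divides `b, c, d` in `V`. Then `x ∈ W` and
`1 / (δ π y₀) ∈ W`.
Proof. `x³ + (b/a) x² + (c/a) x + d/a = 0` with coefficients in `V`, so `x ∈ W`. By the characterization
of `δ` it suffices that `y / (π y₀) ∈ W` for all `y ∈ K` with `Tr(y W) ⊆ V`. Let `y` be such; the trace
dual `P`-basis of `1, ω, θ` lies in `C`, and `R ⊆ W`, so `y ∈ C V = y₀ (V + V x + V θ)`; the same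
for `y x`, `y x²`. Write `y = y₀ (g₀ + g₁ x + g₂ θ)`. `θ x = -d`, `x² = (θ - b x - c)/a`, so the
`θ`-coordinate of `y x / y₀` is `g₁ / a`: `π ∣ g₁`; similarly (`y x² ∈ C V`) `π ∣ g₀`. As
`θ = a x² + b x + c ∈ π W`, we get `y ∈ y₀ π W`. -/
def S_EON : Prop :=
  ∀ (P R V L W K : Type) [CommRing P] [IsDomain P] [CommRing R] [IsDomain R] [Algebra P R]
    [CommRing V] [IsDomain V] [IsDiscreteValuationRing V] [Algebra P V] [Field L]
    [Algebra P L] [IsFractionRing P L] [Algebra V L] [IsFractionRing V L] [IsScalarTower P V L]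
    [Field K] [Algebra R K] [IsFractionRing R K] [Algebra P K] [IsScalarTower P R K]
    [CommRing W] [IsDomain W] [Algebra V W]
    [Algebra W K] [IsFractionRing W K] [Algebra L K] [Algebra V K] [IsScalarTower V L K]
    [IsScalarTower P L K] [IsScalarTower P V K]
    [IsScalarTower V W K] [IsIntegralClosure W V K] [FiniteDimensional L K]
    [Algebra.IsSeparable L K] (C : Submodule R K) (a b c d : P) (x y₀ : K) (ω θ : R)
    (π : P) (δ : W),
    Module.finrank L K = 3 →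
    (∀ y : K, y ∈ C ↔
      ∀ r : R, ∃ g : P, algebraMap P L g = Algebra.trace L K (y * algebraMap R K r)) →
    IsCub L C a b c d x y₀ ω θ → Irreducible (algebraMap P V π) →
    (∃ u : V, IsUnit u ∧ algebraMap P V a = algebraMap P V π * u) →
    algebraMap P V π ∣ algebraMap P V b → algebraMap P V π ∣ algebraMap P V c →
    algebraMap P V π ∣ algebraMap P V d → δ ≠ 0 →
    (∀ y : K, (∀ w : W, ∃ v : V, algebraMap V L v = Algebra.trace L K (y * algebraMap W K w)) ↔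
        ∃ w : W, y * algebraMap W K δ = algebraMap W K w) →
    (∃ xW : W, algebraMap W K xW = x) ∧
    ∃ w₁ : W, algebraMap W K w₁ * (algebraMap W K δ * algebraMap P K π * y₀) = 1

/-- **BND.** Let `w h π^N = π^M` (`w ∈ W`), `N(h) = ε g π^n` (`ε` a unit), and suppose that `g / h` is
integral at one prime `𝔔 ∋ π` of `W`. Then `2 N + n ≤ 2 M`.
Proof. `v` = valuation of `V`, `e = v_𝔔(π)`. Norms: `v(N w) + v(g) + n + 3 N = 3 M`. From
`s g = r h`: `s g w π^N = r π^M`, so `v_𝔔(w) ≥ e (M - N - v(g))`, hence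
`v(N w) ≥ M - N - v(g)` (`W` is a PID; the norm of the prime element of `𝔔` is divisible by `π`), and
`v(N w) ≥ 0`. So `3 M - v(g) - n - 3 N ≥ max(0, M - N - v(g))`, which gives the claim. -/
def S_BND : Prop :=
  ∀ (V L W K : Type) [CommRing V] [IsDomain V] [IsDiscreteValuationRing V] [Field L]
    [Algebra V L] [IsFractionRing V L] [CommRing W] [IsDomain W] [Algebra V W] [Field K]
    [Algebra W K] [IsFractionRing W K] [Algebra L K] [Algebra V K] [IsScalarTower V L K]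
    [IsScalarTower V W K] [IsIntegralClosure W V K] [FiniteDimensional L K]
    [Algebra.IsSeparable L K] (n N M : ℕ) (π g ε : V) (w : W) (h : K) (𝔔 : Ideal W) (s r : W),
    Module.finrank L K = 3 → Irreducible π → IsUnit ε → g ≠ 0 → h ≠ 0 →
    algebraMap W K w * h * algebraMap V K π ^ N = algebraMap V K π ^ M →
    Algebra.norm L h = algebraMap V L (ε * g * π ^ n) →
    𝔔.IsPrime → algebraMap V W π ∈ 𝔔 → s ∉ 𝔔 →
    algebraMap W K s * algebraMap V K g = algebraMap W K r * h →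
    2 * N + n ≤ 2 * M

/-- **BNT.** Let `w h π^N = π^M` (`w ∈ W`), `h⁴ τ^n ∈ W`, and suppose that `π² τ` is a unit at a
prime `𝔔 ∋ π` of `W`. Then `2 N + n ≤ 2 M`.
Proof. `v = v_𝔔`, `e = v(π) ≥ 1`: `v(τ) = -2 e`, `4 v(h) ≥ 2 e n`, `v(h) + N e ≤ M e`. -/
def S_BNT : Prop :=
  ∀ (V L W K : Type) [CommRing V] [IsDomain V] [IsDiscreteValuationRing V] [Field L]
    [Algebra V L] [IsFractionRing V L] [CommRing W] [IsDomain W] [Algebra V W] [Field K]
    [Algebra W K] [IsFractionRing W K] [Algebra L K] [Algebra V K] [IsScalarTower V L K]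
    [IsScalarTower V W K] [IsIntegralClosure W V K] [FiniteDimensional L K]
    [Algebra.IsSeparable L K] (n N M : ℕ) (π : V) (w : W) (h τ : K) (𝔔 : Ideal W) (s s' r : W),
    Irreducible π → h ≠ 0 →
    algebraMap W K w * h * algebraMap V K π ^ N = algebraMap V K π ^ M →
    𝔔.IsPrime → algebraMap V W π ∈ 𝔔 → s ∉ 𝔔 → s' ∉ 𝔔 →
    algebraMap W K s * (algebraMap V K π ^ 2 * τ) = algebraMap W K s' →
    h ^ 4 * τ ^ n = algebraMap W K r →
    2 * N + n ≤ 2 * M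

/-- **CON.** (Steps (1)-(3) of the proof of `S_REF`.) If `t` lies in `M_n` at every height one prime
of `P` then `u^j t ∈ M_n` for every `u ∈ (a, b, c, d)` and some `j`. -/
def S_CON : Prop :=
  ∀ (P L K : Type) [CommRing P] [IsDomain P] [IsNoetherianRing P] [IsIntegrallyClosed P]
    [Field L] [Algebra P L] [IsFractionRing P L] [Field K] [Algebra P K]
    [Algebra L K] [IsScalarTower P L K] (a b c d : P) (x : K) (n : ℕ)
    (l : Fin 3 → P), 2 ≤ n → a ≠ 0 →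
    algebraMap P K a * x ^ 3 + algebraMap P K b * x ^ 2 + algebraMap P K c * x +
        algebraMap P K d = 0 →
    (∀ l₀ l₁ l₂ : L, algebraMap L K l₀ + algebraMap L K l₁ * x + algebraMap L K l₂ * x ^ 2 = 0 →
        l₀ = 0 ∧ l₁ = 0 ∧ l₂ = 0) →
    (∀ z : K, ∃ l₀ l₁ l₂ : L, z = algebraMap L K l₀ + algebraMap L K l₁ * x +
      algebraMap L K l₂ * x ^ 2) →
    (∀ i j, i ≠ j → IsUnit (l i - l j)) →
    ∀ t : K, (∀ 𝔭 : Ideal P, 𝔭.IsPrime → 𝔭.height = 1 →
        ∃ s : P, s ∉ 𝔭 ∧ algebraMap P K s * t ∈ Mn P x n) →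
      ∀ u ∈ Ideal.span {a, b, c, d}, ∃ j : ℕ, algebraMap P K (u ^ j) * t ∈ Mn P x n

/-- **CHI.** Let `F(X, 1) = a X³ + b X² + c X + z^k ρ`, `k ≥ 1`, `x = z^k χ`, `(z, c)` a regular sequence,
`ρ` not a zero divisor modulo `(c, z)`, nor modulo `c`. If `z^j t` and `c^j t` are in `M_n` then
`t ∈ P[χ]`.
Proof. `G(χ) = 0` for `G = a z^{2k} T³ + b z^k T² + c T + ρ ∈ P[T]`, and `a z^{2k} ≠ 0`, `1, χ, χ²` are
independent over `L`. (i) If `s ∣ G H` in `P[T]`, `0 ≠ s ∈ P`, then `s ∣ H`: otherwise, by McCoy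
(`Polynomial.notMem_nonZeroDivisors_iff` in `(P/s)[T]`) some `u ∉ (s)` is killed by all coefficients
of `G` mod `s`, so `s ∣ c u`, `s ∣ ρ u`; `c u = s c'`, `ρ u = s ρ'`, `c ρ' = ρ c'`, so `c ∣ c'` by the
hypothesis on `c, ρ`, and `s ∣ u`. (ii) So every `Q ∈ P[T]` with `Q(χ) = 0` is in `G P[T]` (clear
denominators of the quotient in `L[T]`). (iii) If `c Q ∈ (z, G)` in `P[T]` then `Q ∈ (z, G)`:
`c Q = z A + G B`; mod `(z, c)`, `G = ρ`, so `ρ B ∈ (z, c) P[T]`, `B = z B₁ + c B₂`,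
`c (Q - G B₂) = z (A + G B₁)`, so `z ∣ Q - G B₂`. The same with `c^j`, `z^j` by induction (`G` and
`z` : `z Q ∈ G P[T]` implies `Q ∈ G P[T]` by (i)). (iv) `z^j t = Q₁(χ)`, `c^j t = Q₂(χ)`,
`c^j Q₁ - z^j Q₂ ∈ (G)`, so `Q₁ ∈ (z^j, G)` and `t ∈ P[χ]`. -/
def S_CHI : Prop :=
  ∀ (P L K : Type) [CommRing P] [IsDomain P]
    [Field L] [Algebra P L] [IsFractionRing P L] [Field K] [Algebra P K]
    [Algebra L K] [IsScalarTower P L K] (a b c z ρ : P) (k n j : ℕ) (x χ t : K),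
    1 ≤ k → a ≠ 0 → z ≠ 0 → c ≠ 0 →
    algebraMap P K a * x ^ 3 + algebraMap P K b * x ^ 2 + algebraMap P K c * x +
        algebraMap P K (z ^ k * ρ) = 0 →
    (∀ l₀ l₁ l₂ : L, algebraMap L K l₀ + algebraMap L K l₁ * x + algebraMap L K l₂ * x ^ 2 = 0 →
        l₀ = 0 ∧ l₁ = 0 ∧ l₂ = 0) →
    (∀ u, z ∣ c * u → z ∣ u) → (∀ u, c ∣ ρ * u → c ∣ u) →
    (∀ u, ρ * u ∈ Ideal.span {c, z} → u ∈ Ideal.span {c, z}) →
    algebraMap P K (z ^ k) * χ = x →
    algebraMap P K (z ^ j) * t ∈ Mn P x n → algebraMap P K (c ^ j) * t ∈ Mn P x n →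
    t ∈ Algebra.adjoin P {χ}

/-- **PLA.** `a x³ + b x² + c x + z^k ρ = 0` with `a, c, z` of valuation one and `b, ρ` of valuation
`≥ 1`. Then `χ = x / z^k` is integral at some prime `𝔔 ∋ π` of `W`.
Proof. The norm of `x` is `- z^k ρ / a` up to sign (`finrank = 3`, minimal polynomial), in `π V`
(`k + 1 - 1 ≥ 1`), so `x ∈ 𝔔` for some maximal `𝔔` of `W`. `x (a' x² + b' x + c') = - z^k ρ / π`,
`a' = a/π` etc., and `a' x² + b' x + c' ∉ 𝔔` as `c'` is a unit. So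
`χ = - (ρ/π) / (a' x² + b' x + c')`. -/
def S_PLA : Prop :=
  ∀ (V L W K : Type) [CommRing V] [IsDomain V] [IsDiscreteValuationRing V] [Field L]
    [Algebra V L] [IsFractionRing V L] [CommRing W] [IsDomain W] [Algebra V W] [Field K]
    [Algebra W K] [IsFractionRing W K] [Algebra L K] [Algebra V K] [IsScalarTower V L K]
    [IsScalarTower V W K] [IsIntegralClosure W V K] [FiniteDimensional L K]
    [Algebra.IsSeparable L K] (π a' b' c' z ρ' : V) (k : ℕ) (x : W) (χ : K),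
    Module.finrank L K = 3 → Irreducible π → 1 ≤ k → IsUnit a' → IsUnit c' → z ≠ 0 → π ∣ z →
    algebraMap V W a' * x ^ 3 + algebraMap V W b' * x ^ 2 + algebraMap V W c' * x +
      algebraMap V W (z ^ k * ρ') = 0 →
    (∀ l₀ l₁ l₂ : L, algebraMap L K l₀ + algebraMap L K l₁ * algebraMap W K x +
      algebraMap L K l₂ * algebraMap W K x ^ 2 = 0 → l₀ = 0 ∧ l₁ = 0 ∧ l₂ = 0) →
    algebraMap V K z ^ k * χ = algebraMap W K x →
    ∃ (𝔔 : Ideal W) (s r : W), 𝔔.IsPrime ∧ algebraMap V W π ∈ 𝔔 ∧ s ∉ 𝔔 ∧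
      algebraMap W K s * χ = algebraMap W K r

/-- **PLB.** `x (x - ξ) (a' x + z') + e x + d = 0` with `a', z', z' + ξ a'` units of `V`,
`e, d ∈ π V`. Then there is a prime `𝔔 ∋ π` of `W` with `x (x - ξ) ∉ 𝔔`.
Proof. `u = a' x + z' ∈ W` has norm `± a'^2 f(-z'/a')·(unit)` with
`f = X (X-ξ)(a' X + z') + e X + d`, and `f(-z'/a') = -e z'/a' + d ∈ π V`. So `u` is not a unit, it is in
some maximal `𝔔`, and mod `𝔔`: `x ≡ -z'/a'`, `x - ξ ≡ -(z' + ξ a')/a'` are units. -/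
def S_PLB : Prop :=
  ∀ (V L W K : Type) [CommRing V] [IsDomain V] [IsDiscreteValuationRing V] [Field L]
    [Algebra V L] [IsFractionRing V L] [CommRing W] [IsDomain W] [Algebra V W] [Field K]
    [Algebra W K] [IsFractionRing W K] [Algebra L K] [Algebra V K] [IsScalarTower V L K]
    [IsScalarTower V W K] [IsIntegralClosure W V K] [FiniteDimensional L K]
    [Algebra.IsSeparable L K] (π a' z' e d ξ : V) (x : W),
    Module.finrank L K = 3 → Irreducible π → IsUnit a' → IsUnit z' → IsUnit (z' + ξ * a') →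
    π ∣ e → π ∣ d →
    x * (x - algebraMap V W ξ) * (algebraMap V W a' * x + algebraMap V W z') +
      algebraMap V W e * x + algebraMap V W d = 0 →
    (∀ l₀ l₁ l₂ : L, algebraMap L K l₀ + algebraMap L K l₁ * algebraMap W K x +
      algebraMap L K l₂ * algebraMap W K x ^ 2 = 0 → l₀ = 0 ∧ l₁ = 0 ∧ l₂ = 0) →
    ∃ 𝔔 : Ideal W, 𝔔.IsPrime ∧ algebraMap V W π ∈ 𝔔 ∧ x * (x - algebraMap V W ξ) ∉ 𝔔

/-- **TAU.** Let `x (x - ξ)(a x + z) + e x + d = 0` with `e = e₁ a² + e₂ a z + e₃ z²`,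
`d = d₁ a² + d₂ a z + d₃ z²`. Then `τ = T / a²`,
`T = x (x-ξ) + z (e₃ x + d₃) + a (e₂ x + d₂) - a x (e₃ x + d₃)`, has `a² τ, z² τ ∈ M_4`.
Proof. Put `T' = - x² (x-ξ) - x z (e₃ x + d₃) - a (e₁ x + d₁)`,
`T'' = x³ (x-ξ) + x (a (e₁ x + d₁) + z (e₂ x + d₂)) - z (e₁ x + d₁)`. Then `a T' = z T` and
`a T'' = z T'` by `ring` and the equation, so `z² τ = T''`. -/
def S_TAU : Prop :=
  ∀ (P K : Type) [CommRing P] [IsDomain P] [Field K] [Algebra P K] [FaithfulSMul P K]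
    (a z e d ξ e₁ e₂ e₃ d₁ d₂ d₃ : P) (x : K), a ≠ 0 →
    e = e₁ * a ^ 2 + e₂ * a * z + e₃ * z ^ 2 → d = d₁ * a ^ 2 + d₂ * a * z + d₃ * z ^ 2 →
    x * (x - algebraMap P K ξ) * (algebraMap P K a * x + algebraMap P K z) +
      algebraMap P K e * x + algebraMap P K d = 0 →
    ∃ τ : K, algebraMap P K (a ^ 2) * τ ∈ Mn P x 4 ∧ algebraMap P K (z ^ 2) * τ ∈ Mn P x 4 ∧
      ∃ m₀ m₁ m₂ : P, m₀ ∈ Ideal.span {a, z} ∧ m₁ ∈ Ideal.span {a, z} ∧ m₂ ∈ Ideal.span {a, z} ∧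
        algebraMap P K (a ^ 2) * τ = x * (x - algebraMap P K ξ) + algebraMap P K m₀ +
          algebraMap P K m₁ * x + algebraMap P K m₂ * x ^ 2

/-- **BCN.** (Same hypotheses as `S_LOB`.) `β C^{q-1} ⊆ R`.
Proof. As for `S_LOB`: at a height one prime `𝔭` of `P`, `R_𝔭` is a semilocal Dedekind domain, a
PID, so `C_𝔭 = y R_𝔭`, `β y^q ∈ C_𝔭 = y R_𝔭`, `β y^{q-1} ∈ R_𝔭`, `β (C^{q-1})_𝔭 ⊆ R_𝔭`. An element of `K`
which is in `R_𝔭` for all `𝔭` of height one has a minimal polynomial over `L` with coefficients in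
`⋂ P_𝔭 = P` (`S_KRU`), so it is in `R`. -/
def S_BCN : Prop :=
  ∀ (q : ℕ) (P R L K : Type) [CommRing P] [IsDomain P] [IsNoetherianRing P]
    [IsIntegrallyClosed P] [CommRing R] [IsDomain R] [IsIntegrallyClosed R]
    [Algebra P R] [Module.Finite P R] [Field L]
    [Algebra P L] [IsFractionRing P L]
    [Field K] [Algebra R K] [IsFractionRing R K] [Algebra P K] [IsScalarTower P R K]
    [Algebra L K] [IsScalarTower P L K] [FiniteDimensional L K]
    [Algebra.IsSeparable L K]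
    (C : Submodule R K) (β : K), 1 ≤ q →
    (∀ y : K, y ∈ C ↔
      ∀ r : R, ∃ g : P, algebraMap P L g = Algebra.trace L K (y * algebraMap R K r)) →
    (∀ y ∈ C, β * y ^ q ∈ C) →
    ∀ y ∈ C ^ (q - 1), ∃ r : R, β * y = algebraMap R K r

/-- **HTN.** `R` free over `P`, `β C^n ⊆ R`, `a² σ, z² σ ∈ C⁴`, `(a, z)` a regular sequence. Then
`β⁴ σ^n ∈ R`.
Proof. `a^{2n} β⁴ σ^n = β⁴ (a² σ)^n ∈ β⁴ C^{4n} ⊆ R` and the same with `z`; `(a^{2n}, z^{2n})` is a
regular sequence on `P`, so on the free module `R`. -/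
def S_HTN : Prop :=
  ∀ (P R K : Type) [CommRing P] [IsDomain P] [CommRing R] [IsDomain R]
    [Algebra P R] [Module.Finite P R] [Module.Free P R]
    [Field K] [Algebra R K] [IsFractionRing R K] [Algebra P K] [IsScalarTower P R K]
    (C : Submodule R K) (β σ : K) (a z : P) (n : ℕ), a ≠ 0 → (∀ u, a ∣ z * u → a ∣ u) →
    (∀ y ∈ C ^ n, ∃ r : R, β * y = algebraMap R K r) →
    algebraMap P K (a ^ 2) * σ ∈ C ^ 4 → algebraMap P K (z ^ 2) * σ ∈ C ^ 4 →
    ∃ r : R, β ^ 4 * σ ^ n = algebraMap R K r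

/-- **KEE.** `S_KEY` with `π^{q-1}` replaced by `ρ^{q-1}`, where `ρ ∈ W` is in every nonzero prime of
`W`. (Same proof: only `v_ϖ(ρ) ≥ 1` for all primes `ϖ` was used.) -/
def S_KEE : Prop :=
  ∀ (V L W K : Type) [CommRing V] [IsDomain V] [IsDiscreteValuationRing V] [Field L]
    [Algebra V L] [IsFractionRing V L] [CommRing W] [IsDomain W] [Algebra V W] [Field K]
    [Algebra W K] [IsFractionRing W K] [Algebra L K] [Algebra V K] [IsScalarTower V L K]
    [IsScalarTower V W K] [IsIntegralClosure W V K] [FiniteDimensional L K]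
    [Algebra.IsSeparable L K] (q M : ℕ) (π : V) (δ ρ : W) (T : L →+ L) (γ : K),
    1 ≤ q → Irreducible π → δ ≠ 0 →
    (∀ y : K, (∀ w : W, ∃ v : V, algebraMap V L v = Algebra.trace L K (y * algebraMap W K w)) ↔
        ∃ w : W, y * algebraMap W K δ = algebraMap W K w) →
    (∀ 𝔔 : Ideal W, 𝔔.IsPrime → 𝔔 ≠ ⊥ → ρ ∈ 𝔔) →
    IsCartier q T → (∀ v : V, ∃ v' : V, T (algebraMap V L (π ^ M * v)) = algebraMap V L v') →
    (∀ y : K, Algebra.trace L K y = T (Algebra.trace L K (γ * y ^ q))) →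
    ∃ w : W, algebraMap W K w * γ =
      algebraMap W K ((δ * ρ) ^ (q - 1) * algebraMap V W π ^ M)

/-- **DBL.** (double root) `a x³ + b x² + c x + d = 0`, `v(a) = 1`, `v(b) ≥ 1`, `v(c) ≥ 2`,
`θ = a x² + b x + c`.
(1) if `v(d) ≥ 3` then `θ ∈ π² W`; (2) if `v(d) = 2` then `θ = π u` with `u ∈ W` in every nonzero prime
of `W` and `N(u) = π²` up to a unit.
Proof. `θ² = -b d - d a x + c θ`. (1) `y = θ/π²` satisfies
`y² = (c/π²) y - (b d + d a x)/π⁴`. (2) `u = θ/π` satisfies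
`u² = (c/π) u - (b d + d a x)/π² ∈ π W`, so `u ∈ W` and `u` is in every prime. `N(x) = -d/a`,
`θ x = -d`, so `N(θ) = a d²`, `N(u) = a d² / π³`. -/
def S_DBL : Prop :=
  ∀ (V L W K : Type) [CommRing V] [IsDomain V] [IsDiscreteValuationRing V] [Field L]
    [Algebra V L] [IsFractionRing V L] [CommRing W] [IsDomain W] [Algebra V W] [Field K]
    [Algebra W K] [IsFractionRing W K] [Algebra L K] [Algebra V K] [IsScalarTower V L K]
    [IsScalarTower V W K] [IsIntegralClosure W V K] [FiniteDimensional L K]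
    [Algebra.IsSeparable L K] (π a' b' c' d : V) (x : W),
    Module.finrank L K = 3 → Irreducible π → IsUnit a' →
    algebraMap V W (π * a') * x ^ 3 + algebraMap V W (π * b') * x ^ 2 +
      algebraMap V W (π ^ 2 * c') * x + algebraMap V W d = 0 →
    (∀ l₀ l₁ l₂ : L, algebraMap L K l₀ + algebraMap L K l₁ * algebraMap W K x +
      algebraMap L K l₂ * algebraMap W K x ^ 2 = 0 → l₀ = 0 ∧ l₁ = 0 ∧ l₂ = 0) →
    (π ^ 3 ∣ d → ∃ u : W, algebraMap V W (π * a') * x ^ 2 + algebraMap V W (π * b') * x +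
      algebraMap V W (π ^ 2 * c') = algebraMap V W π ^ 2 * u) ∧
    ∀ d' : V, IsUnit d' → d = π ^ 2 * d' → ∃ (u : W) (ε : V),
      algebraMap V W (π * a') * x ^ 2 + algebraMap V W (π * b') * x +
        algebraMap V W (π ^ 2 * c') = algebraMap V W π * u ∧
      (∀ 𝔔 : Ideal W, 𝔔.IsPrime → 𝔔 ≠ ⊥ → u ∈ 𝔔) ∧ IsUnit ε ∧
      Algebra.norm L (algebraMap W K u) = algebraMap V L (ε * π ^ 2)

/-- **DSC.** Discriminants: if `ω = π^i w₁`, `θ = π^j w₂`, `w₁, w₂ ∈ W`, and `1, ω, θ` generate the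
`P`-module `R` then `disc(R/P) = ε (π^{i+j} μ)² disc(W/V)`. (`μ` = determinant of `1, w₁, w₂` in the
basis of `W/V`; compare the proof of `S_LAT` in `Pool.Agent.H407.FT867LAT`.) -/
def S_DSC : Prop :=
  ∀ (P R V L W K : Type) [CommRing P] [IsDomain P] [CommRing R] [IsDomain R] [Algebra P R]
    [CommRing V] [IsDomain V] [IsDiscreteValuationRing V] [Algebra P V] [Field L]
    [Algebra P L] [IsFractionRing P L] [Algebra V L] [IsFractionRing V L] [IsScalarTower P V L]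
    [Field K] [Algebra R K] [IsFractionRing R K] [Algebra P K] [IsScalarTower P R K]
    [CommRing W] [IsDomain W] [Algebra V W]
    [Algebra W K] [IsFractionRing W K] [Algebra L K] [Algebra V K] [IsScalarTower V L K]
    [IsScalarTower P L K] [IsScalarTower P V K]
    [IsScalarTower V W K] [IsIntegralClosure W V K] [FiniteDimensional L K]
    [Algebra.IsSeparable L K] (bs : Module.Basis (Fin 3) P R) (bW : Module.Basis (Fin 3) V W)
    (ω θ : R) (π : P) (i j : ℕ) (w₁ w₂ : W),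
    (∀ r : R, ∃ r₀ r₁ r₂ : P, r = algebraMap P R r₀ + r₁ • ω + r₂ • θ) →
    algebraMap R K ω = algebraMap P K π ^ i * algebraMap W K w₁ →
    algebraMap R K θ = algebraMap P K π ^ j * algebraMap W K w₂ →
    ∃ (μ ε : V), IsUnit ε ∧ algebraMap P V (Algebra.discr P bs) =
      ε * (algebraMap P V π ^ (i + j) * μ) ^ 2 * Algebra.discr V bW

/-- **INQ.** The final computation with norms.
Proof. `v` the valuation of `V`. Norm of the main equation:
`v(N w) + v(g) + n (2 s + 2 v(μ) + v(D)) + e N + v(N f') = n (v(D) + r) + e M`. -/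
def S_INQ : Prop :=
  ∀ (V L W K : Type) [CommRing V] [IsDomain V] [IsDiscreteValuationRing V] [Field L]
    [Algebra V L] [IsFractionRing V L] [CommRing W] [IsDomain W] [Algebra V W] [Field K]
    [Algebra W K] [IsFractionRing W K] [Algebra L K] [Algebra V K] [IsScalarTower V L K]
    [IsScalarTower V W K] [IsIntegralClosure W V K] [FiniteDimensional L K]
    [Algebra.IsSeparable L K] (e n N s r M : ℕ) (π g D ε₁ ε₂ ε₃ μ : V) (w δ ρ f' : W) (β f : K),
    Module.finrank L K = e → Irreducible π → IsUnit ε₁ → IsUnit ε₂ → IsUnit ε₃ → D ≠ 0 →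
    β ≠ 0 → f ≠ 0 →
    algebraMap W K w * (β * f) = algebraMap W K ((δ * ρ) ^ n * algebraMap V W π ^ M) →
    f = algebraMap V K π ^ N * algebraMap W K f' →
    Algebra.norm L (algebraMap W K δ) = algebraMap V L (ε₁ * D) →
    Algebra.norm L (algebraMap W K ρ) = algebraMap V L (ε₂ * π ^ r) →
    Algebra.norm L β = algebraMap V L (g * (ε₃ * (π ^ s * μ) ^ 2 * D) ^ n) →
    e * N + 2 * s * n ≤ r * n + e * M

/-- **TOR.** A criterion for `D^{**} = t R`.
Proof. `D ⊆ t R` gives `t⁻¹ R ⊆ 1/D`. If `z D ⊆ R` then `s₁ z t, s₂ z t ∈ R`, and `(s₁, s₂)` is a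
regular sequence on the free `P`-module `R`, so `z t ∈ R`. Hence `1/D = t⁻¹ R`. -/
def S_TOR : Prop :=
  ∀ (P R K : Type) [CommRing P] [IsDomain P] [CommRing R] [IsDomain R]
    [Algebra P R] [Module.Finite P R] [Module.Free P R]
    [Field K] [Algebra R K] [IsFractionRing R K] [Algebra P K] [IsScalarTower P R K]
    (D : Submodule R K) (t : K) (s₁ s₂ : P), t ≠ 0 → s₁ ≠ 0 → (∀ u, s₁ ∣ s₂ * u → s₁ ∣ u) →
    (∀ y ∈ D, ∃ r : R, y = algebraMap R K r * t) →
    algebraMap P K s₁ * t ∈ D → algebraMap P K s₂ * t ∈ D →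
    1 / (1 / D) = Submodule.span R {t}

/-- **TRZ.** (no root modulo `𝔪²`)  `b, c, d ∈ (a, z) ⊆ 𝔪`, `F(l, 1) ∉ 𝔪²` for all `l ∈ P`, residue field
algebraically closed. Then for some `t`: `C³ ⊆ t R`, `a t ∈ C³`, `z t ∈ C³`.
Proof. `F(X,1) = a A + z B`, `A` monic of degree 3, `deg B ≤ 2`. A common root `l` of `A, B` mod `𝔪` would
give `F(l,1) ∈ 𝔪²`; so `A, B` are coprime mod `𝔪` and (`A` monic, Nakayama for the finite
`P`-module `P[X]/(A)`) `1 = U A + U' B` in `P[X]`. Put `t₀ = A(x)/z = -B(x)/a`, `t = y₀³ t₀`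
(`t₀ ≠ 0` as `z ≠ 0` and `1 = U(x) A(x) + U'(x) B(x)`, `z B(x) = -a A(x)`). `z t₀ = A(x)`,
`a t₀ = -B(x) ∈ M_3`. `C³ = y₀³ M_3` (`S_POW`, proved in `Pool.Agent.H975.FT867POW`), so it
remains: `x^i / t₀ ∈ R`, `0 ≤ i ≤ 3`; `R` is the integral closure of `P` in `K`, i.e. the intersection
of the valuation rings `𝒪 ⊇ P` of `K`. If `x ∈ 𝒪` then `1 = U(x) A(x) + U'(x) B(x) =
t₀ (U(x) z - U'(x) a)`, so `1/t₀ ∈ 𝒪`. If `1/x ∈ 𝔪_𝒪` then `A(x)/x³` is a unit, `t₀ z = A(x)`,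
`x³/t₀ = z x³/A(x) ∈ 𝒪`. -/
def S_TRZ : Prop :=
  ∀ (P R L K : Type) [CommRing P] [IsDomain P] [IsLocalRing P] [IsNoetherianRing P] [CommRing R]
    [IsDomain R] [IsIntegrallyClosed R] [Algebra P R] [Module.Finite P R]
    [Field L] [Algebra P L] [IsFractionRing P L]
    [Field K] [Algebra R K] [IsFractionRing R K] [Algebra P K] [IsScalarTower P R K]
    [Algebra L K] [IsScalarTower P L K] [IsAlgClosed (IsLocalRing.ResidueField P)]
    (C : Submodule R K) (a b c d z : P) (x y₀ : K) (ω θ : R),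
    IsCub L C a b c d x y₀ ω θ → z ≠ 0 →
    a ∈ IsLocalRing.maximalIdeal P → z ∈ IsLocalRing.maximalIdeal P →
    b ∈ Ideal.span {a, z} → c ∈ Ideal.span {a, z} → d ∈ Ideal.span {a, z} →
    (∀ l : P, a * l ^ 3 + b * l ^ 2 + c * l + d ∉ IsLocalRing.maximalIdeal P ^ 2) →
    ∃ t : K, t ≠ 0 ∧ (∀ y ∈ C ^ 3, ∃ r : R, y = algebraMap R K r * t) ∧
      algebraMap P K a * t ∈ C ^ 3 ∧ algebraMap P K z * t ∈ C ^ 3

/-- **TRO.** (one root modulo `𝔪²`)  `F(X,1) = X (a X² + b X + c) + z^k ρ`, `ρ` a unit, `k ≥ 2`,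
`a, b ∈ (c, z) ⊆ 𝔪`, `a ∉ 𝔪²`, and `a l² + b l + c ∉ 𝔪²` for all `l ∈ P`, residue field
algebraically closed. Then for some `t`: `C^{2k+1} ⊆ t R` and `z^k t, c^k t ∈ C^{2k+1}`.
Proof. `H = a X² + b X + c = c A + z B`, `A = a₁ X² + b₁ X + 1`, `B = a₂ X² + b₂ X`. As binary quadratic
forms mod `𝔪`, `A` and `B` have no common root in `ℙ¹` (`H(l) ∉ 𝔪²`, `a ∉ 𝔪²`). Put
`t₀ = x (A(x)/z)^k`, `t = y₀^{2k+1} t₀`; `C^{2k+1} = y₀^{2k+1} M_{2k+1}` (`S_POW`, proved in
`Pool.Agent.H975.FT867POW`). `z^k t₀ = x A(x)^k ∈ M_{2k+1}`. `c A(x)/z = H(x)/z - B(x)` and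
`x H(x) = -z^k ρ`, so `c^k t₀ = x (H(x)/z - B(x))^k` expands into `x (-B(x))^k` and terms
`-(binom) z^{k-i} ρ H(x)^{i-1} (-B(x))^{k-i}`, `1 ≤ i ≤ k`, all in `M_{2k+1}`. Remains:
`x^i / t₀ ∈ R`, `0 ≤ i ≤ 2k+1`, i.e. for every valuation ring `𝒪 ⊇ P` of `K` (valuation `v`,
`m = min(0, v(x))`), `v(t₀) ≤ (2k+1) m`.  `min(v(A(x)), v(B(x))) = 2m` (coprime forms: if
`x ∈ 𝒪`, `1 = U A + U' B` in `P[X]` — true since the reductions are coprime polynomials and
`P[X]/(A,B)` is finite over `P`, one of the leading coefficients `a₁, a₂` being a unit; if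
`1/x ∈ 𝔪_𝒪` look at the leading coefficients).
 - `v(A(x)) = 2m`, `v(x) ≤ 0`: `v(t₀) = m + k (2m - v(z)) ≤ (2k+1) m`.
 - `v(x) > 0`: `A(x)` is a unit, `v(x) ≤ v(x H(x)) = k v(z)`, so `v(t₀) ≤ 0`.
 - `v(A(x)) > 2m`, `v(x) = m`: then `v(B(x)) = 2m`; claim `v(A(x)) ≤ v(z) + 2m`. If not,
   `v(H(x)) = v(z B(x)) = v(z) + 2m`, and `m + v(z) + 2m = k v(z)`, so `(k-1) v(z) = 3m ≤ 0`,
   `v(z) = 0 = m`. Now `c x A(x) = -z (x B(x) + z^{k-1} ρ)`, so `x B(x) + z^{k-1} ρ` has positive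
   value, like `A(x)`; but `A` and `X B + z^{k-1} ρ` generate the unit ideal of `P[X]` (mod `𝔪`:
   `A(0) = 1`, `A, B` coprime), contradiction. -/
def S_TRO : Prop :=
  ∀ (P R L K : Type) [CommRing P] [IsDomain P] [IsLocalRing P] [IsNoetherianRing P] [CommRing R]
    [IsDomain R] [IsIntegrallyClosed R] [Algebra P R] [Module.Finite P R]
    [Field L] [Algebra P L] [IsFractionRing P L]
    [Field K] [Algebra R K] [IsFractionRing R K] [Algebra P K] [IsScalarTower P R K]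
    [Algebra L K] [IsScalarTower P L K] [IsAlgClosed (IsLocalRing.ResidueField P)]
    (C : Submodule R K) (a b c z ρ : P) (k : ℕ) (x y₀ : K) (ω θ : R),
    IsCub L C a b c (z ^ k * ρ) x y₀ ω θ → 2 ≤ k → IsUnit ρ → z ≠ 0 → c ≠ 0 →
    c ∈ IsLocalRing.maximalIdeal P → z ∈ IsLocalRing.maximalIdeal P →
    a ∈ Ideal.span {c, z} → b ∈ Ideal.span {c, z} → a ∉ IsLocalRing.maximalIdeal P ^ 2 →
    (∀ l : P, a * l ^ 2 + b * l + c ∉ IsLocalRing.maximalIdeal P ^ 2) →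
    ∃ t : K, t ≠ 0 ∧ (∀ y ∈ C ^ (2 * k + 1), ∃ r : R, y = algebraMap R K r * t) ∧
      algebraMap P K (z ^ k) * t ∈ C ^ (2 * k + 1) ∧ algebraMap P K (c ^ k) * t ∈ C ^ (2 * k + 1)

/-- **RHO.** (successive shifts)  `F = a T³ + b T² + c T + d` over `P = k[[X_1..X_D]]` without root in
`P`, `c, z ∈ 𝔪`, `a, b ∈ (c, z)`, `d ∈ 𝔪 (c, z)`. Then there is `ξ ∈ 𝔪` with `F(ξ) = z^k ρ`, `k ≥ 1`,
`ρ ∉ (c, z)`.
Proof. For `ξ ∈ 𝔪`, `c_ξ = F'(ξ) = c + 2 b ξ + 3 a ξ² ≡ c mod 𝔪 (c,z)`, so `(c_ξ, z) = (c, z)`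
(Nakayama), and `F(ξ + η) = F(ξ) + c_ξ η + η² (b + 3 a ξ + a η)`.
(1) There is `ξ₁ ∈ 𝔪` with `F(ξ₁) ∈ (z)`: construct `ξ^{(j)} ∈ 𝔪` with
`F(ξ^{(j)}) ∈ 𝔪^{j+1} c + (z)`, starting with `ξ^{(0)} = 0`: if `F(ξ) = c_ξ r + z s`, `r ∈ 𝔪^{j+1}` (write
`c = (unit) c_ξ + (..) z`), then `F(ξ - r) = z s + r² (b + 3 a ξ - a r) ∈ (z) + 𝔪^{j+2} c` since
`a, b ∈ (c, z)`. The sequence is Cauchy, and the limit `ξ₁` has `F(ξ₁) ∈ ⋂ ((z) + 𝔪^j) = (z)` (Krull).
(2) If the conclusion fails, `F(ξ) ∈ (z^k)` implies `F(ξ) = z^k ρ`, `ρ = c_ξ r + z s`, and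
`F(ξ - z^k r) = z^{k+1} s + z^{2k} r² (…) ∈ (z^{k+1})`. So we get a Cauchy sequence `ξ_k` with
`F(ξ_k) ∈ (z^k) ⊆ 𝔪^k`, and its limit is a root of `F` in `P`, contradiction.
(Limits: `ξ_{k+1} - ξ_k ∈ 𝔪^k`; every coefficient is eventually constant.) -/
def S_RHO : Prop :=
  ∀ (k : Type) [Field k] (D : ℕ) (a b c d z : MvPowerSeries (Fin D) k),
    c ∈ IsLocalRing.maximalIdeal (MvPowerSeries (Fin D) k) →
    z ∈ IsLocalRing.maximalIdeal (MvPowerSeries (Fin D) k) →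
    a ∈ Ideal.span {c, z} → b ∈ Ideal.span {c, z} →
    d ∈ IsLocalRing.maximalIdeal (MvPowerSeries (Fin D) k) * Ideal.span {c, z} →
    (∀ ξ, a * ξ ^ 3 + b * ξ ^ 2 + c * ξ + d ≠ 0) →
    ∃ (ξ ρ : MvPowerSeries (Fin D) k) (m : ℕ),
      ξ ∈ IsLocalRing.maximalIdeal (MvPowerSeries (Fin D) k) ∧ 1 ≤ m ∧
      ρ ∉ Ideal.span {c, z} ∧ a * ξ ^ 3 + b * ξ ^ 2 + c * ξ + d = z ^ m * ρ

/-- **RGS.** Two elements `y, z ∈ 𝔪` of `P = k[[X_1..X_D]]` with independent linear parts: `(y)` and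
`(y, z)` are prime.
Proof. Let `u, v ∉ (y, z)`, `u v ∈ (y, z)`. By Krull's intersection theorem there is a representative
`u` of its class mod `(y, z)` of maximal order; then its initial form is not in the ideal
`(ȳ, z̄)` of `k[X_1..X_D]` generated by the linear forms `ȳ, z̄` (prime: after a linear change of
variables it is generated by two variables; or: the kernel of a surjection to a polynomial ring).
Same for `v`, so `in(u v) = in(u) in(v) ∉ (ȳ, z̄)`. But the initial form of `r y + s z ≠ 0` is in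
`(ȳ, z̄)`: if the lowest parts cancel, `in(r) ȳ + in(s) z̄ = 0`, so `in(r) = h z̄`, `in(s) = -h ȳ` and
replace `r, s` by `r - h z`, `s + h y` (the orders increase; Artin–Rees or completeness; or choose
`r, s` with `ord r` maximal, possible as `r` ranges over a coset of `(z) : y = (z)`...).
Alternatively: there is an automorphism of `k[[X]]` with `X_1 ↦ y`, `X_2 ↦ z`. -/
def S_RGS : Prop :=
  ∀ (k : Type) [Field k] (D : ℕ) (y z : MvPowerSeries (Fin D) k),
    y ∈ IsLocalRing.maximalIdeal (MvPowerSeries (Fin D) k) →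
    z ∈ IsLocalRing.maximalIdeal (MvPowerSeries (Fin D) k) →
    (∀ r s, r * y + s * z ∈ IsLocalRing.maximalIdeal (MvPowerSeries (Fin D) k) ^ 2 →
      r ∈ IsLocalRing.maximalIdeal (MvPowerSeries (Fin D) k) ∧
      s ∈ IsLocalRing.maximalIdeal (MvPowerSeries (Fin D) k)) →
    (Ideal.span {y}).IsPrime ∧ (Ideal.span {y, z}).IsPrime

/-- `r` annihilates the obstructions to `x_0^s, x_1^s, …` being a regular sequence, for all `s`. -/
def unm {R : Type} [CommRing R] {d : ℕ} (x : Fin d → R) : Ideal R where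
  carrier := {r | ∀ (s : ℕ) (i : Fin d) (a : R), 1 ≤ s →
    x i ^ s * a ∈ Ideal.span {y | ∃ j, j < i ∧ y = x j ^ s} →
    r * a ∈ Ideal.span {y | ∃ j, j < i ∧ y = x j ^ s}}
  zero_mem' := by
    intro s i a _ _
    rw [zero_mul]
    exact Ideal.zero_mem _
  add_mem' := by
    intro r r' hr hr' s i a hs ha
    rw [add_mul]
    exact Ideal.add_mem _ (hr s i a hs ha) (hr' s i a hs ha)
  smul_mem' := by
    intro c r hr s i a hs ha
    rw [smul_eq_mul, mul_assoc]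
    exact Ideal.mul_mem_left _ c (hr s i a hs ha)

/-- **FRE.** A finite module on which the generators of the maximal ideal form a regular sequence is
free.
Proof. Induction on `d` (generalize `P`, `M`): `M / x_0 M` is free over `P / x_0`. Lift a basis to
`m_i ∈ M` (they generate, Nakayama). If `∑ p_i m_i = 0` then `x_0 ∣ p_i`, `p_i = x_0 p_i'`, and
`∑ p_i' m_i = 0` since `x_0` is not a zero divisor on `M`; so `p_i ∈ ⋂ x_0^j P = 0` (Krull). -/
def S_FRE : Prop :=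
  ∀ (d : ℕ) (P M : Type) [CommRing P] [IsLocalRing P] [IsNoetherianRing P] [AddCommGroup M]
    [Module P M] [Module.Finite P M] (x : Fin d → P),
    IsLocalRing.maximalIdeal P = Ideal.span (Set.range x) →
    (∀ (i : Fin d) (m : M), x i • m ∈
        Ideal.span {y | ∃ j, j < i ∧ y = x j} • (⊤ : Submodule P M) →
      m ∈ Ideal.span {y | ∃ j, j < i ∧ y = x j} • (⊤ : Submodule P M)) →
    Module.Free P M

/-- **UNM.** Compatibility of `unm x` with Cartier maps.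
Proof. `φ (unm x) ⊆ unm x`: if `r ∈ unm x`, `x_i^s a ∈ (x_j^s)` then `x_i^{qs} a^q ∈ (x_j^{qs})`
(`q`-th powers: `q = p^e`, `R` of characteristic `p`), so `r a^q ∈ (x_j^{qs})` and
`a φ(r) = φ(a^q r) ∈ (x_j^s)`. If `f = c + ∑ x_i^q v_i` with `c ∈ unm x` then
`1 = φ(c) + ∑ x_i φ(v_i)`, but `φ(c) ∈ unm x ≠ R` is in the maximal ideal. -/
def S_UNM : Prop :=
  ∀ (p e : ℕ) [Fact p.Prime] (R : Type) [CommRing R] [IsLocalRing R] [CharP R p] (d : ℕ)
    (x : Fin d → R) (φ : R →+ R) (f : R),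
    IsCartier (p ^ e) φ → φ f = 1 → (∀ i, x i ∈ IsLocalRing.maximalIdeal R) → unm x ≠ ⊤ →
    f ∉ unm x ⊔ Ideal.span (Set.range fun i => x i ^ (p ^ e))

/-- **LFR.** `R` a domain, finite over the Noetherian normal domain `P`; the powers of the `x_i` are
regular sequences on `P`. For each height one prime `𝔮` of `P` some `c ∉ 𝔮` is in `unm x` of `R`.
Proof. `P_𝔮` is a discrete valuation ring and `R_𝔮` is torsion free and finite, so free, over it: there
are `g_1..g_m ∈ R` which form a `P_𝔮`-basis of `R_𝔮`; `G = ∑ P g_i` is free and `c R ⊆ G` for some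
`c ∉ 𝔮`. If `x_i^s a = ∑_{j<i} x_j^s r_j` in `R` then `x_i^s (c a) = ∑ x_j^s (c r_j)` in `G`, and the
`x^s` are a regular sequence on the free module `G`, so `c a ∈ (x_j^s) G`. -/
def S_LFR : Prop :=
  ∀ (P R : Type) [CommRing P] [IsDomain P] [IsNoetherianRing P] [IsIntegrallyClosed P]
    [CommRing R] [IsDomain R] [Algebra P R] [Module.Finite P R] [FaithfulSMul P R] (d : ℕ)
    (x : Fin d → P), unm x = ⊤ → ∀ 𝔮 : Ideal P, 𝔮.IsPrime → 𝔮.height = 1 →
    ∃ c : P, c ∉ 𝔮 ∧ algebraMap P R c ∈ unm (fun i => algebraMap P R (x i))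

/-- **XRG.** The powers of the variables are regular sequences in the power series ring.
(`g ∈ (X_j^s : j < i)` iff every monomial of `g` is divisible by some `X_j^s`, `j < i`.) -/
def S_XRG : Prop :=
  ∀ (k : Type) [Field k] (d : ℕ),
    unm (fun i : Fin d => (MvPowerSeries.X i : MvPowerSeries (Fin d) k)) = ⊤

/-- **AVD.** Prime avoidance: an ideal contained in no height one prime contains a regular
sequence of length two.
Proof. `0 ≠ c₁ ∈ J` (there is a height one prime or `P` is a field; if there is no height one prime,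
`P` is a field and `c₁ = 1 ∈ J`... (if `J = 0` is allowed take care: hypothesis `J ≠ ⊥`)). The minimal
primes of `(c₁)` are finitely many, of height one (Krull), choose `c₂ ∈ J` in none of them. If
`c₁ ∣ c₂ u`, `z = u / c₁ ∈ L`: for a height one prime `𝔭`, either `c₁ ∉ 𝔭`, `c₁ z ∈ P`, or `c₁ ∈ 𝔭`, then
`c₂ ∉ 𝔭`, `c₂ z ∈ P`. By `S_KRU`, `z ∈ P`. -/
def S_AVD : Prop :=
  ∀ (P : Type) [CommRing P] [IsDomain P] [IsNoetherianRing P] [IsIntegrallyClosed P]
    (J : Ideal P), J ≠ ⊥ → (∀ 𝔮 : Ideal P, 𝔮.IsPrime → 𝔮.height = 1 → ∃ c : P, c ∈ J ∧ c ∉ 𝔮) →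
    ∃ c₁ c₂ : P, c₁ ∈ J ∧ c₂ ∈ J ∧ c₁ ≠ 0 ∧ ∀ u, c₁ ∣ c₂ * u → c₁ ∣ u

/-- **AUT.** Linear changes of variables in the power series ring.
`σ` is the substitution `X_i ↦ ∑_j A_ij X_j` (`MvPowerSeries.subst`), its inverse the one for `B`.
For `c ∈ 𝔪^e` and a monomial `n` of degree `e` the coefficient of `σ c` is that of the substitution in
the degree `e` part of `c`. -/
def S_AUT : Prop :=
  ∀ (k : Type) [Field k] (d : ℕ) (A B : Matrix (Fin d) (Fin d) k), A * B = 1 → B * A = 1 →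
    ∃ σ : MvPowerSeries (Fin d) k ≃+* MvPowerSeries (Fin d) k,
      (∀ i, σ (MvPowerSeries.X i) = ∑ j, MvPowerSeries.C (A i j) * MvPowerSeries.X j) ∧
      ∀ (c : MvPowerSeries (Fin d) k) (e : ℕ),
        c ∈ IsLocalRing.maximalIdeal (MvPowerSeries (Fin d) k) ^ e →
        ∀ n : Fin d →₀ ℕ, n.degree = e →
          MvPowerSeries.coeff n (σ c) =
            MvPolynomial.coeff n (∑ m ∈ Finset.finsuppAntidiag Finset.univ e,
              MvPolynomial.C (MvPowerSeries.coeff m c) *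
                ∏ i, (∑ j, MvPolynomial.C (A i j) * MvPolynomial.X j) ^ m i)

/-- **VAT.** The weighted order valuation for `y ∈ 𝔪 \ 𝔪²` (weight 2 for `y`, weight 1 for the other
parameters), and the analogue of `S_TV` for it.
Proof. By a linear change of variables (`S_AUT`) we may assume `y = X_0 + (terms of order ≥ 2)` (transport
the algebra structure `P → V` along `σ`). `v(g)` = weighted order of `g` for the weights
`(2, 1, …, 1)` (`MvPowerSeries.weightedOrder`, multiplicative over a domain); `V` its valuation ring in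
`L`, `π = X_1`. Elements of `𝔪` have `v ≥ 1`, `y` and the elements of `𝔪²` have `v ≥ 2`. The total weight is
`A = d + 1`; `{v ≥ m}` is the ideal generated by the monomials `X^a` of weight `≥ m`, and
`T({v ≥ d (q-1) + q j}) ⊆ {v ≥ j}`: `X^a = (X^b)^q X^c` with `c_i < q`, weight of `X^c` at most
`(q-1)(d+1)`, so `q w(b) ≥ d (q-1) + q j - (q-1)(d+1)`, `w(b) ≥ j`. Continue as in the proof of
`S_TV` (proved in `Pool.Agent.H922.FT867TV`; `S_VAL` in `Pool.Agent.H670.FT867VAL`). -/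
def S_VAT : Prop :=
  ∀ (k : Type) [Field k] (d : ℕ) (y : MvPowerSeries (Fin d) k) (L : Type) [Field L]
    [Algebra (MvPowerSeries (Fin d) k) L] [IsFractionRing (MvPowerSeries (Fin d) k) L], 2 ≤ d →
    y ∈ IsLocalRing.maximalIdeal (MvPowerSeries (Fin d) k) →
    y ∉ IsLocalRing.maximalIdeal (MvPowerSeries (Fin d) k) ^ 2 →
    ∃ (V : Type) (_ : CommRing V) (_ : IsDomain V) (_ : IsDiscreteValuationRing V)
      (_ : Algebra V L) (_ : IsFractionRing V L) (_ : Algebra (MvPowerSeries (Fin d) k) V)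
      (_ : IsScalarTower (MvPowerSeries (Fin d) k) V L)
      (π : MvPowerSeries (Fin d) k), Irreducible (algebraMap (MvPowerSeries (Fin d) k) V π) ∧
      π ∈ IsLocalRing.maximalIdeal (MvPowerSeries (Fin d) k) ∧
      (∀ g ∈ IsLocalRing.maximalIdeal (MvPowerSeries (Fin d) k),
        algebraMap (MvPowerSeries (Fin d) k) V π ∣ algebraMap (MvPowerSeries (Fin d) k) V g) ∧
      (∀ g ∈ Ideal.span {y} ⊔ IsLocalRing.maximalIdeal (MvPowerSeries (Fin d) k) ^ 2,
        algebraMap (MvPowerSeries (Fin d) k) V π ^ 2 ∣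
          algebraMap (MvPowerSeries (Fin d) k) V g) ∧
      ∀ (q : ℕ), 1 ≤ q → ∀ (T : MvPowerSeries (Fin d) k →+ MvPowerSeries (Fin d) k)
        (TL : L →+ L), IsCartier q T → IsCartier q TL →
        (∀ g, TL (algebraMap (MvPowerSeries (Fin d) k) L g) =
          algebraMap (MvPowerSeries (Fin d) k) L (T g)) →
        ∀ v : V, ∃ v' : V,
          TL (algebraMap V L (algebraMap (MvPowerSeries (Fin d) k) V π ^ (d * (q - 1)) * v)) =
            algebraMap V L v'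

/-- **WEI.** Elimination. `P = k[[X_0..X_d]]`, `c₁` regular in the last variable, `c₂` not a zero divisor
mod `c₁`. Then `(c₁, c₂)` contains a nonzero series not involving the last variable.
Proof. `P' = k[[X_0..X_{d-1}]] ⊆ P`. By Weierstrass division `P / c₁` is a finite `P'`-module (successive
approximation: `P = ∑_{j<e} P' X_d^j + c₁ P` if `c₁` mod `(X_0..X_{d-1})` has order `e` in `X_d`).
If `P / c₁ = 0` take `1`. Otherwise by Cayley–Hamilton `c₂` satisfies on `P / c₁` a monic equation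
over `P'`; dividing by powers of `c₂` (injective on `P/c₁`) we may assume that its constant term `c'` is
not zero (not all lower coefficients vanish since `c₂^m ≠ 0` on `P / c₁ ≠ 0`). Then
`c' ∈ c₂ P + c₁ P`. -/
def S_WEI : Prop :=
  ∀ (k : Type) [Field k] (d e : ℕ) (c₁ c₂ : MvPowerSeries (Fin (d + 1)) k),
    MvPowerSeries.coeff (Finsupp.single (Fin.last d) e) c₁ ≠ 0 →
    (∀ u, c₁ ∣ c₂ * u → c₁ ∣ u) →
    ∃ c' : MvPowerSeries (Fin (d + 1)) k, c' ≠ 0 ∧
      (∀ n : Fin (d + 1) →₀ ℕ, n (Fin.last d) ≠ 0 → MvPowerSeries.coeff n c' = 0) ∧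
      c' ∈ Ideal.span {c₁, c₂}

/-- **GRD.** `P = k[[X_0..X_{d+1}]]`, `c₁ ∈ 𝔪^{e₁}` with `X_{d+1}^{e₁}` occurring in `c₁`, `c' ∈ 𝔪^{e₂}` with
`X_d^{e₂}` occurring, but no `X_d^i X_{d+1}^{e₂-i}`, `i < e₂`. Then
`𝔪^{e₁ + e₂ + 1 + d (q-1)} ⊆ (c₁, c') + (X_0^q, …, X_{d+1}^q)`.
Proof. `J = (c₁, c')`, `E = (X_0..X_{d-1})`, `r = e₁ + e₂`. A monomial of degree `r` is in
`E 𝔪^{r-1} + J + 𝔪^{r+1}`: clear if it involves `X_j`, `j < d`. For `X_d^i X_{d+1}^{r-i}`, `i ≥ e₂`: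
`X_d^{e₂} ∈ E 𝔪^{e₂-1} + (c') + 𝔪^{e₂+1}`. For `i < e₂`: `r - i > e₁` and
`X_{d+1}^{e₁} ∈ (X_d) 𝔪^{e₁-1} + E 𝔪^{e₁-1} + (c₁) + 𝔪^{e₁+1}`, so it is congruent to a combination of
`X_d^{i'} X_{d+1}^{r-i'}` with `i' > i`; downward induction on `i`. So
`𝔪^r ⊆ E 𝔪^{r-1} + J + 𝔪^{r+1}`, and by Nakayama (applied to `(𝔪^r + J)/ (E 𝔪^{r-1} + J)`)
`𝔪^r ⊆ E 𝔪^{r-1} + J`, hence `𝔪^{r+j} ⊆ E^{j+1} 𝔪^{r-1} + J` by induction (`r ≥ 1`; if `r = 0` a unit is
in `J`), and `E^{d (q-1) + 1} ⊆ (X_j^q)`. -/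
def S_GRD : Prop :=
  ∀ (k : Type) [Field k] (d e₁ e₂ q : ℕ) (c₁ c' : MvPowerSeries (Fin (d + 2)) k), 1 ≤ q →
    c₁ ∈ IsLocalRing.maximalIdeal (MvPowerSeries (Fin (d + 2)) k) ^ e₁ →
    MvPowerSeries.coeff (Finsupp.single (Fin.last (d + 1)) e₁) c₁ ≠ 0 →
    c' ∈ IsLocalRing.maximalIdeal (MvPowerSeries (Fin (d + 2)) k) ^ e₂ →
    MvPowerSeries.coeff (Finsupp.single (Fin.last d).castSucc e₂) c' ≠ 0 →
    (∀ i j : ℕ, i + j = e₂ → j ≠ 0 → MvPowerSeries.coeff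
      (Finsupp.single (Fin.last d).castSucc i + Finsupp.single (Fin.last (d + 1)) j) c' = 0) →
    IsLocalRing.maximalIdeal (MvPowerSeries (Fin (d + 2)) k) ^ (e₁ + e₂ + 1 + d * (q - 1)) ≤
      Ideal.span {c₁, c'} ⊔ Ideal.span (Set.range fun i : Fin (d + 2) =>
        (MvPowerSeries.X i : MvPowerSeries (Fin (d + 2)) k) ^ q)

/-- **RDC.** `P = k[[X_0..X_{d+1}]]`, `k` infinite of characteristic `p`, `c₁ ≠ 0`, `c₂` not a zero divisor
mod `c₁`. There is `r` with `𝔪^{r + d (q-1)} ⊆ (c₁, c₂) + (X_i^q)` for all `q = p^e`.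
Proof. (From `S_AUT`, `S_WEI`, `S_GRD`.) Let `e₁ = ord c₁`. The degree `e₁` part of `c₁` is a nonzero
form, so (`k` infinite) nonzero at some point `v ≠ 0`; choose `A` invertible with last column `v`. By
`S_AUT` the coefficient of `X_{d+1}^{e₁}` in `σ c₁` is its value at `v`, not zero. `σ` is an
automorphism: it preserves `𝔪`, and `(X_i^q)` (characteristic `p`). So we may assume that
`X_{d+1}^{e₁}` occurs in `c₁`. Let `c' ∈ (c₁, c₂)` be from `S_WEI`, `e₂ = ord c'`; its degree `e₂` part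
does not involve `X_{d+1}` and is not zero at some `v' ∈ k^{d+1} × {0}`. Choose `A` with last column
`(0,…,0,1)` and the one before `v'`; after this change `X_{d+1}^{e₁}` occurs in `c₁` (its value at the
last column of `A`), the coefficient of `X_d^i X_{d+1}^j`, `i + j = e₂`, in `c'` is that of
`s^i t^j` in (degree `e₂` part of `c'`)`(s v' + t e_last) = s^{e₂} (…)(v')`. Apply `S_GRD`. -/
def S_RDC : Prop :=
  ∀ (p : ℕ) [Fact p.Prime] (k : Type) [Field k] [Infinite k] [CharP k p] (d : ℕ)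
    (c₁ c₂ : MvPowerSeries (Fin (d + 2)) k), c₁ ≠ 0 → (∀ u, c₁ ∣ c₂ * u → c₁ ∣ u) →
    ∃ r : ℕ, ∀ e : ℕ,
      IsLocalRing.maximalIdeal (MvPowerSeries (Fin (d + 2)) k) ^ (r + d * (p ^ e - 1)) ≤
        Ideal.span {c₁, c₂} ⊔ Ideal.span (Set.range fun i : Fin (d + 2) =>
          (MvPowerSeries.X i : MvPowerSeries (Fin (d + 2)) k) ^ (p ^ e))

/-- **RES.** Small facts on `P = k[[X_1..X_d]]`: Noetherian, residue field algebraically closed if
`k` is; every element is congruent to a constant modulo the maximal ideal. -/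
def S_RES : Prop :=
  ∀ (k : Type) [Field k] (d : ℕ), IsNoetherianRing (MvPowerSeries (Fin d) k) ∧
    (IsAlgClosed k → IsAlgClosed (IsLocalRing.ResidueField (MvPowerSeries (Fin d) k))) ∧
    (∀ g : MvPowerSeries (Fin d) k, ∃ c : k,
      g - MvPowerSeries.C c ∈ IsLocalRing.maximalIdeal (MvPowerSeries (Fin d) k)) ∧
    ∀ (c : k), MvPowerSeries.C c ∈ IsLocalRing.maximalIdeal (MvPowerSeries (Fin d) k) → c = 0

end Pool.Agent.H867.FT
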