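import Pool.Agent.H867.FT.Gen3

/-!
# Statements, part 9: completeness.
-/

namespace Pool.Agent.H867.FT

/-- **CPL.** A local ring `S` which is finite over `P = k[[X_0..X_{d-1}]]` is complete.
Proof. `P` is `𝔪_P`-adically complete (`Mathlib/RingTheory/AdicCompletion/Completeness.lean`, line 214, and
`𝔪_P = (X_i)`, `Pool.Agent.H707.FT867.psg`), hence so is the finite `P`-module `S` for the filtration
`𝔪_P^n S` (a Cauchy sequence `s_n`, `s_{n+1} - s_n ∈ 𝔪_P^n S`, is written with the generators `g_j` of `S` as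
`s_{n+1} - s_n = ∑_j c_{n,j} g_j`, `c_{n,j} ∈ 𝔪_P^n`; the sums `∑_n c_{n,j}` converge in `P`; separated: Krull
intersection theorem). `𝔪_P S ⊆ 𝔪_S` (integral extension; or: `1 - 𝔪_P s` is invertible) and
`𝔪_S^r ⊆ 𝔪_P S` for some `r` (`S / 𝔪_P S` is a finite dimensional `k`-algebra, so an Artinian local ring),
so the `𝔪_S`-adic topology is the same; a compatible sequence for `𝔪_S^n` has the subsequence
`n ↦ r n` which is Cauchy for `𝔪_P^n S`. -/
def S_CPL : Prop :=
  ∀ (k : Type) [Field k] (d : ℕ) (S : Type) [CommRing S] [IsLocalRing S]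
    [Algebra (MvPowerSeries (Fin d) k) S] [Module.Finite (MvPowerSeries (Fin d) k) S],
    IsAdicComplete (IsLocalRing.maximalIdeal S) S

end Pool.Agent.H867.FT
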