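import Pool.Agent.H867.FT.All

/-!
# Assembly, part 10: the bound for a presented ring, the limit argument.
-/

namespace Pool.Agent.H867.FT

open Module

section

variable (p : ℕ) [Fact p.Prime] (k : Type) [Field k] [IsAlgClosed k] [CharP k p]

/-- The bound for all levels. -/
theorem bound_pres (d : ℕ) (S L K : Type) [CommRing S] [IsDomain S] [IsLocalRing S]
    [IsIntegrallyClosed S] [CharP S p]
    [Algebra (MvPowerSeries (Fin (d + 2)) k) S]
    [Module.Finite (MvPowerSeries (Fin (d + 2)) k) S]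
    [FaithfulSMul (MvPowerSeries (Fin (d + 2)) k) S] [Field L]
    [Algebra (MvPowerSeries (Fin (d + 2)) k) L]
    [IsFractionRing (MvPowerSeries (Fin (d + 2)) k) L] [Field K] [Algebra S K]
    [IsFractionRing S K] [Algebra (MvPowerSeries (Fin (d + 2)) k) K]
    [IsScalarTower (MvPowerSeries (Fin (d + 2)) k) S K] [Algebra L K]
    [IsScalarTower (MvPowerSeries (Fin (d + 2)) k) L K] [Algebra.IsSeparable L K]
    (hred : ∃ r : ℕ, IsLocalRing.maximalIdeal S ^ (r + 1) =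
      (IsLocalRing.maximalIdeal (MvPowerSeries (Fin (d + 2)) k)).map
        (algebraMap (MvPowerSeries (Fin (d + 2)) k) S) * IsLocalRing.maximalIdeal S ^ r)
    (hnt : ∀ C : Submodule S K, IsCanonical (MvPowerSeries (Fin (d + 2)) k) C → ¬ Tors C) :
    ∃ c : ℕ, ∀ (e N : ℕ) (f : S), 3 ≤ p ^ e → f ∈ IsLocalRing.maximalIdeal S ^ N →
      FSplits S (p ^ e) f → 2 * N + (p ^ e - 1) ≤ 2 * ((d + 1) * (p ^ e - 1)) + 2 * c := by
  have hInf : Infinite k := IsAlgClosed.instInfinite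
  obtain ⟨hnoe, hres, -, -⟩ := Pool.Agent.H719.FT867RES.res k (d + 2)
  have hIC : IsIntegrallyClosed (MvPowerSeries (Fin (d + 2)) k) :=
    Pool.Agent.H671.FT867PSN.psn k (d + 2)
  have hac : IsAlgClosed (IsLocalRing.ResidueField (MvPowerSeries (Fin (d + 2)) k)) :=
    hres inferInstance
  have hloc : IsLocalization (Algebra.algebraMapSubmonoid S
      (nonZeroDivisors (MvPowerSeries (Fin (d + 2)) k))) K :=
    IsIntegralClosure.isLocalization (MvPowerSeries (Fin (d + 2)) k) L K S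
  have hfd : Module.Finite L K :=
    Module.Finite.of_isLocalization (MvPowerSeries (Fin (d + 2)) k) S
      (nonZeroDivisors (MvPowerSeries (Fin (d + 2)) k))
  obtain ⟨C, hC, hcan⟩ := Pool.Agent.H588.FT867CAN.can (MvPowerSeries (Fin (d + 2)) k) S L K
  by_cases hfree : Module.Free (MvPowerSeries (Fin (d + 2)) k) S
  · refine ⟨0, fun e N f he hN hf => ?_⟩
    have := bound_cm lems2 Pool.Agent.H30.FT867.bas Pool.Agent.H52.FT867SRJ.srj he
      (pdata p k (d + 2) (by omega) L) (by omega) (cartGen p k (d + 2) e) hC (hnt C hcan) hred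
      hN hf
    rw [show d + 2 - 1 = d + 1 from rfl] at this
    omega
  · obtain ⟨c, hc⟩ := ncm p k d S hfree hred
    refine ⟨c, fun e N f he hN hf => ?_⟩
    have h1 := hc e N f hN hf
    have h2 : (d + 1) * (p ^ e - 1) = d * (p ^ e - 1) + (p ^ e - 1) := by ring
    rw [h2]
    omega

end

/-- `ι : R → S` makes `S` the `𝔪`-adic completion of the local ring `R`. -/
structure IsCompletion {R S : Type} [CommRing R] [IsLocalRing R] [CommRing S] [IsLocalRing S]
    (ι : R →+* S) : Prop where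
  complete : IsAdicComplete (IsLocalRing.maximalIdeal S) S
  dense : ∀ (n : ℕ) (s : S), ∃ r : R, s - ι r ∈ IsLocalRing.maximalIdeal S ^ n
  mem_iff : ∀ (n : ℕ) (r : R),
    r ∈ IsLocalRing.maximalIdeal R ^ n ↔ ι r ∈ IsLocalRing.maximalIdeal S ^ n

theorem limit_arg {p : ℕ} [Fact p.Prime] {d c : ℕ} {S : Type} [CommRing S] [IsLocalRing S]
    (h : ∀ (e N : ℕ) (f : S), 3 ≤ p ^ e → f ∈ IsLocalRing.maximalIdeal S ^ N →
      FSplits S (p ^ e) f → 2 * N + (p ^ e - 1) ≤ 2 * ((d + 1) * (p ^ e - 1)) + 2 * c)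
    {R : Type} [CommRing R] [IsLocalRing R] [IsNoetherianRing R] (ι : R →+* S)
    (hι : IsCompletion ι) {t : ℝ}
    (ht : FPurePair R p (IsLocalRing.maximalIdeal R) t) : t ≤ ((d + 2 : ℕ) : ℝ) - 3 / 2 := by
  by_contra hcon
  push Not at hcon
  obtain ⟨e₀, he₀⟩ := ht
  have hp2 : 2 ≤ p := (Fact.out : p.Prime).two_le
  set δ : ℝ := t - (((d + 2 : ℕ) : ℝ) - 3 / 2) with hδ
  have hδ0 : 0 < δ := by rw [hδ]; linarith
  obtain ⟨m, hm⟩ := exists_nat_gt ((c : ℝ) / δ + 2)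
  set e := max e₀ m with he
  have hpe : m < p ^ e := lt_of_le_of_lt (le_max_right e₀ m) (Nat.lt_pow_self (by omega))
  have hpe1 : (c : ℝ) / δ + 2 < (p : ℝ) ^ e := by
    refine lt_trans hm ?_
    have : ((m : ℕ) : ℝ) < ((p ^ e : ℕ) : ℝ) := by exact_mod_cast hpe
    rwa [Nat.cast_pow] at this
  have h3 : 3 ≤ p ^ e := by
    have h0 : (0 : ℝ) ≤ (c : ℝ) / δ := by positivity
    have : (2 : ℝ) < ((p ^ e : ℕ) : ℝ) := by
      rw [Nat.cast_pow]; linarith
    have h2 : 2 < p ^ e := by exact_mod_cast this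
    omega
  obtain ⟨f, hf, hs⟩ := he₀ e (le_max_left _ _)
  have hcomp := hι.complete
  have hs' : FSplits S (p ^ e) (ι f) :=
    Pool.Agent.H746.FT867CMP.cmp (p ^ e) R S ι (by omega) hι.dense
      (fun n r hr => (hι.mem_iff n r).1 hr) (fun n r hr => (hι.mem_iff n r).2 hr) f hs
  have hb := h e _ (ι f) h3 ((hι.mem_iff _ _).1 hf) hs'
  have hceil := Nat.le_ceil (t * ((p : ℝ) ^ e - 1))
  have hcast : ((p ^ e - 1 : ℕ) : ℝ) = (p : ℝ) ^ e - 1 := by
    rw [Nat.cast_sub (by omega), Nat.cast_pow, Nat.cast_one]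
  generalize ⌈t * ((p : ℝ) ^ e - 1)⌉₊ = M at hb hceil
  have hb' : 2 * (M : ℝ) + ((p : ℝ) ^ e - 1) ≤
      2 * ((d + 1) * ((p : ℝ) ^ e - 1)) + 2 * c := by
    rw [← hcast]
    exact_mod_cast hb
  have hn : 0 < (p : ℝ) ^ e - 1 := by
    have h0 : (0 : ℝ) ≤ (c : ℝ) / δ := by positivity
    linarith
  have h5 : δ * ((p : ℝ) ^ e - 1) ≤ c := by
    rw [hδ]
    push_cast
    nlinarith
  have h6 : (c : ℝ) < δ * ((p : ℝ) ^ e - 1) := by
    have : (c : ℝ) / δ < (p : ℝ) ^ e - 1 := by linarith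
    rwa [div_lt_iff₀' hδ0] at this
  linarith

end Pool.Agent.H867.FT
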