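import Pool.Agent.H867.FT.Cub10
import Pool.Agent.H867.FT.Lim
import Pool.Agent.H187.FT867TR2
import Pool.Agent.H415.FT867TR3
import Pool.Agent.H867.FT.EXLc

/-!
# Assembly, part 17: the bound for a presented ring, general residue field.
-/

namespace Pool.Agent.H867.FT

open Module

/-- The bound for all levels, infinite F-finite residue field. -/
theorem bound_pres2 (hPSF : S_PSF) (hQBC : S_QBC) (p : ℕ) [Fact p.Prime] (k : Type) [Field k]
    [Infinite k] [CharP k p] (hF : (frobenius k p).Finite)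
    (d : ℕ) (S L K : Type) [CommRing S] [IsDomain S] [IsLocalRing S]
    [IsIntegrallyClosed S] [CharP S p]
    [Algebra (MvPowerSeries (Fin (d + 2)) k) S]
    [Module.Finite (MvPowerSeries (Fin (d + 2)) k) S]
    [FaithfulSMul (MvPowerSeries (Fin (d + 2)) k) S] [Field L]
    [Algebra (MvPowerSeries (Fin (d + 2)) k) L]
    [IsFractionRing (MvPowerSeries (Fin (d + 2)) k) L] [Field K] [Algebra S K]
    [IsFractionRing S K] [Algebra (MvPowerSeries (Fin (d + 2)) k) K]
    [IsScalarTower (MvPowerSeries (Fin (d + 2)) k) S K] [Algebra L K]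
    [IsScalarTower (MvPowerSeries (Fin (d + 2)) k) L K] [Algebra.IsSeparable L K]
    (hsrj : ∀ s : S, ∃ g : MvPowerSeries (Fin (d + 2)) k,
      s - algebraMap (MvPowerSeries (Fin (d + 2)) k) S g ∈ IsLocalRing.maximalIdeal S)
    (hred : ∃ r : ℕ, IsLocalRing.maximalIdeal S ^ (r + 1) =
      (IsLocalRing.maximalIdeal (MvPowerSeries (Fin (d + 2)) k)).map
        (algebraMap (MvPowerSeries (Fin (d + 2)) k) S) * IsLocalRing.maximalIdeal S ^ r)
    (hnt : ∀ C : Submodule S K, IsCanonical (MvPowerSeries (Fin (d + 2)) k) C → ¬ Tors C) :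
    ∃ c : ℕ, ∀ (e N : ℕ) (f : S), 3 ≤ p ^ e → f ∈ IsLocalRing.maximalIdeal S ^ N →
      FSplits S (p ^ e) f → 2 * N + (p ^ e - 1) ≤ 2 * ((d + 1) * (p ^ e - 1)) + 2 * c := by
  obtain ⟨hnoe, hres, -, -⟩ := Pool.Agent.H719.FT867RES.res k (d + 2)
  have hIC : IsIntegrallyClosed (MvPowerSeries (Fin (d + 2)) k) :=
    Pool.Agent.H671.FT867PSN.psn k (d + 2)
  have hloc : IsLocalization (Algebra.algebraMapSubmonoid S
      (nonZeroDivisors (MvPowerSeries (Fin (d + 2)) k))) K :=
    IsIntegralClosure.isLocalization (MvPowerSeries (Fin (d + 2)) k) L K S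
  have hfd : Module.Finite L K :=
    Module.Finite.of_isLocalization (MvPowerSeries (Fin (d + 2)) k) S
      (nonZeroDivisors (MvPowerSeries (Fin (d + 2)) k))
  obtain ⟨C, hC, hcan⟩ := Pool.Agent.H588.FT867CAN.can (MvPowerSeries (Fin (d + 2)) k) S L K
  by_cases hfree : Module.Free (MvPowerSeries (Fin (d + 2)) k) S
  · refine ⟨0, fun e N f he hN hf => ?_⟩
    have := bound_cm2 lems2 Pool.Agent.H187.FTTr2.tr2 Pool.Agent.H415.FT867TR3.tr3
      Pool.Agent.H30.FT867.bas he (pdata2 p k hPSF hF (d + 2) (by omega) L) hsrj (by omega)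
      (cartGen2 p k hPSF hF (d + 2) e) hC (hnt C hcan) hred hN hf
      (fun a b c d' z x y₀ h ha hz hind G hG hG2 hG3 hGF =>
        quad_bound hPSF hQBC lems2.toLems lems2.bet Pool.Agent.H102.FT867CLB.clb
          EXLc.exl p k hF (d + 2) (by omega) S L K C hC h ha hz hind hG hG2
          hG3 hGF he hN hf)
    rw [show d + 2 - 1 = d + 1 from rfl] at this
    omega
  · obtain ⟨c, hc⟩ := ncm p k d S hfree hred
    refine ⟨c, fun e N f he hN hf => ?_⟩
    have h1 := hc e N f hN hf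
    have h2 : (d + 1) * (p ^ e - 1) = d * (p ^ e - 1) + (p ^ e - 1) := by ring
    rw [h2]
    omega

end Pool.Agent.H867.FT
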