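import Pool.Agent.H867.FT.Gen6
import Pool.Agent.H261.FT867PSC

/-!
# Cartier maps on power series rings over F-finite fields (`S_PSF`); copy of helper707's file `H707.FT867PSF`
-/

set_option autoImplicit false

namespace Pool.Agent.H867.FT.PSFc

open Pool.Agent.H867.FT MvPowerSeries

/-! ### The field -/

/-- The field as a vector space over itself by the iterated Frobenius. -/
def Kq (k : Type) (_p _e : ℕ) : Type := k

noncomputable instance (k : Type) [Field k] (p e : ℕ) : Field (Kq k p e) := inferInstanceAs (Field k)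

noncomputable instance (k : Type) [Field k] (p : ℕ) [Fact p.Prime] [CharP k p] (e : ℕ) :
    Algebra k (Kq k p e) :=
  RingHom.toAlgebra (S := Kq k p e) (iterateFrobenius k p e : k →+* k)

theorem smul_def (k : Type) [Field k] (p : ℕ) [Fact p.Prime] [CharP k p] (e : ℕ) (a : k)
    (b : Kq k p e) : a • b = (show Kq k p e from (a ^ p ^ e : k)) * b := by
  rw [Algebra.smul_def]
  rfl

theorem iter_finite (k : Type) [Field k] (p : ℕ) [Fact p.Prime] [CharP k p]
    (hk : (frobenius k p).Finite) (e : ℕ) : (iterateFrobenius k p e).Finite := by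
  induction e with
  | zero =>
    have h : iterateFrobenius k p 0 = RingHom.id k := by
      ext x
      rw [iterateFrobenius_def, pow_zero, pow_one, RingHom.id_apply]
    rw [h]
    exact RingHom.Finite.id k
  | succ e ih =>
    have h : iterateFrobenius k p (e + 1) = (iterateFrobenius k p e).comp (frobenius k p) := by
      ext x
      rw [RingHom.comp_apply, iterateFrobenius_def, iterateFrobenius_def, frobenius_def, ← pow_mul,
        pow_succ']
    rw [h]
    exact ih.comp hk

theorem field_part (k : Type) [Field k] (p : ℕ) [Fact p.Prime] [CharP k p]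
    (hk : (frobenius k p).Finite) (e : ℕ) :
    ∃ (τ : k →+ k) (n : ℕ) (c u : Fin n → k), (∀ a b, τ (a ^ p ^ e * b) = a * τ b) ∧
      ∀ b, ∑ j, (τ (u j * b)) ^ p ^ e * c j = b := by
  have hfin : Module.Finite k (Kq k p e) := iter_finite k p hk e
  -- a nonzero functional
  obtain ⟨τ, hτ⟩ : ∃ τ : Module.Dual k (Kq k p e), τ ≠ 0 := by
    by_contra hcon
    push Not at hcon
    have h1 : (1 : Kq k p e) = 0 := by
      rw [← Module.forall_dual_apply_eq_zero_iff k]
      intro φ
      rw [hcon φ, LinearMap.zero_apply]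
    exact one_ne_zero h1
  let Φ : Kq k p e →ₗ[k] Module.Dual k (Kq k p e) := (LinearMap.mul k (Kq k p e)).compr₂ τ
  have hΦ : ∀ u b, Φ u b = τ (u * b) := fun _ _ => rfl
  have hinj : Function.Injective Φ := by
    rw [injective_iff_map_eq_zero]
    intro u hu
    by_contra hne
    apply hτ
    ext b
    have h1 := hΦ u (u⁻¹ * b)
    rw [hu, ← mul_assoc, mul_inv_cancel₀ hne, one_mul] at h1
    rw [← h1]
    rfl
  have hsurj : Function.Surjective Φ :=
    (LinearMap.injective_iff_surjective_of_finrank_eq_finrank
      (Subspace.dual_finrank_eq (K := k) (V := Kq k p e)).symm).1 hinj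
  let bs := Module.finBasis k (Kq k p e)
  choose u hu using fun j => hsurj (bs.coord j)
  refine ⟨τ.toAddMonoidHom, _, bs, u, ?_, ?_⟩
  · intro a b
    have h1 := τ.map_smul a (show Kq k p e from b)
    rw [smul_def] at h1
    exact h1
  · intro b
    have h1 := bs.sum_repr (show Kq k p e from b)
    have h2 : ∀ j, bs.repr (show Kq k p e from b) j = τ (u j * (show Kq k p e from b)) := by
      intro j
      have h3 := hΦ (u j) b
      rw [hu j] at h3
      exact h3
    conv_rhs => rw [← h1]
    refine Finset.sum_congr rfl fun j _ => ?_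
    rw [h2, smul_def]
    rfl

/-! ### Power series -/

section

open Pool.Agent.H261.FT867 (coeff_smul_pow coeff_pow_of_not_dvd ex ex_apply)

variable (p : ℕ) [Fact p.Prime] (k : Type) [Field k] [CharP k p] (d e : ℕ)

/-- The components of a power series. -/
noncomputable def tt (τ : k →+ k) (a : Fin d →₀ ℕ) :
    MvPowerSeries (Fin d) k →+ MvPowerSeries (Fin d) k where
  toFun g := fun b => τ (coeff (p ^ e • b + a) g)
  map_zero' := by
    funext b
    show τ (coeff (p ^ e • b + a) 0) = 0
    rw [map_zero, map_zero]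
  map_add' g h := by
    funext b
    show τ (coeff (p ^ e • b + a) (g + h)) =
      τ (coeff (p ^ e • b + a) g) + τ (coeff (p ^ e • b + a) h)
    rw [map_add, map_add]

theorem coeff_tt (τ : k →+ k) (a b : Fin d →₀ ℕ) (g : MvPowerSeries (Fin d) k) :
    coeff b (tt p k d e τ a g) = τ (coeff (p ^ e • b + a) g) :=
  rfl

theorem tt_cartier {τ : k →+ k} (hτ : ∀ a b, τ (a ^ p ^ e * b) = a * τ b)
    (a : Fin d → Fin (p ^ e)) : IsCartier (p ^ e) (tt p k d e τ (ex d a)) := by
  classical
  intro r s
  ext b
  have hq : 0 < p ^ e := pow_pos (Fact.out : p.Prime).pos _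
  rw [coeff_tt, coeff_mul, coeff_mul, map_sum]
  symm
  apply Finset.sum_of_injOn (fun z : (Fin d →₀ ℕ) × (Fin d →₀ ℕ) =>
    (p ^ e • z.1, p ^ e • z.2 + ex d a))
  · rintro ⟨x, y⟩ - ⟨x', y'⟩ - h
    simp only [Prod.mk.injEq, add_left_inj] at h
    have h1 : x = x' := by
      ext i
      have := DFunLike.congr_fun h.1 i
      simp only [Finsupp.smul_apply, smul_eq_mul] at this
      exact Nat.eq_of_mul_eq_mul_left hq this
    have h2 : y = y' := by
      ext i
      have := DFunLike.congr_fun h.2 i
      simp only [Finsupp.smul_apply, smul_eq_mul] at this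
      exact Nat.eq_of_mul_eq_mul_left hq this
    rw [h1, h2]
  · rintro ⟨x, y⟩ h
    rw [Finset.mem_coe, Finset.HasAntidiagonal.mem_antidiagonal] at h ⊢
    simp only at h ⊢
    rw [← add_assoc, ← smul_add, h]
  · rintro ⟨x, y⟩ h hn
    rw [Finset.HasAntidiagonal.mem_antidiagonal] at h
    simp only at h ⊢
    by_cases hd : ∀ i, p ^ e ∣ x i
    · exfalso
      apply hn
      have hx : ∀ i, p ^ e * (x i / p ^ e) = x i := fun i => Nat.mul_div_cancel' (hd i)
      have hsum : ∀ i, x i + y i = p ^ e * b i + a i := fun i => by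
        have := DFunLike.congr_fun h i
        simpa using this
      have hle : ∀ i, x i / p ^ e ≤ b i := by
        intro i
        have h1 := hsum i
        have h2 := (a i).isLt
        have h3 : p ^ e * (x i / p ^ e) < p ^ e * (b i + 1) := by
          rw [hx, mul_add, mul_one]
          omega
        exact Nat.lt_succ_iff.1 (Nat.lt_of_mul_lt_mul_left h3)
      refine ⟨(x.mapRange (· / p ^ e) (Nat.zero_div _), b - x.mapRange (· / p ^ e) (Nat.zero_div _)),
        ?_, ?_⟩
      · rw [Finset.mem_coe, Finset.HasAntidiagonal.mem_antidiagonal]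
        simp only
        apply add_tsub_cancel_of_le
        intro i
        rw [Finsupp.mapRange_apply]
        exact hle i
      · simp only [Prod.mk.injEq]
        constructor
        · ext i
          simp only [Finsupp.smul_apply, smul_eq_mul, Finsupp.mapRange_apply]
          exact hx i
        · ext i
          simp only [Finsupp.smul_apply, smul_eq_mul, Finsupp.mapRange_apply, Finsupp.add_apply,
            Finsupp.tsub_apply, ex_apply]
          have h1 := hsum i
          have h2 : p ^ e * (b i - x i / p ^ e) = p ^ e * b i - x i := by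
            rw [Nat.mul_sub, hx]
          have h3 : x i ≤ p ^ e * b i := by
            rw [← hx i]
            exact Nat.mul_le_mul_left _ (hle i)
          omega
    · push Not at hd
      obtain ⟨i, hi⟩ := hd
      rw [coeff_pow_of_not_dvd r hi, zero_mul, map_zero]
  · rintro ⟨x, y⟩ -
    simp only
    rw [coeff_smul_pow, hτ, coeff_tt]

theorem expansion {τ : k →+ k} {n : ℕ} {c u : Fin n → k}
    (hcu : ∀ b, ∑ j, (τ (u j * b)) ^ p ^ e * c j = b) (g : MvPowerSeries (Fin d) k) :
    ∑ a : Fin d → Fin (p ^ e), ∑ j, (tt p k d e τ (ex d a) (C (u j) * g)) ^ p ^ e *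
      monomial (ex d a) (c j) = g := by
  classical
  have hq : 0 < p ^ e := pow_pos (Fact.out : p.Prime).pos _
  ext n
  obtain ⟨b, f, rfl⟩ : ∃ (b : Fin d →₀ ℕ) (f : Fin d → Fin (p ^ e)), n = p ^ e • b + ex d f := by
    refine ⟨n.mapRange (· / p ^ e) (Nat.zero_div _),
      fun i => (⟨n i % p ^ e, Nat.mod_lt _ hq⟩ : Fin (p ^ e)), ?_⟩
    ext i
    simp only [Finsupp.smul_apply, smul_eq_mul, Finsupp.mapRange_apply, Finsupp.add_apply,
      ex_apply]
    exact (Nat.div_add_mod _ _).symm
  rw [map_sum, Finset.sum_eq_single f]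
  · rw [map_sum]
    rw [← hcu (coeff (p ^ e • b + ex d f) g)]
    refine Finset.sum_congr rfl fun j _ => ?_
    rw [coeff_add_mul_monomial, coeff_smul_pow, coeff_tt, coeff_C_mul]
  · intro a _ ha
    rw [map_sum]
    refine Finset.sum_eq_zero fun j _ => ?_
    rw [coeff_mul_monomial]
    split_ifs with hle
    · by_cases hd : ∀ i, p ^ e ∣ (p ^ e • b + ex d f - ex d a) i
      · exfalso
        apply ha
        funext i
        apply Fin.ext
        obtain ⟨t, ht⟩ := hd i
        have h1 : (a i : ℕ) ≤ p ^ e * b i + f i := hle i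
        rw [Finsupp.tsub_apply, Finsupp.add_apply, Finsupp.smul_apply, smul_eq_mul, ex_apply,
          ex_apply] at ht
        have h2 : p ^ e * b i + f i = a i + p ^ e * t := by omega
        have h3 : (p ^ e * b i + f i) % p ^ e = (a i + p ^ e * t) % p ^ e := by rw [h2]
        rw [Nat.add_mul_mod_self_left, Nat.mod_eq_of_lt (a i).isLt, Nat.mul_add_mod,
          Nat.mod_eq_of_lt (f i).isLt] at h3
        exact h3.symm
      · push Not at hd
        obtain ⟨i, hi⟩ := hd
        rw [coeff_pow_of_not_dvd _ hi, zero_mul]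
    · rfl
  · intro h
    exact absurd (Finset.mem_univ _) h

/-- the monomials of `f` whose first variable is `x_i`, divided by `x_i` -/
noncomputable def part (f : MvPowerSeries (Fin d) k) (i : Fin d) : MvPowerSeries (Fin d) k :=
  fun m => if ∀ j, j < i → m j = 0 then coeff (m + Finsupp.single i 1) f else 0

theorem coeff_part (f : MvPowerSeries (Fin d) k) (i : Fin d) (m : Fin d →₀ ℕ) :
    coeff m (part k d f i) =
      if ∀ j, j < i → m j = 0 then coeff (m + Finsupp.single i 1) f else 0 :=
  rfl

theorem coeff_X_mul' (i : Fin d) (m : Fin d →₀ ℕ) (f : MvPowerSeries (Fin d) k) :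
    coeff m (X i * f) = if Finsupp.single i 1 ≤ m then coeff (m - Finsupp.single i 1) f else 0 := by
  classical
  have h : (X i : MvPowerSeries (Fin d) k) = monomial (Finsupp.single i 1) 1 := rfl
  rw [h, coeff_monomial_mul, one_mul]

theorem sum_part (f : MvPowerSeries (Fin d) k) (hf : constantCoeff f = 0) :
    f = ∑ i, X i * part k d f i := by
  classical
  ext m
  rw [map_sum]
  by_cases hm : m = 0
  · subst hm
    have h0 : coeff (0 : Fin d →₀ ℕ) f = 0 := hf
    rw [h0]
    refine (Finset.sum_eq_zero fun i _ => ?_).symm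
    exact coeff_zero_X_mul _ _
  · have hex : ∃ i, m i ≠ 0 := by
      by_contra h
      push Not at h
      exact hm (Finsupp.ext h)
    obtain ⟨i₀, hi₀, hmin⟩ : ∃ i₀, m i₀ ≠ 0 ∧ ∀ j, j < i₀ → m j = 0 := by
      have hne : (Finset.univ.filter fun i => m i ≠ 0).Nonempty := by
        obtain ⟨i, hi⟩ := hex
        exact ⟨i, Finset.mem_filter.2 ⟨Finset.mem_univ _, hi⟩⟩
      refine ⟨(Finset.univ.filter fun i => m i ≠ 0).min' hne, ?_, ?_⟩
      · exact (Finset.mem_filter.1 (Finset.min'_mem _ hne)).2
      · intro j hj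
        by_contra h
        have := Finset.min'_le (Finset.univ.filter fun i => m i ≠ 0) j
          (Finset.mem_filter.2 ⟨Finset.mem_univ _, h⟩)
        exact absurd hj (not_lt.2 this)
    have hle : Finsupp.single i₀ 1 ≤ m := by
      rw [Finsupp.single_le_iff]
      omega
    rw [Finset.sum_eq_single i₀]
    · rw [coeff_X_mul', if_pos hle, coeff_part, if_pos, tsub_add_cancel_of_le hle]
      intro j hj
      rw [Finsupp.coe_tsub, Pi.sub_apply, hmin j hj, Nat.zero_sub]
    · intro i _ hi
      rw [coeff_X_mul']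
      by_cases h1 : Finsupp.single i 1 ≤ m
      · rw [if_pos h1, coeff_part, if_neg]
        intro h2
        have hi' : m i ≠ 0 := by
          rw [Finsupp.single_le_iff] at h1
          omega
        have hlt : i₀ < i := by
          rcases lt_trichotomy i₀ i with h | h | h
          · exact h
          · exact absurd h.symm hi
          · exact absurd (hmin i h) hi'
        have h3 := h2 i₀ hlt
        rw [Finsupp.coe_tsub, Pi.sub_apply, Finsupp.single_apply, if_neg hi, Nat.sub_zero] at h3
        exact hi₀ h3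
      · rw [if_neg h1]
    · intro h
      exact absurd (Finset.mem_univ _) h

theorem pow_mem_span (r : MvPowerSeries (Fin d) k) (hr : constantCoeff r = 0) :
    r ^ p ^ e ∈ Ideal.span (Set.range fun i : Fin d =>
      (X i : MvPowerSeries (Fin d) k) ^ (p ^ e)) := by
  have : CharP (MvPowerSeries (Fin d) k) p :=
    charP_of_injective_algebraMap (FaithfulSMul.algebraMap_injective k (MvPowerSeries (Fin d) k)) p
  rw [sum_part k d r hr, sum_pow_char_pow]
  refine Ideal.sum_mem _ fun i _ => ?_
  rw [mul_pow]
  exact Ideal.mul_mem_right _ _ (Ideal.subset_span ⟨i, rfl⟩)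

end

open Pool.Agent.H261.FT867 (ex ex_apply) in
theorem psf : S_PSF := by
  intro p _ k _ _ hk d e
  classical
  obtain ⟨τ, n, c, u, hτ, hcu⟩ := field_part k p hk e
  have hq : 0 < p ^ e := pow_pos (Fact.out : p.Prime).pos _
  let top : Fin d → Fin (p ^ e) := fun _ => ⟨p ^ e - 1, Nat.sub_lt hq one_pos⟩
  let cp : (Fin d → Fin (p ^ e)) → (Fin d → Fin (p ^ e)) := fun a i =>
    ⟨p ^ e - 1 - a i, by omega⟩
  have hcp : ∀ a, ex d (cp a) + ex d a = ex d top := by
    intro a
    ext i
    simp only [Finsupp.add_apply, ex_apply, cp, top]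
    have := (a i).isLt
    omega
  have hT : ∀ (a : Fin d → Fin (p ^ e)) (v : k) (g : MvPowerSeries (Fin d) k),
      tt p k d e τ (ex d top) (monomial (ex d (cp a)) v * g) =
        tt p k d e τ (ex d a) (C v * g) := by
    intro a v g
    ext b
    rw [coeff_tt, coeff_tt]
    have h1 : p ^ e • b + ex d top = ex d (cp a) + (p ^ e • b + ex d a) := by
      rw [← hcp a]
      abel
    rw [h1, coeff_add_monomial_mul, coeff_C_mul]
  have hC := tt_cartier p k d e hτ top
  refine ⟨tt p k d e τ (ex d top), hC, fun ψ hψ => ?_, fun w hw => ?_, fun w hw => ?_⟩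
  · refine ⟨∑ a : Fin d → Fin (p ^ e), ∑ j, (ψ (monomial (ex d a) (c j))) ^ p ^ e *
      monomial (ex d (cp a)) (u j), fun g => ?_⟩
    rw [Finset.sum_mul, map_sum]
    conv_lhs => rw [← expansion p k d e hcu g, map_sum]
    refine Finset.sum_congr rfl fun a _ => ?_
    rw [Finset.sum_mul, map_sum, map_sum]
    refine Finset.sum_congr rfl fun j _ => ?_
    rw [hψ, mul_assoc, hC, hT, mul_comm]
  · rw [← expansion p k d e hcu w]
    apply Finset.sum_eq_zero
    intro a _
    apply Finset.sum_eq_zero
    intro j _
    have h1 := hw (monomial (ex d (cp a)) (u j))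
    rw [mul_comm, hT] at h1
    rw [h1, zero_pow hq.ne', zero_mul]
  · by_contra hcon
    push Not at hcon
    apply hw
    rw [← expansion p k d e hcu w]
    refine Ideal.sum_mem _ fun a _ => Ideal.sum_mem _ fun j _ => Ideal.mul_mem_right _ _ ?_
    apply pow_mem_span
    have h1 := hcon (monomial (ex d (cp a)) (u j))
    rw [hT, MvPowerSeries.isUnit_iff_constantCoeff, isUnit_iff_ne_zero, not_not] at h1
    exact h1

end Pool.Agent.H867.FT.PSFc
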