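import Pool.Agent.H867.FT.ExF
import Pool.Agent.H867.FT.PSFc
import Pool.Agent.H553.FT867QBC
import Pool.Agent.H727.FT867CDM
import Pool.Agent.H407.FT867FLT
import Pool.Agent.H124.FT867FDV
import Pool.Agent.H102.FT867DES

/-!
# The maximum.
-/

namespace Pool.Agent.H867.FT

/-- The set of the F-pure thresholds `fpt(𝔪)` of the rings of the class in dimension `d` and
characteristic `p`. -/
def Values (p : ℕ) [Fact p.Prime] (d : ℕ) : Set ℝ :=
  {s | ∃ (R : Type) (_ : CommRing R) (_ : IsDomain R) (_ : IsLocalRing R) (_ : CharP R p),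
    InClass p d R ∧ s = fpt R p (IsLocalRing.maximalIdeal R)}

theorem upper_nonQG {p : ℕ} [Fact p.Prime] {d : ℕ} (hd : 2 ≤ d) {A : Type} [CommRing A]
    [IsDomain A] [IsLocalRing A] [CharP A p] (hA : NonQG p d A)
    (hinf : Infinite (IsLocalRing.ResidueField A))
    {t : ℝ} (ht : FPurePair A p (IsLocalRing.maximalIdeal A) t) : t ≤ (d : ℝ) - 3 / 2 :=
  upper PSFc.psf Pool.Agent.H553.FT867QBC.qbc0
    Pool.Agent.H727.FT867CDM.cdm Pool.Agent.H407.FT867FLT.flt
    (Pool.Agent.H102.FT.DES.des Pool.Agent.H124.FT867.fdv) hd hA hinf ht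

theorem upper_class {p : ℕ} [Fact p.Prime] {d : ℕ} (hd : 2 ≤ d) {R : Type} [CommRing R]
    [IsDomain R] [IsLocalRing R] [CharP R p] (hR : InClass p d R)
    {t : ℝ} (ht : FPurePair R p (IsLocalRing.maximalIdeal R) t) : t ≤ (d : ℝ) - 3 / 2 := by
  rcases hR.nagata with h | ⟨hp, A, a1, a2, a3, a4, a5, hloc, hA⟩
  · exact upper_nonQG hd hR.nonQG h ht
  · have := hR.nonQG.noeth
    obtain ⟨-, -, hinf, -, hN⟩ := Pool.Agent.H397.FT867NAG.nag p R A hp hloc
    exact upper_nonQG hd hA hinf (hN t ht)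

theorem values_max (p : ℕ) [Fact p.Prime] (d : ℕ) (hd : 3 ≤ d) :
    IsGreatest (Values p d) ((d : ℝ) - 3 / 2) := by
  have hd' : (3 : ℝ) ≤ d := by exact_mod_cast hd
  constructor
  · obtain ⟨m, rfl⟩ := Nat.exists_eq_add_of_le' hd
    obtain ⟨R, r1, r2, r3, r4, hR, -, hex⟩ := exaF PSFc.psf p m
    refine ⟨R, r1, r2, r3, r4, hR, ?_⟩
    have hub : ∀ t ∈ {t : ℝ | 0 ≤ t ∧ FPurePair R p (IsLocalRing.maximalIdeal R) t},
        t ≤ ((m + 3 : ℕ) : ℝ) - 3 / 2 := fun t ht => upper_class (by omega) hR ht.2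
    apply le_antisymm
    · apply le_of_forall_lt
      intro t ht
      obtain ⟨t', ht1, ht2⟩ := exists_between (max_lt ht (show (0 : ℝ) < ((m + 3 : ℕ) : ℝ) - 3 / 2 by
        push_cast; linarith [Nat.cast_nonneg (α := ℝ) m]))
      refine lt_of_lt_of_le (lt_of_le_of_lt (le_max_left _ _) ht1) ?_
      have h0 : 0 ≤ t' := le_of_lt (lt_of_le_of_lt (le_max_right _ _) ht1)
      exact le_csSup ⟨_, hub⟩ ⟨h0, hex t' h0 ht2⟩
    · exact Real.sSup_le hub (by linarith)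
  · rintro s ⟨R, r1, r2, r3, r4, hR, rfl⟩
    exact Real.sSup_le (fun t ht => upper_class (by omega) hR ht.2) (by linarith)

end Pool.Agent.H867.FT
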