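import Pool.Agent.H867.FT.Gal
import Pool.Agent.H867.FT.Gen4

/-!
# Assembly, part 15: the case of a quadratic factor without roots.
-/

namespace Pool.Agent.H867.FT

open Module

set_option linter.unusedSectionVars false
set_option linter.unusedSimpArgs false

theorem frob_finite_ext (p : ℕ) [Fact p.Prime] (k k' : Type) [Field k] [Field k'] [CharP k p]
    [CharP k' p] [Algebra k k'] [Module.Finite k k'] (h : (frobenius k p).Finite) :
    (frobenius k' p).Finite := by
  have h1 : (algebraMap k k').Finite := RingHom.finite_algebraMap.2 inferInstance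
  have h2 : ((frobenius k' p).comp (algebraMap k k')) = (algebraMap k k').comp (frobenius k p) := by
    ext a
    simp [frobenius_def]
  have h3 : ((frobenius k' p).comp (algebraMap k k')).Finite := by
    rw [h2]
    exact h1.comp h
  exact RingHom.Finite.of_comp_finite h3

section dvd

variable {k k' : Type} [Field k] [Field k'] [Algebra k k'] {D : ℕ}

theorem dvdSq_map {G F : Polynomial (MvPowerSeries (Fin D) k)} (h : DvdSq G F) :
    DvdSq (G.map (MvPowerSeries.map (algebraMap k k')))
      (F.map (MvPowerSeries.map (algebraMap k k'))) := by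
  obtain ⟨Q, hQ⟩ := h
  refine ⟨Q.map (MvPowerSeries.map (algebraMap k k')), fun n => ?_⟩
  rw [← Polynomial.map_mul, ← Polynomial.map_sub, Polynomial.coeff_map]
  exact map_mem_pow (hQ n)

end dvd

/-- derivative -/
theorem dvdSq_deriv {P : Type} [CommRing P] [IsLocalRing P] {F G : Polynomial P} (hG : G.Monic)
    (hF : ∀ n, F.coeff n ∈ IsLocalRing.maximalIdeal P) (h : DvdSq G F) {l : P}
    (hl : G.eval l ∈ IsLocalRing.maximalIdeal P)
    (hl' : (Polynomial.derivative G).eval l ∈ IsLocalRing.maximalIdeal P) :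
    (Polynomial.derivative F).eval l ∈ IsLocalRing.maximalIdeal P ^ 2 := by
  obtain ⟨Q, hQ⟩ := h
  have hQm := cofactor_mem hG hF hQ
  have h1 : Q.eval l ∈ IsLocalRing.maximalIdeal P := by
    rw [Polynomial.eval_eq_sum_range]
    exact Ideal.sum_mem _ (fun i _ => Ideal.mul_mem_right _ _ (hQm i))
  have h1' : (Polynomial.derivative Q).eval l ∈ IsLocalRing.maximalIdeal P := by
    rw [Polynomial.eval_eq_sum_range]
    refine Ideal.sum_mem _ (fun i _ => Ideal.mul_mem_right _ _ ?_)
    rw [Polynomial.coeff_derivative]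
    exact Ideal.mul_mem_right _ _ (hQm _)
  have h2 : (Polynomial.derivative (F - G * Q)).eval l ∈ IsLocalRing.maximalIdeal P ^ 2 := by
    rw [Polynomial.eval_eq_sum_range]
    refine Ideal.sum_mem _ (fun i _ => Ideal.mul_mem_right _ _ ?_)
    rw [Polynomial.coeff_derivative]
    exact Ideal.mul_mem_right _ _ (hQ _)
  have h3 : (Polynomial.derivative F).eval l = (Polynomial.derivative (F - G * Q)).eval l +
      ((Polynomial.derivative G).eval l * Q.eval l + G.eval l * (Polynomial.derivative Q).eval l) := by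
    rw [Polynomial.derivative_sub, Polynomial.derivative_mul, Polynomial.eval_sub,
      Polynomial.eval_add, Polynomial.eval_mul, Polynomial.eval_mul]
    ring
  rw [h3]
  refine Ideal.add_mem _ h2 (Ideal.add_mem _ ?_ ?_)
  · rw [pow_two]; exact Ideal.mul_mem_mul hl' h1
  · rw [pow_two]; exact Ideal.mul_mem_mul hl h1'

theorem span_map_mem {k k' : Type} [Field k] [Field k'] [Algebra k k'] {D : ℕ}
    {b a z : MvPowerSeries (Fin D) k} (h : b ∈ Ideal.span {a, z}) :
    MvPowerSeries.map (algebraMap k k') b ∈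
      Ideal.span {MvPowerSeries.map (algebraMap k k') a, MvPowerSeries.map (algebraMap k k') z} := by
  obtain ⟨r, s, rfl⟩ := Ideal.mem_span_pair.1 h
  rw [map_add, map_mul, map_mul]
  exact Ideal.mem_span_pair.2 ⟨_, _, rfl⟩

theorem span_map_mem4 {k k' : Type} [Field k] [Field k'] [Algebra k k'] {D : ℕ}
    {w a b c d : MvPowerSeries (Fin D) k} (h : w ∈ Ideal.span {a, b, c, d}) :
    MvPowerSeries.map (algebraMap k k') w ∈
      Ideal.span {MvPowerSeries.map (algebraMap k k') a, MvPowerSeries.map (algebraMap k k') b,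
        MvPowerSeries.map (algebraMap k k') c, MvPowerSeries.map (algebraMap k k') d} := by
  have h1 := Ideal.mem_map_of_mem (MvPowerSeries.map (algebraMap k k') :
    MvPowerSeries (Fin D) k →+* _) h
  rw [Ideal.map_span] at h1
  refine Ideal.span_mono ?_ h1
  rintro y ⟨x, hx, rfl⟩
  simp only [Set.mem_insert_iff, Set.mem_singleton_iff] at hx ⊢
  rcases hx with rfl | rfl | rfl | rfl <;> simp

/-- The bound over a field where `F` has a root modulo `𝔪²` together with the conjugate one. -/
theorem two_bound (hPSF : S_PSF) (H : Lems) (hBET : S_BET) (hCLB : S_CLB) (hEXL : S_EXL)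
    (p : ℕ) [Fact p.Prime] (k : Type) [Field k] [Infinite k] [CharP k p]
    (hF : (frobenius k p).Finite) (D : ℕ) (hD : 2 ≤ D)
    (R L K : Type) [CommRing R] [IsDomain R] [IsLocalRing R]
    [Algebra (MvPowerSeries (Fin D) k) R] [Module.Finite (MvPowerSeries (Fin D) k) R]
    [Module.Free (MvPowerSeries (Fin D) k) R] [Field L] [Algebra (MvPowerSeries (Fin D) k) L]
    [IsFractionRing (MvPowerSeries (Fin D) k) L] [Field K] [Algebra R K] [IsFractionRing R K]
    [Algebra (MvPowerSeries (Fin D) k) K] [IsScalarTower (MvPowerSeries (Fin D) k) R K]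
    [Algebra L K] [IsScalarTower (MvPowerSeries (Fin D) k) L K] [FiniteDimensional L K]
    [Algebra.IsSeparable L K] (C : Submodule R K)
    (hC : IsCodiff (MvPowerSeries (Fin D) k) R L K C)
    {a b c d z : MvPowerSeries (Fin D) k} {x y₀ : K} (h : Nf L C z a b c d x y₀)
    (ha : a ∈ IsLocalRing.maximalIdeal (MvPowerSeries (Fin D) k))
    (hz : z ∈ IsLocalRing.maximalIdeal (MvPowerSeries (Fin D) k)) (hind : Ind a z)
    {G : Polynomial (MvPowerSeries (Fin D) k)} (hG : G.Monic) (hG2 : G.natDegree = 2)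
    {l : MvPowerSeries (Fin D) k}
    (hl : G.eval l ∈ IsLocalRing.maximalIdeal (MvPowerSeries (Fin D) k))
    (hGF : DvdSq G (Polynomial.C a * Polynomial.X ^ 3 + Polynomial.C b * Polynomial.X ^ 2 +
        Polynomial.C c * Polynomial.X + Polynomial.C d))
    {e N : ℕ} {f : R} (hq : 3 ≤ p ^ e) (hN : f ∈ IsLocalRing.maximalIdeal R ^ N)
    (hf : FSplits R (p ^ e) f) :
    2 * N + (p ^ e - 1) ≤ 2 * ((D - 1) * (p ^ e - 1)) := by
  have hnoeth : IsNoetherianRing (MvPowerSeries (Fin D) k) := (Pool.Agent.H719.FT867RES.res k D).1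
  have hnorm : IsIntegrallyClosed (MvPowerSeries (Fin D) k) := Pool.Agent.H671.FT867PSN.psn k D
  have hle := span_le_max ha hz
  have hb := hle h.hb
  have hc := hle h.hc
  have hd := hle h.hd
  obtain ⟨ω, θ, hcub⟩ := h.cub
  have hPK : Function.Injective (algebraMap (MvPowerSeries (Fin D) k) K) := by
    rw [IsScalarTower.algebraMap_eq (MvPowerSeries (Fin D) k) L K]
    exact (algebraMap L K).injective.comp (IsFractionRing.injective _ L)
  have hPR : Function.Injective (algebraMap (MvPowerSeries (Fin D) k) R) := by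
    rw [IsScalarTower.algebraMap_eq (MvPowerSeries (Fin D) k) R K] at hPK
    exact Function.Injective.of_comp hPK
  have : FaithfulSMul (MvPowerSeries (Fin D) k) R := (faithfulSMul_iff_algebraMap_injective _ R).2 hPR
  obtain ⟨i0, hred⟩ := hEXL (MvPowerSeries (Fin D) k) R K a b c d x ω θ ha hb hc hd hcub.root
    hcub.hω hcub.hθ hcub.gen
  have hred' : ∃ r : ℕ, IsLocalRing.maximalIdeal R ^ (r + 1) =
      (IsLocalRing.maximalIdeal (MvPowerSeries (Fin D) k)).map
        (algebraMap (MvPowerSeries (Fin D) k) R) * IsLocalRing.maximalIdeal R ^ r := ⟨1, hred⟩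
  have hloc : (IsLocalRing.maximalIdeal (MvPowerSeries (Fin D) k)).map
      (algebraMap (MvPowerSeries (Fin D) k) R) ≤ IsLocalRing.maximalIdeal R := by
    rw [Ideal.map_le_iff_le_comap]
    intro r hr
    rw [Ideal.mem_comap, IsLocalRing.mem_maximalIdeal, mem_nonunits_iff]
    intro hu
    have h1 : IsUnit r := by
      have hint : Algebra.IsIntegral (MvPowerSeries (Fin D) k) R := inferInstance
      have := (algebraMap_isIntegral_iff.2 hint)
      exact (this.isLocalHom hPR).map_nonunit r hu
    exact (notMem_iff_isUnit.2 h1) hr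
  obtain ⟨B, hB0, hB1, hB2⟩ := cub_basis (L := L) hcub
  obtain ⟨hω, hθ⟩ := cub_mem (L := L) hcub hloc ha hb hc hd
  have hbj : ∀ j : Fin 2, B j.succ ∈ IsLocalRing.maximalIdeal R := by
    intro j
    fin_cases j
    · show B 1 ∈ _
      rw [hB1]; exact hω
    · show B 2 ∈ _
      rw [hB2]; exact hθ
  have hP := cubP2 k D
  have hcont := content_ht hP ha hz hind (I := Ideal.span {a, b, c, d})
    (Ideal.subset_span (by simp)) h.hz
  obtain ⟨T, TL, β, g, S⟩ := splitData_of2 (L := L) hBET hCLB hP hC hcub hcont B (p ^ e) N (by omega)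
    (cartGen2 p k hPSF hF D e) f hN hf
  have Dt := pdata2 p k hPSF hF D hD L
  obtain ⟨V, i1, i2, i3, i4, i5, i6, i7, π, hV, ho⟩ := Dt.ord
  let _ : Algebra V K := ((algebraMap L K).comp (algebraMap V L)).toAlgebra
  have : IsScalarTower V L K := IsScalarTower.of_algebraMap_eq (fun _ => rfl)
  have : IsScalarTower (MvPowerSeries (Fin D) k) V K := IsScalarTower.of_algebraMap_eq (fun r => by
    rw [IsScalarTower.algebraMap_apply (MvPowerSeries (Fin D) k) L K,
      IsScalarTower.algebraMap_apply (MvPowerSeries (Fin D) k) V L]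
    rfl)
  have hfin : Module.finrank L K = 3 := by
    rw [Module.finrank_eq_card_basis (B.localizationLocalization L
      (nonZeroDivisors (MvPowerSeries (Fin D) k)) K), Fintype.card_fin]
  obtain ⟨W, j1, j2, j3, j4, j5, j6, j7, ⟨bW⟩⟩ := exists_W V L K 3 hfin
  have U : Setup C B bW (p ^ e) N (D - 1) f T TL β g π := ⟨hC, S, hV, ho, hB0, hbj, hred', hq⟩
  set F : Polynomial (MvPowerSeries (Fin D) k) := Polynomial.C a * Polynomial.X ^ 3 +
    Polynomial.C b * Polynomial.X ^ 2 + Polynomial.C c * Polynomial.X + Polynomial.C d with hFF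
  have hFd : F.natDegree ≤ 3 := Polynomial.natDegree_cubic_le
  have c0 : F.coeff 0 = d := by rw [hFF]; simp
  have c1 : F.coeff 1 = c := by simp [hFF, Polynomial.coeff_X, Polynomial.coeff_C]
  have c2 : F.coeff 2 = b := by simp [hFF, Polynomial.coeff_X, Polynomial.coeff_C]
  have c3 : F.coeff 3 = a := by simp [hFF, Polynomial.coeff_X, Polynomial.coeff_C]
  have hFm : ∀ n, F.coeff n ∈ IsLocalRing.maximalIdeal (MvPowerSeries (Fin D) k) := by
    intro n
    rcases Nat.lt_or_ge n 4 with hn | hn
    · interval_cases n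
      · rw [c0]; exact hd
      · rw [c1]; exact hc
      · rw [c2]; exact hb
      · rw [c3]; exact ha
    · rw [Polynomial.coeff_eq_zero_of_natDegree_lt (by omega)]
      exact Ideal.zero_mem _
  have hev : ∀ l, F.eval l = a * l ^ 3 + b * l ^ 2 + c * l + d := by
    intro l; rw [hFF]; simp
  have hdev : ∀ l, (Polynomial.derivative F).eval l = c + 2 * b * l + 3 * a * l ^ 2 := by
    intro l
    rw [hFF]
    simp only [Polynomial.derivative_add, Polynomial.derivative_mul, Polynomial.derivative_C,
      Polynomial.derivative_X_pow, Polynomial.derivative_X, Polynomial.eval_add,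
      Polynomial.eval_mul, Polynomial.eval_C, Polynomial.eval_pow, Polynomial.eval_X,
      Polynomial.eval_zero, Polynomial.eval_one, zero_mul, zero_add, mul_one, add_zero]
    simp
    ring
  have hl1 := dvdSq_eval hG hFm hGF hl
  rw [hev] at hl1
  -- the other root
  have hGe : ∀ y, G.eval y = y ^ 2 + G.coeff 1 * y + G.coeff 0 := by
    intro y
    rw [Polynomial.eval_eq_sum_range, hG2, Finset.sum_range_succ, Finset.sum_range_succ,
      Finset.sum_range_succ, Finset.sum_range_zero]
    have : G.coeff 2 = 1 := by rw [← hG2]; exact hG.coeff_natDegree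
    rw [this]
    ring
  set l₂ : MvPowerSeries (Fin D) k := -G.coeff 1 - l with hl₂
  have hGl₂ : G.eval l₂ ∈ IsLocalRing.maximalIdeal (MvPowerSeries (Fin D) k) := by
    have : G.eval l₂ = G.eval l := by rw [hGe, hGe, hl₂]; ring
    rw [this]; exact hl
  have hl2 := dvdSq_eval hG hFm hGF hGl₂
  rw [hev] at hl2
  by_cases hu : IsUnit (l₂ - l)
  · exact two_roots (W := W) H U hP h ha hz hind hu hl1 hl2
  · have hdG : (Polynomial.derivative G).eval l ∈
        IsLocalRing.maximalIdeal (MvPowerSeries (Fin D) k) := by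
      have e1 : (Polynomial.derivative G).eval l = -(l₂ - l) := by
        rw [Polynomial.eval_eq_sum_range' (n := 2) (by
          have := Polynomial.natDegree_derivative_lt (p := G) (by omega)
          omega), Finset.sum_range_succ, Finset.sum_range_succ, Finset.sum_range_zero,
          Polynomial.coeff_derivative, Polynomial.coeff_derivative, hl₂]
        have : G.coeff 2 = 1 := by rw [← hG2]; exact hG.coeff_natDegree
        norm_num [this]
        ring
      rw [e1]
      rw [neg_mem_iff]
      by_contra hcon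
      exact hu (notMem_iff_isUnit.1 hcon)
    have hl3 := dvdSq_deriv hG hFm hGF hl hdG
    rw [hdev] at hl3
    exact dbl_root (W := W) H U h ha hz hind hl1 hl3

/-- The bound when there is a quadratic factor without roots. -/
theorem quad_bound (hPSF : S_PSF) (hQBC : S_QBC) (H : Lems) (hBET : S_BET) (hCLB : S_CLB)
    (hEXL : S_EXL) (p : ℕ) [Fact p.Prime] (k : Type) [Field k] [Infinite k] [CharP k p]
    (hF : (frobenius k p).Finite) (D : ℕ) (hD : 2 ≤ D)
    (R L K : Type) [CommRing R] [IsDomain R] [IsLocalRing R] [CharP R p]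
    [Algebra (MvPowerSeries (Fin D) k) R] [Module.Finite (MvPowerSeries (Fin D) k) R]
    [Module.Free (MvPowerSeries (Fin D) k) R] [Field L] [Algebra (MvPowerSeries (Fin D) k) L]
    [IsFractionRing (MvPowerSeries (Fin D) k) L] [Field K] [Algebra R K] [IsFractionRing R K]
    [Algebra (MvPowerSeries (Fin D) k) K] [IsScalarTower (MvPowerSeries (Fin D) k) R K]
    [Algebra L K] [IsScalarTower (MvPowerSeries (Fin D) k) L K] [FiniteDimensional L K]
    [Algebra.IsSeparable L K] (C : Submodule R K)
    (hC : IsCodiff (MvPowerSeries (Fin D) k) R L K C)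
    {a b c d z : MvPowerSeries (Fin D) k} {x y₀ : K} (h : Nf L C z a b c d x y₀)
    (ha : a ∈ IsLocalRing.maximalIdeal (MvPowerSeries (Fin D) k))
    (hz : z ∈ IsLocalRing.maximalIdeal (MvPowerSeries (Fin D) k)) (hind : Ind a z)
    {G : Polynomial (MvPowerSeries (Fin D) k)} (hG : G.Monic) (hG2 : G.natDegree = 2)
    (hG3 : ∀ l, G.eval l ∉ IsLocalRing.maximalIdeal (MvPowerSeries (Fin D) k))
    (hGF : DvdSq G (Polynomial.C a * Polynomial.X ^ 3 + Polynomial.C b * Polynomial.X ^ 2 +
        Polynomial.C c * Polynomial.X + Polynomial.C d))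
    {e N : ℕ} {f : R} (hq : 3 ≤ p ^ e) (hN : f ∈ IsLocalRing.maximalIdeal R ^ N)
    (hf : FSplits R (p ^ e) f) :
    2 * N + (p ^ e - 1) ≤ 2 * ((D - 1) * (p ^ e - 1)) := by
  have hnoeth : IsNoetherianRing (MvPowerSeries (Fin D) k) := (Pool.Agent.H719.FT867RES.res k D).1
  have hnorm : IsIntegrallyClosed (MvPowerSeries (Fin D) k) := Pool.Agent.H671.FT867PSN.psn k D
  have hle := span_le_max ha hz
  obtain ⟨ω, θ, hcub⟩ := h.cub
  set g : Polynomial k := G.map (MvPowerSeries.constantCoeff (σ := Fin D) (R := k)) with hg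
  have hgm : g.Monic := hG.map _
  have hgd : g.natDegree = 2 := by rw [hg, hG.natDegree_map, hG2]
  have hgr : ∀ α : k, g.eval α ≠ 0 := by
    intro α hα
    apply hG3 (MvPowerSeries.C α)
    rw [mem_max_iff, ← Polynomial.eval₂_at_apply, ← Polynomial.eval_map,
      MvPowerSeries.constantCoeff_C]
    exact hα
  have hirr : Irreducible g := by
    rw [Polynomial.irreducible_iff_roots_eq_zero_of_degree_le_three (by omega) (by omega)]
    by_contra hne
    obtain ⟨α, hα⟩ := Multiset.exists_mem_of_ne_zero hne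
    exact hgr α (Polynomial.isRoot_of_mem_roots hα)
  have : Fact (Irreducible g) := ⟨hirr⟩
  have hc' : CharP (AdjoinRoot g) p :=
    charP_of_injective_algebraMap (algebraMap k (AdjoinRoot g)).injective p
  have : Module.Finite k (AdjoinRoot g) := hgm.finite_adjoinRoot
  have : Infinite (AdjoinRoot g) := Infinite.of_injective _ (algebraMap k (AdjoinRoot g)).injective
  have hF' : (frobenius (AdjoinRoot g) p).Finite := frob_finite_ext p k _ hF
  have hfr : Module.finrank k (AdjoinRoot g) = 2 := by
    rw [(AdjoinRoot.powerBasis hgm.ne_zero).finrank, AdjoinRoot.powerBasis_dim, hgd]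
  obtain ⟨R', q1, q2, q3, q4, q5, q6, L', q7, q8, q9, K', r1, r2, r3, r4, r5, r6, r7, r8, r9,
    C', x', y₀', ω', θ', f', hC', hcub', hN', hf'⟩ :=
    hQBC p e k (AdjoinRoot g) D R L K C a b c d x y₀ ω θ f N hF hfr ha (hle h.hb) (hle h.hc)
      (hle h.hd) hC hcub hN hf
  refine two_bound hPSF H hBET hCLB hEXL p (AdjoinRoot g) hF' D hD R' L' K' C' hC'
    (z := MvPowerSeries.map (algebraMap k (AdjoinRoot g)) z)
    ⟨⟨ω', θ', hcub'⟩, span_map_mem h.hb, span_map_mem h.hc, span_map_mem h.hd,
      span_map_mem4 h.hz⟩ (map_mem ha) (map_mem hz) (ind_map ha hz hind)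
    (G := G.map (MvPowerSeries.map (algebraMap k (AdjoinRoot g)))) (hG.map _)
    (by rw [hG.natDegree_map, hG2]) (l := MvPowerSeries.C (AdjoinRoot.root g)) ?_ ?_ hq hN' hf'
  · rw [mem_max_iff, ← Polynomial.eval₂_at_apply, ← Polynomial.eval_map, Polynomial.map_map,
      MvPowerSeries.constantCoeff_C]
    have e1 : (MvPowerSeries.constantCoeff (σ := Fin D) (R := AdjoinRoot g)).comp
        (MvPowerSeries.map (algebraMap k (AdjoinRoot g))) =
        (algebraMap k (AdjoinRoot g)).comp (MvPowerSeries.constantCoeff (σ := Fin D) (R := k)) := by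
      ext y
      simp [MvPowerSeries.constantCoeff_map]
    rw [e1, ← Polynomial.map_map, ← hg, Polynomial.eval_map]
    exact AdjoinRoot.eval₂_root g
  · have h1 := dvdSq_map (k' := AdjoinRoot g) hGF
    simp only [Polynomial.map_add, Polynomial.map_mul, Polynomial.map_C, Polynomial.map_pow,
      Polynomial.map_X] at h1
    exact h1

end Pool.Agent.H867.FT
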