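import Pool.Agent.H867.FT.Defs

/-!
# Statements (with paper proofs) for the toric part of MP_7dd379_ag

`Cone d n` is a full-dimensional strongly convex rational cone in `ℝ^d` with `n` rays,
`C.S = σ^∨ ∩ ℤ^d`, `C.Ring K = K[C.S]` (an `AddMonoidAlgebra`), `C.maxIdeal K` the ideal of the
torus-fixed point (kernel of `C.aug K`), `C.LocalRing K` the localization at it.
-/

namespace Pool.Agent.H867.FT

open scoped Polynomial

/-- **LOC.** Splittings localize.
Proof. Put `φ' (r / s) = φ (r * s ^ (q-1)) / s`.  Well defined: if `t (r s' - r' s) = 0` then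
`s' φ(r s^{q-1}) - s φ(r' s'^{q-1}) = φ(s'^q s^{q-1} r) - φ(s^q s'^{q-1} r')
 = φ(s^{q-1} s'^{q-1} (r s' - r' s))`, and `t` times this is `φ(t^q ...) = 0`.  Additivity is the
same computation; `φ' (x ^ q y) = x φ' y` and `φ' (f / 1) = φ f / 1 = 1`. (No characteristic
assumption is needed, only `1 ≤ q`.) -/
def S_LOC : Prop :=
  ∀ (A B : Type) [CommRing A] [CommRing B] [Algebra A B] (M : Submonoid A) [IsLocalization M B]
    (q : ℕ) (f : A), 1 ≤ q → FSplits A q f → FSplits B q (algebraMap A B f)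

/-- **MON.** If `⟨v i, u⟩ ≤ q - 1` for all rays then the monomial `x ^ u` splits in `K[S]`.
Proof. `K` has characteristic `p`, `q = p ^ e`. Choose an additive `ρ : K → K` with
`ρ (c ^ q * s) = c * ρ s` and `ρ 1 = 1` (a `K^q`-linear retraction of `K` onto the subfield `K^q`,
followed by the inverse of the Frobenius `K ≅ K^q`). Define `φ` on monomials by
`φ (c x^a) = ρ(c) x^{(a-u)/q}` if `q ∣ a - u` in `ℤ^d`, and `0` otherwise; `(a-u)/q` lies in `S`:
`q ⟨v i, (a-u)/q⟩ = ⟨v i, a⟩ - ⟨v i, u⟩ ≥ -(q-1) > -q`. Then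
`φ ((c x^b)^q * s x^a) = φ (c^q s x^{a+qb}) = c x^b φ(s x^a)`, extend additively (use that
`r ↦ r ^ q` is additive in characteristic `p`, `q = p^e`). `φ (x^u) = 1`. -/
def S_MON : Prop :=
  ∀ (p : ℕ) [Fact p.Prime] (K : Type) [Field K] [CharP K p] (d n : ℕ) (C : Cone d n) (e : ℕ)
    (u : C.S), (∀ i, C.v i ⬝ᵥ (u : Fin d → ℤ) ≤ (p : ℤ) ^ e - 1) →
    FSplits (C.Ring K) (p ^ e) (AddMonoidAlgebra.single u (1 : K))

/-- **SUP.** (support argument, the heart of the upper bound)  If some element of `𝔪 ^ N` splits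
in the local ring, then there is `u ∈ S`, a sum of `N` nonzero elements of `S`, with
`⟨v i, u⟩ ≤ q - 1` for all rays.
Proof. Let `R = C.LocalRing K`, `f ∈ 𝔪^N`, `φ f = 1`. The maximal ideal of `R` is generated by
the images of the monomials `x^u`, `u ≠ 0` (an element of the kernel of `aug` is a combination of
such monomials), so `𝔪 ^ N` is the span of the images of `x^{u_1 + ... + u_N}`, `u_j ≠ 0`, and
`f = ∑ c_j x^{w_j}` with `c_j ∈ R`. As `φ f = 1 ∉ 𝔪`, some `φ (c x^w)` is a unit, `w = w_j`.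
Claim `⟨v i, w⟩ ≤ q - 1` for every `i`. Otherwise `⟨v i, w⟩ ≥ q`. As `v i` is primitive there is
`g₀ ∈ ℤ^d` with `⟨v i, g₀⟩ = 1` (the ideal generated by the coordinates of `v i` is `ℤ`: else all
coordinates are divisible by a nonunit `k`, and `v i = k • w`), and by `facet` there is `h₀` with
`⟨v i, h₀⟩ = 0`, `⟨v j, h₀⟩ > 0` for `j ≠ i`. Put `g = g₀ + m h₀`, `h = m' h₀` with `m` large
(so that `g ∈ S`, `⟨v i, g⟩ = 1`) and then `m'` large, so that `⟨v j, h⟩ ≥ ⟨v j, g⟩` for `j ≠ i`.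
Then `b := w + q h - q g ∈ S` (at `i`: `⟨v i, w⟩ - q ≥ 0`), so in `R`
`x^h φ(c x^w) = φ(c x^{w + q h}) = φ(x^{q g} c x^b) = x^g φ(c x^b)`, hence `x^h ∈ x^g R`, i.e.
`s x^h = x^g r` in `K[S]` (a domain, or use `IsLocalization.eq_iff_exists`) with `s ∉ maxIdeal`,
i.e. the coefficient of `s` at `0` is nonzero. The coefficient of `s x^h` at `h` is that one
(`S` is cancellative), so it is nonzero, so `h ∈ g + S`, whence `⟨v i, h - g⟩ ≥ 0`; but it is
`-1`. Contradiction. -/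
def S_SUP : Prop :=
  ∀ (K : Type) [Field K] (d n : ℕ) (C : Cone d n) (q N : ℕ) (f : C.LocalRing K), 1 ≤ q →
    f ∈ (IsLocalRing.maximalIdeal (C.LocalRing K)) ^ N → FSplits (C.LocalRing K) q f →
    ∃ w : Fin N → C.S, (∀ j, w j ≠ 0) ∧
      ∀ i, C.v i ⬝ᵥ ((∑ j, w j : C.S) : Fin d → ℤ) ≤ (q : ℤ) - 1

/-- **CIR.** (the four ray circuit) Let `a, b, c, e` be primitive lattice vectors with
`n a + k b = β₁ c + β₂ e`, all four coefficients positive integers, `a, c, e` linearly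
independent, and `n + k ≠ β₁ + β₂`. Then there is a lattice point `w = y₁ a + y₂ b + y₃ c + y₄ e`
with `y ≥ 0` rational, `∑ y ≤ 3/2` and (`y₁, y₂ > 0` or `y₃, y₄ > 0`).

Proof. By symmetry (exchange the pairs `{a,b}` and `{c,e}`; `c, a, b` are then independent too)
assume `n + k > β₁ + β₂`.
(i) If the lattice `L₂ = ℤ^d ∩ (ℚ c + ℚ e)` is bigger than `ℤ c + ℤ e`, then there is
`x = y₃ c + y₄ e ∈ ℤ^d` with `0 ≤ y₃, y₄ < 1`, not both zero; as `c`, `e` are primitive both are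
positive (`y₃ c ∈ ℤ^d` forces `y₃ ∈ ℤ`). `x` and `(c + e) - x` are both lattice points and their
sums of coefficients add up to `2`, so one of them has `∑ y ≤ 1`.
(ii) If some lattice point is `y₁ a + y₃ c + y₄ e` with `0 < y₁, y₃, y₄ < 1` then
it or `(a + c + e)` minus it has `∑ y ≤ 3/2`. Same with `b` in place of `a`.
(iii) Otherwise we get a contradiction. Let `L` be the lattice `ℤ^d ∩ (ℚ a + ℚ c + ℚ e)` (it
contains `b`). The `a`-coordinates of the elements of `L` form a finitely generated (indeed: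
bounded denominators) subgroup of `ℚ`, generated by some `1/k'` with `k' ≥ 1` an integer (it
contains `1`); choose `t ∈ L` with `a`-coordinate `1/k'`. By (i) every element of `L` is an integer
combination of `t, c, e`. So `a = k' t + a₁ c + a₂ e`, `b = -n' t + b₁ c + b₂ e`, `n' ≥ 1`.
If `k' > 1`, the lattice point `t` reduced modulo `ℤ c + ℤ e` has coordinates
`(1/k', {-a₁/k'}, {-a₂/k'})`, so by (ii) `k' ∣ a₁` or `k' ∣ a₂` (trivially true for `k' = 1`).
Likewise `n' ∣ b₁` or `n' ∣ b₂`. By the symmetry `c ↔ e` let `k' ∣ a₁`, and change `t` by a multiple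
of `c` so that `a₁ = 0` (this keeps `n' ∣ b₁` or `n' ∣ b₂`: those two conditions say that some
lattice point is not in the open box, or recompute: after the change apply (ii) for `b` again).
The relation is proportional to `n' a + k' b = k' b₁ c + (n' a₂ + k' b₂) e`, so
`k' b₁ > 0`, `n' a₂ + k' b₂ > 0` and `n' + k' > k' b₁ + n' a₂ + k' b₂`.
If `n' ∣ b₁` then `b₁ ≥ n'` and the right side is `≥ k' n' + 1 ≥ n' + k'`. If `n' ∣ b₂` then
`n' a₂ + k' b₂` is a positive multiple of `n'`, so the right side is `≥ k' + n'`. Contradiction. -/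
def S_CIR : Prop :=
  ∀ (d : ℕ) (a b c e : Fin d → ℤ) (n k β₁ β₂ : ℤ), 0 < n → 0 < k → 0 < β₁ → 0 < β₂ →
    n • a + k • b = β₁ • c + β₂ • e →
    (∀ (j : ℤ) (w : Fin d → ℤ), a = j • w → IsUnit j) →
    (∀ (j : ℤ) (w : Fin d → ℤ), b = j • w → IsUnit j) →
    (∀ (j : ℤ) (w : Fin d → ℤ), c = j • w → IsUnit j) →
    (∀ (j : ℤ) (w : Fin d → ℤ), e = j • w → IsUnit j) →
    (∀ x y z : ℤ, x • a + y • c + z • e = 0 → x = 0 ∧ y = 0 ∧ z = 0) →
    n + k ≠ β₁ + β₂ →
    ∃ (w : Fin d → ℤ) (y₁ y₂ y₃ y₄ : ℚ), 0 ≤ y₁ ∧ 0 ≤ y₂ ∧ 0 ≤ y₃ ∧ 0 ≤ y₄ ∧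
      y₁ + y₂ + y₃ + y₄ ≤ 3 / 2 ∧ ((0 < y₁ ∧ 0 < y₂) ∨ (0 < y₃ ∧ 0 < y₄)) ∧
      ∀ j, (w j : ℚ) = y₁ * a j + y₂ * b j + y₃ * c j + y₄ * e j

/-- **CMB.** (combinatorial theorem) If no lattice functional takes the same positive value on all
rays (the cone is not `ℚ`-Gorenstein) and `d ≥ 3`... then there is a lattice point
`w = ∑ y i • v i`, `y ≥ 0`, `∑ y ≤ d - 3/2`, in the interior of `σ` (pairing `≥ 1` with every
nonzero `u ∈ S`).

Proof (from CIR). The `v i` span `ℚ^d` (`spans`), choose a subset `B` of the rays which is a basis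
of `ℚ^d`, and `m ∈ ℚ^d` with `⟨v b, m⟩ = 1` for `b ∈ B`. If `⟨v i, m⟩ = 1` for all `i` then clearing
denominators contradicts the hypothesis; so there is a ray `v = v i`, `i ∉ B`, `v = ∑ c_b v_b`,
`∑ c_b ≠ 1`. Let `B⁻, B⁺, B⁰` be the sets where `c_b < 0, > 0, = 0`.
* `B⁻ ≠ ∅`: else pair with the facet functional of `v i`: `0 = ∑ c_b ⟨v_b, u⟩` with all
  `⟨v_b,u⟩ > 0` gives `v = 0`. `|B⁺| ≥ 2`: if `B⁺ ⊆ {b}` pair with the facet functional `u` of
  `v_b`: `⟨v, u⟩ = ∑_{B⁻} c_{b'} ⟨v_{b'}, u⟩ < 0`, while `⟨v, u⟩ > 0`.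
* If `|B⁻| ≥ 2`: `w = ∑_{c_b ≥ 0} v_b`, `∑ y ≤ d - 2`; interior: `u ∈ S` with `⟨w,u⟩ = 0` has
  `⟨v_b,u⟩ = 0` for `c_b ≥ 0`, so `0 ≤ ⟨v,u⟩ = ∑_{B⁻} c_b ⟨v_b,u⟩ ≤ 0`, all `⟨v_b,u⟩ = 0`, `u = 0`.
* If `|B⁺| ≥ 3`: `w = v + ∑_{c_b ≤ 0} v_b`, `∑ y ≤ 1 + d - 3`; interior as before.
* Else `B⁺ = {c, e}`, `B⁻ = {b'}`: `v + |c_{b'}| v_{b'} = c_c v_c + c_e v_e` with
  `1 + |c_{b'}| ≠ c_c + c_e`; clear denominators and apply CIR to
  `(a, b, c, e) = (v, v_{b'}, v_c, v_e)`  (`v, v_c, v_e` are independent), giving `w'`, and put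
  `w = w' + ∑_{b ∈ B⁰} v_b`, `∑ y ≤ 3/2 + (d - 3)`. Interior: `⟨w,u⟩ = 0` for `u ∈ S` kills
  `⟨v_b,u⟩`, `b ∈ B⁰`, and one of the two sides of the relation, hence both. -/
def S_CMB : Prop :=
  ∀ (d n : ℕ) (C : Cone d n),
    (∀ (r : ℕ) (m : Fin d → ℤ), 1 ≤ r → ∃ i, C.v i ⬝ᵥ m ≠ r) →
    ∃ (w : Fin d → ℤ) (y : Fin n → ℚ), (∀ i, 0 ≤ y i) ∧ (∑ i, y i ≤ (d : ℚ) - 3 / 2) ∧
      (∀ j, (w j : ℚ) = ∑ i, y i * (C.v i j : ℚ)) ∧
      ∀ u : Fin d → ℤ, u ∈ C.S → u ≠ 0 → 1 ≤ w ⬝ᵥ u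

/-- **NPR.** If no functional takes the same positive value on all the rays, no divisorial power of
the canonical module is principal.
Proof. Suppose `ω^{(r)} R = (g)`, `R = C.LocalRing K` (a domain). For each monomial `x^u` of
`ω^{(r)}` write `x^u = g h_u`, and `g = ∑ c_j x^{u_j}` (a finite combination of such monomials with
coefficients in `R`); `ω^{(r)} ≠ 0` so `g ≠ 0` and `1 = ∑ c_j h_{u_j}`; hence some `h_{u_j}` is a
unit of the local ring and `(g) = (x^m)`, `m = u_j`. For every `u` with `⟨v i, u⟩ ≥ r` for all `i`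
we get `x^u ∈ x^m R`, hence `u - m ∈ S` (as in SUP: `s x^u = x^m t`, `s ∉ maxIdeal`, look at the
coefficient at `u`). For each `i` there is `u` with `⟨v i, u⟩ = r` and `⟨v j, u⟩ ≥ r` for all `j`
(take `r g` with `⟨v i, g⟩ = 1` plus a large multiple of the facet functional, as in SUP), so
`⟨v i, m⟩ ≤ r`, i.e. `⟨v i, m⟩ = r` for all `i`. -/
def S_NPR : Prop :=
  ∀ (K : Type) [Field K] (d n : ℕ) (C : Cone d n),
    (∀ (r : ℕ) (m : Fin d → ℤ), 1 ≤ r → ∃ i, C.v i ⬝ᵥ m ≠ r) → ¬ C.QGorenstein K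

/-- **EXC.** The extremal cone: for `d ≥ 3` the rays `e_0, …, e_{d-1}` and
`v = 2 e_0 + e_1 - e_2` form a `Cone d (d+1)` with no functional constant (positive) on the rays.
(Give the cone with this exact `v`; facet functionals: for `e_0`: `e_1^* + ... ` etc. For example
for the ray `e_i` with `i ∉ {0,1,2}`: `u = ∑_{j ≠ i} e_j`; for `e_0`: `2 e_1 + e_2 + ∑_{j≥3} e_j`;
for `e_1`: `e_0 + e_2 + ...`; for `e_2`: `e_0 + e_1 + ...`; for `v`: `e_0 + e_1 + 3 e_2 + ...`.) -/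
def S_EXC : Prop :=
  ∀ d : ℕ, 3 ≤ d → ∃ C : Cone d (d + 1),
    (∀ i : Fin d, C.v i.castSucc = Pi.single i 1) ∧
    (∀ j : Fin d, C.v (Fin.last d) j =
      if (j : ℕ) = 0 then 2 else if (j : ℕ) = 1 then 1 else if (j : ℕ) = 2 then -1 else 0) ∧
    ∀ (r : ℕ) (m : Fin d → ℤ), 1 ≤ r → ∃ i, C.v i ⬝ᵥ m ≠ r

/-- **LOW.** The lower bound for the extremal cone.
Proof. `u = (q-1)(e_1 + e_2) + ⌊(q-1)/2⌋ e_0 + ∑_{i ≥ 3} (q-1) e_i`; here `e_1 + e_2`, `e_0`, `e_i`
(`i ≥ 3`) are nonzero elements of `S`, so `x^u ∈ maxIdeal ^ ((d-2)(q-1) + ⌊(q-1)/2⌋)`, and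
`⟨v i, u⟩ ≤ q - 1` for every ray. -/
def S_LOW : Prop :=
  ∀ (d : ℕ), 3 ≤ d → ∀ C : Cone d (d + 1),
    (∀ i : Fin d, C.v i.castSucc = Pi.single i 1) →
    (∀ j : Fin d, C.v (Fin.last d) j =
      if (j : ℕ) = 0 then 2 else if (j : ℕ) = 1 then 1 else if (j : ℕ) = 2 then -1 else 0) →
    ∀ (K : Type) [Field K] (q : ℕ), 1 ≤ q →
    ∃ u : C.S, (∀ i, C.v i ⬝ᵥ (u : Fin d → ℤ) ≤ (q : ℤ) - 1) ∧
      AddMonoidAlgebra.single u (1 : K) ∈
        (C.maxIdeal K) ^ ((d - 2) * (q - 1) + (q - 1) / 2)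

/-- **NOE.** The coordinate ring is Noetherian (Gordan's lemma).
Proof. `S` is the set of `u` with all `⟨v i, u⟩ ≥ 0`; the map `u ↦ (⟨v i, u⟩)_i` embeds `S` into
`ℕ^n` (`spans`), with image the intersection of `ℕ^n` with a subgroup of `ℤ^n`. So `S` is a
finitely generated monoid: in Mathlib `AddSubmonoid.fg_of_divisive`-type lemmas
(`Mathlib/GroupTheory/Finiteness.lean`, near `Submonoid.fg_eqLocusM`, Gordan's lemma), then
`AddMonoidAlgebra.finiteType_of_fg` / Hilbert's basis theorem. -/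
def S_NOE : Prop :=
  ∀ (K : Type) [Field K] (d n : ℕ) (C : Cone d n), IsNoetherianRing (C.Ring K)

/-- **NRM.** The coordinate ring is an integrally closed domain.
Proof. `K[S] ⊆ K[ℤ^d]` (Laurent polynomials: a domain; integrally closed, e.g. a localization of a
polynomial ring, a UFD). `K[S] = ⋂_i K[H_i]`, `H_i = {u | ⟨v i, u⟩ ≥ 0}`. So let `z` in the
fraction field be integral over `K[S]`; it is integral over `K[ℤ^d]` so it lies in it. Suppose some
exponent `u` of `z` has `⟨v i, u⟩ < 0`. Grade `K[ℤ^d]` by `⟨v i, ·⟩`: the lowest degree part `z₀` of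
`z` (degree `-m < 0`) is nonzero, and in `z^k + a_1 z^{k-1} + ... + a_k = 0` with `a_j ∈ K[S]`
(degrees `≥ 0`) the component of degree `-k m` is `z₀^k ≠ 0`. Contradiction. -/
def S_NRM : Prop :=
  ∀ (K : Type) [Field K] (d n : ℕ) (C : Cone d n),
    IsDomain (C.Ring K) ∧ IsIntegrallyClosed (C.Ring K)

/-- **DIM.** The local ring has Krull dimension `d`.
Proof idea. Upper bound: `K[S] ⊆ K[ℤ^d]`; one way: a local ring whose maximal ideal `𝔪` satisfies
`𝔪 ^ N ⊆ (y_1, ..., y_d)` has dimension `≤ d` (`ringKrullDim_le_ringKrullDim_add_card` or Krull's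
height theorem `Ideal.height_le_spanFinrank`); lower bound: a chain of primes of length `d`, e.g.
the kernels of `K[S] → K[S ∩ F]` for a flag of faces `F`, or by localizing: `K[ℤ^d]` is a
localization of `K[S]`... any proof is welcome. For the hand-in it is enough to do the case of the
extremal cone of `S_EXC` (hypotheses included here). There `𝔪` contains the images of
`x^{e_0}, x^{e_1+e_2}, x^{e_0 + 2 e_2} + x^{e_1}` and `x^{e_i}`, `i ≥ 3`, and these `d` elements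
generate an ideal containing a power of `𝔪` (generators of `S`: `e_0, e_0+e_2, e_0+2e_2, e_1,
e_1+e_2, e_i`); the chain: kernels of the maps setting to zero all monomials outside the faces
`{0} ⊂ ℕe_3 ⊂ ...` (faces of `S` cut out by some `⟨v i, ·⟩ = 0`). -/
def S_DIM : Prop :=
  ∀ (d : ℕ), 3 ≤ d → ∀ C : Cone d (d + 1),
    (∀ i : Fin d, C.v i.castSucc = Pi.single i 1) →
    (∀ j : Fin d, C.v (Fin.last d) j =
      if (j : ℕ) = 0 then 2 else if (j : ℕ) = 1 then 1 else if (j : ℕ) = 2 then -1 else 0) →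
    ∀ (K : Type) [Field K], ringKrullDim (C.LocalRing K) = d

/-- **FFI.** F-finiteness: if the Frobenius of `K` is finite then so is that of the local ring.
Proof. `S` is finitely generated (see NOE), say by `s_1..s_m`; `K[S]` is generated as a module over
its subring of `p`-th powers by the `c_j x^{∑ a_i s_i}`, `0 ≤ a_i < p`, `c_j` generators of `K`
over `K^p`; then localize: `r/s = r s^{p-1} / s^p`. -/
def S_FFI : Prop :=
  ∀ (p : ℕ) [Fact p.Prime] (K : Type) [Field K] [CharP K p] (d n : ℕ) (C : Cone d n)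
    [CharP (C.LocalRing K) p], (frobenius K p).Finite → (frobenius (C.LocalRing K) p).Finite

end Pool.Agent.H867.FT
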